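import Pool.Agent.Work.MP_31af1e_lc.BA

/-!
Module AP1: an adjacent pair of vertices of `W` that is opposite on all columns.
-/

set_option autoImplicit false

namespace GP

variable {V : Type} {G : SimpleGraph V}

structure APs (G : SimpleGraph V) (W : Set V) (n : ℕ) (x y : Fin n → V) (w0 w1 : V) : Prop where
  cls : Cls G
  tp : ThreeP2 G W
  cols : Cols G W n x y
  n12 : 12 ≤ n
  w0W : w0 ∈ W
  w1W : w1 ∈ W
  adj : G.Adj w0 w1
  h0 : ∀ i, G.Adj w0 (x i) ∧ ¬ G.Adj w0 (y i)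
  h1 : ∀ i, G.Adj w1 (y i) ∧ ¬ G.Adj w1 (x i)

/-- Complete to all columns. -/
def LLp (G : SimpleGraph V) (W : Set V) {n : ℕ} (x y : Fin n → V) (w : V) : Prop :=
  w ∈ W ∧ ∀ i, G.Adj w (x i) ∧ G.Adj w (y i)

/-- At most two columns `i` with `w ~ y i`. (`DP` for `y`, `DM` for `x` in the blueprint.) -/
def FW (G : SimpleGraph V) (W : Set V) {n : ℕ} (y : Fin n → V) (w : V) : Prop :=
  w ∈ W ∧ ∀ i j l, i ≠ j → i ≠ l → j ≠ l → ¬ (G.Adj w (y i) ∧ G.Adj w (y j) ∧ G.Adj w (y l))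

section AP
variable {W : Set V} {n : ℕ} {x y : Fin n → V} {w0 w1 : V}

theorem Cols.symm (h : Cols G W n x y) : Cols G W n y x :=
  ⟨h.yW, h.xW, fun i => (h.xy i).symm, h.ny, h.nx, h.yy, fun i j hij he => h.xyne j i hij.symm he.symm,
    h.xx⟩

theorem APs.symm (h : APs G W n x y w0 w1) : APs G W n y x w1 w0 :=
  ⟨h.cls, h.tp, h.cols.symm, h.n12, h.w1W, h.w0W, h.adj.symm, h.h1, h.h0⟩

/-! Columns are pairwise anticomplete. -/

theorem Cols.nxx (h : Cols G W n x y) {i j : Fin n} (hij : i ≠ j) : ¬ G.Adj (x i) (x j) :=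
  fun h1 => h.xyne i j hij (h.nx j (x i) (h.xW i) h1)

theorem Cols.nxy (h : Cols G W n x y) {i j : Fin n} (hij : i ≠ j) : ¬ G.Adj (x i) (y j) :=
  fun h1 => h.xx i j hij (h.ny j (x i) (h.xW i) h1)

theorem Cols.nyy (h : Cols G W n x y) {i j : Fin n} (hij : i ≠ j) : ¬ G.Adj (y i) (y j) :=
  fun h1 => h.symm.xyne i j hij (h.ny j (y i) (h.yW i) h1)

theorem Cols.nyx (h : Cols G W n x y) {i j : Fin n} (hij : i ≠ j) : ¬ G.Adj (y i) (x j) :=
  fun h1 => h.nxy hij.symm h1.symm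

/-- A property with at most two witnesses fails outside every small set. -/
theorem exists_free (hn : 12 ≤ n) (P : Fin n → Prop)
    (hP : ∀ i j l, i ≠ j → i ≠ l → j ≠ l → ¬ (P i ∧ P j ∧ P l)) (S : Finset (Fin n))
    (hS : S.card ≤ 9) : ∃ i, i ∉ S ∧ ¬ P i := by
  classical
  by_contra hcon
  push Not at hcon
  have hc : 2 < (Finset.univ \ S).card := by
    have h1 := Finset.card_sdiff_add_card_eq_card (Finset.subset_univ S)
    rw [Finset.card_univ, Fintype.card_fin] at h1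
    omega
  obtain ⟨a, b, c, ha, hb, hcc, hab, hac, hbc⟩ := Finset.two_lt_card_iff.1 hc
  simp only [Finset.mem_sdiff, Finset.mem_univ, true_and] at ha hb hcc
  exact hP a b c hab hac hbc ⟨hcon a ha, hcon b hb, hcon c hcc⟩

/-- Two properties with at most two witnesses. -/
theorem exists_free2 (hn : 12 ≤ n) (P Q : Fin n → Prop)
    (hP : ∀ i j l, i ≠ j → i ≠ l → j ≠ l → ¬ (P i ∧ P j ∧ P l))
    (hQ : ∀ i j l, i ≠ j → i ≠ l → j ≠ l → ¬ (Q i ∧ Q j ∧ Q l)) (S : Finset (Fin n))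
    (hS : S.card ≤ 6) : ∃ i, i ∉ S ∧ ¬ P i ∧ ¬ Q i := by
  classical
  obtain ⟨a, ha, hPa⟩ := exists_free hn P hP S (by omega)
  obtain ⟨b, hb, hPb⟩ := exists_free hn P hP (insert a S)
    ((Finset.card_insert_le _ _).trans (by omega))
  obtain ⟨c, hc, hPc⟩ := exists_free hn P hP (insert b (insert a S))
    ((Finset.card_insert_le _ _).trans (by have := Finset.card_insert_le a S; omega))
  simp only [Finset.mem_insert, not_or] at hb hc
  by_cases hQa : Q a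
  · by_cases hQb : Q b
    · refine ⟨c, hc.2.2, hPc, fun hQc => hQ a b c (Ne.symm hb.1) (Ne.symm hc.2.1) (Ne.symm hc.1)
        ⟨hQa, hQb, hQc⟩⟩
    · exact ⟨b, hb.2, hPb, hQb⟩
  · exact ⟨a, ha, hPa, hQa⟩

/-- Vertices of `W` hit every column. -/
theorem APs.hitc (h : APs G W n x y w0 w1) {w : V} (hw : w ∈ W) (i : Fin n) :
    G.Adj w (x i) ∨ G.Adj w (y i) :=
  h.tp.hit w hw _ (h.cols.xW i) _ (h.cols.yW i) (h.cols.xy i)

/-- The same as `ThreeP2.d3` of module DD. -/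
private theorem d3p (hc : Cls G) {W : Set V} (h : ThreeP2 G W) {w w' a c d : V} (hw : w ∈ W)
    (ha : a ∉ W) (hcW : c ∉ W) (hww : G.Adj w w') (hac : G.Adj a c)
    (h1 : ¬ G.Adj w a) (h2 : G.Adj w' a) (h3 : G.Adj w' c) (h4 : G.Adj w d) (h5 : G.Adj w' d)
    (hda : ¬ G.Adj d a) (hdc : ¬ G.Adj d c) : False :=
  hc.gem w' a c w d h2 h3 hww.symm h5 hac
    ((h.hit w hw a ha c hcW hac).resolve_left h1).symm h4 (fun h6 => h1 h6.symm)
    (fun h6 => hda h6.symm) (fun h6 => hdc h6.symm)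

/-- `w` misses `x i`, `w'` is complete to column `i`: no common neighbour in column `j`. -/
theorem APs.d3x (h : APs G W n x y w0 w1) {w w' : V} (hw : w ∈ W) (hadj : G.Adj w w')
    {i j : Fin n} (hij : i ≠ j) (h1 : ¬ G.Adj w (x i)) (h2 : G.Adj w' (x i))
    (h3 : G.Adj w' (y i)) : ¬ (G.Adj w (x j) ∧ G.Adj w' (x j)) ∧
      ¬ (G.Adj w (y j) ∧ G.Adj w' (y j)) :=
  ⟨fun h4 => d3p h.cls h.tp hw (h.cols.xW i) (h.cols.yW i) hadj (h.cols.xy i) h1 h2 h3 h4.1 h4.2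
      (h.cols.nxx hij.symm) (h.cols.nxy hij.symm),
    fun h4 => d3p h.cls h.tp hw (h.cols.xW i) (h.cols.yW i) hadj (h.cols.xy i) h1 h2 h3 h4.1 h4.2
      (h.cols.nyx hij.symm) (h.cols.nyy hij.symm)⟩

theorem APs.d3y (h : APs G W n x y w0 w1) {w w' : V} (hw : w ∈ W) (hadj : G.Adj w w')
    {i j : Fin n} (hij : i ≠ j) (h1 : ¬ G.Adj w (y i)) (h2 : G.Adj w' (x i))
    (h3 : G.Adj w' (y i)) : ¬ (G.Adj w (x j) ∧ G.Adj w' (x j)) ∧
      ¬ (G.Adj w (y j) ∧ G.Adj w' (y j)) :=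
  ⟨(h.symm.d3x hw hadj hij h1 h3 h2).2, (h.symm.d3x hw hadj hij h1 h3 h2).1⟩

/-- The first forbidden pattern of a vertex that misses `w1`. -/
theorem APs.nf (h : APs G W n x y w0 w1) {w : V} (hw1 : ¬ G.Adj w w1) {i j l : Fin n}
    (hij : i ≠ j) (hil : i ≠ l) (hjl : j ≠ l) (h1 : G.Adj w (x i)) (h2 : G.Adj w (x j))
    (h3 : ¬ G.Adj w (y l)) : False :=
  h.cls.pp w1 (y l) (x i) w (x j) (h.h1 l).1 h1.symm h2 (h.cols.xx i j hij) (h.cols.nxx hij)
    (h.h1 i).2 (fun h4 => hw1 h4.symm) (h.h1 j).2 (h.cols.nyx hil.symm) (fun h4 => h3 h4.symm)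
    (h.cols.nyx hjl.symm)

/-- The gem on `w0`, `w1` and two columns. -/
theorem APs.gemA (h : APs G W n x y w0 w1) {w : V} (hw0 : G.Adj w w0) (hw1 : G.Adj w w1)
    {i j : Fin n} (hij : i ≠ j) (h1 : G.Adj w (x i)) (h2 : G.Adj w (y j)) : False :=
  h.cls.gem w (x i) w0 w1 (y j) h1 hw0 hw1 h2 (h.h0 i).1.symm h.adj (h.h1 j).1
    (fun h3 => (h.h1 i).2 h3.symm) (h.cols.nxy hij) (h.h0 j).2

/-- Any column has another one. -/
theorem APs.other (h : APs G W n x y w0 w1) (i : Fin n) : ∃ j, i ≠ j := by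
  obtain ⟨j, hj, _⟩ := exists_free h.n12 (fun _ => False) (fun _ _ _ _ _ _ h => h.1) {i} (by simp)
  exact ⟨j, fun he => hj (by simp [he])⟩

/-- A vertex adjacent to `w0` and `w1` is complete to no column. -/
theorem APs.nocA (h : APs G W n x y w0 w1) {w : V} (hw : w ∈ W) (hw0 : G.Adj w w0)
    (hw1 : G.Adj w w1) {i : Fin n} (h1 : G.Adj w (x i)) (h2 : G.Adj w (y i)) : False := by
  obtain ⟨j, hij⟩ := h.other i
  rcases h.hitc hw j with hx | hy
  · exact (h.d3y h.w0W hw0.symm hij (h.h0 i).2 h1 h2).1 ⟨(h.h0 j).1, hx⟩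
  · exact (h.d3x h.w1W hw1.symm hij (h.h1 i).2 h1 h2).2 ⟨(h.h1 j).1, hy⟩

theorem APs.triB (h : APs G W n x y w0 w1) {w : V} (hw : w ∈ W) (hw1 : ¬ G.Adj w w1) : LLp G W x y w ∨ FW G W x w := by
  by_cases hF : FW G W x w
  · exact Or.inr hF
  · left
    have hF' : ∃ i j l, i ≠ j ∧ i ≠ l ∧ j ≠ l ∧ G.Adj w (x i) ∧ G.Adj w (x j) ∧ G.Adj w (x l) := by
      by_contra hcon
      push Not at hcon
      exact hF ⟨hw, fun i j l hij hil hjl hh => hcon i j l hij hil hjl hh.1 hh.2.1 hh.2.2⟩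
    obtain ⟨i, j, l, hij, hil, hjl, hi, hj, hl⟩ := hF'
    have hy : ∀ m, G.Adj w (y m) := by
      intro m
      by_contra hm
      by_cases him : i = m
      · subst him
        exact h.nf hw1 hjl hij.symm hil.symm hj hl hm
      · by_cases hjm : j = m
        · subst hjm
          exact h.nf hw1 hil hij hjl.symm hi hl hm
        · exact h.nf hw1 hij him hjm hi hj hm
    by_cases hw0 : G.Adj w w0
    · exact absurd ⟨(h.h0 j).1, hj⟩ (h.d3y h.w0W hw0.symm hij (h.h0 i).2 hi (hy i)).1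
    · refine ⟨hw, fun m => ⟨?_, hy m⟩⟩
      by_contra hm
      obtain ⟨a, ha, _⟩ := exists_free h.n12 (fun _ => False) (fun _ _ _ _ _ _ h => h.1) {m}
        (by simp)
      obtain ⟨b, hb, _⟩ := exists_free h.n12 (fun _ => False) (fun _ _ _ _ _ _ h => h.1) {a, m}
        ((Finset.card_insert_le _ _).trans (by simp))
      simp only [Finset.mem_insert, Finset.mem_singleton, not_or] at ha hb
      exact h.symm.nf hw0 (Ne.symm hb.1) ha hb.2 (hy a) (hy b) hm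

theorem APs.tri (h : APs G W n x y w0 w1) {w : V} (hw : w ∈ W) :
    LLp G W x y w ∨ FW G W y w ∨ FW G W x w := by
  by_cases e0 : w = w0
  · subst e0
    exact Or.inr (Or.inl ⟨hw, fun i j l _ _ _ hh => (h.h0 i).2 hh.1⟩)
  by_cases e1 : w = w1
  · subst e1
    exact Or.inr (Or.inr ⟨hw, fun i j l _ _ _ hh => (h.h1 i).2 hh.1⟩)
  by_cases hw1 : G.Adj w w1
  · by_cases hw0 : G.Adj w w0
    · have i0 : Fin n := ⟨0, by have := h.n12; omega⟩
      rcases h.hitc hw i0 with hx | hy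
      · right; left
        refine ⟨hw, fun i j l _ _ _ hh => ?_⟩
        by_cases hi : i0 = i
        · subst hi; exact h.nocA hw hw0 hw1 hx hh.1
        · exact h.gemA hw0 hw1 hi hx hh.1
      · right; right
        refine ⟨hw, fun i j l _ _ _ hh => ?_⟩
        by_cases hi : i = i0
        · subst hi; exact h.nocA hw hw0 hw1 hh.1 hy
        · exact h.gemA hw0 hw1 hi hh.1 hy
    · rcases h.symm.triB hw hw0 with hL | hF
      · exact Or.inl ⟨hL.1, fun i => ⟨(hL.2 i).2, (hL.2 i).1⟩⟩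
      · exact Or.inr (Or.inl hF)
  · rcases h.triB hw hw1 with hL | hF
    · exact Or.inl hL
    · exact Or.inr (Or.inr hF)

theorem APs.l0 (h : APs G W n x y w0 w1) {l : V} (hl : LLp G W x y l) :
    ¬ G.Adj l w0 ∧ ¬ G.Adj l w1 := by
  have i0 : Fin n := ⟨0, by have := h.n12; omega⟩
  obtain ⟨j, hij⟩ := h.other i0
  refine ⟨fun h1 => ?_, fun h1 => ?_⟩
  · exact (h.d3y h.w0W h1.symm hij (h.h0 i0).2 (hl.2 i0).1 (hl.2 i0).2).1
      ⟨(h.h0 j).1, (hl.2 j).1⟩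
  · exact (h.d3x h.w1W h1.symm hij (h.h1 i0).2 (hl.2 i0).1 (hl.2 i0).2).2
      ⟨(h.h1 j).1, (hl.2 j).2⟩

/-- Three columns where a vertex of type `FW y` misses `y` (and avoiding a column). -/
theorem APs.three (h : APs G W n x y w0 w1) {z : V} (hz : FW G W y z) (m : Fin n) :
    ∃ i j l, i ≠ j ∧ i ≠ l ∧ j ≠ l ∧ i ≠ m ∧ j ≠ m ∧ l ≠ m ∧ ¬ G.Adj z (y i) ∧ ¬ G.Adj z (y j) ∧
      ¬ G.Adj z (y l) ∧ G.Adj z (x i) ∧ G.Adj z (x j) ∧ G.Adj z (x l) := by
  classical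
  have key := fun S hS => exists_free h.n12 (fun i => G.Adj z (y i)) hz.2 S hS
  obtain ⟨i, hi, hi'⟩ := key {m} (by simp)
  obtain ⟨j, hj, hj'⟩ := key {i, m} ((Finset.card_insert_le _ _).trans (by simp))
  obtain ⟨l, hl, hl'⟩ := key {j, i, m} (Finset.card_le_three.trans (by norm_num))
  simp only [Finset.mem_insert, Finset.mem_singleton, not_or] at hi hj hl
  exact ⟨i, j, l, Ne.symm hj.1, Ne.symm hl.2.1, Ne.symm hl.1, hi, hj.2, hl.2.2, hi', hj', hl',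
    (h.hitc hz.1 i).resolve_right hi', (h.hitc hz.1 j).resolve_right hj',
    (h.hitc hz.1 l).resolve_right hl'⟩

theorem APs.dp1 (h : APs G W n x y w0 w1) {z : V} (hz : FW G W y z) : G.Adj z w1 := by
  by_contra hcon
  obtain ⟨i, j, l, hij, hil, hjl, _, _, _, _, _, hl, hi', hj', _⟩ :=
    h.three hz ⟨0, by have := h.n12; omega⟩
  exact h.nf hcon hij hil hjl hi' hj' hl

theorem APs.dp0 (h : APs G W n x y w0 w1) {z : V} (hz : FW G W y z) (hz0 : G.Adj z w0)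
    (i : Fin n) : ¬ G.Adj z (y i) := by
  intro hzy
  obtain ⟨j, _, _, _, _, _, hji, _, _, hj, _, _, hjx, _, _⟩ := h.three hz i
  exact h.gemA hz0 (h.dp1 hz) hji hjx hzy

theorem APs.compl (h : APs G W n x y w0 w1) {z w : V} (hz : FW G W y z) (hw : FW G W x w) :
    G.Adj z w := by
  classical
  by_contra hcon
  have key := fun S hS => exists_free2 h.n12 (fun i => G.Adj z (y i)) (fun i => G.Adj w (x i))
    hz.2 hw.2 S hS
  obtain ⟨i, hi, hi', hi''⟩ := key ∅ (by simp)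
  obtain ⟨j, hj, hj', hj''⟩ := key {i} (by simp)
  obtain ⟨l, hl, hl', hl''⟩ := key {j, i} ((Finset.card_insert_le _ _).trans (by simp))
  simp only [Finset.mem_insert, Finset.mem_singleton, not_or] at hj hl
  have hzi := (h.hitc hz.1 i).resolve_right hi'
  have hzj := (h.hitc hz.1 j).resolve_right hj'
  have hwl := (h.hitc hw.1 l).resolve_left hl''
  exact h.cls.pp w (y l) (x i) z (x j) hwl hzi.symm hzj (h.cols.xx i j (Ne.symm hj))
    (h.cols.nxx (Ne.symm hj)) hi'' (fun h4 => hcon h4.symm) hj'' (h.cols.nyx hl.2)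
    (fun h4 => hl' h4.symm) (h.cols.nyx hl.1)

theorem APs.l_dp (h : APs G W n x y w0 w1) {l z : V} (hl : LLp G W x y l) (hz : FW G W y z) :
    ¬ G.Adj l z := by
  intro hadj
  obtain ⟨i, j, _, hij, _, _, _, _, _, hi, _, _, _, hjx, _⟩ :=
    h.three hz ⟨0, by have := h.n12; omega⟩
  exact (h.d3y hz.1 hadj.symm hij hi (hl.2 i).1 (hl.2 i).2).1 ⟨hjx, (hl.2 j).1⟩

/-- A column different from `i` where both vertices miss `y`. -/
theorem APs.comm (h : APs G W n x y w0 w1) {z z' : V} (hz : FW G W y z) (hz' : FW G W y z')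
    (i : Fin n) : ∃ j, i ≠ j ∧ G.Adj z (x j) ∧ G.Adj z' (x j) := by
  obtain ⟨j, hj, hj', hj''⟩ := exists_free2 h.n12 (fun i => G.Adj z (y i))
    (fun i => G.Adj z' (y i)) hz.2 hz'.2 {i} (by simp)
  exact ⟨j, fun he => hj (by simp [he]), (h.hitc hz.1 j).resolve_right hj',
    (h.hitc hz'.1 j).resolve_right hj''⟩

/-- Half of `APs.same`. -/
theorem APs.same_aux (h : APs G W n x y w0 w1) {z z' : V} (hz : FW G W y z) (hz' : FW G W y z')
    (hadj : G.Adj z z') (i : Fin n) :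
    (G.Adj z (x i) → G.Adj z' (x i)) ∧ (G.Adj z (y i) → G.Adj z' (y i)) := by
  obtain ⟨j, hij, hj, hj'⟩ := h.comm hz hz' i
  refine ⟨fun h1 => ?_, fun h1 => ?_⟩
  · by_contra hcon
    have hy' := (h.hitc hz'.1 i).resolve_left hcon
    by_cases hy : G.Adj z (y i)
    · exact (h.d3x hz'.1 hadj.symm hij hcon h1 hy).1 ⟨hj', hj⟩
    · exact h.cls.gem z' (y i) w1 z (x j) hy' (h.dp1 hz') hadj.symm hj' (h.h1 i).1.symm
        (h.dp1 hz).symm hj (fun h2 => hy h2.symm) (h.cols.nyx hij) (h.h1 j).2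
  · by_contra hcon
    have hx' := (h.hitc hz'.1 i).resolve_right hcon
    by_cases hx : G.Adj z (x i)
    · exact (h.d3y hz'.1 hadj.symm hij hcon hx h1).1 ⟨hj', hj⟩
    · exact h.cls.gem z (y i) w1 z' (x j) h1 (h.dp1 hz) hadj hj (h.h1 i).1.symm
        (h.dp1 hz').symm hj' (fun h2 => hcon h2.symm) (h.cols.nyx hij) (h.h1 j).2

theorem APs.same (h : APs G W n x y w0 w1) {z z' : V} (hz : FW G W y z) (hz' : FW G W y z')
    (hadj : G.Adj z z') (i : Fin n) :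
    (G.Adj z (x i) ↔ G.Adj z' (x i)) ∧ (G.Adj z (y i) ↔ G.Adj z' (y i)) :=
  ⟨⟨(h.same_aux hz hz' hadj i).1, (h.same_aux hz' hz hadj.symm i).1⟩,
    ⟨(h.same_aux hz hz' hadj i).2, (h.same_aux hz' hz hadj.symm i).2⟩⟩

/-- Half of `APs.hdisj`. -/
theorem APs.hdisj_aux (h : APs G W n x y w0 w1) {z z' : V} (hz : FW G W y z) (hz' : FW G W y z')
    {i : Fin n} (h1 : G.Adj z (y i)) (h2 : G.Adj z' (y i)) (j : Fin n) (h3 : G.Adj z (y j)) :
    G.Adj z' (y j) := by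
  by_contra hcon
  by_cases hadj : G.Adj z z'
  · exact hcon ((h.same hz hz' hadj j).2.1 h3)
  · have hij : j ≠ i := fun he => hcon (he ▸ h2)
    exact h.cls.gem w1 (y j) z (y i) z' (h.h1 j).1 (h.dp1 hz).symm (h.h1 i).1 (h.dp1 hz').symm
      h3.symm h1 h2.symm (h.cols.nyy hij) (fun h4 => hcon h4.symm) hadj

theorem APs.hdisj (h : APs G W n x y w0 w1) {z z' : V} (hz : FW G W y z) (hz' : FW G W y z')
    {i : Fin n} (h1 : G.Adj z (y i)) (h2 : G.Adj z' (y i)) (j : Fin n) :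
    G.Adj z (y j) ↔ G.Adj z' (y j) :=
  ⟨h.hdisj_aux hz hz' h1 h2 j, h.hdisj_aux hz' hz h2 h1 j⟩

theorem APs.h2 (h : APs G W n x y w0 w1) {z w : V} (hz : FW G W y z) (hw : FW G W x w)
    {i j : Fin n} (h1 : G.Adj z (y i)) (h2 : ¬ G.Adj w (x i)) (h3 : G.Adj w (x j))
    (h4 : ¬ G.Adj z (y j)) : False := by
  have hij : i ≠ j := fun he => h4 (he ▸ h1)
  have hz0 : ¬ G.Adj z w0 := fun h5 => h.dp0 hz h5 i h1
  exact h.cls.gem w (y i) z (x j) w0 ((h.hitc hw.1 i).resolve_left h2) (h.compl hz hw).symm h3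
    (h.symm.dp1 hw) h1.symm ((h.hitc hz.1 j).resolve_right h4) (h.h0 j).1.symm
    (h.cols.nyx hij) (fun h5 => (h.h0 i).2 h5.symm) hz0

end AP

end GP
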