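import Pool.Agent.Work.MP_31af1e_lc.BA
import Pool.Agent.Work.MP_31af1e_lc.AP1

/-!
Module AP2: every column is exceptional, and all on the same side.
-/

set_option autoImplicit false

namespace GP

variable {V : Type} {G : SimpleGraph V}

section AP
variable {W : Set V} {n : ℕ} {x y : Fin n → V} {w0 w1 : V}

/-- Three different elements of a set of at most two columns: contradiction. -/
theorem FW.card_le {w : V} (hw : FW G W y w) [DecidablePred fun i => G.Adj w (y i)] :
    (Finset.univ.filter fun i => G.Adj w (y i)).card ≤ 2 := by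
  by_contra hcon
  push Not at hcon
  obtain ⟨a, b, c, ha, hb, hc, hab, hac, hbc⟩ := Finset.two_lt_card_iff.1 hcon
  rw [Finset.mem_filter] at ha hb hc
  exact hw.2 a b c hab hac hbc ⟨ha.2, hb.2, hc.2⟩

/-- The colour argument: a neighbour of `x i` in `W` that misses three other `x j`. -/
theorem APs.copy_aux (h : APs G W n x y w0 w1) (i : Fin n)
    (hz : ∀ z, FW G W y z → ¬ G.Adj z (y i)) (hw : ∀ w, FW G W x w → ¬ G.Adj w (x i))
    {v : V} (hvW : v ∈ W) (hv : G.Adj v (x i)) {j1 j2 j3 : Fin n} (h12 : j1 ≠ j2) (h13 : j1 ≠ j3)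
    (h23 : j2 ≠ j3) (h1 : ¬ G.Adj v (x j1)) (h2 : ¬ G.Adj v (x j2)) (h3 : ¬ G.Adj v (x j3)) :
    False := by
  rcases h.tri hvW with ht | ht | ht
  · exact h1 (ht.2 j1).1
  · have hh : ∀ j, ¬ G.Adj v (x j) → G.Adj v (y j) := fun j hj =>
      (h.tp.hit v hvW (x j) (h.cols.xW j) (y j) (h.cols.yW j) (h.cols.xy j)).resolve_left hj
    exact ht.2 j1 j2 j3 h12 h13 h23 ⟨hh _ h1, hh _ h2, hh _ h3⟩
  · exact hw v ht hv

theorem APs.copy [Finite V] (h : APs G W n x y w0 w1) {k : ℕ} (hn : 2 * k * k + 2 ≤ n)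
    (hcr : Crit G k) (i : Fin n) :
    (∃ z, FW G W y z ∧ G.Adj z (y i)) ∨ (∃ w, FW G W x w ∧ G.Adj w (x i)) := by
  classical
  by_contra hcon
  push Not at hcon
  obtain ⟨hz, hw⟩ := hcon
  obtain ⟨c, hc1, hc2⟩ := hcr.2 {u | u ≠ x i ∧ u ≠ y i} (by
    intro heq
    have : x i ∈ ({u | u ≠ x i ∧ u ≠ y i} : Set V) := by rw [heq]; trivial
    exact this.1 rfl)
  have hxi : ∀ j, j ≠ i → x j ∈ ({u | u ≠ x i ∧ u ≠ y i} : Set V) := fun j hj =>
    ⟨h.cols.xx j i hj, h.cols.xyne j i hj⟩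
  have hyi : ∀ j, j ≠ i → y j ∈ ({u | u ≠ x i ∧ u ≠ y i} : Set V) := fun j hj =>
    ⟨fun he => h.cols.xyne i j hj.symm he.symm, h.cols.yy j i hj⟩
  -- three columns with the same colours
  obtain ⟨p, hp, hcard⟩ : ∃ p ∈ Finset.range k ×ˢ Finset.range k,
      2 < ((Finset.univ.erase i).filter fun j => (c (x j), c (y j)) = p).card := by
    apply Finset.exists_lt_card_fiber_of_mul_lt_card_of_maps_to
    · intro j hj
      have hj' := Finset.ne_of_mem_erase hj
      rw [Finset.mem_product, Finset.mem_range, Finset.mem_range]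
      exact ⟨hc1 _ (hxi j hj'), hc1 _ (hyi j hj')⟩
    · rw [Finset.card_product, Finset.card_range, Finset.card_erase_of_mem (Finset.mem_univ _),
        Finset.card_univ, Fintype.card_fin]
      have : k * k * 2 = 2 * k * k := by ring
      omega
  obtain ⟨j1, j2, j3, hj1, hj2, hj3, h12, h13, h23⟩ := Finset.two_lt_card_iff.1 hcard
  simp only [Finset.mem_filter, Finset.mem_erase, Finset.mem_univ, and_true] at hj1 hj2 hj3
  obtain ⟨hi1, he1⟩ := hj1
  obtain ⟨hi2, he2⟩ := hj2
  obtain ⟨hi3, he3⟩ := hj3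
  rw [Finset.mem_product, Finset.mem_range, Finset.mem_range] at hp
  obtain ⟨α, β⟩ := p
  simp only [Prod.mk.injEq] at he1 he2 he3
  have hαβ : α ≠ β := by
    rw [← he1.1, ← he1.2]
    exact hc2 _ (hxi j1 hi1) _ (hyi j1 hi1) (h.cols.xy j1)
  have hxyne : x i ≠ y i := (h.cols.xy i).ne
  -- neighbours of `x i`
  have keyx : ∀ v, v ≠ x i → v ≠ y i → G.Adj v (x i) → c v ≠ α := by
    intro v hvx hvy hadj hcv
    have hvW : v ∈ W := by
      by_contra hvW
      exact hvy (h.cols.nx i v hvW hadj)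
    have hmiss : ∀ j, j ≠ i → c (x j) = α → ¬ G.Adj v (x j) := fun j hj he ha =>
      hc2 v ⟨hvx, hvy⟩ _ (hxi j hj) ha (hcv.trans he.symm)
    exact h.copy_aux i hz hw hvW hadj h12 h13 h23 (hmiss _ hi1 he1.1) (hmiss _ hi2 he2.1)
      (hmiss _ hi3 he3.1)
  have keyy : ∀ v, v ≠ x i → v ≠ y i → G.Adj v (y i) → c v ≠ β := by
    intro v hvx hvy hadj hcv
    have hvW : v ∈ W := by
      by_contra hvW
      exact hvx (h.cols.ny i v hvW hadj)
    have hmiss : ∀ j, j ≠ i → c (y j) = β → ¬ G.Adj v (y j) := fun j hj he ha =>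
      hc2 v ⟨hvx, hvy⟩ _ (hyi j hj) ha (hcv.trans he.symm)
    exact h.symm.copy_aux i hw hz hvW hadj h12 h13 h23 (hmiss _ hi1 he1.2) (hmiss _ hi2 he2.2)
      (hmiss _ hi3 he3.2)
  apply hcr.1
  refine ⟨fun v => if v = x i then α else if v = y i then β else c v, ?_, ?_⟩
  · intro v _
    by_cases h1 : v = x i
    · simpa [h1] using hp.1
    · by_cases h2 : v = y i
      · simpa [h2, hxyne.symm] using hp.2
      · simpa [h1, h2] using hc1 v ⟨h1, h2⟩
  · intro u _ v _ huv
    by_cases hux : u = x i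
    · subst hux
      by_cases hvx : v = x i
      · subst hvx; exact absurd huv (G.loopless.irrefl _)
      · by_cases hvy : v = y i
        · subst hvy; simpa [hxyne.symm] using hαβ
        · simpa [hvx, hvy] using (keyx v hvx hvy huv.symm).symm
    · by_cases huy : u = y i
      · subst huy
        by_cases hvx : v = x i
        · subst hvx; simpa [hxyne.symm] using hαβ.symm
        · by_cases hvy : v = y i
          · subst hvy; exact absurd huv (G.loopless.irrefl _)
          · simpa [hvx, hvy, hxyne.symm] using (keyy v hvx hvy huv.symm).symm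
      · by_cases hvx : v = x i
        · subst hvx; simpa [hux, huy] using keyx u hux huy huv
        · by_cases hvy : v = y i
          · subst hvy; simpa [hux, huy, hvx] using keyy u hux huy huv
          · simpa [hux, huy, hvx, hvy] using hc2 u ⟨hux, huy⟩ v ⟨hvx, hvy⟩ huv

/-- If some `w` in `DM` has an exceptional column, at most four columns are exceptional for
`DP`. -/
theorem APs.count_aux (h : APs G W n x y w0 w1) [DecidablePred fun i => ∃ z, FW G W y z ∧ G.Adj z (y i)]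
    {w : V} (hw : FW G W x w) {j : Fin n} (hj : G.Adj w (x j)) :
    (Finset.univ.filter fun i => ∃ z, FW G W y z ∧ G.Adj z (y i)).card ≤ 4 := by
  classical
  have hsub : (Finset.univ.filter fun i => ∃ z, FW G W y z ∧ G.Adj z (y i)) ⊆
      (Finset.univ.filter fun l => G.Adj w (x l)).biUnion fun l =>
        Finset.univ.filter fun i => ∃ z, FW G W y z ∧ G.Adj z (y i) ∧ G.Adj z (y l) := by
    intro i hi
    rw [Finset.mem_filter] at hi
    obtain ⟨-, z, hz, hzi⟩ := hi
    rw [Finset.mem_biUnion]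
    by_cases h1 : G.Adj w (x i)
    · exact ⟨i, by simpa using h1, by simpa using ⟨z, hz, hzi⟩⟩
    · by_cases h2 : G.Adj z (y j)
      · exact ⟨j, by simpa using hj, by simpa using ⟨z, hz, hzi, h2⟩⟩
      · exact (h.h2 hz hw hzi h1 hj h2).elim
  refine (Finset.card_le_card hsub).trans ?_
  refine (Finset.card_biUnion_le_card_mul _ _ 2 ?_).trans ?_
  · intro l _
    by_contra hcon
    push Not at hcon
    obtain ⟨a, b, c, ha, hb, hc, hab, hac, hbc⟩ := Finset.two_lt_card_iff.1 hcon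
    rw [Finset.mem_filter] at ha hb hc
    obtain ⟨-, za, hza, ha1, ha2⟩ := ha
    obtain ⟨-, zb, hzb, hb1, hb2⟩ := hb
    obtain ⟨-, zc, hzc, hc1, hc2⟩ := hc
    exact hza.2 a b c hab hac hbc ⟨ha1, (h.hdisj hza hzb ha2 hb2 b).2 hb1,
      (h.hdisj hza hzc ha2 hc2 c).2 hc1⟩
  · have := hw.card_le
    omega

theorem APs.onesided (h : APs G W n x y w0 w1)
    (hc : ∀ i, (∃ z, FW G W y z ∧ G.Adj z (y i)) ∨ (∃ w, FW G W x w ∧ G.Adj w (x i))) :
    ((∀ w, FW G W x w → ∀ i, ¬ G.Adj w (x i)) ∧ ∀ i, ∃ z, FW G W y z ∧ G.Adj z (y i)) ∨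
    ((∀ z, FW G W y z → ∀ i, ¬ G.Adj z (y i)) ∧ ∀ i, ∃ w, FW G W x w ∧ G.Adj w (x i)) := by
  classical
  by_cases h1 : ∀ w, FW G W x w → ∀ i, ¬ G.Adj w (x i)
  · left
    refine ⟨h1, fun i => ?_⟩
    rcases hc i with h2 | ⟨w, hw, hwi⟩
    · exact h2
    · exact absurd hwi (h1 w hw i)
  by_cases h2 : ∀ z, FW G W y z → ∀ i, ¬ G.Adj z (y i)
  · right
    refine ⟨h2, fun i => ?_⟩
    rcases hc i with ⟨z, hz, hzi⟩ | h3
    · exact absurd hzi (h2 z hz i)
    · exact h3
  exfalso
  push Not at h1 h2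
  obtain ⟨w, hw, j, hwj⟩ := h1
  obtain ⟨z, hz, l, hzl⟩ := h2
  have c1 := h.count_aux hw hwj
  have c2 := h.symm.count_aux hz hzl
  have hun : (Finset.univ : Finset (Fin n)) ⊆
      (Finset.univ.filter fun i => ∃ z, FW G W y z ∧ G.Adj z (y i)) ∪
      (Finset.univ.filter fun i => ∃ z, FW G W x z ∧ G.Adj z (x i)) := by
    intro i _
    rcases hc i with h3 | h3
    · exact Finset.mem_union_left _ (by simpa using h3)
    · exact Finset.mem_union_right _ (by simpa using h3)
  have c3 := (Finset.card_le_card hun).trans (Finset.card_union_le _ _)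
  rw [Finset.card_univ, Fintype.card_fin] at c3
  have := h.n12
  omega

end AP

end GP
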