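import Pool.Agent.Work.MP_31af1e_lc.E1

/-!
Module E2: consequences in critical graphs.
-/

set_option autoImplicit false

namespace GP

variable {V : Type} {G : SimpleGraph V}

theorem e2 [Finite V] (hc : Cls G) {W : Set V} (h : ThreeP2 G W) {k : ℕ} (hk : CL G Set.univ k)
    (hcr : Crit G k) (p p' : V) (hp : p ∉ W) (hp' : p' ∉ W) (hpp : G.Adj p p')
    (h1 : ∀ w ∈ W, G.Adj w p) (h2 : ∀ w ∈ W, G.Adj w p') : False := by
  classical
  have hP := h.p3
  have big : ∀ v, v ∉ W → v ∉ cmp G W p →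
      ∃ x ∈ cmp G W v, ∃ y ∈ cmp G W v, x ≠ v ∧ y ≠ v ∧ x ≠ y := by
    intro v hv hvp
    by_contra hcon
    push Not at hcon
    apply hcr.1
    obtain ⟨c, c1, c2⟩ := hcr.2 (cmp G W v)ᶜ (by
      intro heq
      have : v ∈ (cmp G W v)ᶜ := by rw [heq]; trivial
      exact this (cmp_self hv))
    have hpv : p ∉ cmp G W v := by
      intro hpv
      apply hvp
      rw [cmp_eq hP hv hpv]
      exact cmp_self hv
    have hpv' : p' ∉ cmp G W v := by
      intro hpv'
      apply hvp
      rw [cmp_adj hP hp hp' hpp, cmp_eq hP hv hpv']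
      exact cmp_self hv
    have hWc : ∀ w ∈ W, w ∈ (cmp G W v)ᶜ := fun w hw hw' => hw'.1 hw
    refine ⟨fun u => if u ∈ cmp G W v then (if u = v then c p else c p') else c u, ?_, ?_⟩
    · intro u _
      by_cases hu : u ∈ cmp G W v
      · by_cases huv : u = v
        · simp only [hu, huv, if_true]
          rw [if_pos (cmp_self hv)]
          exact c1 p hpv
        · simp only [hu, huv, if_true, if_false]; exact c1 p' hpv'
      · simp only [hu, if_false]; exact c1 u hu
    · -- properness, one half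
      have half : ∀ u ∈ cmp G W v, ∀ z, z ∉ cmp G W v → G.Adj u z →
          (if u = v then c p else c p') ≠ c z := by
        intro u hu z hz huz
        have hzW : z ∈ W := by
          by_contra hzW
          apply hz
          have e := cmp_eq hP hv hu
          rw [← e]
          exact ⟨hzW, Or.inr huz.symm⟩
        by_cases huv : u = v
        · rw [if_pos huv]
          exact c2 p hpv z hz (h1 z hzW).symm
        · rw [if_neg huv]
          exact c2 p' hpv' z hz (h2 z hzW).symm
      intro u _ z _ huz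
      by_cases hu : u ∈ cmp G W v <;> by_cases hz : z ∈ cmp G W v
      · simp only [hu, hz, if_true]
        by_cases e1 : u = v <;> by_cases e2 : z = v
        · exact absurd (e1.trans e2.symm) huz.ne
        · simp only [e1, e2, if_true, if_false]
          exact c2 p hpv p' hpv' hpp
        · simp only [e1, e2, if_true, if_false]
          exact c2 p' hpv' p hpv hpp.symm
        · exact absurd (hcon u hu z hz e1 e2) huz.ne
      · simp only [hu, hz, if_true, if_false]
        exact half u hu z hz huz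
      · simp only [hu, hz, if_true, if_false]
        exact (half z hz u hu huz.symm).symm
      · simp only [hu, hz, if_false]
        exact c2 u hu z hz huz
  obtain ⟨x, y, hxy, han⟩ := h.ex
  have hxne : ∀ i j, i ≠ j → x i ≠ x j := by
    intro i j hij he
    exact (han i j hij).2.1 (he ▸ (hxy j).2.2)
  have atmost : ∀ i j, i ≠ j → x i ∈ cmp G W p → x j ∈ cmp G W p → False := by
    intro i j hij hi hj
    exact (han i j hij).1 (cmp_clique hP hp hi hj (hxne i j hij))
  -- two indices outside the component of p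
  have htwo : ∃ i j, i ≠ j ∧ x i ∉ cmp G W p ∧ x j ∉ cmp G W p := by
    by_cases e0 : x 0 ∈ cmp G W p
    · exact ⟨1, 2, by decide, fun e => atmost 0 1 (by decide) e0 e,
        fun e => atmost 0 2 (by decide) e0 e⟩
    · by_cases e1 : x 1 ∈ cmp G W p
      · exact ⟨0, 2, by decide, e0, fun e => atmost 1 2 (by decide) e1 e⟩
      · exact ⟨0, 1, by decide, e0, e1⟩
  obtain ⟨i, j, hij, hi, hj⟩ := htwo
  obtain ⟨a, ha, b, hb, hav, hbv, hab⟩ := big (x i) (hxy i).1 hi
  obtain ⟨a', ha', b', hb', hav', hbv', hab'⟩ := big (x j) (hxy j).1 hj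
  have hci := cmp_clique hP (hxy i).1
  have hcj := cmp_clique hP (hxy j).1
  exact hcr.1 (e1 hc h hk (x i) a b (x j) a' b' (hxy i).1 ha.1 hb.1 (hxy j).1 ha'.1 hb'.1
    (hci (cmp_self (hxy i).1) ha (Ne.symm hav)) (hci (cmp_self (hxy i).1) hb (Ne.symm hbv))
    (hci ha hb hab) (hcj (cmp_self (hxy j).1) ha' (Ne.symm hav'))
    (hcj (cmp_self (hxy j).1) hb' (Ne.symm hbv')) (hcj ha' hb' hab')
    (han i j hij).1 (hxne i j hij))

theorem tw [Finite V] (hc : Cls G) {k : ℕ} (hk : CL G Set.univ k) (hcr : Crit G k) {q q' : V}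
    (h : Twin G q q') : G.IsClique (NN G q) := by
  classical
  by_contra hcon
  have h1 : ∃ a ∈ NN G q, ∃ b ∈ NN G q, a ≠ b ∧ ¬ G.Adj a b := by
    by_contra h2
    push Not at h2
    exact hcon fun a ha b hb hne => h2 a ha b hb hne
  obtain ⟨a, ha, b, hb, hne, hab⟩ := h1
  have hfar := hc.pp.far h.1
  have mem : ∀ z ∈ NN G q, z ∈ {u | ¬ G.Adj q u ∧ ¬ G.Adj q' u} := by
    intro z hz
    refine ⟨hz.2, fun hq' => hz.2 ?_⟩
    have hzq' : z ≠ q' := by rintro rfl; exact hz.2 h.1
    exact ((h.2 z hz.1 hzq').2 hq'.symm).symm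
  have hp3 : ∀ x ∈ NN G q, ∀ y ∈ NN G q, ∀ z ∈ NN G q, G.Adj x y → G.Adj y z → x ≠ z →
      G.Adj x z := fun x hx y hy z hz => hfar x (mem x hx) y (mem y hy) z (mem z hz)
  have hd := hcr.nodom
  obtain ⟨a1, haa1, hqa1⟩ := hd a q ha.1
  obtain ⟨b1, hbb1, hqb1⟩ := hd b q hb.1
  have ha1 : a1 ∈ NN G q := ⟨by rintro rfl; exact ha.2 haa1.symm, hqa1⟩
  have hb1 : b1 ∈ NN G q := ⟨by rintro rfl; exact hb.2 hbb1.symm, hqb1⟩
  have hab1 : ¬ G.Adj a b1 := fun h' => hab (hp3 a ha b1 hb1 b hb h' hbb1.symm hne)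
  have ha1b : ¬ G.Adj a1 b := fun h' => hab (hp3 a ha a1 ha1 b hb haa1 h' hne)
  have ha1b1 : ¬ G.Adj a1 b1 := by
    intro h'
    have hne' : a ≠ b1 := by rintro rfl; exact hab hbb1.symm
    exact hab1 (hp3 a ha a1 ha1 b1 hb1 haa1 h' hne')
  have q'n : ∀ z ∈ NN G q, ¬ G.Adj q' z := fun z hz => (mem z hz).2
  set x : Fin 3 → V := ![a, b, q] with hx
  set y : Fin 3 → V := ![a1, b1, q'] with hy
  have hxy : ∀ i, G.Adj (x i) (y i) := by
    intro i
    fin_cases i
    · exact haa1
    · exact hbb1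
    · exact h.1
  have han : ∀ i j, i ≠ j → ¬ G.Adj (x i) (x j) ∧ ¬ G.Adj (x i) (y j) ∧ ¬ G.Adj (y i) (y j) := by
    intro i j hij
    fin_cases i <;> fin_cases j
    · exact absurd rfl hij
    · exact ⟨hab, hab1, ha1b1⟩
    · exact ⟨fun h' => ha.2 h'.symm, fun h' => q'n a ha h'.symm, fun h' => q'n a1 ha1 h'.symm⟩
    · exact ⟨fun h' => hab h'.symm, fun h' => ha1b h'.symm, fun h' => ha1b1 h'.symm⟩
    · exact absurd rfl hij
    · exact ⟨fun h' => hb.2 h'.symm, fun h' => q'n b hb h'.symm, fun h' => q'n b1 hb1 h'.symm⟩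
    · exact ⟨ha.2, ha1.2, q'n a1 ha1⟩
    · exact ⟨hb.2, hb1.2, q'n b1 hb1⟩
    · exact absurd rfl hij
  have htp := three_p2 hc x y hxy han
  refine e2 hc htp hk hcr q q' ?_ ?_ h.1 ?_ ?_
  · intro hq
    rcases hq 0 with h' | h'
    · exact ha.2 h'
    · exact ha1.2 h'
  · intro hq
    rcases hq 0 with h' | h'
    · exact q'n a ha h'
    · exact q'n a1 ha1 h'
  · intro w hw
    have hwne : w ≠ q' := by
      rintro rfl
      rcases hw 0 with h' | h'
      · exact q'n a ha h'
      · exact q'n a1 ha1 h'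
    have hwneq : w ≠ q := by
      rintro rfl
      rcases hw 0 with h' | h'
      · exact ha.2 h'
      · exact ha1.2 h'
    rcases hw 2 with h' | h'
    · exact h'
    · exact (h.2 w hwneq hwne).2 h'
  · intro w hw
    have hwne : w ≠ q' := by
      rintro rfl
      rcases hw 0 with h' | h'
      · exact q'n a ha h'
      · exact q'n a1 ha1 h'
    have hwneq : w ≠ q := by
      rintro rfl
      rcases hw 0 with h' | h'
      · exact ha.2 h'
      · exact ha1.2 h'
    rcases hw 2 with h' | h'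
    · exact (h.2 w hwneq hwne).1 h'
    · exact h'

end GP
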