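import Pool.Agent.Work.MP_31af1e_lc.AP1
import Pool.Agent.Work.MP_31af1e_lc.E2

/-!
Module AP3: structure in the one-sided case.
-/

set_option autoImplicit false

namespace GP

variable {V : Type} {G : SimpleGraph V}
variable {W : Set V} {n : ℕ} {x y : Fin n → V} {w0 w1 : V}

/-- (a) -/
theorem APs.ll_ne (h : APs G W n x y w0 w1) (hd : NoDom G)
    (hM : ∀ w, FW G W x w → ∀ i, ¬ G.Adj w (x i)) : ∃ l, LLp G W x y l := by
  by_contra hcon
  push Not at hcon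
  have i0 : Fin n := ⟨0, by have := h.n12; omega⟩
  have hne : x i0 ≠ w1 := fun he => h.cols.xW i0 (he ▸ h.w1W)
  obtain ⟨z, hz, hz'⟩ := hd (x i0) w1 hne
  by_cases hzW : z ∈ W
  · rcases h.tri hzW with hL | hF | hF
    · exact hcon z hL
    · exact hz' (h.dp1 hF).symm
    · exact hM z hF i0 hz.symm
  · have := h.cols.nx i0 z hzW hz.symm
    subst this
    exact hz' (h.h1 i0).1

/-- (b) -/
theorem APs.dp_stable (h : APs G W n x y w0 w1) (hd : NoDom G)
    (hM : ∀ w, FW G W x w → ∀ i, ¬ G.Adj w (x i))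
    (hcov : ∀ i, ∃ z, FW G W y z ∧ G.Adj z (y i)) {z z' : V} (hz : FW G W y z)
    (hz' : FW G W y z') : ¬ G.Adj z z' := by
  intro hadj
  obtain ⟨l, hl⟩ := h.ll_ne hd hM
  obtain ⟨i, _, _, _, _, _, _, _, _, hi, _⟩ := h.three hz ⟨0, by have := h.n12; omega⟩
  obtain ⟨z'', hz'', hzi⟩ := hcov i
  have hi' : ¬ G.Adj z' (y i) := fun h1 => hi ((h.same hz hz' hadj i).2.2 h1)
  have h1 : ¬ G.Adj z z'' := fun h2 => hi ((h.same hz hz'' h2 i).2.2 hzi)
  have h2 : ¬ G.Adj z' z'' := fun h2 => hi' ((h.same hz' hz'' h2 i).2.2 hzi)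
  have hne : l ≠ z'' := by
    rintro rfl
    obtain ⟨j, _, _, _, _, _, _, _, _, hj, _⟩ := h.three hz'' ⟨0, by have := h.n12; omega⟩
    exact hj (hl.2 j).2
  exact h.cls.pp z z' l (y i) z'' hadj (hl.2 i).2 hzi.symm hne (h.l_dp hl hz'')
    (fun h3 => h.l_dp hl hz h3.symm) hi h1 (fun h3 => h.l_dp hl hz' h3.symm) hi' h2

/-- A triangle outside `W` is anticomplete to the columns. -/
theorem Cols.tri_anti (h : Cols G W n x y) {a b c : V} (ha : a ∉ W) (hb : b ∉ W)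
    (hc : c ∉ W) (hab : G.Adj a b) (hac : G.Adj a c) (hbc : G.Adj b c) (i : Fin n) :
    ¬ G.Adj a (x i) ∧ ¬ G.Adj a (y i) := by
  refine ⟨fun h1 => ?_, fun h1 => ?_⟩
  · have e := h.nx i a ha h1
    subst e
    have e1 := h.ny i b hb hab.symm
    have e2 := h.ny i c hc hac.symm
    exact hbc.ne (e1.trans e2.symm)
  · have e := h.ny i a ha h1
    subst e
    have e1 := h.nx i b hb hab.symm
    have e2 := h.nx i c hc hac.symm
    exact hbc.ne (e1.trans e2.symm)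

/-- Two vertices of `W` of the two types do not miss different vertices of a triangle. -/
theorem APs.miss_aux (h : APs G W n x y w0 w1) (hd : NoDom G)
    (hM : ∀ w, FW G W x w → ∀ i, ¬ G.Adj w (x i))
    (hcov : ∀ i, ∃ z, FW G W y z ∧ G.Adj z (y i)) {a b c : V} (ha : a ∉ W) (hb : b ∉ W)
    (hc : c ∉ W) (hab : G.Adj a b) (hac : G.Adj a c) (hbc : G.Adj b c) {z w : V}
    (hz : FW G W y z) (hw : FW G W x w) (h1 : ¬ G.Adj z a) (h2 : ¬ G.Adj w b) : False := by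
  have i0 : Fin n := ⟨0, by have := h.n12; omega⟩
  obtain ⟨z'', hz'', hzi⟩ := hcov i0
  have hwy : G.Adj w (y i0) := (h.hitc hw.1 i0).resolve_left (hM w hw i0)
  have hadj : G.Adj w z'' := (h.compl hz'' hw).symm
  have hb' : ¬ G.Adj z'' b := by
    intro h3
    have hya := (h.cols.tri_anti ha hb hc hab hac hbc i0).2
    have hyb := (h.cols.tri_anti hb ha hc hab.symm hbc hac i0).2
    have hyc := (h.cols.tri_anti hc ha hb hac.symm hbc.symm hab i0).2
    rcases h.tp.hit z'' hz''.1 a ha c hc hac with h4 | h4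
    · exact h.tp.d3 h.cls hw.1 hb ha hadj hab.symm h2 h3 h4 hwy hzi (fun h5 => hyb h5.symm)
        (fun h5 => hya h5.symm)
    · exact h.tp.d3 h.cls hw.1 hb hc hadj hbc h2 h3 h4 hwy hzi (fun h5 => hyb h5.symm)
        (fun h5 => hyc h5.symm)
  exact h.tp.d2 h.cls hz.1 hz''.1 ha hb hc hab hac hbc (h.dp_stable hd hM hcov hz hz'') h1 hb'

/-- All vertices of `W` miss the same vertex of a triangle. -/
theorem APs.miss (h : APs G W n x y w0 w1) (hd : NoDom G)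
    (hM : ∀ w, FW G W x w → ∀ i, ¬ G.Adj w (x i))
    (hcov : ∀ i, ∃ z, FW G W y z ∧ G.Adj z (y i)) {a b c : V} (ha : a ∉ W) (hb : b ∉ W)
    (hc : c ∉ W) (hab : G.Adj a b) (hac : G.Adj a c) (hbc : G.Adj b c) {w w' : V}
    (hw : w ∈ W) (hw' : w' ∈ W) (h1 : ¬ G.Adj w a) (h2 : ¬ G.Adj w' b) : False := by
  have i0 : Fin n := ⟨0, by have := h.n12; omega⟩
  have hadj : G.Adj w w' := by
    by_contra hcon
    exact h.tp.d2 h.cls hw hw' ha hb hc hab hac hbc hcon h1 h2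
  have h3 : G.Adj w' a := (h.tp.hit w' hw' a ha b hb hab).resolve_right h2
  have h4 : G.Adj w' c := (h.tp.hit w' hw' b hb c hc hbc).resolve_left h2
  have hya := h.cols.tri_anti ha hb hc hab hac hbc
  have hyc := h.cols.tri_anti hc ha hb hac.symm hbc.symm hab
  have key : ∀ i, ¬ (G.Adj w (x i) ∧ G.Adj w' (x i)) ∧ ¬ (G.Adj w (y i) ∧ G.Adj w' (y i)) :=
    fun i => ⟨fun h5 => h.tp.d3 h.cls hw ha hc hadj hac h1 h3 h4 h5.1 h5.2
      (fun h6 => (hya i).1 h6.symm) (fun h6 => (hyc i).1 h6.symm),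
      fun h5 => h.tp.d3 h.cls hw ha hc hadj hac h1 h3 h4 h5.1 h5.2
      (fun h6 => (hya i).2 h6.symm) (fun h6 => (hyc i).2 h6.symm)⟩
  rcases h.tri hw with hL | hF | hF
  · rcases h.hitc hw' i0 with h5 | h5
    · exact (key i0).1 ⟨(hL.2 i0).1, h5⟩
    · exact (key i0).2 ⟨(hL.2 i0).2, h5⟩
  · rcases h.tri hw' with hL' | hF' | hF'
    · rcases h.hitc hw i0 with h5 | h5
      · exact (key i0).1 ⟨h5, (hL'.2 i0).1⟩
      · exact (key i0).2 ⟨h5, (hL'.2 i0).2⟩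
    · obtain ⟨j, _, hj, hj'⟩ := h.comm hF hF' i0
      exact (key j).1 ⟨hj, hj'⟩
    · exact h.miss_aux hd hM hcov ha hb hc hab hac hbc hF hF' h1 h2
  · rcases h.tri hw' with hL' | hF' | hF'
    · rcases h.hitc hw i0 with h5 | h5
      · exact (key i0).1 ⟨h5, (hL'.2 i0).1⟩
      · exact (key i0).2 ⟨h5, (hL'.2 i0).2⟩
    · exact h.miss_aux hd hM hcov hb ha hc hab.symm hbc hac hF' hF h2 h1
    · obtain ⟨j, _, hj, hj'⟩ := h.symm.comm hF hF' i0
      exact (key j).2 ⟨hj, hj'⟩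

/-- (d) -/
theorem APs.nobig [Finite V] (h : APs G W n x y w0 w1) {k : ℕ} (hk : CL G Set.univ k)
    (hcr : Crit G k) (hM : ∀ w, FW G W x w → ∀ i, ¬ G.Adj w (x i))
    (hcov : ∀ i, ∃ z, FW G W y z ∧ G.Adj z (y i)) {a b c : V} (ha : a ∉ W) (hb : b ∉ W)
    (hc : c ∉ W) (hab : G.Adj a b) (hac : G.Adj a c) (hbc : G.Adj b c) : False := by
  have hd := hcr.nodom
  by_cases hA : ∀ w ∈ W, G.Adj w a
  · by_cases hB : ∀ w ∈ W, G.Adj w b
    · exact e2 h.cls h.tp hk hcr a b ha hb hab hA hB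
    · push Not at hB
      obtain ⟨w, hw, hwb⟩ := hB
      refine e2 h.cls h.tp hk hcr a c ha hc hac hA fun w' hw' => ?_
      by_contra hcon
      exact h.miss hd hM hcov hb hc ha hbc hab.symm hac.symm hw hw' hwb hcon
  · push Not at hA
    obtain ⟨w, hw, hwa⟩ := hA
    refine e2 h.cls h.tp hk hcr b c hb hc hbc (fun w' hw' => ?_) fun w' hw' => ?_
    · by_contra hcon
      exact h.miss hd hM hcov ha hb hc hab hac hbc hw hw' hwa hcon
    · by_contra hcon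
      exact h.miss hd hM hcov ha hc hb hac hab hbc.symm hw hw' hwa hcon

/-- (e) -/
theorem APs.pair (h : APs G W n x y w0 w1)
    (hM : ∀ w, FW G W x w → ∀ i, ¬ G.Adj w (x i))
    (hcov : ∀ i, ∃ z, FW G W y z ∧ G.Adj z (y i)) {g g' : V} (hg : g ∉ W) (hg' : g' ∉ W)
    (hgg : G.Adj g g') (hno : ∀ c, c ∉ W → G.Adj g c → G.Adj g' c → False) :
    (∀ w, FW G W x w → ¬ G.Adj w g) ∨ (∀ w, FW G W x w → ¬ G.Adj w g') := by
  have _ := hno
  by_cases hgx : ∃ i, g = x i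
  · obtain ⟨i, rfl⟩ := hgx
    exact Or.inl fun w hw => hM w hw i
  by_cases hgy : ∃ i, g = y i
  · obtain ⟨i, rfl⟩ := hgy
    have := h.cols.ny i g' hg' hgg.symm
    subst this
    exact Or.inr fun w hw => hM w hw i
  by_contra hcon
  push Not at hcon hgx hgy
  obtain ⟨⟨w, hw, hwg⟩, ⟨w', hw', hwg'⟩⟩ := hcon
  have hxg : ∀ i, ¬ G.Adj g (x i) := fun i h1 => hgy i (h.cols.nx i g hg h1)
  have hyg : ∀ i, ¬ G.Adj g (y i) := fun i h1 => hgx i (h.cols.ny i g hg h1)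
  have hyg' : ∀ i, ¬ G.Adj g' (y i) := by
    intro i h1
    have := h.cols.ny i g' hg' h1
    subst this
    exact hxg i hgg
  have hwy : ∀ {w : V}, FW G W x w → ∀ i, G.Adj w (y i) :=
    fun hw i => (h.hitc hw.1 i).resolve_left (hM _ hw i)
  -- no common neighbour of two exceptional vertices of different trace and a vertex of type `FW x`
  have hgem : ∀ {z z'' w p : V}, FW G W y z → FW G W y z'' → FW G W x w →
      (∀ i, ¬ G.Adj p (y i)) → ∀ i, G.Adj z (y i) → ¬ G.Adj z'' (y i) →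
      G.Adj w p → G.Adj z p → G.Adj z'' p → False := by
    intro z z'' w p hz hz'' hw hp i h1 h2 h3 h4 h5
    exact h.cls.gem w (y i) z p z'' (hwy hw i) (h.compl hz hw).symm h3 (h.compl hz'' hw).symm
      h1.symm h4 h5.symm (fun h6 => hp i h6.symm) (fun h6 => h2 h6.symm)
      (fun h6 => h2 ((h.same hz hz'' h6 i).2.1 h1))
  -- complete to the pair together
  have hboth : ∀ {z w : V}, FW G W y z → FW G W x w → ∀ i, G.Adj z (y i) →
      ((G.Adj z g ∧ G.Adj z g') ↔ (G.Adj w g ∧ G.Adj w g')) := by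
    intro z w hz hw i hi
    have hadj := h.compl hz hw
    have hwi := hwy hw i
    constructor
    · rintro ⟨h1, h2⟩
      refine ⟨?_, ?_⟩
      · by_contra h3
        exact h.tp.d3 h.cls hw.1 hg hg' hadj.symm hgg h3 h1 h2 hwi hi
          (fun h4 => hyg i h4.symm) (fun h4 => hyg' i h4.symm)
      · by_contra h3
        exact h.tp.d3 h.cls hw.1 hg' hg hadj.symm hgg.symm h3 h2 h1 hwi hi
          (fun h4 => hyg' i h4.symm) (fun h4 => hyg i h4.symm)
    · rintro ⟨h1, h2⟩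
      refine ⟨?_, ?_⟩
      · by_contra h3
        exact h.tp.d3 h.cls hz.1 hg hg' hadj hgg h3 h1 h2 hi hwi
          (fun h4 => hyg i h4.symm) (fun h4 => hyg' i h4.symm)
      · by_contra h3
        exact h.tp.d3 h.cls hz.1 hg' hg hadj hgg.symm h3 h2 h1 hi hwi
          (fun h4 => hyg' i h4.symm) (fun h4 => hyg i h4.symm)
  -- three exceptional vertices of different traces
  have i1 : Fin n := ⟨0, by have := h.n12; omega⟩
  obtain ⟨z1, hz1, hz11⟩ := hcov i1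
  obtain ⟨i2, _, hz12⟩ := exists_free h.n12 (fun i => G.Adj z1 (y i)) hz1.2 ∅ (by simp)
  obtain ⟨z2, hz2, hz22⟩ := hcov i2
  obtain ⟨i3, _, hz13, hz23⟩ := exists_free2 h.n12 (fun i => G.Adj z1 (y i))
    (fun i => G.Adj z2 (y i)) hz1.2 hz2.2 ∅ (by simp)
  obtain ⟨z3, hz3, hz33⟩ := hcov i3
  -- vertices of type `FW x` are not complete to the pair
  have hnc : ∀ {w : V}, FW G W x w → ¬ (G.Adj w g ∧ G.Adj w g') := by
    intro w hw h1
    have a1 := (hboth hz1 hw i1 hz11).2 h1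
    have a2 := (hboth hz2 hw i2 hz22).2 h1
    exact hgem hz2 hz1 hw hyg i2 hz22 hz12 h1.1 a2.1 a1.1
  have hn1 : ¬ (G.Adj z1 g ∧ G.Adj z1 g') := fun h1 => hnc hw ((hboth hz1 hw i1 hz11).1 h1)
  have hn2 : ¬ (G.Adj z2 g ∧ G.Adj z2 g') := fun h1 => hnc hw ((hboth hz2 hw i2 hz22).1 h1)
  have hn3 : ¬ (G.Adj z3 g ∧ G.Adj z3 g') := fun h1 => hnc hw ((hboth hz3 hw i3 hz33).1 h1)
  have e21 : ∀ {p : V}, p = g ∨ p = g' → G.Adj z2 p → G.Adj z1 p → False := by
    rintro p (rfl | rfl) h1 h2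
    · exact hgem hz2 hz1 hw hyg i2 hz22 hz12 hwg h1 h2
    · exact hgem hz2 hz1 hw' hyg' i2 hz22 hz12 hwg' h1 h2
  have e31 : ∀ {p : V}, p = g ∨ p = g' → G.Adj z3 p → G.Adj z1 p → False := by
    rintro p (rfl | rfl) h1 h2
    · exact hgem hz3 hz1 hw hyg i3 hz33 hz13 hwg h1 h2
    · exact hgem hz3 hz1 hw' hyg' i3 hz33 hz13 hwg' h1 h2
  have e32 : ∀ {p : V}, p = g ∨ p = g' → G.Adj z3 p → G.Adj z2 p → False := by
    rintro p (rfl | rfl) h1 h2
    · exact hgem hz3 hz2 hw hyg i3 hz33 hz23 hwg h1 h2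
    · exact hgem hz3 hz2 hw' hyg' i3 hz33 hz23 hwg' h1 h2
  have pg : g = g ∨ g = g' := Or.inl rfl
  have pg' : g' = g ∨ g' = g' := Or.inr rfl
  rcases h.tp.hit z1 hz1.1 g hg g' hg' hgg with b1 | b1
  · rcases h.tp.hit z2 hz2.1 g hg g' hg' hgg with b2 | b2
    · exact e21 pg b2 b1
    · rcases h.tp.hit z3 hz3.1 g hg g' hg' hgg with b3 | b3
      · exact e31 pg b3 b1
      · exact e32 pg' b3 b2
  · rcases h.tp.hit z2 hz2.1 g hg g' hg' hgg with b2 | b2
    · rcases h.tp.hit z3 hz3.1 g hg g' hg' hgg with b3 | b3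
      · exact e32 pg b3 b2
      · exact e31 pg' b3 b1
    · exact e21 pg' b2 b1

end GP
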