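import Pool.Agent.Work.MP_31af1e_lc.PF
import Pool.Agent.Work.MP_31af1e_lc.AP3

/-!
Module AP4: the final colouring in the one-sided case.
-/

set_option autoImplicit false

namespace GP

variable {V : Type} {G : SimpleGraph V}

section AP
variable {W : Set V} {n : ℕ} {x y : Fin n → V} {w0 w1 : V}

theorem ap_final [Finite V] (h : APs G W n x y w0 w1) {k : ℕ} (hk : CL G Set.univ k)
    (hcr : Crit G k) (hM : ∀ w, FW G W x w → ∀ i, ¬ G.Adj w (x i))
    (hcov : ∀ i, ∃ z, FW G W y z ∧ G.Adj z (y i)) : False := by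
  classical
  have hn := h.n12
  set i0 : Fin n := ⟨0, by omega⟩ with hi0
  have hd := hcr.nodom
  -- `DM` is complete to `y i0`
  have hDMy : ∀ w, FW G W x w → G.Adj w (y i0) := fun w hw =>
    (h.tp.hit w hw.1 _ (h.cols.xW i0) _ (h.cols.yW i0) (h.cols.xy i0)).resolve_left (hM w hw i0)
  have hy0 := h.cols.yW i0
  have hx0 := h.cols.xW i0
  -- (c)
  obtain ⟨z0, hz0, hz0y⟩ := hcov i0
  have hz0M : ¬ FW G W x z0 := by
    intro h1
    exact (h.compl hz0 h1).ne rfl
  have cM : CL G {w | FW G W x w} (k - 2) := by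
    intro T hT hTc
    have hyT : y i0 ∉ T := fun h1 => hy0 (hT h1).1
    have hz0T : z0 ∉ insert (y i0) T := by
      intro h1
      rcases Finset.mem_insert.1 h1 with h1 | h1
      · exact hy0 (h1 ▸ hz0.1)
      · exact hz0M (hT h1)
    have h1 := hk (insert z0 (insert (y i0) T)) (Set.subset_univ _) (by
      rw [Finset.coe_insert, Finset.coe_insert, SimpleGraph.isClique_insert,
        SimpleGraph.isClique_insert]
      refine ⟨⟨hTc, fun b hb _ => (hDMy b (hT hb)).symm⟩, fun b hb _ => ?_⟩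
      rcases hb with hb | hb
      · rw [hb]; exact hz0y
      · exact h.compl hz0 (hT hb))
    rw [Finset.card_insert_of_notMem hz0T, Finset.card_insert_of_notMem hyT] at h1
    omega
  have hw1 : FW G W x w1 := ⟨h.w1W, fun i _ _ _ _ _ h1 => (h.h1 i).2 h1.1⟩
  have hk3 : 3 ≤ k := by
    have h1 := cM {w1} (by simpa using hw1) (by simp)
    rw [Finset.card_singleton] at h1
    omega
  have cL : CL G {w | LLp G W x y w} (k - 2) := by
    intro T hT hTc
    have hyT : y i0 ∉ T := fun h1 => hy0 (hT h1).1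
    have hxT : x i0 ∉ insert (y i0) T := by
      intro h1
      rcases Finset.mem_insert.1 h1 with h1 | h1
      · exact (h.cols.xy i0).ne h1
      · exact hx0 (hT h1).1
    have h1 := hk (insert (x i0) (insert (y i0) T)) (Set.subset_univ _) (by
      rw [Finset.coe_insert, Finset.coe_insert, SimpleGraph.isClique_insert,
        SimpleGraph.isClique_insert]
      refine ⟨⟨hTc, fun b hb _ => ((hT hb).2 i0).2.symm⟩, fun b hb _ => ?_⟩
      rcases hb with hb | hb
      · rw [hb]; exact h.cols.xy i0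
      · exact ((hT hb).2 i0).1.symm)
    rw [Finset.card_insert_of_notMem hxT, Finset.card_insert_of_notMem hyT] at h1
    omega
  obtain ⟨a, a1, a2⟩ : Col G {w | FW G W x w} (k - 2) :=
    ((h.cls.gem.nbr (y i0)).mono (fun w hw => (hDMy w hw).symm)).col cM
  obtain ⟨b, b1, b2⟩ : Col G {w | LLp G W x y w} (k - 2) :=
    ((h.cls.gem.nbr (x i0)).mono (fun w hw => (hw.2 i0).1.symm)).col cL
  obtain ⟨e, he⟩ : ∃ e : V → ℕ, Function.Injective e := exists_injective_nat V
  -- the vertices outside `W` anticomplete to `DM`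
  set AC : V → Prop := fun g => ∀ w, FW G W x w → ¬ G.Adj w g with hAC
  set Z : V → Prop := fun g => AC g ∧ ∃ g', g' ∉ W ∧ G.Adj g g' ∧ (¬ AC g' ∨ e g < e g') with hZ
  have huniq : ∀ g g' g'' : V, g ∉ W → g' ∉ W → g'' ∉ W → G.Adj g g' → G.Adj g g'' → g' = g'' := by
    intro g g' g'' hg hg' hg'' h1 h2
    by_contra hne
    exact h.nobig hk hcr hM hcov hg hg' hg'' h1 h2 (h.tp.p3 g' hg' g hg g'' hg'' h1.symm h2 hne)
  have hex : ∀ g g' : V, g ∉ W → g' ∉ W → G.Adj g g' → (Z g ↔ ¬ Z g') := by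
    intro g g' hg hg' hadj
    have hpair := h.pair hM hcov hg hg' hadj (fun c hc h1 h2 => by
      have := huniq g g' c hg hg' hc hadj h1
      exact h2.ne this)
    have hee : e g ≠ e g' := fun h1 => hadj.ne (he h1)
    have hZg : Z g ↔ AC g ∧ (¬ AC g' ∨ e g < e g') := by
      constructor
      · rintro ⟨h1, g'', hg'', h2, h3⟩
        rw [huniq g g' g'' hg hg' hg'' hadj h2]
        exact ⟨h1, h3⟩
      · rintro ⟨h1, h3⟩
        exact ⟨h1, g', hg', hadj, h3⟩
    have hZg' : Z g' ↔ AC g' ∧ (¬ AC g ∨ e g' < e g) := by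
      constructor
      · rintro ⟨h1, g'', hg'', h2, h3⟩
        rw [huniq g' g g'' hg' hg hg'' hadj.symm h2]
        exact ⟨h1, h3⟩
      · rintro ⟨h1, h3⟩
        exact ⟨h1, g, hg, hadj.symm, h3⟩
    rw [hZg, hZg']
    rcases hpair with hp | hp
    · have hp' : AC g := hp
      by_cases hq : AC g'
      · simp only [hp', hq, not_true_eq_false, false_or, true_and, not_lt]
        omega
      · simp [hp', hq]
    · have hp' : AC g' := hp
      by_cases hq : AC g
      · simp only [hp', hq, not_true_eq_false, false_or, true_and, not_lt]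
        omega
      · simp [hp', hq]
  have hlM : ∀ l w, LLp G W x y l → FW G W x w → ¬ G.Adj l w := by
    intro l w hl hw
    exact h.symm.l_dp ⟨hl.1, fun i => (hl.2 i).symm⟩ hw
  apply hcr.1
  set col : V → ℕ := fun v => if FW G W x v then a v else if FW G W y v then k - 2 else
    if v ∈ W then 1 + b v else if Z v then 0 else k - 1 with hcol
  have cDM : ∀ v, FW G W x v → col v = a v := fun v hv => by simp [hcol, hv]
  have cDP : ∀ v, ¬ FW G W x v → FW G W y v → col v = k - 2 := fun v hv hv' => by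
    simp [hcol, hv, hv']
  have cLL : ∀ v, ¬ FW G W x v → ¬ FW G W y v → v ∈ W → col v = 1 + b v := fun v hv hv' hW => by
    simp [hcol, hv, hv', hW]
  have cO : ∀ v, v ∉ W → (Z v ∧ col v = 0) ∨ (¬ Z v ∧ col v = k - 1) := by
    intro v hv
    have h1 : ¬ FW G W x v := fun h1 => hv h1.1
    have h2 : ¬ FW G W y v := fun h1 => hv h1.1
    by_cases hz : Z v
    · left; exact ⟨hz, by simp [hcol, hv, h1, h2, hz]⟩
    · right; exact ⟨hz, by simp [hcol, hv, h1, h2, hz]⟩
  -- four kinds of vertices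
  have kind : ∀ v, (FW G W x v ∧ col v = a v ∧ a v < k - 2) ∨
      (FW G W y v ∧ col v = k - 2) ∨
      (LLp G W x y v ∧ col v = 1 + b v ∧ b v < k - 2) ∨
      (v ∉ W ∧ ((Z v ∧ col v = 0) ∨ (¬ Z v ∧ col v = k - 1))) := by
    intro v
    by_cases hW : v ∈ W
    · by_cases h1 : FW G W x v
      · exact Or.inl ⟨h1, cDM v h1, a1 v h1⟩
      · by_cases h2 : FW G W y v
        · exact Or.inr (Or.inl ⟨h2, cDP v h1 h2⟩)
        · have h3 : LLp G W x y v := by
            rcases h.tri hW with h3 | h3 | h3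
            · exact h3
            · exact absurd h3 h2
            · exact absurd h3 h1
          exact Or.inr (Or.inr (Or.inl ⟨h3, cLL v h1 h2 hW, b1 v h3⟩))
    · exact Or.inr (Or.inr (Or.inr ⟨hW, cO v hW⟩))
  refine ⟨col, fun v _ => ?_, fun u _ v _ huv => ?_⟩
  · rcases kind v with ⟨-, h1, h2⟩ | ⟨-, h1⟩ | ⟨-, h1, h2⟩ | ⟨-, ⟨-, h1⟩ | ⟨-, h1⟩⟩ <;> omega
  · rcases kind u with ⟨u1, u2, u3⟩ | ⟨u1, u2⟩ | ⟨u1, u2, u3⟩ | ⟨u1, u2⟩ <;>
    rcases kind v with ⟨v1, v2, v3⟩ | ⟨v1, v2⟩ | ⟨v1, v2, v3⟩ | ⟨v1, v2⟩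
    · rw [u2, v2]; exact a2 u u1 v v1 huv
    · omega
    · exact absurd huv.symm (hlM v u v1 u1)
    · rcases v2 with ⟨v2, v3⟩ | ⟨v2, v3⟩
      · exact absurd huv (v2.1 u u1)
      · omega
    · omega
    · exact absurd huv (h.dp_stable hd hM hcov u1 v1)
    · exact absurd huv.symm (h.l_dp v1 u1)
    · rcases v2 with ⟨v2, v3⟩ | ⟨v2, v3⟩ <;> omega
    · exact absurd huv (hlM u v u1 v1)
    · exact absurd huv (h.l_dp u1 v1)
    · have := b2 u u1 v v1 huv
      omega
    · rcases v2 with ⟨v2, v3⟩ | ⟨v2, v3⟩ <;> omega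
    · rcases u2 with ⟨u2, u3⟩ | ⟨u2, u3⟩
      · exact absurd huv.symm (u2.1 v v1)
      · omega
    · rcases u2 with ⟨u2, u3⟩ | ⟨u2, u3⟩ <;> omega
    · rcases u2 with ⟨u2, u3⟩ | ⟨u2, u3⟩ <;> omega
    · have h1 := hex u v u1 v1 huv
      rcases u2 with ⟨u2, u3⟩ | ⟨u2, u3⟩ <;> rcases v2 with ⟨v2, v3⟩ | ⟨v2, v3⟩
      · exact absurd v2 (h1.1 u2)
      · omega
      · omega
      · exact absurd (h1.2 v2) u2

end AP

end GP
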