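import Pool.Agent.Work.MP_31af1e_lc.BA

/-!
Module CB: the graph covered by two cliques, by Hall's theorem.
-/

set_option autoImplicit false

namespace GP

variable {V : Type} {G : SimpleGraph V}

theorem cb [Finite V] {K L : Set V} {k : ℕ} (hK : G.IsClique K) (hL : G.IsClique L)
    (hk : CL G (K ∪ L) k) : Col G (K ∪ L) k := by
  classical
  have : Fintype V := Fintype.ofFinite V
  -- `K` without `L`
  set Lf : Finset V := L.toFinite.toFinset with hLf
  have hLm : ∀ v, v ∈ Lf ↔ v ∈ L := fun v => Set.Finite.mem_toFinset _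
  set Kf : Finset V := (K \ L).toFinite.toFinset with hKf
  have hKm : ∀ v, v ∈ Kf ↔ v ∈ K ∧ v ∉ L := fun v => by
    rw [hKf, Set.Finite.mem_toFinset, Set.mem_sdiff]
  have hLc : Lf.card ≤ k := hk Lf (fun v hv => Or.inr ((hLm v).1 hv)) (by
    intro a ha b hb hab
    exact hL ((hLm a).1 ha) ((hLm b).1 hb) hab)
  -- the family
  set t : {x // x ∈ Kf} → Finset (V ⊕ Fin (k - Lf.card)) := fun x =>
    (Lf.filter (fun l => ¬ G.Adj x.1 l)).image Sum.inl ∪ Finset.univ.image Sum.inr with ht
  have hall : ∀ S : Finset {x // x ∈ Kf}, S.card ≤ (S.biUnion t).card := by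
    intro S
    by_cases hS : S.Nonempty
    · set A : Finset V := Lf.filter (fun l => ∃ x ∈ S, ¬ G.Adj x.1 l) with hA
      have hsub : A.image Sum.inl ∪ (Finset.univ : Finset (Fin (k - Lf.card))).image Sum.inr ⊆
          S.biUnion t := by
        intro y hy
        rw [Finset.mem_union] at hy
        rcases hy with hy | hy
        · obtain ⟨l, hl, rfl⟩ := Finset.mem_image.1 hy
          rw [hA, Finset.mem_filter] at hl
          obtain ⟨hl1, x, hx, hxl⟩ := hl
          rw [Finset.mem_biUnion]
          refine ⟨x, hx, ?_⟩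
          simp [ht, hl1, hxl]
        · obtain ⟨i, hi, rfl⟩ := Finset.mem_image.1 hy
          obtain ⟨x, hx⟩ := hS
          rw [Finset.mem_biUnion]
          exact ⟨x, hx, by simp [ht]⟩
      have hcard : (A.image (Sum.inl : V → V ⊕ Fin (k - Lf.card)) ∪
          (Finset.univ : Finset (Fin (k - Lf.card))).image Sum.inr).card =
          A.card + (k - Lf.card) := by
        rw [Finset.card_union_of_disjoint, Finset.card_image_of_injective _ Sum.inl_injective,
          Finset.card_image_of_injective _ Sum.inr_injective, Finset.card_univ, Fintype.card_fin]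
        rw [Finset.disjoint_left]
        intro y hy hy'
        obtain ⟨l, _, rfl⟩ := Finset.mem_image.1 hy
        obtain ⟨i, _, hi⟩ := Finset.mem_image.1 hy'
        cases hi
      have h1 : A.card + (k - Lf.card) ≤ (S.biUnion t).card := by
        rw [← hcard]; exact Finset.card_le_card hsub
      -- the clique
      set C : Finset V := S.image Subtype.val ∪ (Lf \ A) with hC
      have hCc : C.card = S.card + (Lf.card - A.card) := by
        rw [hC, Finset.card_union_of_disjoint, Finset.card_image_of_injective _ Subtype.val_injective,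
          Finset.card_sdiff_of_subset (Finset.filter_subset _ _)]
        rw [Finset.disjoint_left]
        intro y hy hy'
        obtain ⟨x, _, rfl⟩ := Finset.mem_image.1 hy
        exact ((hKm _).1 x.2).2 ((hLm _).1 (Finset.mem_sdiff.1 hy').1)
      have hCk : C.card ≤ k := by
        apply hk
        · intro v hv
          have hv : v ∈ C := hv
          rw [hC, Finset.mem_union] at hv
          rcases hv with hv | hv
          · obtain ⟨x, _, rfl⟩ := Finset.mem_image.1 hv
            exact Or.inl ((hKm _).1 x.2).1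
          · exact Or.inr ((hLm _).1 (Finset.mem_sdiff.1 hv).1)
        · intro a ha b hb hab
          have ha : a ∈ C := ha
          have hb : b ∈ C := hb
          rw [hC, Finset.mem_union] at ha hb
          have key : ∀ x ∈ S, ∀ l ∈ Lf \ A, G.Adj x.1 l := by
            intro x hx l hl
            rw [Finset.mem_sdiff] at hl
            by_contra hn
            exact hl.2 (Finset.mem_filter.2 ⟨hl.1, x, hx, hn⟩)
          rcases ha with ha | ha <;> rcases hb with hb | hb
          · obtain ⟨x, _, rfl⟩ := Finset.mem_image.1 ha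
            obtain ⟨y, _, rfl⟩ := Finset.mem_image.1 hb
            exact hK ((hKm _).1 x.2).1 ((hKm _).1 y.2).1 hab
          · obtain ⟨x, hx, rfl⟩ := Finset.mem_image.1 ha
            exact key x hx b hb
          · obtain ⟨y, hy, rfl⟩ := Finset.mem_image.1 hb
            exact (key y hy a ha).symm
          · exact hL ((hLm _).1 (Finset.mem_sdiff.1 ha).1) ((hLm _).1 (Finset.mem_sdiff.1 hb).1) hab
      have hAL : A.card ≤ Lf.card := Finset.card_le_card (Finset.filter_subset _ _)
      omega
    · rw [Finset.not_nonempty_iff_eq_empty] at hS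
      subst hS; simp
  obtain ⟨g, hginj, hg⟩ := (Finset.all_card_le_biUnion_card_iff_exists_injective t).1 hall
  -- the colouring
  obtain ⟨e⟩ : Nonempty ({x // x ∈ Lf} ≃ Fin Lf.card) := ⟨Lf.equivFin⟩
  set cL : V → ℕ := fun v => if h : v ∈ Lf then (e ⟨v, h⟩ : ℕ) else 0 with hcL
  have hcL1 : ∀ v ∈ Lf, cL v < Lf.card := by
    intro v hv
    simp only [hcL, hv, dite_true]; exact (e ⟨v, hv⟩).2
  have hcL2 : ∀ v ∈ Lf, ∀ w ∈ Lf, cL v = cL w → v = w := by
    intro v hv w hw h
    simp only [hcL, hv, hw, dite_true] at h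
    have := e.injective (Fin.ext h)
    simpa using this
  set c2 : V ⊕ Fin (k - Lf.card) → ℕ :=
    Sum.elim cL (fun i : Fin (k - Lf.card) => Lf.card + i.val) with hc2
  set c : V → ℕ := fun v => if h : v ∈ Kf then c2 (g ⟨v, h⟩) else cL v with hc
  -- for `x` in `Kf`: properties of `g x`
  have hgx : ∀ x : {x // x ∈ Kf}, (∃ l ∈ Lf, ¬ G.Adj x.1 l ∧ g x = Sum.inl l) ∨
      ∃ i, g x = Sum.inr i := by
    intro x
    have := hg x
    simp only [ht, Finset.mem_union, Finset.mem_image, Finset.mem_filter, Finset.mem_univ,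
      true_and] at this
    rcases this with ⟨l, ⟨hl1, hl2⟩, hl3⟩ | ⟨i, hi⟩
    · exact Or.inl ⟨l, hl1, hl2, hl3.symm⟩
    · exact Or.inr ⟨i, hi.symm⟩
  refine ⟨c, ?_, ?_⟩
  · intro v hv
    by_cases hvK : v ∈ Kf
    · simp only [hc, hvK, dite_true]
      rcases hgx ⟨v, hvK⟩ with ⟨l, hl, _, hgl⟩ | ⟨i, hi⟩
      · rw [hgl]; simp only [hc2, Sum.elim_inl]
        exact (hcL1 l hl).trans_le hLc
      · rw [hi]; simp only [hc2, Sum.elim_inr]
        have := i.2; omega
    · simp only [hc, hvK, dite_false]
      have hvL : v ∈ Lf := by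
        rw [hKm] at hvK
        rw [hLm]
        rcases hv with hv | hv
        · by_contra h; exact hvK ⟨hv, h⟩
        · exact hv
      exact (hcL1 v hvL).trans_le hLc
  · have hmixed : ∀ x (hx : x ∈ Kf), ∀ l ∈ Lf, G.Adj x l → c2 (g ⟨x, hx⟩) ≠ cL l := by
      intro x hx l hl hadj heq
      rcases hgx ⟨x, hx⟩ with ⟨l', hl', hn, hgl⟩ | ⟨i, hi⟩
      · rw [hgl] at heq; simp only [hc2, Sum.elim_inl] at heq
        have := hcL2 l' hl' l hl heq
        subst this; exact hn hadj
      · rw [hi] at heq; simp only [hc2, Sum.elim_inr] at heq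
        have := hcL1 l hl; omega
    intro u hu v hv huv
    have hL' : ∀ w, w ∈ K ∪ L → w ∉ Kf → w ∈ Lf := by
      intro w hw hwK
      rw [hKm] at hwK
      rw [hLm]
      rcases hw with hw | hw
      · by_contra h; exact hwK ⟨hw, h⟩
      · exact hw
    by_cases huK : u ∈ Kf <;> by_cases hvK : v ∈ Kf
    · simp only [hc, huK, hvK, dite_true]
      intro heq
      have hne : g ⟨u, huK⟩ ≠ g ⟨v, hvK⟩ := by
        intro h
        have := hginj h
        simp only [Subtype.mk.injEq] at this
        subst this; exact G.loopless.irrefl _ huv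
      rcases hgx ⟨u, huK⟩ with ⟨l, hl, _, hgl⟩ | ⟨i, hi⟩ <;>
        rcases hgx ⟨v, hvK⟩ with ⟨l', hl', _, hgl'⟩ | ⟨i', hi'⟩
      · rw [hgl, hgl'] at heq hne
        simp only [hc2, Sum.elim_inl] at heq
        exact hne (by rw [hcL2 l hl l' hl' heq])
      · rw [hgl, hi'] at heq
        simp only [hc2, Sum.elim_inl, Sum.elim_inr] at heq
        have := hcL1 l hl; omega
      · rw [hi, hgl'] at heq
        simp only [hc2, Sum.elim_inl, Sum.elim_inr] at heq
        have := hcL1 l' hl'; omega
      · rw [hi, hi'] at heq hne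
        simp only [hc2, Sum.elim_inr] at heq
        exact hne (by rw [Fin.ext (by omega : (i : ℕ) = i')])
    · simp only [hc, huK, hvK, dite_true, dite_false]
      exact hmixed u huK v (hL' v hv hvK) huv
    · simp only [hc, huK, hvK, dite_true, dite_false]
      exact (hmixed v hvK u (hL' u hu huK) huv.symm).symm
    · simp only [hc, huK, hvK, dite_false]
      intro heq
      have := hcL2 u (hL' u hu huK) v (hL' v hv hvK) heq
      subst this; exact G.loopless.irrefl _ huv

end GP
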