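import Pool.Agent.Work.MP_31af1e_lc.TF
import Pool.Agent.Work.MP_31af1e_lc.CB
import Pool.Agent.Work.MP_31af1e_lc.E2

/-!
Module GA: the case that the common neighbours form a clique.
-/

set_option autoImplicit false

namespace GP

variable {V : Type} {G : SimpleGraph V}

/-- Removing a stable set such that the rest is a union of two cliques. -/
theorem rem_stable [Finite V] {k : ℕ} (hcr : Crit G k) {K L S : Set V} (hK : G.IsClique K)
    (hL : G.IsClique L) (hS : ∀ u ∈ S, ∀ v ∈ S, ¬ G.Adj u v)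
    (hcov : ∀ v, v ∈ K ∨ v ∈ L ∨ v ∈ S) (hk1 : 1 ≤ k) (hcl : CL G (K ∪ L) (k - 1)) : False := by
  apply hcr.1
  have h1 := (cb hK hL hcl).add_stable hS
  refine h1.mono (fun v _ => ?_) (by omega)
  rcases hcov v with h | h | h
  · exact Or.inl (Or.inl h)
  · exact Or.inl (Or.inr h)
  · exact Or.inr h

theorem CL.pred {k : ℕ} (hk : CL G Set.univ k) {s : Set V}
    (hex : ∀ T : Finset V, (T : Set V) ⊆ s → G.IsClique (T : Set V) →
      ∃ z, ∀ t ∈ T, G.Adj z t) : CL G s (k - 1) := by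
  classical
  intro T hT hc
  obtain ⟨z, hz⟩ := hex T hT hc
  have hzT : z ∉ T := fun h1 => G.loopless.irrefl z (hz z h1)
  have h1 := hk (insert z T) (Set.subset_univ _) (by
    rw [Finset.coe_insert]
    intro a ha b hb hab
    rw [Set.mem_insert_iff] at ha hb
    rcases ha with rfl | ha <;> rcases hb with rfl | hb
    · exact absurd rfl hab
    · exact hz b hb
    · exact (hz a ha).symm
    · exact hc ha hb hab)
  rw [Finset.card_insert_of_notMem hzT] at h1
  omega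

theorem CL.one_le {k : ℕ} (hk : CL G Set.univ k) (v : V) : 1 ≤ k := by
  classical
  have := hk {v} (Set.subset_univ _) (by simp)
  simpa using this

/-- A clique in the union of two sets without edges between them lies in one of them. -/
theorem clique_split {s t : Set V} (hd : ∀ v, v ∈ s → v ∈ t → False)
    (ha : ∀ a ∈ s, ∀ b ∈ t, ¬ G.Adj a b) {T : Finset V} (hT : (T : Set V) ⊆ s ∪ t)
    (hc : G.IsClique (T : Set V)) : (T : Set V) ⊆ s ∨ (T : Set V) ⊆ t := by
  by_contra hn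
  push Not at hn
  obtain ⟨h1, h2⟩ := hn
  rw [Set.not_subset] at h1 h2
  obtain ⟨a, haT, has⟩ := h1
  obtain ⟨b, hbT, hbt⟩ := h2
  have h3 : a ∈ t := (hT haT).resolve_left has
  have h4 : b ∈ s := (hT hbT).resolve_right hbt
  have hne : b ≠ a := by rintro rfl; exact hd b h4 h3
  exact ha b h4 a h3 (hc hbT haT hne)

theorem TS.twins {q u : V} (h : TS G q u) (hB : G.IsClique (BB G q u)) {b b' : V}
    (hb : b ∈ BB G q u) (hb' : b' ∈ BB G q u) (hne : b ≠ b') : Twin G b b' := by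
  have hbb : G.Adj b b' := hB hb hb' hne
  refine ⟨hbb, ?_⟩
  intro z hz1 hz2
  rcases h.part z with hz | hz | hz
  · exact ⟨fun h1 => (h.f2 hb hb' hz hbb h1.symm).symm, fun h1 => (h.f2 hb' hb hz hbb.symm h1.symm).symm⟩
  · have c : b ∈ BB G u q := ⟨hb.2, hb.1⟩
    have c' : b' ∈ BB G u q := ⟨hb'.2, hb'.1⟩
    exact ⟨fun h1 => (h.symm.f2 c c' hz hbb h1.symm).symm,
      fun h1 => (h.symm.f2 c' c hz hbb.symm h1.symm).symm⟩
  · exact ⟨fun _ => hB hz hb' hz2, fun _ => hB hz hb hz1⟩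

/-- Removal of a stable triple. -/
theorem ga_rem [Finite V] {q u : V} (h : TS G q u) {k : ℕ} (hk : CL G Set.univ k)
    (hcr : Crit G k) (hB : G.IsClique (BB G q u)) {b x1 w2 : V} (hb : b ∈ BB G q u)
    (hx1 : x1 ∈ NN G u) (hw2 : w2 ∈ NN G q) (hbx : ¬ G.Adj b x1) (hbw : ¬ G.Adj b w2)
    (hxw : ¬ G.Adj x1 w2)
    (hno : ∀ x ∈ NN G u, x ≠ x1 → ∀ y ∈ NN G q, y ≠ w2 → ¬ G.Adj x y) : False := by
  have hb1 : b ≠ x1 := by rintro rfl; exact hx1.2 hb.2
  have hb2 : b ≠ w2 := by rintro rfl; exact hw2.2 hb.1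
  have hxw' : x1 ≠ w2 := by rintro rfl; exact h.disj x1 hw2 hx1
  have hBb : ∀ b' ∈ BB G q u, b' = b := by
    intro b' hb'
    by_contra hne
    have h1 := tw h.cls hk hcr (h.twins hB hb hb' (Ne.symm hne))
    exact hxw (h1 ⟨hb1.symm, hbx⟩ ⟨hb2.symm, hbw⟩ hxw')
  refine rem_stable (K := {y | y ∈ NN G q ∧ y ≠ w2}) (L := {x | x ∈ NN G u ∧ x ≠ x1})
    (S := {z | z = b ∨ z = x1 ∨ z = w2}) hcr (fun a ha c hc => h.cq ha.1 hc.1)
    (fun a ha c hc => h.cu ha.1 hc.1) ?_ ?_ (hk.one_le b) (hk.pred ?_)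
  · rintro a (rfl | rfl | rfl) c (rfl | rfl | rfl)
    · exact G.loopless.irrefl _
    · exact hbx
    · exact hbw
    · exact fun h => hbx h.symm
    · exact G.loopless.irrefl _
    · exact hxw
    · exact fun h => hbw h.symm
    · exact fun h => hxw h.symm
    · exact G.loopless.irrefl _
  · intro v
    rcases h.part v with hv | hv | hv
    · by_cases h1 : v = w2
      · exact Or.inr (Or.inr (Or.inr (Or.inr h1)))
      · exact Or.inl ⟨hv, h1⟩
    · by_cases h1 : v = x1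
      · exact Or.inr (Or.inr (Or.inr (Or.inl h1)))
      · exact Or.inr (Or.inl ⟨hv, h1⟩)
    · exact Or.inr (Or.inr (Or.inl (hBb v hv)))
  · intro T hT hc
    rcases clique_split (fun v h1 h2 => h.disj v h1.1 h2.1)
      (fun a ha c hc h1 => hno c hc.1 hc.2 a ha.1 ha.2 h1.symm) hT hc with h1 | h1
    · exact ⟨w2, fun t ht => h.cq hw2 (h1 ht).1 (h1 ht).2.symm⟩
    · exact ⟨x1, fun t ht => h.cu hx1 (h1 ht).1 (h1 ht).2.symm⟩

/-- No vertex of `NN G u` missed by `b` has a neighbour in `NN G q` adjacent to `b`. -/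
theorem ga_A [Finite V] {q u : V} (h : TS G q u) {k : ℕ} (hk : CL G Set.univ k)
    (hcr : Crit G k) (hB : G.IsClique (BB G q u)) {b x y w : V} (hb : b ∈ BB G q u)
    (hx : x ∈ NN G u) (hbx : ¬ G.Adj b x) (hy : y ∈ NN G q) (hxy : G.Adj x y)
    (hby : G.Adj b y) (hw : w ∈ NN G q) (hbw : ¬ G.Adj b w) : False := by
  have hsub : ∀ z ∈ NN G q, G.Adj x z → G.Adj b z := by
    rcases h.f5 hb hx hbx with h1 | h1
    · exact h1
    · exact absurd hby (h1 y hy hxy)
  have hxw : ¬ G.Adj x w := fun h1 => hbw (hsub w hw h1)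
  have huniq : ∀ z ∈ NN G q, ¬ G.Adj b z → z = w := fun z hz hbz =>
    h.f5' hb hx hbx hz hw hbz (fun h1 => hbz (hsub z hz h1)) hbw hxw
  have c : b ∈ BB G u q := ⟨hb.2, hb.1⟩
  have hxuniq : ∀ z ∈ NN G u, ¬ G.Adj b z → ¬ G.Adj w z → z = x := fun z hz hbz hwz =>
    h.symm.f5' c hw hbw hz hx hbz hwz hbx (fun h1 => hxw h1.symm)
  rcases h.symm.f5 c hw hbw with hw1 | hw1
  · -- case (B)
    have hxu : ∀ z ∈ NN G u, ¬ G.Adj b z → z = x := fun z hz hbz =>
      hxuniq z hz hbz (fun h1 => hbz (hw1 z hz h1))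
    have hall : ∀ z, z ≠ b → z ≠ x → z ≠ w → G.Adj b z := by
      intro z h1 h2 h3
      rcases h.part z with hz | hz | hz
      · by_contra hn; exact h3 (huniq z hz hn)
      · by_contra hn; exact h2 (hxu z hz hn)
      · exact hB hb hz h1.symm
    refine rem_stable (K := {z | z ∈ NN G q ∧ z ≠ w})
      (L := {z | (z ∈ NN G u ∧ z ≠ x) ∨ (z ∈ BB G q u ∧ z ≠ b)})
      (S := {z | z = b ∨ z = x ∨ z = w}) hcr (fun a ha c hc => h.cq ha.1 hc.1)
      ?_ ?_ ?_ (hk.one_le b) (hk.pred ?_)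
    · have hcross : ∀ a ∈ NN G u, a ≠ x → ∀ d ∈ BB G q u, G.Adj a d := by
        intro a ha hax d hd
        have hba : G.Adj b a := by
          by_contra hn; exact hax (hxu a ha hn)
        by_cases hdb : d = b
        · subst hdb; exact hba.symm
        · exact (h.symm.f2 c ⟨hd.2, hd.1⟩ ha (hB hb hd (Ne.symm hdb)) hba).symm
      rintro a (⟨ha, hax⟩ | ⟨ha, hab⟩) d (⟨hd, hdx⟩ | ⟨hd, hdb⟩) had
      · exact h.cu ha hd had
      · exact hcross a ha hax d hd
      · exact (hcross d hd hdx a ha).symm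
      · exact hB ha hd had
    · rintro a (rfl | rfl | rfl) c (rfl | rfl | rfl)
      · exact G.loopless.irrefl _
      · exact hbx
      · exact hbw
      · exact fun h => hbx h.symm
      · exact G.loopless.irrefl _
      · exact hxw
      · exact fun h => hbw h.symm
      · exact fun h => hxw h.symm
      · exact G.loopless.irrefl _
    · intro v
      by_cases h1 : v = b
      · exact Or.inr (Or.inr (Or.inl h1))
      by_cases h2 : v = x
      · exact Or.inr (Or.inr (Or.inr (Or.inl h2)))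
      by_cases h3 : v = w
      · exact Or.inr (Or.inr (Or.inr (Or.inr h3)))
      rcases h.part v with hv | hv | hv
      · exact Or.inl ⟨hv, h3⟩
      · exact Or.inr (Or.inl (Or.inl ⟨hv, h2⟩))
      · exact Or.inr (Or.inl (Or.inr ⟨hv, h1⟩))
    · intro T hT _
      refine ⟨b, fun t ht => ?_⟩
      rcases hT ht with ⟨h1, h2⟩ | ⟨h1, h2⟩ | ⟨h1, h2⟩
      · by_contra hn; exact h2 (huniq t h1 hn)
      · by_contra hn; exact h2 (hxu t h1 hn)
      · exact hB hb h1 h2.symm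
  · -- case (A)
    refine ga_rem h hk hcr hB hb hx hw hbx hbw hxw ?_
    intro x' hx' hne y' hy' hyne hadj
    have hby' : G.Adj b y' := by
      by_contra hn; exact hyne (huniq y' hy' hn)
    by_cases hbx' : G.Adj b x'
    · exact h.f4 hb hx' hy' hbx' hby' hadj
    · have hwx' : G.Adj w x' := by
        by_contra hn; exact hne (hxuniq x' hx' hbx' hn)
      rcases h.f5 hb hx' hbx' with h1 | h1
      · exact hbw (h1 w hw hwx'.symm)
      · exact h1 y' hy' hadj hby'

theorem g_one [Finite V] {q u : V} (h : TS G q u) {k : ℕ} (hk : CL G Set.univ k) (hcr : Crit G k)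
    (hB : G.IsClique (BB G q u)) : C5E G Set.univ := by
  classical
  -- `B` is nonempty
  obtain ⟨b, hb⟩ : (BB G q u).Nonempty := by
    by_contra hn
    rw [Set.not_nonempty_iff_eq_empty] at hn
    apply hcr.1
    refine (cb h.cq h.cu (hk.mono (Set.subset_univ _) le_rfl)).mono (fun v _ => ?_) le_rfl
    rcases h.part v with hv | hv | hv
    · exact Or.inl hv
    · exact Or.inr hv
    · rw [hn] at hv; exact absurd hv (Set.notMem_empty v)
  have c : b ∈ BB G u q := ⟨hb.2, hb.1⟩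
  have hsame : ∀ b' ∈ BB G q u, ∀ w ∈ NN G q, (G.Adj b' w ↔ G.Adj b w) := by
    intro b' hb' w hw
    by_cases hbb : b' = b
    · subst hbb; exact Iff.rfl
    · exact ⟨fun h1 => h.f2 hb' hb hw (hB hb' hb hbb) h1,
        fun h1 => h.f2 hb hb' hw (hB hb hb' (Ne.symm hbb)) h1⟩
  have hsame' : ∀ b' ∈ BB G q u, ∀ x ∈ NN G u, (G.Adj b' x ↔ G.Adj b x) := by
    intro b' hb' w hw
    by_cases hbb : b' = b
    · subst hbb; exact Iff.rfl
    · exact ⟨fun h1 => h.symm.f2 ⟨hb'.2, hb'.1⟩ c hw (hB hb' hb hbb) h1,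
        fun h1 => h.symm.f2 c ⟨hb'.2, hb'.1⟩ hw (hB hb hb' (Ne.symm hbb)) h1⟩
  obtain ⟨x0, hx0, hbx0⟩ : ∃ x ∈ NN G u, ¬ G.Adj b x := by
    by_contra hn
    push Not at hn
    apply hcr.1
    have hcl : G.IsClique (NN G u ∪ BB G q u) := by
      rintro a (ha | ha) d (hd | hd) had
      · exact h.cu ha hd had
      · exact ((hsame' d hd a ha).2 (hn a ha)).symm
      · exact (hsame' a ha d hd).2 (hn d hd)
      · exact hB ha hd had
    refine (cb h.cq hcl (hk.mono (Set.subset_univ _) le_rfl)).mono (fun v _ => ?_) le_rfl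
    rcases h.part v with hv | hv | hv
    · exact Or.inl hv
    · exact Or.inr (Or.inl hv)
    · exact Or.inr (Or.inr hv)
  obtain ⟨w0, hw0, hbw0⟩ : ∃ w ∈ NN G q, ¬ G.Adj b w := by
    by_contra hn
    push Not at hn
    apply hcr.1
    have hcl : G.IsClique (NN G q ∪ BB G q u) := by
      rintro a (ha | ha) d (hd | hd) had
      · exact h.cq ha hd had
      · exact ((hsame d hd a ha).2 (hn a ha)).symm
      · exact (hsame a ha d hd).2 (hn d hd)
      · exact hB ha hd had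
    refine (cb h.cu hcl (hk.mono (Set.subset_univ _) le_rfl)).mono (fun v _ => ?_) le_rfl
    rcases h.part v with hv | hv | hv
    · exact Or.inr (Or.inl hv)
    · exact Or.inl hv
    · exact Or.inr (Or.inr hv)
  have hBs : G.IsClique (BB G u q) := fun a ha d hd => hB ⟨ha.2, ha.1⟩ ⟨hd.2, hd.1⟩
  -- no edges from `x` missed by `b` to neighbours of `b`
  have e1 : ∀ x ∈ NN G u, ¬ G.Adj b x → ∀ y ∈ NN G q, G.Adj b y → ¬ G.Adj x y :=
    fun x hx hbx y hy hby hxy => ga_A h hk hcr hB hb hx hbx hy hxy hby hw0 hbw0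
  have e2 : ∀ w ∈ NN G q, ¬ G.Adj b w → ∀ y ∈ NN G u, G.Adj b y → ¬ G.Adj w y :=
    fun x hx hbx y hy hby hxy => ga_A h.symm hk hcr hBs c hx hbx hy hxy hby hx0 hbx0
  have e3 : ∀ x ∈ NN G u, ¬ G.Adj b x → ∀ w ∈ NN G q, ¬ G.Adj b w → G.Adj x w := by
    intro x1 hx1 hbx w2 hw2 hbw
    by_contra hxw
    refine ga_rem h hk hcr hB hb hx1 hw2 hbx hbw hxw ?_
    intro x hx hne y hy hyne hadj
    by_cases hbx' : G.Adj b x
    · by_cases hby : G.Adj b y
      · exact h.f4 hb hx hy hbx' hby hadj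
      · exact e2 y hy hby x hx hbx' hadj.symm
    by_cases hby : G.Adj b y
    · exact e1 x hx hbx' y hy hby hadj
    have h1 : G.Adj w2 x := by
      by_contra hn
      exact hne (h.symm.f5' c hw2 hbw hx hx1 hbx' hn hbx (fun h1 => hxw h1.symm))
    have h2 : G.Adj x1 y := by
      by_contra hn
      exact hyne (h.f5' hb hx1 hbx hy hw2 hby hn hbw hxw)
    exact hxw (h.f1 hx hx1 hy hw2 hadj h2 h1.symm)
  -- the five bags
  let f : V → ZMod 5 := fun v =>
    if v ∈ BB G q u then 0 else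
    if v ∈ NN G u then (if G.Adj b v then 1 else 2) else
    (if G.Adj b v then 4 else 3)
  have nB : ∀ v, v ∈ NN G u → v ∉ BB G q u := fun v h1 h2 => h1.2 h2.2
  have nB' : ∀ v, v ∈ NN G q → v ∉ BB G q u := fun v h1 h2 => h1.2 h2.1
  have nU : ∀ v, v ∈ NN G q → v ∉ NN G u := fun v h1 h2 => h.disj v h1 h2
  have f0 : ∀ v ∈ BB G q u, f v = 0 := fun v hv => by simp only [f, hv, if_true]
  have f1 : ∀ v ∈ NN G u, G.Adj b v → f v = 1 := fun v hv h1 => by
    simp only [f, nB v hv, hv, h1, if_true, if_false]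
  have f2 : ∀ v ∈ NN G u, ¬ G.Adj b v → f v = 2 := fun v hv h1 => by
    simp only [f, nB v hv, hv, h1, if_true, if_false]
  have f3 : ∀ v ∈ NN G q, ¬ G.Adj b v → f v = 3 := fun v hv h1 => by
    simp only [f, nB' v hv, nU v hv, h1, if_false]
  have f4 : ∀ v ∈ NN G q, G.Adj b v → f v = 4 := fun v hv h1 => by
    simp only [f, nB' v hv, nU v hv, h1, if_true, if_false]
  have hcase : ∀ v, (v ∈ BB G q u ∧ f v = 0) ∨ (v ∈ NN G u ∧ G.Adj b v ∧ f v = 1) ∨
      (v ∈ NN G u ∧ ¬ G.Adj b v ∧ f v = 2) ∨ (v ∈ NN G q ∧ ¬ G.Adj b v ∧ f v = 3) ∨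
      (v ∈ NN G q ∧ G.Adj b v ∧ f v = 4) := by
    intro v
    rcases h.part v with hv | hv | hv
    · by_cases h1 : G.Adj b v
      · exact Or.inr (Or.inr (Or.inr (Or.inr ⟨hv, h1, f4 v hv h1⟩)))
      · exact Or.inr (Or.inr (Or.inr (Or.inl ⟨hv, h1, f3 v hv h1⟩)))
    · by_cases h1 : G.Adj b v
      · exact Or.inr (Or.inl ⟨hv, h1, f1 v hv h1⟩)
      · exact Or.inr (Or.inr (Or.inl ⟨hv, h1, f2 v hv h1⟩))
    · exact Or.inl ⟨hv, f0 v hv⟩
  refine ⟨f, ?_, ?_⟩
  · intro i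
    have hi : i = 0 ∨ i = 1 ∨ i = 2 ∨ i = 3 ∨ i = 4 := by
      revert i; decide
    rcases hi with rfl | rfl | rfl | rfl | rfl
    · exact ⟨b, trivial, f0 b hb⟩
    · exact ⟨q, trivial, f1 q h.mem_q hb.1.symm⟩
    · exact ⟨x0, trivial, f2 x0 hx0 hbx0⟩
    · exact ⟨w0, trivial, f3 w0 hw0 hbw0⟩
    · exact ⟨u, trivial, f4 u h.mem_u hb.2.symm⟩
  · intro a _ d _ had
    have T : ∀ {p r : Prop}, p → r → (p ↔ r) := fun hp hr => ⟨fun _ => hr, fun _ => hp⟩
    have N : ∀ {p r : Prop}, ¬ p → ¬ r → (p ↔ r) := fun hp hr =>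
      ⟨fun h => absurd h hp, fun h => absurd h hr⟩
    rcases hcase a with ⟨ha, fa⟩ | ⟨ha, ha', fa⟩ | ⟨ha, ha', fa⟩ | ⟨ha, ha', fa⟩ | ⟨ha, ha', fa⟩ <;>
    rcases hcase d with ⟨hd, fd⟩ | ⟨hd, hd', fd⟩ | ⟨hd, hd', fd⟩ | ⟨hd, hd', fd⟩ | ⟨hd, hd', fd⟩ <;>
    rw [fa, fd]
    · exact T (hB ha hd had) (by decide)
    · exact T ((hsame' a ha d hd).2 hd') (by decide)
    · exact N (fun h1 => hd' ((hsame' a ha d hd).1 h1)) (by decide)
    · exact N (fun h1 => hd' ((hsame a ha d hd).1 h1)) (by decide)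
    · exact T ((hsame a ha d hd).2 hd') (by decide)
    · exact T ((hsame' d hd a ha).2 ha').symm (by decide)
    · exact T (h.cu ha hd had) (by decide)
    · exact T (h.cu ha hd had) (by decide)
    · exact N (fun h1 => e2 d hd hd' a ha ha' h1.symm) (by decide)
    · exact N (fun h1 => h.f4 hb ha hd ha' hd' h1) (by decide)
    · exact N (fun h1 => ha' ((hsame' d hd a ha).1 h1.symm)) (by decide)
    · exact T (h.cu ha hd had) (by decide)
    · exact T (h.cu ha hd had) (by decide)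
    · exact T (e3 a ha ha' d hd hd') (by decide)
    · exact N (fun h1 => e1 a ha ha' d hd hd' h1) (by decide)
    · exact N (fun h1 => ha' ((hsame d hd a ha).1 h1.symm)) (by decide)
    · exact N (fun h1 => e2 a ha ha' d hd hd' h1) (by decide)
    · exact T (e3 d hd hd' a ha ha').symm (by decide)
    · exact T (h.cq ha hd had) (by decide)
    · exact T (h.cq ha hd had) (by decide)
    · exact T ((hsame d hd a ha).2 ha').symm (by decide)
    · exact N (fun h1 => h.f4 hb hd ha hd' ha' h1.symm) (by decide)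
    · exact N (fun h1 => e1 d hd hd' a ha ha' h1.symm) (by decide)
    · exact T (h.cq ha hd had) (by decide)
    · exact T (h.cq ha hd had) (by decide)

end GP
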