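import Pool.Agent.Work.MP_31af1e_lc.CB

/-!
Module LE: Lemma E.
-/

set_option autoImplicit false

namespace GP

variable {V : Type} {G : SimpleGraph V}

theorem exists_max_measure {α : Type} (P : α → Prop) (m : α → ℕ) (N : ℕ) (h0 : ∃ a, P a)
    (hN : ∀ a, P a → m a ≤ N) : ∃ a, P a ∧ ∀ b, P b → m b ≤ m a := by
  by_contra hcon
  push Not at hcon
  have h1 : ∀ j : ℕ, ∃ a, P a ∧ j ≤ m a := by
    intro j
    induction j with
    | zero => obtain ⟨a, ha⟩ := h0; exact ⟨a, ha, Nat.zero_le _⟩
    | succ j ih =>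
      obtain ⟨a, ha, hj⟩ := ih
      obtain ⟨b, hb, hab⟩ := hcon a ha
      exact ⟨b, hb, by omega⟩
  obtain ⟨a, ha, hj⟩ := h1 (N + 1)
  have := hN a ha
  omega

theorem lemE [Finite V] {K L X R : Set V} {k : ℕ} (hK : G.IsClique K) (hL : G.IsClique L)
    (hX : G.IsClique X) (hKL : Disjoint K L) (hKX : Disjoint K X) (hRK : R ⊆ K)
    (hRL : Anti G R L) (hXL : ∀ x ∈ X, ∀ l ∈ L, G.Adj x l) (hXR : ∀ x ∈ X, ∀ r ∈ R, G.Adj x r)
    (hXK : ∀ x ∈ X, ∀ y ∈ K, y ∉ R → ¬ G.Adj x y) (hk : CL G (K ∪ L ∪ X) k) :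
    Col G (K ∪ L ∪ X) k := by
  classical
  have : Fintype V := Fintype.ofFinite V
  set Lf : Finset V := L.toFinite.toFinset with hLf
  have hLm : ∀ v, v ∈ Lf ↔ v ∈ L := fun v => Set.Finite.mem_toFinset _
  set Rf : Finset V := R.toFinite.toFinset with hRf
  have hRm : ∀ v, v ∈ Rf ↔ v ∈ R := fun v => Set.Finite.mem_toFinset _
  set Xf : Finset V := X.toFinite.toFinset with hXf
  have hXm : ∀ v, v ∈ Xf ↔ v ∈ X := fun v => Set.Finite.mem_toFinset _
  set P : (V → ℕ) → Prop := fun c => (∀ v ∈ K ∪ L, c v < k) ∧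
    ∀ u ∈ K ∪ L, ∀ v ∈ K ∪ L, G.Adj u v → c u ≠ c v with hP
  obtain ⟨c, ⟨hc1, hc2⟩, hmax⟩ := exists_max_measure P
    (fun c => (Rf.image c ∩ Lf.image c).card) Rf.card
    (by
      obtain ⟨c, h1, h2⟩ := cb hK hL (hk.mono Set.subset_union_left le_rfl)
      exact ⟨c, h1, h2⟩)
    (fun c _ => (Finset.card_le_card Finset.inter_subset_left).trans Finset.card_image_le)
  have hKinj : ∀ u ∈ K, ∀ v ∈ K, c u = c v → u = v := by
    intro u hu v hv h
    by_contra hne
    exact hc2 u (Or.inl hu) v (Or.inl hv) (hK hu hv hne) h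
  have hLinj : ∀ u ∈ L, ∀ v ∈ L, c u = c v → u = v := by
    intro u hu v hv h
    by_contra hne
    exact hc2 u (Or.inr hu) v (Or.inr hv) (hL hu hv hne) h
  have hLK : ∀ v ∈ L, v ∉ K := fun v hv hvK => Set.disjoint_left.1 hKL hvK hv
  have hclaim : Rf.image c ⊆ Lf.image c ∨ Lf.image c ⊆ Rf.image c := by
    by_contra hcon
    push Not at hcon
    obtain ⟨h1, h2⟩ := hcon
    rw [Finset.not_subset] at h1 h2
    obtain ⟨_, hr0, hrL⟩ := h1
    obtain ⟨r, hr, rfl⟩ := Finset.mem_image.1 hr0
    obtain ⟨_, hl0, hlR⟩ := h2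
    obtain ⟨l, hl, rfl⟩ := Finset.mem_image.1 hl0
    have hrR : r ∈ R := (hRm r).1 hr
    have hrK : r ∈ K := hRK hrR
    have hlL : l ∈ L := (hLm l).1 hl
    set c' : V → ℕ := fun v => if v ∈ K then Equiv.swap (c r) (c l) (c v) else c v with hc'
    have hmix : ∀ u ∈ K, ∀ v ∈ L, G.Adj u v → Equiv.swap (c r) (c l) (c u) ≠ c v := by
      intro u hu v hv huv
      by_cases h1 : c u = c r
      · rw [h1, Equiv.swap_apply_left]
        intro h2
        have h3 := hKinj u hu r hrK h1
        have h4 := hLinj l hlL v hv h2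
        subst h3; subst h4
        exact hRL u hrR l hlL huv
      · by_cases h2 : c u = c l
        · rw [h2, Equiv.swap_apply_right]
          intro h3
          exact hrL (Finset.mem_image.2 ⟨v, (hLm v).2 hv, h3.symm⟩)
        · rw [Equiv.swap_apply_of_ne_of_ne h1 h2]
          exact hc2 u (Or.inl hu) v (Or.inr hv) huv
    have hPc' : P c' := by
      refine ⟨?_, ?_⟩
      · intro v hv
        by_cases hvK : v ∈ K
        · simp only [hc', hvK, if_true]
          by_cases h1 : c v = c r
          · rw [h1, Equiv.swap_apply_left]; exact hc1 l (Or.inr hlL)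
          · by_cases h2 : c v = c l
            · rw [h2, Equiv.swap_apply_right]; exact hc1 r (Or.inl hrK)
            · rw [Equiv.swap_apply_of_ne_of_ne h1 h2]; exact hc1 v hv
        · simp only [hc', hvK, if_false]; exact hc1 v hv
      · intro u hu v hv huv
        by_cases huK : u ∈ K <;> by_cases hvK : v ∈ K
        · simp only [hc', huK, hvK, if_true]
          intro h
          exact hc2 u hu v hv huv ((Equiv.injective _) h)
        · simp only [hc', huK, hvK, if_true, if_false]
          exact hmix u huK v (hv.resolve_left hvK) huv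
        · simp only [hc', huK, hvK, if_true, if_false]
          exact (hmix v hvK u (hu.resolve_left huK) huv.symm).symm
        · simp only [hc', huK, hvK, if_false]
          exact hc2 u hu v hv huv
    have h3 := hmax c' hPc'
    have h4 : insert (c l) (Rf.image c ∩ Lf.image c) ⊆ Rf.image c' ∩ Lf.image c' := by
      have hc'L : ∀ v ∈ L, c' v = c v := fun v hv => by simp [hc', hLK v hv]
      intro a ha
      rcases Finset.mem_insert.1 ha with rfl | ha
      · rw [Finset.mem_inter]
        refine ⟨Finset.mem_image.2 ⟨r, hr, ?_⟩, Finset.mem_image.2 ⟨l, hl, hc'L l hlL⟩⟩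
        simp only [hc', hrK, if_true, Equiv.swap_apply_left]
      · rw [Finset.mem_inter] at ha
        obtain ⟨ha1, ha2⟩ := ha
        have hne1 : a ≠ c r := fun h => hrL (h ▸ ha2)
        have hne2 : a ≠ c l := fun h => hlR (h ▸ ha1)
        obtain ⟨r0, hr0, hr0'⟩ := Finset.mem_image.1 ha1
        obtain ⟨l0, hl0, hl0'⟩ := Finset.mem_image.1 ha2
        rw [Finset.mem_inter]
        refine ⟨Finset.mem_image.2 ⟨r0, hr0, ?_⟩, Finset.mem_image.2 ⟨l0, hl0, ?_⟩⟩
        · have : r0 ∈ K := hRK ((hRm r0).1 hr0)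
          simp only [hc', this, if_true]
          rw [hr0', Equiv.swap_apply_of_ne_of_ne hne1 hne2]
        · rw [hc'L l0 ((hLm l0).1 hl0), hl0']
    have h5 := Finset.card_le_card h4
    rw [Finset.card_insert_of_notMem (by
      intro h; exact hlR (Finset.mem_inter.1 h).1)] at h5
    omega
  -- sizes
  have hXLc : Xf.card + Lf.card ≤ k := by
    have : (Xf ∪ Lf).card ≤ k := by
      apply hk
      · intro v hv
        rcases Finset.mem_union.1 hv with h | h
        · exact Or.inr ((hXm v).1 h)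
        · exact Or.inl (Or.inr ((hLm v).1 h))
      · intro a ha b hb hab
        rcases Finset.mem_union.1 ha with ha | ha <;> rcases Finset.mem_union.1 hb with hb | hb
        · exact hX ((hXm a).1 ha) ((hXm b).1 hb) hab
        · exact hXL a ((hXm a).1 ha) b ((hLm b).1 hb)
        · exact (hXL b ((hXm b).1 hb) a ((hLm a).1 ha)).symm
        · exact hL ((hLm a).1 ha) ((hLm b).1 hb) hab
    rwa [Finset.card_union_of_disjoint] at this
    rw [Finset.disjoint_left]
    intro v hv hv'
    exact G.loopless.irrefl _ (hXL v ((hXm v).1 hv) v ((hLm v).1 hv'))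
  have hXRc : Xf.card + Rf.card ≤ k := by
    have : (Xf ∪ Rf).card ≤ k := by
      apply hk
      · intro v hv
        rcases Finset.mem_union.1 hv with h | h
        · exact Or.inr ((hXm v).1 h)
        · exact Or.inl (Or.inl (hRK ((hRm v).1 h)))
      · intro a ha b hb hab
        rcases Finset.mem_union.1 ha with ha | ha <;> rcases Finset.mem_union.1 hb with hb | hb
        · exact hX ((hXm a).1 ha) ((hXm b).1 hb) hab
        · exact hXR a ((hXm a).1 ha) b ((hRm b).1 hb)
        · exact (hXR b ((hXm b).1 hb) a ((hRm a).1 ha)).symm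
        · exact hK (hRK ((hRm a).1 ha)) (hRK ((hRm b).1 hb)) hab
    rwa [Finset.card_union_of_disjoint] at this
    rw [Finset.disjoint_left]
    intro v hv hv'
    exact G.loopless.irrefl _ (hXR v ((hXm v).1 hv) v ((hRm v).1 hv'))
  set U : Finset ℕ := Rf.image c ∪ Lf.image c with hU
  have hUc : Xf.card + U.card ≤ k := by
    rcases hclaim with h | h
    · rw [hU, Finset.union_eq_right.2 h]
      have : (Lf.image c).card ≤ Lf.card := Finset.card_image_le
      omega
    · rw [hU, Finset.union_eq_left.2 h]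
      have : (Rf.image c).card ≤ Rf.card := Finset.card_image_le
      omega
  set F : Finset ℕ := Finset.range k \ U with hF
  have hFc : Xf.card ≤ F.card := by
    have := Finset.le_card_sdiff U (Finset.range k)
    rw [Finset.card_range] at this
    rw [hF]; omega
  obtain ⟨φ⟩ : Nonempty ({x // x ∈ Xf} ↪ {x // x ∈ F}) := by
    apply Function.Embedding.nonempty_of_card_le
    simpa using hFc
  set d : V → ℕ := fun v => if h : v ∈ Xf then (φ ⟨v, h⟩ : ℕ) else c v with hd
  have hdX : ∀ v ∈ Xf, d v < k ∧ d v ∉ U := by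
    intro v hv
    have h1 : d v = (φ ⟨v, hv⟩ : ℕ) := by simp only [hd, hv, dite_true]
    have h2 : d v ∈ F := by rw [h1]; exact (φ ⟨v, hv⟩).2
    rw [hF, Finset.mem_sdiff, Finset.mem_range] at h2
    exact h2
  have hnotX : ∀ v ∈ K ∪ L ∪ X, v ∉ Xf → v ∈ K ∪ L := by
    intro v hv hvX
    rw [hXm] at hvX
    exact hv.resolve_right hvX
  have hmix : ∀ x ∈ Xf, ∀ v ∈ K ∪ L, G.Adj x v → d x ≠ c v := by
    intro x hx v hv hxv heq
    apply (hdX x hx).2
    rw [heq, hU, Finset.mem_union]
    rcases hv with hv | hv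
    · left
      by_cases hvR : v ∈ R
      · exact Finset.mem_image.2 ⟨v, (hRm v).2 hvR, rfl⟩
      · exact absurd hxv (hXK x ((hXm x).1 hx) v hv hvR)
    · right
      exact Finset.mem_image.2 ⟨v, (hLm v).2 hv, rfl⟩
  refine ⟨d, ?_, ?_⟩
  · intro v hv
    by_cases hvX : v ∈ Xf
    · exact (hdX v hvX).1
    · simp only [hd, hvX, dite_false]
      exact hc1 v (hnotX v hv hvX)
  · intro u hu v hv huv
    by_cases huX : u ∈ Xf <;> by_cases hvX : v ∈ Xf
    · simp only [hd, huX, hvX, dite_true]
      intro h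
      have := φ.injective (Subtype.ext h)
      simp only [Subtype.mk.injEq] at this
      subst this; exact G.loopless.irrefl _ huv
    · have : d v = c v := by simp [hd, hvX]
      rw [this]
      exact hmix u huX v (hnotX v hv hvX) huv
    · have : d u = c u := by simp [hd, huX]
      rw [this]
      exact (hmix v hvX u (hnotX u hu huX) huv.symm).symm
    · simp only [hd, huX, hvX, dite_false]
      exact hc2 u (hnotX u hu huX) v (hnotX v hv hvX) huv

end GP
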