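import Pool.Agent.Work.MP_31af1e_lc.BA

/-!
Module PF: `P4`-free graphs, Grundy colourings.
-/

set_option autoImplicit false

namespace GP

variable {V : Type} {G : SimpleGraph V}

theorem P4F.peel [Finite V] {s S0 : Set V} (h : P4F G s) (hS : S0 ⊆ s)
    (hst : ∀ u ∈ S0, ∀ v ∈ S0, ¬ G.Adj u v) (hmax : ∀ v ∈ s, v ∉ S0 → ∃ u ∈ S0, G.Adj v u)
    (T : Finset V) (hT : ∀ v ∈ T, v ∈ s ∧ v ∉ S0) (hTc : G.IsClique (T : Set V))
    (hne : T.Nonempty) : ∃ u ∈ S0, ∀ v ∈ T, G.Adj u v := by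
  classical
  obtain ⟨t0, ht0⟩ := hne
  obtain ⟨u0, hu0, -⟩ := hmax t0 (hT t0 ht0).1 (hT t0 ht0).2
  obtain ⟨u, hu, hum⟩ := Set.exists_max_image S0 (fun u => (T.filter (G.Adj u)).card)
    (Set.toFinite _) ⟨u0, hu0⟩
  refine ⟨u, hu, ?_⟩
  intro t ht
  by_contra hut
  obtain ⟨u1, hu1, htu1⟩ := hmax t (hT t ht).1 (hT t ht).2
  have hex : ∃ t' ∈ T, G.Adj u t' ∧ ¬ G.Adj u1 t' := by
    by_contra hcon
    push Not at hcon
    have hss : T.filter (G.Adj u) ⊂ T.filter (G.Adj u1) := by
      refine ⟨fun x hx => ?_, fun hsub => ?_⟩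
      · rw [Finset.mem_filter] at hx ⊢
        exact ⟨hx.1, hcon x hx.1 hx.2⟩
      · have h1 : t ∈ T.filter (G.Adj u) := hsub (Finset.mem_filter.2 ⟨ht, htu1.symm⟩)
        exact hut (Finset.mem_filter.1 h1).2
    have h2 := Finset.card_lt_card hss
    have h3 := hum u1 hu1
    omega
  obtain ⟨t', ht', hut', hu1t'⟩ := hex
  have hne' : t' ≠ t := by rintro rfl; exact hut hut'
  exact h u (hS hu) t' (hT t' ht').1 t (hT t ht).1 u1 (hS hu1) hut' (hTc ht' ht hne') htu1 hut
    (hst u hu u1 hu1) (fun hh => hu1t' hh.symm)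

/-- In a Grundy (first fit) colouring of a `P4`-free graph, a vertex of colour `j` is in a clique
with `j + 1` vertices. -/
theorem P4F.clique_of_grundy [Finite V] {s : Set V} (h : P4F G s) (c : V → ℕ)
    (hp : ∀ u ∈ s, ∀ v ∈ s, G.Adj u v → c u ≠ c v)
    (hg : ∀ v ∈ s, ∀ j < c v, ∃ u ∈ s, G.Adj v u ∧ c u = j) :
    ∀ v ∈ s, ∃ t : Finset V, (t : Set V) ⊆ s ∧ v ∈ t ∧ G.IsClique (t : Set V) ∧
      t.card = c v + 1 := by
  classical
  intro v hv
  have key : ∀ m : ℕ, m ≤ c v → ∃ t : Finset V, (t : Set V) ⊆ {w | w ∈ s ∧ c v - m ≤ c w} ∧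
      v ∈ t ∧ G.IsClique (t : Set V) ∧ t.card = m + 1 := by
    intro m
    induction m with
    | zero =>
      intro _
      refine ⟨{v}, ?_, by simp, by simp, by simp⟩
      intro w hw
      simp only [Finset.coe_singleton, Set.mem_singleton_iff] at hw
      subst hw
      exact ⟨hv, by simp⟩
    | succ m ih =>
      intro hm
      obtain ⟨t, hts, hvt, htc, htcard⟩ := ih (by omega)
      obtain ⟨u, hu, hut⟩ := P4F.peel (s := {w | w ∈ s ∧ c v - (m + 1) ≤ c w})
        (S0 := {w | w ∈ s ∧ c w = c v - (m + 1)}) (h.mono (fun w hw => hw.1))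
        (fun w hw => ⟨hw.1, hw.2.ge⟩)
        (fun a ha b hb hab => hp a ha.1 b hb.1 hab (ha.2.trans hb.2.symm))
        (by
          intro w hw hw0
          have hlt : c v - (m + 1) < c w := by
            rcases Nat.lt_or_ge (c v - (m + 1)) (c w) with h1 | h1
            · exact h1
            · exact absurd ⟨hw.1, le_antisymm h1 hw.2⟩ hw0
          obtain ⟨u, hu, hwu, hcu⟩ := hg w hw.1 _ hlt
          exact ⟨u, ⟨hu, hcu⟩, hwu⟩)
        t (by
          intro w hw
          have h1 := hts hw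
          refine ⟨⟨h1.1, ?_⟩, ?_⟩
          · have := h1.2; omega
          · intro h2
            have h3 := h1.2
            have h4 := h2.2
            omega) htc ⟨v, hvt⟩
      have hunt : u ∉ t := fun h1 => G.loopless.irrefl u (hut u h1)
      refine ⟨insert u t, ?_, Finset.mem_insert_of_mem hvt, ?_, ?_⟩
      · intro w hw
        rw [Finset.coe_insert, Set.mem_insert_iff] at hw
        rcases hw with rfl | hw
        · exact ⟨hu.1, hu.2.ge⟩
        · have h1 := hts hw
          refine ⟨h1.1, ?_⟩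
          have := h1.2
          omega
      · rw [Finset.coe_insert]
        intro a ha b hb hab
        rw [Set.mem_insert_iff] at ha hb
        rcases ha with rfl | ha <;> rcases hb with rfl | hb
        · exact absurd rfl hab
        · exact hut b hb
        · exact (hut a ha).symm
        · exact htc ha hb hab
      · rw [Finset.card_insert_of_notMem hunt, htcard]
  obtain ⟨t, hts, h1, h2, h3⟩ := key (c v) le_rfl
  exact ⟨t, fun w hw => (hts hw).1, h1, h2, h3⟩

theorem exists_grundy [Finite V] (G : SimpleGraph V) (s : Set V) : ∃ c : V → ℕ,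
    (∀ u ∈ s, ∀ v ∈ s, G.Adj u v → c u ≠ c v) ∧
    ∀ v ∈ s, ∀ j < c v, ∃ u ∈ s, G.Adj v u ∧ c u = j := by
  classical
  have : Fintype V := Fintype.ofFinite V
  have hex : ∃ n : ℕ, ∃ c : V → ℕ, (∀ u ∈ s, ∀ v ∈ s, G.Adj u v → c u ≠ c v) ∧ ∑ v, c v = n := by
    obtain ⟨f, hf⟩ := Countable.exists_injective_nat V
    exact ⟨_, f, fun u _ v _ huv he => huv.ne (hf he), rfl⟩
  obtain ⟨c, hc, hsum⟩ := Nat.find_spec hex
  refine ⟨c, hc, ?_⟩
  intro v hv j hj
  by_contra hcon
  push Not at hcon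
  have hlt : ∑ w, (Function.update c v j) w < Nat.find hex := by
    rw [← hsum]
    apply Finset.sum_lt_sum
    · intro w _
      by_cases hw : w = v
      · subst hw; simpa using hj.le
      · simp [Function.update_of_ne hw]
    · exact ⟨v, Finset.mem_univ v, by simpa using hj⟩
  apply Nat.find_min hex hlt
  refine ⟨Function.update c v j, ?_, rfl⟩
  intro a ha b hb hab
  by_cases h1 : a = v
  · subst h1
    rw [Function.update_self, Function.update_of_ne hab.ne']
    exact (hcon b hb hab).symm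
  · by_cases h2 : b = v
    · subst h2
      rw [Function.update_self, Function.update_of_ne h1]
      exact hcon a ha hab.symm
    · rw [Function.update_of_ne h1, Function.update_of_ne h2]
      exact hc a ha b hb hab

theorem P4F.grundy [Finite V] {s : Set V} (h : P4F G s) : ∃ c : V → ℕ,
    (∀ u ∈ s, ∀ v ∈ s, G.Adj u v → c u ≠ c v) ∧
    ∀ v ∈ s, ∃ t : Finset V, (t : Set V) ⊆ s ∧ v ∈ t ∧ G.IsClique (t : Set V) ∧
      t.card = c v + 1 := by
  obtain ⟨c, h1, h2⟩ := exists_grundy G s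
  exact ⟨c, h1, h.clique_of_grundy c h1 h2⟩

theorem P4F.col [Finite V] {s : Set V} {k : ℕ} (h : P4F G s) (hk : CL G s k) : Col G s k := by
  obtain ⟨c, h1, h2⟩ := h.grundy
  refine ⟨c, ?_, h1⟩
  intro v hv
  obtain ⟨t, hts, -, htc, hcard⟩ := h2 v hv
  have := hk t hts htc
  omega

end GP
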