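import Pool.Agent.Work.MP_31af1e_lc.LE
import Pool.Agent.Work.MP_31af1e_lc.PF

/-!
Module MC: modules in critical graphs.
-/

set_option autoImplicit false

namespace GP

variable {V : Type} {G : SimpleGraph V}

theorem Crit.module [Finite V] {k : ℕ} (hc : Cls G) (h : Crit G k) (hk : CL G Set.univ k)
    (M : Set V) (hM : ∀ v, v ∉ M → (∀ u ∈ M, G.Adj v u) ∨ (∀ u ∈ M, ¬ G.Adj v u))
    (hp : M ≠ Set.univ) : G.IsClique M := by
  classical
  by_contra hncl
  have hne : M.Nonempty := by
    rw [Set.nonempty_iff_ne_empty]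
    rintro rfl
    exact hncl (by simp)
  obtain ⟨u0, hu0, v0, hv0, huv0⟩ := h.conn M hne hp
  have hv0M : ∀ u ∈ M, G.Adj v0 u := by
    rcases hM v0 hv0 with h1 | h1
    · exact h1
    · exact absurd huv0.symm (h1 u0 hu0)
  have hP4 : P4F G M := (hc.gem.nbr v0).mono hv0M
  obtain ⟨T, ⟨hTM, hTc⟩, hmax⟩ := exists_max_measure
    (fun T : Finset V => (T : Set V) ⊆ M ∧ G.IsClique (T : Set V)) (fun T => T.card) k
    ⟨∅, by simp, by simp⟩ (fun T hT => hk T (Set.subset_univ _) hT.2)
  have hCL : CL G M T.card := fun t ht htc => hmax t ⟨ht, htc⟩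
  obtain ⟨d, hd1, hd2⟩ := hP4.col hCL
  have hTne : (T : Set V) ≠ M := by
    intro heq
    exact hncl (heq ▸ hTc)
  obtain ⟨w, hwM, hwT⟩ : ∃ w ∈ M, w ∉ T := by
    by_contra hcon
    push Not at hcon
    exact hTne (Set.Subset.antisymm hTM hcon)
  obtain ⟨c, hc1, hc2⟩ := h.2 (Mᶜ ∪ T) (by
    intro heq
    have : w ∈ Mᶜ ∪ (T : Set V) := by rw [heq]; trivial
    rcases this with h1 | h1
    · exact h1 hwM
    · exact hwT h1)
  set e : ℕ → ℕ := fun i => if hi : i < T.card then c (T.equivFin.symm ⟨i, hi⟩).1 else 0 with he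
  have heT : ∀ i, i < T.card → ∃ t ∈ T, e i = c t := by
    intro i hi
    refine ⟨(T.equivFin.symm ⟨i, hi⟩).1, (T.equivFin.symm ⟨i, hi⟩).2, ?_⟩
    simp only [he, hi, dite_true]
  have hcT : ∀ t ∈ T, ∀ t' ∈ T, c t = c t' → t = t' := by
    intro t ht t' ht' heq
    by_contra hne'
    exact hc2 t (Or.inr ht) t' (Or.inr ht') (hTc ht ht' hne') heq
  have heinj : ∀ i, i < T.card → ∀ j, j < T.card → e i = e j → i = j := by
    intro i hi j hj heq
    simp only [he, hi, hj, dite_true] at heq
    have h1 := hcT _ (T.equivFin.symm ⟨i, hi⟩).2 _ (T.equivFin.symm ⟨j, hj⟩).2 heq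
    have h2 := T.equivFin.symm.injective (Subtype.ext h1)
    simpa using h2
  have hmix : ∀ u, u ∉ M → ∀ v ∈ M, G.Adj u v → c u ≠ e (d v) := by
    intro u hu v hv huv
    obtain ⟨t, ht, het⟩ := heT (d v) (hd1 v hv)
    rw [het]
    have hcomp : ∀ w ∈ M, G.Adj u w := by
      rcases hM u hu with h1 | h1
      · exact h1
      · exact absurd huv (h1 v hv)
    exact hc2 u (Or.inl hu) t (Or.inr ht) (hcomp t (hTM ht))
  apply h.1
  refine ⟨fun v => if v ∈ M then e (d v) else c v, ?_, ?_⟩
  · intro v _
    by_cases hv : v ∈ M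
    · simp only [hv, if_true]
      obtain ⟨t, ht, het⟩ := heT (d v) (hd1 v hv)
      rw [het]
      exact hc1 t (Or.inr ht)
    · simp only [hv, if_false]
      exact hc1 v (Or.inl hv)
  · intro u _ v _ huv
    by_cases hu : u ∈ M <;> by_cases hv : v ∈ M
    · simp only [hu, hv, if_true]
      intro heq
      exact hd2 u hu v hv huv (heinj _ (hd1 u hu) _ (hd1 v hv) heq)
    · simp only [hu, hv, if_true, if_false]
      exact (hmix v hv u hu huv.symm).symm
    · simp only [hu, hv, if_true, if_false]
      exact hmix u hu v hv huv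
    · simp only [hu, hv, if_false]
      exact hc2 u (Or.inl hu) v (Or.inl hv) huv

theorem Crit.not_universal [Finite V] {k : ℕ} (hc : Cls G) (h : Crit G k)
    (hk : CL G Set.univ k) (v : V) : ∃ u, u ≠ v ∧ ¬ G.Adj v u := by
  classical
  by_contra hcon
  push Not at hcon
  have hk1 : 1 ≤ k := by
    have := hk {v} (Set.subset_univ _) (by simp)
    simpa using this
  have hCL : CL G {u | G.Adj v u} (k - 1) := by
    intro T hT hTc
    have hvT : v ∉ T := fun hv => G.loopless.irrefl _ (hT hv : G.Adj v v)
    have h1 : (insert v T).card ≤ k := by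
      apply hk _ (Set.subset_univ _)
      rw [Finset.coe_insert, SimpleGraph.isClique_insert]
      exact ⟨hTc, fun b hb _ => hT hb⟩
    rw [Finset.card_insert_of_notMem hvT] at h1
    omega
  have h1 : Col G {u | G.Adj v u} (k - 1) := (hc.gem.nbr v).col hCL
  have h2 := h1.add_stable (S := {v}) (by
    intro a ha b hb
    rw [Set.mem_singleton_iff] at ha hb
    subst ha; subst hb
    exact G.loopless.irrefl _)
  apply h.1
  refine h2.mono ?_ (by omega)
  intro u _
  by_cases hu : u = v
  · exact Or.inr hu
  · exact Or.inl (hcon u hu)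

/-- The chromatic number is at most three times the clique number. -/
theorem chi3 [Finite V] (hc : Cls G) {R : ℕ} (hk : CL G Set.univ R) : Col G Set.univ (3 * R) := by
  classical
  by_cases hE : ∃ a b, G.Adj a b
  · obtain ⟨a, b, hab⟩ := hE
    have hfar : P4F G {u | ¬ G.Adj a u ∧ ¬ G.Adj b u} := by
      have h3 := hc.pp.far hab
      intro p hp q hq r hr s hs hpq hqr hrs hpr hps hqs
      exact hpr (h3 p hp q hq r hr hpq hqr (by
        rintro rfl
        exact hps hrs))
    obtain ⟨c1, h11, h12⟩ := (hc.gem.nbr a).col (hk.mono (Set.subset_univ _) le_rfl)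
    obtain ⟨c2, h21, h22⟩ := (hc.gem.nbr b).col (hk.mono (Set.subset_univ _) le_rfl)
    obtain ⟨c3, h31, h32⟩ := hfar.col (hk.mono (Set.subset_univ _) le_rfl)
    simp only [Set.mem_ofPred_eq] at h11 h12 h21 h22 h31 h32
    refine ⟨fun v => if G.Adj a v then c1 v else if G.Adj b v then R + c2 v else 2 * R + c3 v,
      ?_, ?_⟩
    · intro v _
      by_cases hv : G.Adj a v
      · have := h11 v hv
        simp only [hv, if_true]; omega
      · by_cases hv' : G.Adj b v
        · have := h21 v hv'
          simp only [hv, hv', if_true, if_false]; omega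
        · have := h31 v ⟨hv, hv'⟩
          simp only [hv, hv', if_false]; omega
    · intro u _ v _ huv
      by_cases hu : G.Adj a u
      · have k1 := h11 u hu
        by_cases hv : G.Adj a v
        · simp only [hu, hv, if_true]; exact h12 u hu v hv huv
        · by_cases hv' : G.Adj b v
          · simp only [hu, hv, hv', if_true, if_false]; omega
          · simp only [hu, hv, hv', if_true, if_false]; omega
      · by_cases hu' : G.Adj b u
        · have k1 := h21 u hu'
          by_cases hv : G.Adj a v
          · have := h11 v hv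
            simp only [hu, hu', hv, if_true, if_false]; omega
          · by_cases hv' : G.Adj b v
            · have := h22 u hu' v hv' huv
              simp only [hu, hu', hv, hv', if_true, if_false]; omega
            · simp only [hu, hu', hv, hv', if_true, if_false]; omega
        · by_cases hv : G.Adj a v
          · have := h11 v hv
            simp only [hu, hu', hv, if_true, if_false]; omega
          · by_cases hv' : G.Adj b v
            · have := h21 v hv'
              simp only [hu, hu', hv, hv', if_true, if_false]; omega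
            · have := h32 u ⟨hu, hu'⟩ v ⟨hv, hv'⟩ huv
              simp only [hu, hu', hv, hv', if_false]; omega
  · push Not at hE
    refine ⟨fun _ => 0, ?_, fun u _ v _ huv => absurd huv (hE u v)⟩
    intro v _
    have := hk {v} (Set.subset_univ _) (by simp)
    simp at this
    show 0 < 3 * R
    omega

end GP
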