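import Pool.Agent.Work.MP_31af1e_lc.TF
import Pool.Agent.Work.MP_31af1e_lc.LE
import Pool.Agent.Work.MP_31af1e_lc.MC
import Pool.Agent.Work.MP_31af1e_lc.E2

/-!
Module GB: the common neighbours of `q` and `u` have two components, one of them not a single vertex.
-/

set_option autoImplicit false

namespace GP

variable {V : Type} {G : SimpleGraph V}

/-- Injective numbering of a finite set that starts with a given subset. -/
theorem exists_rank [Finite V] (S A : Set V) (hSA : S ⊆ A) : ∃ c : V → ℕ,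
    (∀ v ∈ S, c v < S.ncard) ∧ (∀ v ∈ A, c v < A.ncard) ∧
    ∀ u ∈ A, ∀ v ∈ A, c u = c v → u = v := by
  classical
  have : Fintype V := Fintype.ofFinite V
  set s : Finset V := S.toFinite.toFinset with hs
  have hsm : ∀ v, v ∈ s ↔ v ∈ S := fun v => Set.Finite.mem_toFinset _
  set a : Finset V := A.toFinite.toFinset with ha
  have ham : ∀ v, v ∈ a ↔ v ∈ A := fun v => Set.Finite.mem_toFinset _
  have hsc : S.ncard = s.card := Set.ncard_eq_toFinset_card _ _
  have hac : A.ncard = a.card := Set.ncard_eq_toFinset_card _ _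
  have hsub : s ⊆ a := fun v hv => (ham v).2 (hSA ((hsm v).1 hv))
  let e1 := s.equivFin
  let e2 := (a \ s).equivFin
  have hcard : (a \ s).card + s.card = a.card := Finset.card_sdiff_add_card_eq_card hsub
  refine ⟨fun v => if h : v ∈ s then (e1 ⟨v, h⟩ : ℕ) else
    if h : v ∈ a \ s then s.card + (e2 ⟨v, h⟩ : ℕ) else 0, ?_, ?_, ?_⟩
  · intro v hv
    have hv' := (hsm v).2 hv
    simp only [hv', dite_true]
    rw [hsc]; exact (e1 ⟨v, hv'⟩).2
  · intro v hv
    rw [hac]
    by_cases h : v ∈ s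
    · simp only [h, dite_true]
      have := (e1 ⟨v, h⟩).2
      omega
    · have h2 : v ∈ a \ s := Finset.mem_sdiff.2 ⟨(ham v).2 hv, h⟩
      simp only [h, h2, dite_true, dite_false]
      have := (e2 ⟨v, h2⟩).2
      omega
  · intro u hu v hv huv
    by_cases h : u ∈ s <;> by_cases h' : v ∈ s
    · simp only [h, h', dite_true] at huv
      have := e1.injective (Fin.ext huv)
      simpa using this
    · have h2 : v ∈ a \ s := Finset.mem_sdiff.2 ⟨(ham v).2 hv, h'⟩
      simp only [h, h', h2, dite_true, dite_false] at huv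
      have := (e1 ⟨u, h⟩).2
      omega
    · have h2 : u ∈ a \ s := Finset.mem_sdiff.2 ⟨(ham u).2 hu, h⟩
      simp only [h, h', h2, dite_true, dite_false] at huv
      have := (e1 ⟨v, h'⟩).2
      omega
    · have h2 : u ∈ a \ s := Finset.mem_sdiff.2 ⟨(ham u).2 hu, h⟩
      have h3 : v ∈ a \ s := Finset.mem_sdiff.2 ⟨(ham v).2 hv, h'⟩
      simp only [h, h', h2, h3, dite_true, dite_false] at huv
      have := e2.injective (Fin.ext (by omega : (e2 ⟨u, h2⟩ : ℕ) = e2 ⟨v, h3⟩))
      simpa using this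

/-- Two cliques completely joined: their sizes add up to at most `k`. -/
theorem CL.add_ncard [Finite V] {s : Set V} {k : ℕ} (hk : CL G s k) {A B : Set V}
    (hA : G.IsClique A) (hB : G.IsClique B) (hAB : ∀ a ∈ A, ∀ b ∈ B, G.Adj a b)
    (hAs : A ⊆ s) (hBs : B ⊆ s) : A.ncard + B.ncard ≤ k := by
  classical
  have : Fintype V := Fintype.ofFinite V
  have hdis : Disjoint A B := by
    rw [Set.disjoint_left]
    intro v hv hv'
    exact G.loopless.irrefl _ (hAB v hv v hv')
  rw [← Set.ncard_union_eq hdis A.toFinite B.toFinite, Set.ncard_eq_toFinset_card _ (Set.toFinite _)]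
  apply hk
  · intro v hv
    rw [Set.Finite.coe_toFinset] at hv
    rcases hv with h | h
    · exact hAs h
    · exact hBs h
  · rw [Set.Finite.coe_toFinset]
    intro a ha b hb hab
    rcases ha with ha | ha <;> rcases hb with hb | hb
    · exact hA ha hb hab
    · exact hAB a ha b hb
    · exact (hAB b hb a ha).symm
    · exact hB ha hb hab

/-- Two anticomplete cliques `P1`, `P2` cover the common neighbours; the vertices of `Pi` have the
same neighbours outside. -/
structure GBs (G : SimpleGraph V) (q u : V) (P1 P2 : Set V) (b c : V) : Prop where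
  ts : TS G q u
  cov : ∀ v, v ∈ BB G q u ↔ v ∈ P1 ∨ v ∈ P2
  cl1 : G.IsClique P1
  cl2 : G.IsClique P2
  anti : Anti G P1 P2
  dis : ∀ v ∈ P1, v ∉ P2
  b1 : b ∈ P1
  c2 : c ∈ P2
  m1 : ∀ v ∈ P1, ∀ w, w ∈ NN G q ∨ w ∈ NN G u → (G.Adj v w ↔ G.Adj b w)
  m2 : ∀ v ∈ P2, ∀ w, w ∈ NN G q ∨ w ∈ NN G u → (G.Adj v w ↔ G.Adj c w)

theorem GBs.swap {q u : V} {P1 P2 : Set V} {b c : V} (h : GBs G q u P1 P2 b c) :
    GBs G q u P2 P1 c b :=
  ⟨h.ts, fun v => (h.cov v).trans or_comm, h.cl2, h.cl1,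
    fun a ha b hb hab => h.anti b hb a ha hab.symm, fun v hv hv' => h.dis v hv' hv,
    h.c2, h.b1, h.m2, h.m1⟩

theorem GBs.univ_eq {q u : V} {P1 P2 : Set V} {b c : V} (h : GBs G q u P1 P2 b c) (v : V) :
    v ∈ NN G q ∨ v ∈ NN G u ∨ v ∈ P1 ∨ v ∈ P2 := by
  rcases h.ts.part v with h1 | h1 | h1
  · exact Or.inl h1
  · exact Or.inr (Or.inl h1)
  · exact Or.inr (Or.inr ((h.cov v).1 h1))

theorem GBs.nq {q u : V} {P1 P2 : Set V} {b c : V} (h : GBs G q u P1 P2 b c) {v : V}
    (hv : v ∈ P1 ∨ v ∈ P2) (hv' : v ∈ NN G q) : False := hv'.2 ((h.cov v).2 hv).1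

theorem GBs.nu {q u : V} {P1 P2 : Set V} {b c : V} (h : GBs G q u P1 P2 b c) {v : V}
    (hv : v ∈ P1 ∨ v ∈ P2) (hv' : v ∈ NN G u) : False := hv'.2 ((h.cov v).2 hv).2

theorem GBs.gamma [Finite V] {q u : V} {P1 P2 : Set V} {b c : V} (h : GBs G q u P1 P2 b c)
    {k : ℕ} (hk : CL G Set.univ k) (hcr : Crit G k) (hS : ∀ w ∈ NN G q, G.Adj b w)
    (hR : ∀ x ∈ NN G u, G.Adj c x) : False := by
  classical
  have hKc : G.IsClique (NN G u ∪ P2) := by
    intro a ha d hd had
    rcases ha with ha | ha <;> rcases hd with hd | hd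
    · exact h.ts.cu ha hd had
    · exact ((h.m2 d hd a (Or.inr ha)).2 (hR a ha)).symm
    · exact (h.m2 a ha d (Or.inr hd)).2 (hR d hd)
    · exact h.cl2 ha hd had
  have hcol := lemE (G := G) (K := NN G u ∪ P2) (L := NN G q) (X := P1)
    (R := {x | x ∈ NN G u ∧ G.Adj b x}) (k := k) hKc h.ts.cq h.cl1
    (by
      rw [Set.disjoint_left]
      rintro v (hv | hv) hv'
      · exact h.ts.disj v hv' hv
      · exact h.nq (Or.inr hv) hv')
    (by
      rw [Set.disjoint_left]
      rintro v (hv | hv) hv'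
      · exact h.nu (Or.inl hv') hv
      · exact h.dis v hv' hv)
    (fun v hv => Or.inl hv.1)
    (by
      intro x hx w hw hxw
      exact h.ts.f4 ((h.cov b).2 (Or.inl h.b1)) hx.1 hw hx.2 (hS w hw) hxw)
    (fun x hx w hw => (h.m1 x hx w (Or.inl hw)).2 (hS w hw))
    (fun x hx r hr => (h.m1 x hx r (Or.inr hr.1)).2 hr.2)
    (by
      rintro x hx y (hy | hy) hyR hxy
      · exact hyR ⟨hy, (h.m1 x hx y (Or.inr hy)).1 hxy⟩
      · exact h.anti x hx y hy hxy)
    (hk.mono (Set.subset_univ _) le_rfl)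
  apply hcr.1
  refine hcol.mono (fun v _ => ?_) le_rfl
  rcases h.univ_eq v with h1 | h1 | h1 | h1
  · exact Or.inl (Or.inr h1)
  · exact Or.inl (Or.inl (Or.inl h1))
  · exact Or.inr h1
  · exact Or.inl (Or.inl (Or.inr h1))

theorem GBs.alpha [Finite V] {q u : V} {P1 P2 : Set V} {b c : V} (h : GBs G q u P1 P2 b c)
    {k : ℕ} (hk : CL G Set.univ k) (hcr : Crit G k) (hS : ∀ w ∈ NN G q, G.Adj b w)
    (hR : ∀ x ∈ NN G u, G.Adj b x) : False := by
  classical
  set S2 : Set V := {w | w ∈ NN G q ∧ G.Adj c w} with hS2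
  set R2 : Set V := {w | w ∈ NN G u ∧ G.Adj c w} with hR2
  obtain ⟨cU, u1, u2, u3⟩ := exists_rank S2 (NN G q) (fun v hv => hv.1)
  obtain ⟨cX, x1, x2, x3⟩ := exists_rank R2 (NN G u) (fun v hv => hv.1)
  obtain ⟨c1, -, p2, p3⟩ := exists_rank P1 P1 subset_rfl
  obtain ⟨c2, -, r2, r3⟩ := exists_rank P2 P2 subset_rfl
  have e1 : P1.ncard + (NN G q).ncard ≤ k := hk.add_ncard h.cl1 h.ts.cq
    (fun a ha w hw => (h.m1 a ha w (Or.inl hw)).2 (hS w hw)) (Set.subset_univ _)
    (Set.subset_univ _)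
  have e2 : P1.ncard + (NN G u).ncard ≤ k := hk.add_ncard h.cl1 h.ts.cu
    (fun a ha w hw => (h.m1 a ha w (Or.inr hw)).2 (hR w hw)) (Set.subset_univ _)
    (Set.subset_univ _)
  have e3 : P2.ncard + S2.ncard ≤ k := hk.add_ncard h.cl2
    (h.ts.cq.subset fun v hv => hv.1)
    (fun a ha w hw => (h.m2 a ha w (Or.inl hw.1)).2 hw.2) (Set.subset_univ _)
    (Set.subset_univ _)
  have e4 : P2.ncard + R2.ncard ≤ k := hk.add_ncard h.cl2
    (h.ts.cu.subset fun v hv => hv.1)
    (fun a ha w hw => (h.m2 a ha w (Or.inr hw.1)).2 hw.2) (Set.subset_univ _)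
    (Set.subset_univ _)
  have hUX : ∀ w ∈ NN G q, ∀ x ∈ NN G u, ¬ G.Adj x w := fun w hw x hx hxw =>
    h.ts.f4 ((h.cov b).2 (Or.inl h.b1)) hx hw (hR x hx) (hS w hw) hxw
  apply hcr.1
  refine ⟨fun v => if v ∈ P1 then k - 1 - c1 v else if v ∈ P2 then k - 1 - c2 v else
    if v ∈ NN G q then cU v else cX v, ?_, ?_⟩
  · intro v _
    have hk0 : 0 < k := by
      have := p2 b h.b1
      omega
    by_cases h1 : v ∈ P1
    · simp only [h1, if_true]; omega
    · by_cases h2 : v ∈ P2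
      · simp only [h1, h2, if_true, if_false]; omega
      · by_cases h3 : v ∈ NN G q
        · simp only [h1, h2, h3, if_true, if_false]
          have := u2 v h3
          omega
        · simp only [h1, h2, h3, if_false]
          have h4 : v ∈ NN G u := by
            rcases h.univ_eq v with h5 | h5 | h5 | h5
            · exact absurd h5 h3
            · exact h5
            · exact absurd h5 h1
            · exact absurd h5 h2
          have := x2 v h4
          omega
  · -- properness; first the mixed pairs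
    have pU : ∀ a ∈ P1, ∀ w ∈ NN G q, k - 1 - c1 a ≠ cU w := by
      intro a ha w hw
      have := p2 a ha
      have := u2 w hw
      omega
    have pX : ∀ a ∈ P1, ∀ w ∈ NN G u, k - 1 - c1 a ≠ cX w := by
      intro a ha w hw
      have := p2 a ha
      have := x2 w hw
      omega
    have rU : ∀ a ∈ P2, ∀ w ∈ NN G q, G.Adj a w → k - 1 - c2 a ≠ cU w := by
      intro a ha w hw haw
      have := r2 a ha
      have := u1 w ⟨hw, (h.m2 a ha w (Or.inl hw)).1 haw⟩
      omega
    have rX : ∀ a ∈ P2, ∀ w ∈ NN G u, G.Adj a w → k - 1 - c2 a ≠ cX w := by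
      intro a ha w hw haw
      have := r2 a ha
      have := x1 w ⟨hw, (h.m2 a ha w (Or.inr hw)).1 haw⟩
      omega
    have hcase : ∀ v, v ∈ P1 ∨ (v ∉ P1 ∧ v ∈ P2) ∨ (v ∉ P1 ∧ v ∉ P2 ∧ v ∈ NN G q) ∨
        (v ∉ P1 ∧ v ∉ P2 ∧ v ∉ NN G q ∧ v ∈ NN G u) := by
      intro v
      by_cases h1 : v ∈ P1
      · exact Or.inl h1
      · by_cases h2 : v ∈ P2
        · exact Or.inr (Or.inl ⟨h1, h2⟩)
        · by_cases h3 : v ∈ NN G q
          · exact Or.inr (Or.inr (Or.inl ⟨h1, h2, h3⟩))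
          · rcases h.univ_eq v with h5 | h5 | h5 | h5
            · exact absurd h5 h3
            · exact Or.inr (Or.inr (Or.inr ⟨h1, h2, h3, h5⟩))
            · exact absurd h5 h1
            · exact absurd h5 h2
    intro v _ w _ hvw
    have hne := hvw.ne
    rcases hcase v with a1 | ⟨a1, a2⟩ | ⟨a1, a2, a3⟩ | ⟨a1, a2, a3, a4⟩ <;>
      rcases hcase w with b1 | ⟨b1, b2⟩ | ⟨b1, b2, b3⟩ | ⟨b1, b2, b3, b4⟩
    · simp only [a1, b1, if_true]
      intro he
      have := p2 v a1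
      have := p2 w b1
      exact hne (p3 v a1 w b1 (by omega))
    · exact absurd hvw (h.anti v a1 w b2)
    · simp only [a1, b1, b2, b3, if_true, if_false]
      exact pU v a1 w b3
    · simp only [a1, b1, b2, b3, if_true, if_false]
      exact pX v a1 w b4
    · exact absurd hvw.symm (h.anti w b1 v a2)
    · simp only [a1, a2, b1, b2, if_true, if_false]
      intro he
      have := r2 v a2
      have := r2 w b2
      exact hne (r3 v a2 w b2 (by omega))
    · simp only [a1, a2, b1, b2, b3, if_true, if_false]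
      exact rU v a2 w b3 hvw
    · simp only [a1, a2, b1, b2, b3, if_true, if_false]
      exact rX v a2 w b4 hvw
    · simp only [a1, a2, a3, b1, if_true, if_false]
      exact (pU w b1 v a3).symm
    · simp only [a1, a2, a3, b1, b2, if_true, if_false]
      exact (rU w b2 v a3 hvw.symm).symm
    · simp only [a1, a2, a3, b1, b2, b3, if_true, if_false]
      exact fun he => hne (u3 v a3 w b3 he)
    · exact absurd hvw.symm (hUX v a3 w b4)
    · simp only [a1, a2, a3, b1, if_true, if_false]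
      exact (pX w b1 v a4).symm
    · simp only [a1, a2, a3, b1, b2, if_true, if_false]
      exact (rX w b2 v a4 hvw.symm).symm
    · exact absurd hvw (hUX w b3 v a4)
    · simp only [a1, a2, a3, b1, b2, b3, if_false]
      exact fun he => hne (x3 v a4 w b4 he)

/-- The final case distinction. -/
theorem GBs.done [Finite V] {q u : V} {P1 P2 : Set V} {b c : V} (h : GBs G q u P1 P2 b c)
    {k : ℕ} (hk : CL G Set.univ k) (hcr : Crit G k) (hbc : b ≠ c)
    (hNN : G.IsClique (NN G b)) : False := by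
  have hbc' : ¬ G.Adj b c := h.anti b h.b1 c h.c2
  have hbB := (h.cov b).2 (Or.inl h.b1)
  have hcB := (h.cov c).2 (Or.inr h.c2)
  have hcN : c ∈ NN G b := ⟨hbc.symm, hbc'⟩
  -- neighbourhoods cover
  have hcovq : ∀ w ∈ NN G q, ¬ G.Adj b w → G.Adj c w := by
    intro w hw hbw
    have h1 : w ≠ b := by rintro rfl; exact hw.2 hbB.1
    have h2 : c ≠ w := by rintro rfl; exact hw.2 hcB.1
    exact hNN hcN ⟨h1, hbw⟩ h2
  have hcovu : ∀ w ∈ NN G u, ¬ G.Adj b w → G.Adj c w := by
    intro w hw hbw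
    have h1 : w ≠ b := by rintro rfl; exact hw.2 hbB.2
    have h2 : c ≠ w := by rintro rfl; exact hw.2 hcB.2
    exact hNN hcN ⟨h1, hbw⟩ h2
  have hS : (∀ w ∈ NN G q, G.Adj b w) ∨ (∀ w ∈ NN G q, G.Adj c w) := by
    rcases h.ts.f3 hbB hcB hbc hbc' with h1 | h1
    · right
      intro w hw
      by_cases hbw : G.Adj b w
      · exact h1 w hw hbw
      · exact hcovq w hw hbw
    · left
      intro w hw
      by_contra hbw
      exact hbw (h1 w hw (hcovq w hw hbw))
  have hR : (∀ w ∈ NN G u, G.Adj b w) ∨ (∀ w ∈ NN G u, G.Adj c w) := by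
    rcases h.ts.symm.f3 (b := b) (b' := c) ⟨hbB.2, hbB.1⟩ ⟨hcB.2, hcB.1⟩ hbc hbc' with h1 | h1
    · right
      intro w hw
      by_cases hbw : G.Adj b w
      · exact h1 w hw hbw
      · exact hcovu w hw hbw
    · left
      intro w hw
      by_contra hbw
      exact hbw (h1 w hw (hcovu w hw hbw))
  rcases hS with hS | hS <;> rcases hR with hR | hR
  · exact h.alpha hk hcr hS hR
  · exact h.gamma hk hcr hS hR
  · exact h.swap.gamma hk hcr hS hR
  · exact h.swap.alpha hk hcr hS hR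

theorem g_big [Finite V] {q u : V} (h : TS G q u) {k : ℕ} (hk : CL G Set.univ k) (hcr : Crit G k)
    {b b' c : V} (hb : b ∈ BB G q u) (hb' : b' ∈ BB G q u) (hc : c ∈ BB G q u)
    (hbb : G.Adj b b') (hbc : ¬ G.Adj b c) (hne : b ≠ c) : False := by
  classical
  -- the component of `b` in the common neighbours
  set M : Set V := {v | Relation.ReflTransGen (fun a a' => G.Adj a a' ∧ a' ∈ BB G q u) b v} with hM
  have hMB : ∀ v ∈ M, v ∈ BB G q u := by
    intro v hv
    rw [hM] at hv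
    rcases Relation.ReflTransGen.cases_tail hv with h1 | ⟨d, -, h1⟩
    · rw [h1]; exact hb
    · exact h1.2
  have hbM : b ∈ M := Relation.ReflTransGen.refl
  have hstep : ∀ v ∈ M, ∀ w ∈ BB G q u, G.Adj v w → w ∈ M := fun v hv w hw hvw =>
    Relation.ReflTransGen.tail hv ⟨hvw, hw⟩
  have hmq : ∀ v ∈ M, ∀ w, w ∈ NN G q ∨ w ∈ NN G u → (G.Adj v w ↔ G.Adj b w) := by
    intro v hv w hw
    have hv' : Relation.ReflTransGen (fun a a' => G.Adj a a' ∧ a' ∈ BB G q u) b v := hv
    clear hv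
    induction hv' with
    | refl => exact Iff.rfl
    | @tail d e hd hde ih =>
      have hdB : d ∈ BB G q u := hMB d hd
      refine Iff.trans ?_ ih
      rcases hw with hw | hw
      · exact ⟨fun h1 => h.f2 hde.2 hdB hw hde.1.symm h1, fun h1 => h.f2 hdB hde.2 hw hde.1 h1⟩
      · exact ⟨fun h1 => h.symm.f2 ⟨hde.2.2, hde.2.1⟩ ⟨hdB.2, hdB.1⟩ hw hde.1.symm h1,
          fun h1 => h.symm.f2 ⟨hdB.2, hdB.1⟩ ⟨hde.2.2, hde.2.1⟩ hw hde.1 h1⟩
  have hMod : ∀ v, v ∉ M → (∀ w ∈ M, G.Adj v w) ∨ (∀ w ∈ M, ¬ G.Adj v w) := by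
    intro v hv
    rcases h.part v with h1 | h1 | h1
    · by_cases h2 : G.Adj b v
      · exact Or.inl fun w hw => ((hmq w hw v (Or.inl h1)).2 h2).symm
      · exact Or.inr fun w hw h3 => h2 ((hmq w hw v (Or.inl h1)).1 h3.symm)
    · by_cases h2 : G.Adj b v
      · exact Or.inl fun w hw => ((hmq w hw v (Or.inr h1)).2 h2).symm
      · exact Or.inr fun w hw h3 => h2 ((hmq w hw v (Or.inr h1)).1 h3.symm)
    · exact Or.inr fun w hw h3 => hv (hstep w hw v h1 h3.symm)
  have hMu : M ≠ Set.univ := by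
    intro he
    have : q ∈ M := by rw [he]; trivial
    exact G.loopless.irrefl _ (hMB q this).1
  have hMc : G.IsClique M := Crit.module h.cls hcr hk M hMod hMu
  have hb'M : b' ∈ M := hstep b hbM b' hb' hbb
  have htw : Twin G b b' := by
    refine ⟨hbb, fun z hz1 hz2 => ?_⟩
    by_cases hzM : z ∈ M
    · exact iff_of_true (hMc hzM hbM hz1) (hMc hzM hb'M hz2)
    · rcases hMod z hzM with h1 | h1
      · exact iff_of_true (h1 b hbM) (h1 b' hb'M)
      · exact iff_of_false (h1 b hbM) (h1 b' hb'M)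
  have hNN := tw h.cls hk hcr htw
  have hP2 : ∀ v ∈ BB G q u, v ∉ M → v ∈ NN G b := by
    intro v hv hvM
    refine ⟨?_, fun h1 => hvM (hstep b hbM v hv h1)⟩
    rintro rfl
    exact hvM hbM
  have hcM : c ∉ M := fun hcM => hbc (hMc hbM hcM hne)
  have hP2c : G.IsClique {v | v ∈ BB G q u ∧ v ∉ M} := by
    intro v hv w hw hvw
    exact hNN (hP2 v hv.1 hv.2) (hP2 w hw.1 hw.2) hvw
  have hs : GBs G q u M {v | v ∈ BB G q u ∧ v ∉ M} b c := by
    refine ⟨h, ?_, hMc, hP2c, ?_, fun v hv hv' => hv'.2 hv, hbM, ⟨hc, hcM⟩, hmq, ?_⟩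
    · intro v
      constructor
      · intro hv
        by_cases hvM : v ∈ M
        · exact Or.inl hvM
        · exact Or.inr ⟨hv, hvM⟩
      · rintro (hv | hv)
        · exact hMB v hv
        · exact hv.1
    · intro v hv w hw hvw
      exact hw.2 (hstep v hv w hw.1 hvw)
    · intro v hv w hw
      by_cases hvc : v = c
      · rw [hvc]
      · have hadj : G.Adj v c := hP2c hv ⟨hc, hcM⟩ hvc
        rcases hw with hw | hw
        · exact ⟨fun h1 => h.f2 hv.1 hc hw hadj h1, fun h1 => h.f2 hc hv.1 hw hadj.symm h1⟩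
        · exact ⟨fun h1 => h.symm.f2 ⟨hv.1.2, hv.1.1⟩ ⟨hc.2, hc.1⟩ hw hadj h1,
            fun h1 => h.symm.f2 ⟨hc.2, hc.1⟩ ⟨hv.1.2, hv.1.1⟩ hw hadj.symm h1⟩
  exact hs.done hk hcr hne hNN

end GP
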