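import Pool.Agent.Work.MP_31af1e_lc.BA

/-!
Helper: clique expansions of the 5-cycle from five bags, and the finishing lemmas for two cliques.
-/

set_option autoImplicit false

namespace GP

variable {V : Type} {G : SimpleGraph V}

/-- Five bags (maybe empty) in cyclic order give the function required in `C5E`, `w5_card`. -/
theorem c5_bags {s B0 B1 B2 B3 B4 : Set V}
    (hcov : ∀ v ∈ s, v ∈ B0 ∨ v ∈ B1 ∨ v ∈ B2 ∨ v ∈ B3 ∨ v ∈ B4)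
    (k0 : G.IsClique B0) (k1 : G.IsClique B1) (k2 : G.IsClique B2) (k3 : G.IsClique B3)
    (k4 : G.IsClique B4)
    (c01 : ∀ a ∈ B0, ∀ b ∈ B1, G.Adj a b) (c12 : ∀ a ∈ B1, ∀ b ∈ B2, G.Adj a b)
    (c23 : ∀ a ∈ B2, ∀ b ∈ B3, G.Adj a b) (c34 : ∀ a ∈ B3, ∀ b ∈ B4, G.Adj a b)
    (c40 : ∀ a ∈ B4, ∀ b ∈ B0, G.Adj a b)
    (n02 : ∀ a ∈ B0, ∀ b ∈ B2, ¬ G.Adj a b) (n13 : ∀ a ∈ B1, ∀ b ∈ B3, ¬ G.Adj a b)
    (n24 : ∀ a ∈ B2, ∀ b ∈ B4, ¬ G.Adj a b) (n30 : ∀ a ∈ B3, ∀ b ∈ B0, ¬ G.Adj a b)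
    (n41 : ∀ a ∈ B4, ∀ b ∈ B1, ¬ G.Adj a b) :
    ∃ f : V → ZMod 5, (∀ v ∈ s, (v ∈ B0 ∧ f v = 0) ∨ (v ∈ B1 ∧ f v = 1) ∨ (v ∈ B2 ∧ f v = 2) ∨
      (v ∈ B3 ∧ f v = 3) ∨ (v ∈ B4 ∧ f v = 4)) ∧
    ∀ u ∈ s, ∀ v ∈ s, u ≠ v → (G.Adj u v ↔ (f v = f u ∨ f v = f u + 1 ∨ f u = f v + 1)) := by
  classical
  let f : V → ZMod 5 := fun v => if v ∈ B0 then 0 else if v ∈ B1 then 1 else if v ∈ B2 then 2
    else if v ∈ B3 then 3 else 4
  have hf : ∀ v ∈ s, (v ∈ B0 ∧ f v = 0) ∨ (v ∈ B1 ∧ f v = 1) ∨ (v ∈ B2 ∧ f v = 2) ∨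
      (v ∈ B3 ∧ f v = 3) ∨ (v ∈ B4 ∧ f v = 4) := by
    intro v hv
    by_cases h0 : v ∈ B0
    · exact Or.inl ⟨h0, by simp [f, h0]⟩
    · by_cases h1 : v ∈ B1
      · exact Or.inr (Or.inl ⟨h1, by simp [f, h0, h1]⟩)
      · by_cases h2 : v ∈ B2
        · exact Or.inr (Or.inr (Or.inl ⟨h2, by simp [f, h0, h1, h2]⟩))
        · by_cases h3 : v ∈ B3
          · exact Or.inr (Or.inr (Or.inr (Or.inl ⟨h3, by simp [f, h0, h1, h2, h3]⟩)))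
          · have h4 : v ∈ B4 := by
              rcases hcov v hv with h | h | h | h | h
              · exact absurd h h0
              · exact absurd h h1
              · exact absurd h h2
              · exact absurd h h3
              · exact h
            exact Or.inr (Or.inr (Or.inr (Or.inr ⟨h4, by simp [f, h0, h1, h2, h3]⟩)))
  refine ⟨f, hf, ?_⟩
  intro u hu v hv huv
  rcases hf u hu with ⟨hu', eu⟩ | ⟨hu', eu⟩ | ⟨hu', eu⟩ | ⟨hu', eu⟩ | ⟨hu', eu⟩ <;>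
    rcases hf v hv with ⟨hv', ev⟩ | ⟨hv', ev⟩ | ⟨hv', ev⟩ | ⟨hv', ev⟩ | ⟨hv', ev⟩ <;>
    rw [eu, ev]
  all_goals first
    | exact iff_of_true (k0 hu' hv' huv) (by decide)
    | exact iff_of_true (k1 hu' hv' huv) (by decide)
    | exact iff_of_true (k2 hu' hv' huv) (by decide)
    | exact iff_of_true (k3 hu' hv' huv) (by decide)
    | exact iff_of_true (k4 hu' hv' huv) (by decide)
    | exact iff_of_true (c01 _ hu' _ hv') (by decide)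
    | exact iff_of_true (c12 _ hu' _ hv') (by decide)
    | exact iff_of_true (c23 _ hu' _ hv') (by decide)
    | exact iff_of_true (c34 _ hu' _ hv') (by decide)
    | exact iff_of_true (c40 _ hu' _ hv') (by decide)
    | exact iff_of_true (c01 _ hv' _ hu').symm (by decide)
    | exact iff_of_true (c12 _ hv' _ hu').symm (by decide)
    | exact iff_of_true (c23 _ hv' _ hu').symm (by decide)
    | exact iff_of_true (c34 _ hv' _ hu').symm (by decide)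
    | exact iff_of_true (c40 _ hv' _ hu').symm (by decide)
    | exact iff_of_false (n02 _ hu' _ hv') (by decide)
    | exact iff_of_false (n13 _ hu' _ hv') (by decide)
    | exact iff_of_false (n24 _ hu' _ hv') (by decide)
    | exact iff_of_false (n30 _ hu' _ hv') (by decide)
    | exact iff_of_false (n41 _ hu' _ hv') (by decide)
    | exact iff_of_false (fun h => n02 _ hv' _ hu' h.symm) (by decide)
    | exact iff_of_false (fun h => n13 _ hv' _ hu' h.symm) (by decide)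
    | exact iff_of_false (fun h => n24 _ hv' _ hu' h.symm) (by decide)
    | exact iff_of_false (fun h => n30 _ hv' _ hu' h.symm) (by decide)
    | exact iff_of_false (fun h => n41 _ hv' _ hu' h.symm) (by decide)

/-- Five nonempty bags in cyclic order that cover `s`: a clique expansion of `C5`. -/
theorem c5e_of_bags {s B0 B1 B2 B3 B4 : Set V}
    (hcov : ∀ v ∈ s, v ∈ B0 ∨ v ∈ B1 ∨ v ∈ B2 ∨ v ∈ B3 ∨ v ∈ B4)
    (s0 : ∃ v ∈ s, v ∈ B0) (s1 : ∃ v ∈ s, v ∈ B1) (s2 : ∃ v ∈ s, v ∈ B2) (s3 : ∃ v ∈ s, v ∈ B3)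
    (s4 : ∃ v ∈ s, v ∈ B4)
    (k0 : G.IsClique B0) (k1 : G.IsClique B1) (k2 : G.IsClique B2) (k3 : G.IsClique B3)
    (k4 : G.IsClique B4)
    (c01 : ∀ a ∈ B0, ∀ b ∈ B1, G.Adj a b) (c12 : ∀ a ∈ B1, ∀ b ∈ B2, G.Adj a b)
    (c23 : ∀ a ∈ B2, ∀ b ∈ B3, G.Adj a b) (c34 : ∀ a ∈ B3, ∀ b ∈ B4, G.Adj a b)
    (c40 : ∀ a ∈ B4, ∀ b ∈ B0, G.Adj a b)
    (n02 : ∀ a ∈ B0, ∀ b ∈ B2, ¬ G.Adj a b) (n13 : ∀ a ∈ B1, ∀ b ∈ B3, ¬ G.Adj a b)
    (n24 : ∀ a ∈ B2, ∀ b ∈ B4, ¬ G.Adj a b) (n30 : ∀ a ∈ B3, ∀ b ∈ B0, ¬ G.Adj a b)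
    (n41 : ∀ a ∈ B4, ∀ b ∈ B1, ¬ G.Adj a b) : C5E G s := by
  obtain ⟨f, hf1, hf2⟩ := c5_bags hcov k0 k1 k2 k3 k4 c01 c12 c23 c34 c40 n02 n13 n24 n30 n41
  refine ⟨f, ?_, hf2⟩
  obtain ⟨v0, v0s, v0B⟩ := s0
  obtain ⟨v1, v1s, v1B⟩ := s1
  obtain ⟨v2, v2s, v2B⟩ := s2
  obtain ⟨v3, v3s, v3B⟩ := s3
  obtain ⟨v4, v4s, v4B⟩ := s4
  have irr : ∀ v, ¬ G.Adj v v := fun v => G.loopless.irrefl v
  -- adjacent bags are disjoint, the others too because of the third ones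
  have d01 : ∀ v, v ∈ B0 → v ∈ B1 → False := fun v h h' => irr v (c01 v h v h')
  have d12 : ∀ v, v ∈ B1 → v ∈ B2 → False := fun v h h' => irr v (c12 v h v h')
  have d23 : ∀ v, v ∈ B2 → v ∈ B3 → False := fun v h h' => irr v (c23 v h v h')
  have d34 : ∀ v, v ∈ B3 → v ∈ B4 → False := fun v h h' => irr v (c34 v h v h')
  have d40 : ∀ v, v ∈ B4 → v ∈ B0 → False := fun v h h' => irr v (c40 v h v h')
  have d02 : ∀ v, v ∈ B0 → v ∈ B2 → False := fun v h h' =>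
    n30 v3 v3B v h (c23 v h' v3 v3B).symm
  have d13 : ∀ v, v ∈ B1 → v ∈ B3 → False := fun v h h' =>
    n41 v4 v4B v h (c34 v h' v4 v4B).symm
  have d24 : ∀ v, v ∈ B2 → v ∈ B4 → False := fun v h h' =>
    n02 v0 v0B v h (c40 v h' v0 v0B).symm
  have d30 : ∀ v, v ∈ B3 → v ∈ B0 → False := fun v h h' =>
    n13 v1 v1B v h (c01 v h' v1 v1B).symm
  have d41 : ∀ v, v ∈ B4 → v ∈ B1 → False := fun v h h' =>
    n24 v2 v2B v h (c12 v h' v2 v2B).symm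
  have e0 : f v0 = 0 := by
    rcases hf1 v0 v0s with ⟨h, e⟩ | ⟨h, e⟩ | ⟨h, e⟩ | ⟨h, e⟩ | ⟨h, e⟩
    · exact e
    · exact (d01 _ v0B h).elim
    · exact (d02 _ v0B h).elim
    · exact (d30 _ h v0B).elim
    · exact (d40 _ h v0B).elim
  have e1 : f v1 = 1 := by
    rcases hf1 v1 v1s with ⟨h, e⟩ | ⟨h, e⟩ | ⟨h, e⟩ | ⟨h, e⟩ | ⟨h, e⟩
    · exact (d01 _ h v1B).elim
    · exact e
    · exact (d12 _ v1B h).elim
    · exact (d13 _ v1B h).elim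
    · exact (d41 _ h v1B).elim
  have e2 : f v2 = 2 := by
    rcases hf1 v2 v2s with ⟨h, e⟩ | ⟨h, e⟩ | ⟨h, e⟩ | ⟨h, e⟩ | ⟨h, e⟩
    · exact (d02 _ h v2B).elim
    · exact (d12 _ h v2B).elim
    · exact e
    · exact (d23 _ v2B h).elim
    · exact (d24 _ v2B h).elim
  have e3 : f v3 = 3 := by
    rcases hf1 v3 v3s with ⟨h, e⟩ | ⟨h, e⟩ | ⟨h, e⟩ | ⟨h, e⟩ | ⟨h, e⟩
    · exact (d30 _ v3B h).elim
    · exact (d13 _ h v3B).elim
    · exact (d23 _ h v3B).elim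
    · exact e
    · exact (d34 _ v3B h).elim
  have e4 : f v4 = 4 := by
    rcases hf1 v4 v4s with ⟨h, e⟩ | ⟨h, e⟩ | ⟨h, e⟩ | ⟨h, e⟩ | ⟨h, e⟩
    · exact (d40 _ v4B h).elim
    · exact (d41 _ v4B h).elim
    · exact (d24 _ h v4B).elim
    · exact (d34 _ h v4B).elim
    · exact e
  have all5 : ∀ i : ZMod 5, i = 0 ∨ i = 1 ∨ i = 2 ∨ i = 3 ∨ i = 4 := by decide
  intro i
  rcases all5 i with rfl | rfl | rfl | rfl | rfl
  · exact ⟨v0, v0s, e0⟩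
  · exact ⟨v1, v1s, e1⟩
  · exact ⟨v2, v2s, e2⟩
  · exact ⟨v3, v3s, e3⟩
  · exact ⟨v4, v4s, e4⟩

/-- A clique with a vertex complete to it. -/
theorem CL.add_one [Finite V] {s : Set V} {k : ℕ} (h : CL G s k) {t : Finset V} (hts : (t : Set V) ⊆ s)
    (ht : G.IsClique (t : Set V)) {z : V} (hz : z ∈ s) (hzt : ∀ v ∈ t, G.Adj z v) :
    t.card + 1 ≤ k := by
  classical
  have hzn : z ∉ t := fun h => G.loopless.irrefl z (hzt z h)
  have h1 := h (insert z t) (by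
    intro v hv
    rcases Finset.mem_insert.1 (Finset.mem_coe.1 hv) with rfl | hv
    · exact hz
    · exact hts hv) (by
    rw [Finset.coe_insert]
    exact (SimpleGraph.isClique_insert).2 ⟨ht, fun b hb _ => hzt b hb⟩)
  rwa [Finset.card_insert_of_notMem hzn] at h1

theorem Crit.k_pos [Finite V] {k : ℕ} (hk : CL G Set.univ k) (q : V) : 1 ≤ k := by
  have := hk {q} (Set.subset_univ _) (by simp)
  simpa using this

end GP
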