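import Pool.Agent.Work.MP_31af1e_lc.BA

/-!
Module W5: clique expansions of the 5-cycle.
-/

set_option autoImplicit false

namespace GP

variable {V : Type} {G : SimpleGraph V}

/-- equal or consecutive -/
def R5 (a b : ZMod 5) : Prop := b = a ∨ b = a + 1 ∨ a = b + 1

instance (a b : ZMod 5) : Decidable (R5 a b) := by unfold R5; infer_instance

theorem R5.no3 : ∀ a b c : ZMod 5, ¬ R5 a b → ¬ R5 a c → ¬ R5 b c → False := by decide

theorem R5.two : ∀ a b c : ZMod 5, a = b + 1 → R5 a c → R5 b c → (c = b ∨ c = b + 1) := by decide

theorem R5.pair : ∀ j a b : ZMod 5, (a = j ∨ a = j + 1) → (b = j ∨ b = j + 1) → R5 a b := by decide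

theorem R5.oth : ∀ i j : ZMod 5, j ≠ i → (i + 2 = j ∨ i + 2 = j + 1) ∨ (i + 4 = j ∨ i + 4 = j + 1) := by
  decide

theorem R5.ne1 : ∀ i : ZMod 5, i ≠ i + 1 := by decide

theorem R5.ne2 : ∀ i : ZMod 5, i + 2 ≠ i + 4 := by decide

theorem R5.nadj : ∀ i : ZMod 5, ¬ R5 (i + 2) (i + 4) := by decide

theorem w5_card [Finite V] {s : Set V} (f : V → ZMod 5)
    (hf : ∀ u ∈ s, ∀ v ∈ s, u ≠ v → (G.Adj u v ↔ (f v = f u ∨ f v = f u + 1 ∨ f u = f v + 1)))
    {k : ℕ} (hs : Col G s k) : s.ncard ≤ 2 * k := by
  classical
  obtain ⟨c, h1, h2⟩ := hs
  set S : Finset V := s.toFinite.toFinset with hS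
  have hSm : ∀ v, v ∈ S ↔ v ∈ s := fun v => Set.Finite.mem_toFinset _
  have hcard : s.ncard = S.card := by
    rw [Set.ncard_eq_toFinset_card s s.toFinite]
  have h3 : S.card ≤ 2 * (S.image c).card := by
    apply Finset.card_le_mul_card_image
    intro a _
    by_contra hcon
    push Not at hcon
    obtain ⟨x, hx, y, hy, z, hz, hxy, hxz, hyz⟩ := Finset.two_lt_card.1 hcon
    rw [Finset.mem_filter] at hx hy hz
    have key : ∀ u v, (u ∈ S ∧ c u = a) → (v ∈ S ∧ c v = a) → u ≠ v → ¬ R5 (f u) (f v) := by
      intro u v hu hv huv hR
      have := (hf u ((hSm u).1 hu.1) v ((hSm v).1 hv.1) huv).2 hR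
      exact h2 u ((hSm u).1 hu.1) v ((hSm v).1 hv.1) this (hu.2.trans hv.2.symm)
    exact R5.no3 _ _ _ (key x y hx hy hxy) (key x z hx hz hxz) (key y z hy hz hyz)
  have h4 : (S.image c).card ≤ k := by
    have : S.image c ⊆ Finset.range k := by
      intro i hi
      obtain ⟨v, hv, rfl⟩ := Finset.mem_image.1 hi
      exact Finset.mem_range.2 (h1 v ((hSm v).1 hv))
    simpa using Finset.card_le_card this
  omega

theorem w5_rank [Finite V] (S : Finset V) (f : V → ZMod 5) : ∃ ρ : V → ℕ,
    (∀ v ∈ S, ρ v < (S.filter fun w => f w = f v).card) ∧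
    ∀ u ∈ S, ∀ v ∈ S, f u = f v → ρ u = ρ v → u = v := by
  classical
  have : Fintype V := Fintype.ofFinite V
  obtain ⟨g⟩ : Nonempty (V ≃ Fin (Fintype.card V)) := ⟨Fintype.equivFin V⟩
  refine ⟨fun v => (S.filter fun w => f w = f v ∧ g w < g v).card, ?_, ?_⟩
  · intro v hv
    apply Finset.card_lt_card
    rw [Finset.ssubset_iff_of_subset]
    · exact ⟨v, by simp [hv], by simp⟩
    · intro w hw
      rw [Finset.mem_filter] at hw ⊢
      exact ⟨hw.1, hw.2.1⟩
  · have key : ∀ u ∈ S, ∀ v ∈ S, f u = f v → g u < g v →
        (S.filter fun w => f w = f u ∧ g w < g u).card <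
        (S.filter fun w => f w = f v ∧ g w < g v).card := by
      intro u hu v hv huv hlt
      apply Finset.card_lt_card
      rw [Finset.ssubset_iff_of_subset]
      · exact ⟨u, by simp [hu, huv, hlt], by simp⟩
      · intro w hw
        rw [Finset.mem_filter] at hw ⊢
        exact ⟨hw.1, hw.2.1.trans huv, hw.2.2.trans hlt⟩
    intro u hu v hv huv heq
    simp only at heq
    rcases lt_trichotomy (g u) (g v) with h | h | h
    · have := key u hu v hv huv h; omega
    · exact g.injective h
    · have := key v hv u hu huv.symm h; omega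

theorem w5_col [Finite V] {s : Set V} (f : V → ZMod 5)
    (hf : ∀ u ∈ s, ∀ v ∈ s, u ≠ v → (G.Adj u v ↔ (f v = f u ∨ f v = f u + 1 ∨ f u = f v + 1)))
    {k : ℕ} (hk : CL G s k) (hs : s.ncard ≤ 2 * k) : Col G s k := by
  classical
  induction k generalizing s with
  | zero =>
    have h0 : s.ncard = 0 := by omega
    rw [Set.ncard_eq_zero s.toFinite] at h0
    subst h0
    exact ⟨fun _ => 0, fun v hv => absurd hv (Set.notMem_empty v),
      fun v hv => absurd hv (Set.notMem_empty v)⟩
  | succ k ih =>
    set S : Finset V := s.toFinite.toFinset with hS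
    have hSm : ∀ v, v ∈ S ↔ v ∈ s := fun v => Set.Finite.mem_toFinset _
    have hcard : s.ncard = S.card := by
      rw [Set.ncard_eq_toFinset_card s s.toFinite]
    set b : ZMod 5 → ℕ := fun i => (S.filter fun w => f w = i).card with hb
    have hbb : ∀ i : ZMod 5, b i + b (i + 1) ≤ k + 1 := by
      intro i
      have hdis : Disjoint (S.filter fun w => f w = i) (S.filter fun w => f w = i + 1) := by
        rw [Finset.disjoint_left]
        intro v hv hv'
        rw [Finset.mem_filter] at hv hv'
        exact R5.ne1 i (hv.2.symm.trans hv'.2)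
      have : ((S.filter fun w => f w = i) ∪ (S.filter fun w => f w = i + 1)).card ≤ k + 1 := by
        apply hk
        · intro v hv
          rcases Finset.mem_union.1 hv with h | h
          · exact (hSm v).1 (Finset.mem_filter.1 h).1
          · exact (hSm v).1 (Finset.mem_filter.1 h).1
        · intro u hu v hv huv
          have hu' : u ∈ S ∧ (f u = i ∨ f u = i + 1) := by
            rcases Finset.mem_union.1 hu with h | h
            · exact ⟨(Finset.mem_filter.1 h).1, Or.inl (Finset.mem_filter.1 h).2⟩
            · exact ⟨(Finset.mem_filter.1 h).1, Or.inr (Finset.mem_filter.1 h).2⟩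
          have hv' : v ∈ S ∧ (f v = i ∨ f v = i + 1) := by
            rcases Finset.mem_union.1 hv with h | h
            · exact ⟨(Finset.mem_filter.1 h).1, Or.inl (Finset.mem_filter.1 h).2⟩
            · exact ⟨(Finset.mem_filter.1 h).1, Or.inr (Finset.mem_filter.1 h).2⟩
          exact (hf u ((hSm u).1 hu'.1) v ((hSm v).1 hv'.1) huv).2 (R5.pair i _ _ hu'.2 hv'.2)
      rwa [Finset.card_union_of_disjoint hdis] at this
    have hsum : b 0 + b 1 + b 2 + b 3 + b 4 = S.card := by
      have h1 : S.card = ∑ i : ZMod 5, b i := by
        rw [Finset.card_eq_sum_card_fiberwise (f := f) (t := Finset.univ)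
          (fun x _ => Finset.mem_coe.2 (Finset.mem_univ _))]
      rw [h1]
      have h2 : (Finset.univ : Finset (ZMod 5)) = {0, 1, 2, 3, 4} := by decide
      rw [h2, Finset.sum_insert (by decide), Finset.sum_insert (by decide),
        Finset.sum_insert (by decide), Finset.sum_insert (by decide), Finset.sum_singleton]
      ring
    by_cases hall : ∀ i, 1 ≤ b i
    · -- all bags are nonempty
      obtain ⟨i, hi⟩ : ∃ i : ZMod 5, b i + b (i + 1) ≤ k := by
        by_contra hcon
        push Not at hcon
        have h0 : b 0 + b 1 ≥ k + 1 := by have := hcon 0; simpa using this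
        have h1 : b 1 + b 2 ≥ k + 1 := hcon 1
        have h2 : b 2 + b 3 ≥ k + 1 := hcon 2
        have h3 : b 3 + b 4 ≥ k + 1 := hcon 3
        have h4 : b 4 + b 0 ≥ k + 1 := hcon 4
        omega
      obtain ⟨v, hv⟩ := Finset.card_pos.1 (hall (i + 2))
      obtain ⟨v', hv'⟩ := Finset.card_pos.1 (hall (i + 4))
      rw [Finset.mem_filter] at hv hv'
      have hvs : v ∈ s := (hSm v).1 hv.1
      have hvs' : v' ∈ s := (hSm v').1 hv'.1
      have hne : v ≠ v' := by
        rintro rfl
        exact R5.ne2 i (hv.2.symm.trans hv'.2)
      have hnadj : ¬ G.Adj v v' := by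
        intro h
        have := (hf v hvs v' hvs' hne).1 h
        rw [hv.2, hv'.2] at this
        exact R5.nadj i this
      have hcol : Col G (s \ {v, v'}) k := by
        apply ih
        · intro u hu w hw huw
          exact hf u hu.1 w hw.1 huw
        · intro T hT hTc
          by_contra hTk
          push Not at hTk
          have hTs : ∀ t ∈ T, t ∈ s ∧ t ≠ v ∧ t ≠ v' := by
            intro t ht
            have := hT (Finset.mem_coe.2 ht)
            refine ⟨this.1, fun h => this.2 (by simp [h]), fun h => this.2 (by simp [h])⟩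
          have hTR : ∀ t ∈ T, ∀ t' ∈ T, R5 (f t) (f t') := by
            intro t ht t' ht'
            by_cases h : t = t'
            · subst h; exact Or.inl rfl
            · exact (hf t (hTs t ht).1 t' (hTs t' ht').1 h).1 (hTc ht ht' h)
          have hTne : T.Nonempty := Finset.card_pos.1 (by omega)
          obtain ⟨t0, ht0⟩ := hTne
          obtain ⟨j, hj⟩ : ∃ j : ZMod 5, ∀ t ∈ T, f t = j ∨ f t = j + 1 := by
            by_cases h : ∀ t ∈ T, f t = f t0 ∨ f t = f t0 + 1
            · exact ⟨f t0, h⟩
            · push Not at h
              obtain ⟨t1, ht1, h1, h2⟩ := h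
              have h3 : f t0 = f t1 + 1 := by
                rcases hTR t0 ht0 t1 ht1 with h | h | h
                · exact absurd h h1
                · exact absurd h h2
                · exact h
              exact ⟨f t1, fun t ht => R5.two _ _ _ h3 (hTR t0 ht0 t ht) (hTR t1 ht1 t ht)⟩
          -- adding a vertex
          have hadd : ∀ z ∈ s, z ∉ T → (f z = j ∨ f z = j + 1) → False := by
            intro z hz hzT hzj
            have h1 : (insert z T).card ≤ k + 1 := by
              apply hk
              · intro a ha
                rcases Finset.mem_insert.1 (Finset.mem_coe.1 ha) with rfl | ha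
                · exact hz
                · exact (hTs a ha).1
              · intro a ha c hc hac
                have ha' : a ∈ s ∧ (f a = j ∨ f a = j + 1) := by
                  rcases Finset.mem_insert.1 (Finset.mem_coe.1 ha) with rfl | ha
                  · exact ⟨hz, hzj⟩
                  · exact ⟨(hTs a ha).1, hj a ha⟩
                have hc' : c ∈ s ∧ (f c = j ∨ f c = j + 1) := by
                  rcases Finset.mem_insert.1 (Finset.mem_coe.1 hc) with rfl | hc
                  · exact ⟨hz, hzj⟩
                  · exact ⟨(hTs c hc).1, hj c hc⟩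
                exact (hf a ha'.1 c hc'.1 hac).2 (R5.pair j _ _ ha'.2 hc'.2)
            rw [Finset.card_insert_of_notMem hzT] at h1
            omega
          by_cases hji : j = i
          · subst hji
            have h1 : T ⊆ (S.filter fun w => f w = j) ∪ (S.filter fun w => f w = j + 1) := by
              intro t ht
              rw [Finset.mem_union, Finset.mem_filter, Finset.mem_filter]
              rcases hj t ht with h | h
              · exact Or.inl ⟨(hSm t).2 (hTs t ht).1, h⟩
              · exact Or.inr ⟨(hSm t).2 (hTs t ht).1, h⟩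
            have h2 := (Finset.card_le_card h1).trans (Finset.card_union_le _ _)
            have h3 : b j + b (j + 1) ≤ k := hi
            simp only [hb] at h3
            omega
          · rcases R5.oth i j hji with h | h
            · exact hadd v hvs (fun h => (hTs v h).2.1 rfl) (by rw [hv.2]; exact h)
            · exact hadd v' hvs' (fun h => (hTs v' h).2.2 rfl) (by rw [hv'.2]; exact h)
        · have h1 : ({v, v'} : Set V) ⊆ s := by
            intro x hx
            rcases hx with rfl | hx
            · exact hvs
            · rw [Set.mem_singleton_iff] at hx; rw [hx]; exact hvs'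
          rw [Set.ncard_sdiff h1 (Set.toFinite _), Set.ncard_pair hne]
          omega
      refine (hcol.add_stable (S := {v, v'}) ?_).mono ?_ le_rfl
      · intro a ha c hc
        rcases ha with rfl | ha <;> rcases hc with rfl | hc
        · exact G.loopless.irrefl _
        · rw [Set.mem_singleton_iff] at hc; subst hc; exact hnadj
        · rw [Set.mem_singleton_iff] at ha; subst ha; exact fun h => hnadj h.symm
        · rw [Set.mem_singleton_iff] at ha hc; subst ha; subst hc; exact G.loopless.irrefl _
      · intro x hx
        by_cases h : x ∈ ({v, v'} : Set V)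
        · exact Or.inr h
        · exact Or.inl ⟨hx, h⟩
    · -- an empty bag
      push Not at hall
      obtain ⟨i, hi⟩ := hall
      have hi0 : ∀ v ∈ s, f v ≠ i := by
        intro v hv h
        have h1 : b i = 0 := by omega
        rw [hb] at h1
        simp only [Finset.card_eq_zero] at h1
        have : v ∈ S.filter fun w => f w = i := Finset.mem_filter.2 ⟨(hSm v).2 hv, h⟩
        rw [h1] at this
        exact absurd this (Finset.notMem_empty v)
      obtain ⟨ρ, hρ1, hρ2⟩ := w5_rank S f
      have hρb : ∀ v ∈ s, ρ v < b (f v) := fun v hv => hρ1 v ((hSm v).2 hv)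
      have hρk : ∀ v ∈ s, ρ v < k + 1 := by
        intro v hv
        have h1 := hρb v hv
        have h2 := hbb (f v)
        omega
      refine ⟨fun v => if f v = i + 1 ∨ f v = i + 3 then ρ v else k - ρ v, ?_, ?_⟩
      · intro v hv
        have := hρk v hv
        by_cases h : f v = i + 1 ∨ f v = i + 3
        · simp only [h, if_true]; exact this
        · simp only [h, if_false]; omega
      · intro u hu v hv huv heq
        have hne : u ≠ v := fun h => by subst h; exact G.loopless.irrefl _ huv
        have hR : R5 (f u) (f v) := (hf u hu v hv hne).1 huv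
        have hu0 := hi0 u hu
        have hv0 := hi0 v hv
        have hku := hρk u hu
        have hkv := hρk v hv
        simp only at heq
        by_cases huv' : f u = f v
        · rw [huv'] at heq
          by_cases h : f v = i + 1 ∨ f v = i + 3
          · simp only [h, if_true] at heq
            exact hne (hρ2 u ((hSm u).2 hu) v ((hSm v).2 hv) huv' heq)
          · simp only [h, if_false] at heq
            exact hne (hρ2 u ((hSm u).2 hu) v ((hSm v).2 hv) huv' (by omega))
        · have hsum2 : ρ u + ρ v < k := by
            have h1 := hρb u hu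
            have h2 := hρb v hv
            rcases hR with h | h | h
            · exact absurd h.symm huv'
            · have h3 := hbb (f u)
              rw [← h] at h3
              omega
            · have h3 := hbb (f v)
              rw [← h] at h3
              omega
          have hdec : ∀ i a c : ZMod 5, R5 a c → a ≠ c → a ≠ i → c ≠ i →
              ((a = i + 1 ∨ a = i + 3) ∧ ¬ (c = i + 1 ∨ c = i + 3)) ∨
              (¬ (a = i + 1 ∨ a = i + 3) ∧ (c = i + 1 ∨ c = i + 3)) := by decide
          rcases hdec i _ _ hR huv' hu0 hv0 with ⟨h1, h2⟩ | ⟨h1, h2⟩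
          · simp only [h1, h2, if_true, if_false] at heq
            omega
          · simp only [h1, h2, if_true, if_false] at heq
            omega

end GP
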