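import Pool.Agent.Work.MP_31af1e_lc.TF
import Pool.Agent.Work.MP_31af1e_lc.LE
import Pool.Agent.Work.MP_31af1e_lc.CB
import Pool.Agent.Work.MP_31af1e_lc.W5
import Pool.Agent.Work.MP_31af1e_lc.E2
import Pool.Agent.Work.MP_31af1e_lc.C5B

/-!
Module GC: at least two common neighbours, pairwise nonadjacent.
-/

set_option autoImplicit false

namespace GP

variable {V : Type} {G : SimpleGraph V}

theorem BB_symm {q u b : V} (h : b ∈ BB G q u) : b ∈ BB G u q := ⟨h.2, h.1⟩

theorem TS.u_mem {q u : V} (h : TS G q u) : u ∈ NN G q := ⟨h.ne.symm, h.nadj⟩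

/-- `b1` sees less of the non-neighbours of `q` and more of those of `u` than `b2`. -/
def Ord' (G : SimpleGraph V) (q u b1 b2 : V) : Prop :=
  (∀ w ∈ NN G q, G.Adj b1 w → G.Adj b2 w) ∧ (∀ x ∈ NN G u, G.Adj b2 x → G.Adj b1 x) ∧
  (∃ w ∈ NN G q, G.Adj b2 w ∧ ¬ G.Adj b1 w) ∧ (∃ x ∈ NN G u, G.Adj b1 x ∧ ¬ G.Adj b2 x)

theorem gc_order {q u : V} (h : TS G q u) (hd : NoDom G)
    (hB : ∀ b ∈ BB G q u, ∀ b' ∈ BB G q u, ¬ G.Adj b b') {b c : V} (hb : b ∈ BB G q u)
    (hc : c ∈ BB G q u) (hne : b ≠ c) : Ord' G q u b c ∨ Ord' G q u c b := by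
  obtain ⟨z, hbz, hcz⟩ := hd b c hne
  obtain ⟨z', hcz', hbz'⟩ := hd c b hne.symm
  have hz := h.part z
  have hz' := h.part z'
  have h1 := h.f3 hb hc hne (hB b hb c hc)
  have h2 := h.symm.f3 (BB_symm hb) (BB_symm hc) hne (hB b hb c hc)
  rcases h1 with h1 | h1
  · -- S_b ⊆ S_c
    have hzu : z ∈ NN G u := by
      rcases hz with hz | hz | hz
      · exact absurd (h1 z hz hbz) hcz
      · exact hz
      · exact absurd hbz (hB b hb z hz)
    have h2' : ∀ w ∈ NN G u, G.Adj c w → G.Adj b w := by
      rcases h2 with h2 | h2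
      · exact absurd (h2 z hzu hbz) hcz
      · exact h2
    have hzq : z' ∈ NN G q := by
      rcases hz' with hz' | hz' | hz'
      · exact hz'
      · exact absurd (h2' z' hz' hcz') hbz'
      · exact absurd hcz' (hB c hc z' hz')
    exact Or.inl ⟨h1, h2', ⟨z', hzq, hcz', hbz'⟩, ⟨z, hzu, hbz, hcz⟩⟩
  · have hzu : z' ∈ NN G u := by
      rcases hz' with hz' | hz' | hz'
      · exact absurd (h1 z' hz' hcz') hbz'
      · exact hz'
      · exact absurd hcz' (hB c hc z' hz')
    have h2' : ∀ w ∈ NN G u, G.Adj b w → G.Adj c w := by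
      rcases h2 with h2 | h2
      · exact h2
      · exact absurd (h2 z' hzu hcz') hbz'
    have hzq : z ∈ NN G q := by
      rcases hz with hz | hz | hz
      · exact hz
      · exact absurd (h2' z hz hbz) hcz
      · exact absurd hbz (hB b hb z hz)
    exact Or.inr ⟨h1, h2', ⟨z, hzq, hbz, hcz⟩, ⟨z', hzu, hcz', hbz'⟩⟩

/-- `x, x'` have a common neighbour `w` across: they are twins. -/
theorem gc_twin {q u : V} (h : TS G q u) {x x' w : V} (hx : x ∈ NN G u) (hx' : x' ∈ NN G u)
    (hw : w ∈ NN G q) (hxw : G.Adj x w) (hx'w : G.Adj x' w) (hne : x ≠ x') : Twin G x x' := by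
  have hadj : G.Adj x x' := h.cu hx hx' hne
  have key : ∀ y ∈ NN G u, ∀ y' ∈ NN G u, G.Adj y w → G.Adj y' w → y ≠ y' → ∀ z, z ≠ y → z ≠ y' →
      G.Adj z y → G.Adj z y' := by
    intro y hy y' hy' hyw hy'w hyy z hzy hzy' hadjz
    rcases h.part z with hz | hz | hz
    · exact (h.f1 hy hy' hw hz hyw hy'w hadjz.symm).symm
    · exact h.cu hz hy' hzy'
    · by_contra hn
      have hzw : ¬ G.Adj z w := fun hzw => h.f4 hz hy hw hadjz hzw hyw
      have hqy' : G.Adj q y' := by
        have : y' ≠ q := by
          rintro rfl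
          exact hw.2 hy'w
        by_contra hn'
        exact h.disj y' ⟨this, hn'⟩ hy'
      have hqy : G.Adj q y := by
        have : y ≠ q := by
          rintro rfl
          exact hw.2 hyw
        by_contra hn'
        exact h.disj y ⟨this, hn'⟩ hy
      exact h.cls.gem y z q y' w hadjz.symm hqy.symm (h.cu hy hy' hyy) hyw hz.1.symm hqy' hy'w
        hn hzw hw.2
  exact ⟨hadj, fun z h1 h2 => ⟨key x hx x' hx' hxw hx'w hne z h1 h2,
    key x' hx' x hx hx'w hxw hne.symm z h2 h1⟩⟩

/-- The finishing lemma: the vertices outside a stable set are covered by two cliques. -/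
theorem gc_fin [Finite V] {k : ℕ} (hcr : Crit G k) (hkp : 1 ≤ k) {A A' S : Set V}
    (hA : G.IsClique A) (hA' : G.IsClique A') (hS : ∀ a ∈ S, ∀ b ∈ S, ¬ G.Adj a b)
    (hcov : ∀ v, v ∈ A ∨ v ∈ A' ∨ v ∈ S) (hk : CL G (A ∪ A') (k - 1)) : False := by
  apply hcr.1
  have h1 := (cb hA hA' hk).add_stable hS
  have h2 : k - 1 + 1 = k := by omega
  rw [h2] at h1
  refine h1.mono ?_ le_rfl
  intro v _
  rcases hcov v with h | h | h
  · exact Or.inl (Or.inl h)
  · exact Or.inl (Or.inr h)
  · exact Or.inr h

/-- Tight mixed cliques. -/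
theorem gc_tight [Finite V] {q u : V} (h : TS G q u) {k : ℕ} (hk : CL G Set.univ k)
    (hcr : Crit G k)
    (hB : ∀ b ∈ BB G q u, ∀ b' ∈ BB G q u, ¬ G.Adj b b')
    (T T' : Finset V) (hT : T.card = 4) (hT' : T'.card = 4)
    (hTu : ∀ v ∈ T, v ∈ NN G u ∧ ∀ w ∈ NN G q, ¬ G.Adj v w)
    (hTq : ∀ v ∈ T', v ∈ NN G q ∧ ∀ w ∈ NN G u, ¬ G.Adj v w)
    {t : Finset V} (ht : G.IsClique (t : Set V)) (htU : ∀ v ∈ t, v ∈ NN G q ∨ v ∈ NN G u)
    {x w : V} (hxt : x ∈ t) (hx : x ∈ NN G u) (hwt : w ∈ t) (hw : w ∈ NN G q)
    (hcard : k ≤ t.card + 1) :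
    (∀ b ∈ BB G q u, ∀ b' ∈ BB G q u, b ≠ b' → G.Adj b x ∨ G.Adj b' x) ∧
    (∀ b ∈ BB G q u, ∀ b' ∈ BB G q u, b ≠ b' → G.Adj b w ∨ G.Adj b' w) ∧
    (∀ b ∈ BB G q u, ¬ (G.Adj b x ∧ G.Adj b w)) ∧
    (∀ b ∈ BB G q u, G.Adj b w → ¬ G.Adj b x → ∀ w' ∈ NN G q, G.Adj b w') ∧
    (∀ b ∈ BB G q u, G.Adj b x → ¬ G.Adj b w → ∀ x' ∈ NN G u, G.Adj b x') := by
  classical
  have hxw : G.Adj x w := ht hxt hwt (by rintro rfl; exact h.disj x hw hx)
  let tX := t.filter (fun v => v ∈ NN G u)
  let tS := t.filter (fun v => ¬ v ∈ NN G u)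
  have hsum : tX.card + tS.card = t.card := Finset.card_filter_add_card_filter_not _
  have htS : ∀ v ∈ tS, v ∈ NN G q := by
    intro v hv
    have := Finset.mem_filter.1 hv
    exact (htU v this.1).resolve_right this.2
  -- each part together with the four vertices is a clique
  have hX4 : tX.card + 4 ≤ k := by
    have hdis : Disjoint tX T := by
      rw [Finset.disjoint_left]
      intro v hv hvT
      have hv' := Finset.mem_filter.1 hv
      exact (hTu v hvT).2 w hw (ht hv'.1 hwt (by rintro rfl; exact h.disj v hw hv'.2))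
    rw [← hT, ← Finset.card_union_of_disjoint hdis]
    apply hk _ (Set.subset_univ _)
    intro a ha b hb hab
    have key : ∀ c ∈ tX ∪ T, c ∈ NN G u := by
      intro c hc
      rcases Finset.mem_union.1 hc with hc | hc
      · exact (Finset.mem_filter.1 hc).2
      · exact (hTu c hc).1
    exact h.cu (key a ha) (key b hb) hab
  have hS4 : tS.card + 4 ≤ k := by
    have hdis : Disjoint tS T' := by
      rw [Finset.disjoint_left]
      intro v hv hvT
      have hv' := Finset.mem_filter.1 hv
      exact (hTq v hvT).2 x hx (ht hv'.1 hxt (by rintro rfl; exact hv'.2 hx))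
    rw [← hT', ← Finset.card_union_of_disjoint hdis]
    apply hk _ (Set.subset_univ _)
    intro a ha b hb hab
    have key : ∀ c ∈ tS ∪ T', c ∈ NN G q := by
      intro c hc
      rcases Finset.mem_union.1 hc with hc | hc
      · exact htS c hc
      · exact (hTq c hc).1
    exact h.cq (key a ha) (key b hb) hab
  have hxX : x ∈ tX := Finset.mem_filter.2 ⟨hxt, hx⟩
  have hwS : w ∈ tS := Finset.mem_filter.2 ⟨hwt, fun hwu => h.disj w hw hwu⟩
  obtain ⟨x', hx'X, hxx'⟩ := Finset.exists_mem_ne (show 1 < tX.card by omega) x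
  obtain ⟨w', hw'S, hww'⟩ := Finset.exists_mem_ne (show 1 < tS.card by omega) w
  have hx' := Finset.mem_filter.1 hx'X
  have hw' : w' ∈ NN G q := htS w' hw'S
  have hw't : w' ∈ t := (Finset.mem_filter.1 hw'S).1
  have hx'w : G.Adj x' w := ht hx'.1 hwt (by rintro rfl; exact h.disj x' hw hx'.2)
  have hw'x : G.Adj w' x := ht hw't hxt (by rintro rfl; exact h.disj w' hw' hx)
  have htwx : Twin G x x' := gc_twin h hx hx'.2 hw hxw hx'w hxx'.symm
  have htww : Twin G w w' := gc_twin h.symm hw hw' hx hxw.symm hw'x hww'.symm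
  have hcx : G.IsClique (NN G x) := tw h.cls hk hcr htwx
  have hcw : G.IsClique (NN G w) := tw h.cls hk hcr htww
  have hbx : ∀ b ∈ BB G q u, b ≠ x := by
    rintro b hb rfl
    exact hx.2 hb.2
  have hbw : ∀ b ∈ BB G q u, b ≠ w := by
    rintro b hb rfl
    exact hw.2 hb.1
  refine ⟨?_, ?_, ?_, ?_, ?_⟩
  · intro b hb b' hb' hne
    by_contra hcon
    push Not at hcon
    exact hB b hb b' hb' (hcx ⟨hbx b hb, fun h => hcon.1 h.symm⟩ ⟨hbx b' hb', fun h => hcon.2 h.symm⟩ hne)
  · intro b hb b' hb' hne
    by_contra hcon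
    push Not at hcon
    exact hB b hb b' hb' (hcw ⟨hbw b hb, fun h => hcon.1 h.symm⟩ ⟨hbw b' hb', fun h => hcon.2 h.symm⟩ hne)
  · rintro b hb ⟨h1, h2⟩
    exact h.f4 hb hx hw h1 h2 hxw
  · intro b hb hbw' hbx' w'' hw''
    by_cases hxw'' : G.Adj x w''
    · by_cases hww'' : w'' = w
      · rw [hww'']; exact hbw'
      · have htw := gc_twin h.symm hw hw'' hx hxw.symm hxw''.symm (Ne.symm hww'')
        have hne : b ≠ w'' := by
          rintro rfl
          exact hw''.2 hb.1
        exact (htw.2 b (hbw b hb) hne).1 hbw'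
    · apply hcx ⟨hbx b hb, fun h => hbx' h.symm⟩ ⟨?_, hxw''⟩
      · rintro rfl
        exact hw''.2 hb.1
      · rintro rfl
        exact h.disj w'' hw'' hx
  · intro b hb hbx' hbw' x'' hx''
    by_cases hwx'' : G.Adj w x''
    · by_cases hxx'' : x'' = x
      · rw [hxx'']; exact hbx'
      · have htw := gc_twin h hx hx'' hw hxw hwx''.symm (Ne.symm hxx'')
        have hne : b ≠ x'' := by
          rintro rfl
          exact hx''.2 hb.2
        exact (htw.2 b (hbx b hb) hne).1 hbx'
    · apply hcw ⟨hbw b hb, fun h => hbw' h.symm⟩ ⟨?_, hwx''⟩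
      · rintro rfl
        exact hx''.2 hb.2
      · rintro rfl
        exact h.disj x'' hw hx''

/-- The vertex `x1` of case (v). -/
theorem gc_x1 [Finite V] {q u : V} (h : TS G q u) {k : ℕ} (hcr : Crit G k)
    {b1 b2 : V} (hb1 : b1 ∈ BB G q u) (hb2 : b2 ∈ BB G q u) (hne : b1 ≠ b2)
    (hBB : ∀ b ∈ BB G q u, b = b1 ∨ b = b2)
    (hR : ∀ x ∈ NN G u, G.Adj b2 x → G.Adj b1 x) {x0 w0 : V} (hx0 : x0 ∈ NN G u)
    (hbx0 : ¬ G.Adj b1 x0) (hw0 : w0 ∈ NN G q) (hbw0 : ¬ G.Adj b2 w0)
    (hβ : ∀ w ∈ NN G q, ¬ G.Adj b2 w → w = w0) (hxw : G.Adj x0 w0)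
    (hU : (NN G q).ncard = k) (hU' : (NN G u).ncard = k) :
    ∃ x1 ∈ NN G u, ¬ G.Adj b2 x1 ∧ ¬ G.Adj x1 w0 := by
  classical
  by_contra hcon
  push Not at hcon
  have hb2q : b2 ∉ NN G q := fun hb => hb.2 hb2.1
  have hb2u : b2 ∉ NN G u := fun hb => hb.2 hb2.2
  have hb1q : b1 ∉ NN G q := fun hb => hb.2 hb1.1
  have hb1u : b1 ∉ NN G u := fun hb => hb.2 hb1.2
  have hx02 : ¬ G.Adj b2 x0 := fun hb => hbx0 (hR x0 hx0 hb)
  have n13 : ∀ x ∈ NN G u, G.Adj b2 x → ¬ G.Adj x w0 := by
    intro x hx hbx hxw0
    rcases h.symm.f5 (BB_symm hb2) hw0 hbw0 with h5 | h5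
    · exact hx02 (h5 x0 hx0 hxw.symm)
    · exact h5 x hx hxw0.symm hbx
  have n24 : ∀ x ∈ NN G u, ¬ G.Adj b2 x → ∀ w ∈ NN G q, w ≠ w0 → ¬ G.Adj x w := by
    intro x hx hbx w hw hww0 hxw'
    rcases h.f5 hb2 hx hbx with h5 | h5
    · exact hbw0 (h5 w0 hw0 (hcon x hx hbx))
    · exact hww0 (hβ w hw (h5 w hw hxw'))
  obtain ⟨f, -, hf⟩ := c5_bags (G := G) (s := {v | v ≠ b1}) (B0 := {b2})
    (B1 := {x | x ∈ NN G u ∧ G.Adj b2 x}) (B2 := {x | x ∈ NN G u ∧ ¬ G.Adj b2 x}) (B3 := {w0})
    (B4 := {w | w ∈ NN G q ∧ w ≠ w0})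
    (by
      intro v hv
      rcases h.part v with hv' | hv' | hv'
      · by_cases hvw : v = w0
        · exact Or.inr (Or.inr (Or.inr (Or.inl hvw)))
        · exact Or.inr (Or.inr (Or.inr (Or.inr ⟨hv', hvw⟩)))
      · by_cases hbv : G.Adj b2 v
        · exact Or.inr (Or.inl ⟨hv', hbv⟩)
        · exact Or.inr (Or.inr (Or.inl ⟨hv', hbv⟩))
      · rcases hBB v hv' with rfl | rfl
        · exact absurd rfl hv
        · exact Or.inl rfl)
    (by simp) (fun a ha b hb hab => h.cu ha.1 hb.1 hab) (fun a ha b hb hab => h.cu ha.1 hb.1 hab)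
    (by simp) (fun a ha b hb hab => h.cq ha.1 hb.1 hab)
    (by rintro a rfl b hb; exact hb.2)
    (by
      rintro a ha b hb
      apply h.cu ha.1 hb.1
      rintro rfl
      exact hb.2 ha.2)
    (by rintro a ha b rfl; exact hcon a ha.1 ha.2)
    (by rintro a rfl b hb; exact h.cq hw0 hb.1 (Ne.symm hb.2))
    (by
      rintro a ha b rfl
      by_contra hn
      exact ha.2 (hβ a ha.1 (fun h => hn h.symm)))
    (by rintro a rfl b hb; exact hb.2)
    (by rintro a ha b rfl; exact n13 a ha.1 ha.2)
    (by rintro a ha b hb; exact n24 a ha.1 ha.2 b hb.1 hb.2)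
    (by rintro a rfl b rfl hab; exact hbw0 hab.symm)
    (by
      rintro a ha b hb hab
      have h1 : G.Adj b2 a := by
        by_contra hn
        exact ha.2 (hβ a ha.1 hn)
      exact h.f4 hb2 hb.1 ha.1 hb.2 h1 hab.symm)
  have hcol : Col G {v | v ≠ b1} k := by
    apply hcr.2
    intro heq
    have : b1 ∈ ({v | v ≠ b1} : Set V) := by rw [heq]; trivial
    exact this rfl
  have hle := w5_card f hf hcol
  have hset : ({v | v ≠ b1} : Set V) = insert b2 (NN G q ∪ NN G u) := by
    ext v
    simp only [Set.mem_ofPred_eq, Set.mem_insert_iff, Set.mem_union]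
    constructor
    · intro hv
      rcases h.part v with hv' | hv' | hv'
      · exact Or.inr (Or.inl hv')
      · exact Or.inr (Or.inr hv')
      · exact Or.inl ((hBB v hv').resolve_left hv)
    · rintro (rfl | hv | hv)
      · exact hne.symm
      · rintro rfl; exact hb1q hv
      · rintro rfl; exact hb1u hv
  rw [hset, Set.ncard_insert_of_notMem (by
    rintro (hb | hb)
    · exact hb2q hb
    · exact hb2u hb) (Set.toFinite _), Set.ncard_union_eq (by
    rw [Set.disjoint_left]
    intro v hv hv'
    exact h.disj v hv hv') (Set.toFinite _) (Set.toFinite _), hU, hU'] at hle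
  omega

/-- Three elements in order. -/
theorem gc_three {q u : V} (h : TS G q u) {a b c : V} (ha : a ∈ BB G q u) (hb : b ∈ BB G q u)
    (hc : c ∈ BB G q u) (hB : ∀ b ∈ BB G q u, ∀ b' ∈ BB G q u, ¬ G.Adj b b')
    (hab : Ord' G q u a b) (hbc : Ord' G q u b c) :
    (∀ w ∈ NN G q, G.Adj c w) ∧ (∀ x ∈ NN G u, G.Adj a x) := by
  have hne1 : a ≠ b := by
    rintro rfl
    obtain ⟨w, -, h1, h2⟩ := hab.2.2.1
    exact h2 h1
  have hne2 : b ≠ c := by
    rintro rfl
    obtain ⟨w, -, h1, h2⟩ := hbc.2.2.1
    exact h2 h1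
  constructor
  · obtain ⟨w1, hw1, hcw1, hbw1⟩ := hbc.2.2.1
    intro w hw
    by_contra hcw
    have hbw : ¬ G.Adj b w := fun hb' => hcw (hbc.1 w hw hb')
    have haw : ¬ G.Adj a w := fun ha' => hbw (hab.1 w hw ha')
    have haw1 : ¬ G.Adj a w1 := fun ha' => hbw1 (hab.1 w1 hw1 ha')
    have := h.f3' ha hb hne1 (hB a ha b hb) hw hw1 haw hbw haw1 hbw1
    rw [this] at hcw
    exact hcw hcw1
  · obtain ⟨x1, hx1, hax1, hbx1⟩ := hab.2.2.2
    intro x hx
    by_contra hax
    have hbx : ¬ G.Adj b x := fun hb' => hax (hab.2.1 x hx hb')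
    have hcx : ¬ G.Adj c x := fun hc' => hbx (hbc.2.1 x hx hc')
    have hcx1 : ¬ G.Adj c x1 := fun hc' => hbx1 (hbc.2.1 x1 hx1 hc')
    have := h.symm.f3' (BB_symm hb) (BB_symm hc) hne2 (hB b hb c hc) hx hx1 hbx hcx hbx1 hcx1
    rw [this] at hax
    exact hax hax1

theorem g_sing' [Finite V] {q u : V} (h : TS G q u) {k : ℕ} (hk : CL G Set.univ k) (hcr : Crit G k)
    (hB : ∀ b ∈ BB G q u, ∀ b' ∈ BB G q u, ¬ G.Adj b b')
    {b1 b2 : V} (hb1 : b1 ∈ BB G q u) (hb2 : b2 ∈ BB G q u) (ho : Ord' G q u b1 b2)
    (T T' : Finset V) (hT : T.card = 4) (hT' : T'.card = 4)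
    (hTu : ∀ v ∈ T, v ∈ NN G u ∧ ∀ w ∈ NN G q, ¬ G.Adj v w)
    (hTq : ∀ v ∈ T', v ∈ NN G q ∧ ∀ w ∈ NN G u, ¬ G.Adj v w) : False := by
  classical
  have hkp : 1 ≤ k := Crit.k_pos hk q
  have hne : b1 ≠ b2 := by
    rintro rfl
    obtain ⟨w, -, h1, h2⟩ := ho.2.2.1
    exact h2 h1
  have hdisj : ∀ v, v ∈ NN G u → v ∈ NN G q → False := fun v h1 h2 => h.disj v h2 h1
  have hBq : ∀ b ∈ BB G q u, b ∉ NN G q := fun b hb hn => hn.2 hb.1
  have hBu : ∀ b ∈ BB G q u, b ∉ NN G u := fun b hb hn => hn.2 hb.2
  have htight := @gc_tight V G _ q u h k hk hcr hB T T' hT hT' hTu hTq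
  have sub : ∀ {A B : Set V}, A ⊆ NN G q → B ⊆ NN G u → ∀ {t : Finset V}, (t : Set V) ⊆ A ∪ B →
      (t : Set V) ⊆ A ∨ (t : Set V) ⊆ B ∨ ∃ x ∈ t, x ∈ NN G u ∧ ∃ w ∈ t, w ∈ NN G q := by
    intro A B hA hB' t ht
    by_cases h1 : (t : Set V) ⊆ A
    · exact Or.inl h1
    · by_cases h2 : (t : Set V) ⊆ B
      · exact Or.inr (Or.inl h2)
      · right; right
        obtain ⟨x, hx, hxA⟩ := Set.not_subset.1 h1
        obtain ⟨w, hw, hwB⟩ := Set.not_subset.1 h2
        exact ⟨x, hx, hB' ((ht hx).resolve_left hxA), w, hw, hA ((ht hw).resolve_right hwB)⟩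
  have subU : ∀ {A B : Set V}, A ⊆ NN G q → B ⊆ NN G u → ∀ {t : Finset V}, (t : Set V) ⊆ A ∪ B →
      ∀ v ∈ t, v ∈ NN G q ∨ v ∈ NN G u := by
    intro A B hA hB' t ht v hv
    rcases ht hv with h1 | h1
    · exact Or.inl (hA h1)
    · exact Or.inr (hB' h1)
  have add1 : ∀ {t : Finset V}, G.IsClique (t : Set V) → ∀ z, (∀ v ∈ t, G.Adj z v) →
      t.card ≤ k - 1 := by
    intro t ht z hz
    have := hk.add_one (Set.subset_univ _) ht (Set.mem_univ z) hz
    omega
  by_cases h3 : ∃ b3 ∈ BB G q u, b3 ≠ b1 ∧ b3 ≠ b2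
  · -- at least three elements
    obtain ⟨b3, hb3, h31, h32⟩ := h3
    have hbb : ∃ p ∈ BB G q u, ∃ r ∈ BB G q u, (∀ w ∈ NN G q, G.Adj r w) ∧
        (∀ x ∈ NN G u, G.Adj p x) := by
      rcases gc_order h hcr.nodom hB hb3 hb1 h31 with h4 | h4
      · exact ⟨b3, hb3, b2, hb2, gc_three h hb3 hb1 hb2 hB h4 ho⟩
      · rcases gc_order h hcr.nodom hB hb3 hb2 h32 with h5 | h5
        · exact ⟨b1, hb1, b2, hb2, gc_three h hb1 hb3 hb2 hB h4 h5⟩
        · exact ⟨b1, hb1, b3, hb3, gc_three h hb1 hb2 hb3 hB ho h5⟩
    obtain ⟨p, hp, r, hr, hrU, hpU⟩ := hbb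
    refine gc_fin hcr hkp h.cq h.cu hB (fun v => h.part v) ?_
    intro t ht htc
    rcases sub subset_rfl subset_rfl ht with h4 | h4 | ⟨x, hxt, hx, w, hwt, hw⟩
    · exact add1 htc r (fun v hv => hrU v (h4 hv))
    · exact add1 htc p (fun v hv => hpU v (h4 hv))
    · by_contra hlt
      push Not at hlt
      obtain ⟨t1, t2, t3, -, -⟩ := htight htc (subU subset_rfl subset_rfl ht) hxt hx hwt hw (by omega)
      have e1 := t1 b1 hb1 b2 hb2 hne
      have e2 := t1 b1 hb1 b3 hb3 (Ne.symm h31)
      have e3 := t1 b2 hb2 b3 hb3 (Ne.symm h32)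
      have f1 := t2 b1 hb1 b2 hb2 hne
      have f2 := t2 b1 hb1 b3 hb3 (Ne.symm h31)
      have f3 := t2 b2 hb2 b3 hb3 (Ne.symm h32)
      have g1 := t3 b1 hb1
      have g2 := t3 b2 hb2
      have g3 := t3 b3 hb3
      tauto
  · push Not at h3
    have hBB : ∀ b ∈ BB G q u, b = b1 ∨ b = b2 := by
      intro b hb
      by_cases h4 : b = b1
      · exact Or.inl h4
      · exact Or.inr (h3 b hb h4)
    by_cases hα : ∃ x0 ∈ NN G u, ¬ G.Adj b1 x0
    · -- from now on no tight mixed cliques
      obtain ⟨x0, hx0, hbx0⟩ := hα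
      have hx02 : ¬ G.Adj b2 x0 := fun hn => hbx0 (ho.2.1 x0 hx0 hn)
      have nt : ∀ {t : Finset V}, G.IsClique (t : Set V) → (∀ v ∈ t, v ∈ NN G q ∨ v ∈ NN G u) →
          ∀ x ∈ t, x ∈ NN G u → ∀ w ∈ t, w ∈ NN G q → t.card + 1 < k := by
        intro t htc htU x hxt hx w hwt hw
        by_contra hlt
        push Not at hlt
        obtain ⟨t1, t2, t3, t4, t5⟩ := htight htc htU hxt hx hwt hw hlt
        have e1 := t1 b1 hb1 b2 hb2 hne
        have f1 := t2 b1 hb1 b2 hb2 hne
        have g1 := t3 b1 hb1
        have g2 := t3 b2 hb2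
        have hx1 : G.Adj b1 x := by
          rcases e1 with h' | h'
          · exact h'
          · exact ho.2.1 x hx h'
        exact hbx0 (t5 b1 hb1 hx1 (fun h' => g1 ⟨hx1, h'⟩) x0 hx0)
      by_cases hβ : ∃ w0 ∈ NN G q, ¬ G.Adj b2 w0
      · obtain ⟨w0, hw0, hbw0⟩ := hβ
        have hbw01 : ¬ G.Adj b1 w0 := fun hn => hbw0 (ho.1 w0 hw0 hn)
        have hβ' : ∀ w ∈ NN G q, ¬ G.Adj b2 w → w = w0 := by
          intro w hw hbw
          exact h.f3' hb1 hb2 hne (hB b1 hb1 b2 hb2) hw hw0 (fun hn => hbw (ho.1 w hw hn)) hbw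
            hbw01 hbw0
        have hα' : ∀ x ∈ NN G u, ¬ G.Adj b1 x → x = x0 := by
          intro x hx hbx
          exact h.symm.f3' (BB_symm hb1) (BB_symm hb2) hne (hB b1 hb1 b2 hb2) hx hx0 hbx
            (fun hn => hbx (ho.2.1 x hx hn)) hbx0 hx02
        have hcov : ∀ v, (v ∈ NN G q ∧ v ≠ w0) ∨ (v ∈ NN G u ∧ v ≠ x0) ∨ v = b1 ∨ v = b2 ∨
            v = x0 ∨ v = w0 := by
          intro v
          by_cases e1 : v = x0
          · simp [e1]
          · by_cases e2 : v = w0
            · simp [e2]
            · rcases h.part v with hv | hv | hv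
              · exact Or.inl ⟨hv, e2⟩
              · exact Or.inr (Or.inl ⟨hv, e1⟩)
              · rcases hBB v hv with e | e
                · simp [e]
                · simp [e]
        have b12 := hB b1 hb1 b2 hb2
        have b21 := hB b2 hb2 b1 hb1
        have irr : ∀ v, ¬ G.Adj v v := fun v => G.loopless.irrefl v
        by_cases hxw : G.Adj x0 w0
        · by_cases hU : CL G (NN G q) (k - 1)
          · -- remove b1 b2 x0
            refine gc_fin hcr hkp (A := NN G q) (A' := {v | v ∈ NN G u ∧ v ≠ x0})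
              (S := {b1, b2, x0}) h.cq
              (fun a ha b hb hab => h.cu ha.1 hb.1 hab) ?_ ?_ ?_
            · rintro a (rfl | rfl | rfl) b (rfl | rfl | rfl) hab
              · exact irr _ hab
              · exact b12 hab
              · exact hbx0 hab
              · exact b21 hab
              · exact irr _ hab
              · exact hx02 hab
              · exact hbx0 hab.symm
              · exact hx02 hab.symm
              · exact irr _ hab
            · intro v
              rcases h.part v with hv | hv | hv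
              · exact Or.inl hv
              · by_cases e1 : v = x0
                · exact Or.inr (Or.inr (Or.inr (Or.inr e1)))
                · exact Or.inr (Or.inl ⟨hv, e1⟩)
              · rcases hBB v hv with e | e
                · exact Or.inr (Or.inr (Or.inl e))
                · exact Or.inr (Or.inr (Or.inr (Or.inl e)))
            · intro t ht htc
              rcases sub subset_rfl (fun a ha => ha.1) ht with h4 | h4 | ⟨x, hxt, hx, w, hwt, hw⟩
              · exact hU t h4 htc
              · exact add1 htc x0 (fun v hv => h.cu hx0 (h4 hv).1 (Ne.symm (h4 hv).2))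
              · have := nt htc (subU subset_rfl (fun a ha => ha.1) ht) x hxt hx w hwt hw
                omega
          · by_cases hU' : CL G (NN G u) (k - 1)
            · refine gc_fin hcr hkp (A := {v | v ∈ NN G q ∧ v ≠ w0}) (A' := NN G u)
                (S := {b1, b2, w0}) (fun a ha b hb hab => h.cq ha.1 hb.1 hab) h.cu ?_ ?_ ?_
              · rintro a (rfl | rfl | rfl) b (rfl | rfl | rfl) hab
                · exact irr _ hab
                · exact b12 hab
                · exact hbw01 hab
                · exact b21 hab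
                · exact irr _ hab
                · exact hbw0 hab
                · exact hbw01 hab.symm
                · exact hbw0 hab.symm
                · exact irr _ hab
              · intro v
                rcases h.part v with hv | hv | hv
                · by_cases e1 : v = w0
                  · exact Or.inr (Or.inr (Or.inr (Or.inr e1)))
                  · exact Or.inl ⟨hv, e1⟩
                · exact Or.inr (Or.inl hv)
                · rcases hBB v hv with e | e
                  · exact Or.inr (Or.inr (Or.inl e))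
                  · exact Or.inr (Or.inr (Or.inr (Or.inl e)))
              · intro t ht htc
                rcases sub (fun a ha => ha.1) subset_rfl ht with h4 | h4 | ⟨x, hxt, hx, w, hwt, hw⟩
                · exact add1 htc w0 (fun v hv => h.cq hw0 (h4 hv).1 (Ne.symm (h4 hv).2))
                · exact hU' t h4 htc
                · have := nt htc (subU (fun a ha => ha.1) subset_rfl ht) x hxt hx w hwt hw
                  omega
            · -- both have k elements
              have card_eq : ∀ {A : Set V}, G.IsClique A → ¬ CL G A (k - 1) → A.ncard = k := by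
                intro A hA hn
                unfold CL at hn
                push Not at hn
                obtain ⟨t, htA, htc, hlt⟩ := hn
                have hfin : A.Finite := Set.toFinite A
                have h1 : A.ncard ≤ k := by
                  rw [Set.ncard_eq_toFinset_card A hfin]
                  exact hk _ (Set.subset_univ _) (by simpa using hA)
                have h2 : t.card ≤ A.ncard := by
                  rw [← Set.ncard_coe_finset]
                  exact Set.ncard_le_ncard htA hfin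
                omega
              have cU := card_eq h.cq hU
              have cU' := card_eq h.cu hU'
              obtain ⟨x1, hx1, hbx1, hxw1⟩ := gc_x1 h hcr hb1 hb2 hne hBB ho.2.1 hx0 hbx0 hw0 hbw0
                hβ' hxw cU cU'
              obtain ⟨w1, hw1, hbw1, hwx1⟩ := gc_x1 h.symm hcr (BB_symm hb2) (BB_symm hb1) hne.symm
                (fun b hb => (hBB b (BB_symm hb)).symm) ho.1 hw0 hbw0 hx0 hbx0 hα' hxw.symm cU' cU
              have hx10 : x1 ≠ x0 := by rintro rfl; exact hxw1 hxw
              have hw10 : w1 ≠ w0 := by rintro rfl; exact hwx1 hxw.symm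
              have hwx : ¬ G.Adj w0 x1 := fun h' => hxw1 h'.symm
              have hxw' : ¬ G.Adj x0 w1 := fun h' => hwx1 h'.symm
              have hA : G.IsClique {v | v ∈ NN G q ∧ v ≠ w0 ∧ v ≠ w1} :=
                fun a ha b hb hab => h.cq ha.1 hb.1 hab
              have hA' : G.IsClique {v | v ∈ NN G u ∧ v ≠ x0 ∧ v ≠ x1} :=
                fun a ha b hb hab => h.cu ha.1 hb.1 hab
              have hk2 : 2 ≤ k := by
                rw [← cU]
                have : ({w0, w1} : Set V) ⊆ NN G q := by
                  rintro v (rfl | rfl)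
                  · exact hw0
                  · exact hw1
                rw [← Set.ncard_pair (Ne.symm hw10)]
                exact Set.ncard_le_ncard this (Set.toFinite _)
              have add2 : ∀ {A : Set V}, G.IsClique A → ∀ a ∈ A, ∀ b ∈ A, a ≠ b →
                  ∀ t : Finset V, (∀ v ∈ t, v ∈ A ∧ v ≠ a ∧ v ≠ b) → t.card + 2 ≤ k := by
                intro A hA a ha b hb hab t ht
                have hb' : b ∉ t := fun h' => (ht b h').2.2 rfl
                have ha' : a ∉ insert b t := by
                  rw [Finset.mem_insert]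
                  rintro (h' | h')
                  · exact hab h'
                  · exact (ht a h').2.1 rfl
                have := hk (insert a (insert b t)) (Set.subset_univ _) (by
                  intro c hc d hd hcd
                  have key : ∀ c, c ∈ insert a (insert b t) → c ∈ A := by
                    intro c hc
                    rw [Finset.mem_insert, Finset.mem_insert] at hc
                    rcases hc with rfl | rfl | hc
                    · exact ha
                    · exact hb
                    · exact (ht c hc).1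
                  exact hA (key c hc) (key d hd) hcd)
                rw [Finset.card_insert_of_notMem ha', Finset.card_insert_of_notMem hb'] at this
                omega
              have hcl : CL G ({v | v ∈ NN G q ∧ v ≠ w0 ∧ v ≠ w1} ∪
                  {v | v ∈ NN G u ∧ v ≠ x0 ∧ v ≠ x1}) (k - 2) := by
                intro t ht htc
                rcases sub (fun a ha => ha.1) (fun a ha => ha.1) ht with h4 | h4 |
                  ⟨x, hxt, hx, w, hwt, hw⟩
                · have := add2 h.cq w0 hw0 w1 hw1 (Ne.symm hw10) t (fun v hv => h4 hv)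
                  omega
                · have := add2 h.cu x0 hx0 x1 hx1 (Ne.symm hx10) t (fun v hv => h4 hv)
                  omega
                · have := nt htc (subU (fun a ha => ha.1) (fun a ha => ha.1) ht) x hxt hx w hwt hw
                  omega
              have s1 : ∀ a ∈ ({b2, w0, x1} : Set V), ∀ b ∈ ({b2, w0, x1} : Set V),
                  ¬ G.Adj a b := by
                rintro a (rfl | rfl | rfl) b (rfl | rfl | rfl) hab
                · exact irr _ hab
                · exact hbw0 hab
                · exact hbx1 hab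
                · exact hbw0 hab.symm
                · exact irr _ hab
                · exact hwx hab
                · exact hbx1 hab.symm
                · exact hwx hab.symm
                · exact irr _ hab
              have s2 : ∀ a ∈ ({b1, x0, w1} : Set V), ∀ b ∈ ({b1, x0, w1} : Set V),
                  ¬ G.Adj a b := by
                rintro a (rfl | rfl | rfl) b (rfl | rfl | rfl) hab
                · exact irr _ hab
                · exact hbx0 hab
                · exact hbw1 hab
                · exact hbx0 hab.symm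
                · exact irr _ hab
                · exact hxw' hab
                · exact hbw1 hab.symm
                · exact hxw' hab.symm
                · exact irr _ hab
              apply hcr.1
              have hcol := ((cb hA hA' hcl).add_stable s1).add_stable s2
              have hkk : k - 2 + 1 + 1 = k := by omega
              rw [hkk] at hcol
              refine hcol.mono ?_ le_rfl
              intro v _
              by_cases e1 : v = w1
              · exact Or.inr (Or.inr (Or.inr e1))
              · by_cases e2 : v = x1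
                · exact Or.inl (Or.inr (Or.inr (Or.inr e2)))
                · rcases hcov v with hv | hv | hv | hv | hv | hv
                  · exact Or.inl (Or.inl (Or.inl ⟨hv.1, hv.2, e1⟩))
                  · exact Or.inl (Or.inl (Or.inr ⟨hv.1, hv.2, e2⟩))
                  · exact Or.inr (Or.inl hv)
                  · exact Or.inl (Or.inr (Or.inl hv))
                  · exact Or.inr (Or.inr (Or.inl hv))
                  · exact Or.inl (Or.inr (Or.inr (Or.inl hv)))
        · -- x0 misses w0: remove b1 b2 x0 w0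
          have hwx0 : ¬ G.Adj w0 x0 := fun h' => hxw h'.symm
          refine gc_fin hcr hkp (A := {v | v ∈ NN G q ∧ v ≠ w0}) (A' := {v | v ∈ NN G u ∧ v ≠ x0})
            (S := {b1, b2, x0, w0}) (fun a ha b hb hab => h.cq ha.1 hb.1 hab)
            (fun a ha b hb hab => h.cu ha.1 hb.1 hab) ?_ ?_ ?_
          · rintro a (rfl | rfl | rfl | rfl) b (rfl | rfl | rfl | rfl) hab
            · exact irr _ hab
            · exact b12 hab
            · exact hbx0 hab
            · exact hbw01 hab
            · exact b21 hab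
            · exact irr _ hab
            · exact hx02 hab
            · exact hbw0 hab
            · exact hbx0 hab.symm
            · exact hx02 hab.symm
            · exact irr _ hab
            · exact hxw hab
            · exact hbw01 hab.symm
            · exact hbw0 hab.symm
            · exact hwx0 hab
            · exact irr _ hab
          · exact fun v => hcov v
          · intro t ht htc
            rcases sub (fun a ha => ha.1) (fun a ha => ha.1) ht with h4 | h4 |
              ⟨x, hxt, hx, w, hwt, hw⟩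
            · exact add1 htc w0 (fun v hv => h.cq hw0 (h4 hv).1 (Ne.symm (h4 hv).2))
            · exact add1 htc x0 (fun v hv => h.cu hx0 (h4 hv).1 (Ne.symm (h4 hv).2))
            · have := nt htc (subU (fun a ha => ha.1) (fun a ha => ha.1) ht) x hxt hx w hwt hw
              omega
      · -- (iii)
        push Not at hβ
        have irr : ∀ v, ¬ G.Adj v v := fun v => G.loopless.irrefl v
        refine gc_fin hcr hkp (A := NN G q) (A' := {v | v ∈ NN G u ∧ v ≠ x0})
          (S := {b1, b2, x0}) h.cq
          (fun a ha b hb hab => h.cu ha.1 hb.1 hab) ?_ ?_ ?_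
        · rintro a (rfl | rfl | rfl) b (rfl | rfl | rfl) hab
          · exact irr _ hab
          · exact hB _ hb1 _ hb2 hab
          · exact hbx0 hab
          · exact hB _ hb1 _ hb2 hab.symm
          · exact irr _ hab
          · exact hx02 hab
          · exact hbx0 hab.symm
          · exact hx02 hab.symm
          · exact irr _ hab
        · intro v
          rcases h.part v with hv | hv | hv
          · exact Or.inl hv
          · by_cases e1 : v = x0
            · exact Or.inr (Or.inr (Or.inr (Or.inr e1)))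
            · exact Or.inr (Or.inl ⟨hv, e1⟩)
          · rcases hBB v hv with e | e
            · exact Or.inr (Or.inr (Or.inl e))
            · exact Or.inr (Or.inr (Or.inr (Or.inl e)))
        · intro t ht htc
          rcases sub subset_rfl (fun a ha => ha.1) ht with h4 | h4 | ⟨x, hxt, hx, w, hwt, hw⟩
          · exact add1 htc b2 (fun v hv => hβ v (h4 hv))
          · exact add1 htc x0 (fun v hv => h.cu hx0 (h4 hv).1 (Ne.symm (h4 hv).2))
          · have := nt htc (subU subset_rfl (fun a ha => ha.1) ht) x hxt hx w hwt hw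
            omega
    · push Not at hα
      by_cases hβ : ∃ w0 ∈ NN G q, ¬ G.Adj b2 w0
      · -- (iv)
        obtain ⟨w0, hw0, hbw0⟩ := hβ
        have hbw01 : ¬ G.Adj b1 w0 := fun hn => hbw0 (ho.1 w0 hw0 hn)
        have irr : ∀ v, ¬ G.Adj v v := fun v => G.loopless.irrefl v
        have nt : ∀ {t : Finset V}, G.IsClique (t : Set V) →
            (∀ v ∈ t, v ∈ NN G q ∨ v ∈ NN G u) →
            ∀ x ∈ t, x ∈ NN G u → ∀ w ∈ t, w ∈ NN G q → t.card + 1 < k := by
          intro t htc htU x hxt hx w hwt hw
          by_contra hlt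
          push Not at hlt
          obtain ⟨t1, t2, t3, t4, t5⟩ := htight htc htU hxt hx hwt hw hlt
          have e1 := t1 b1 hb1 b2 hb2 hne
          have f1 := t2 b1 hb1 b2 hb2 hne
          have g1 := t3 b1 hb1
          have g2 := t3 b2 hb2
          have hw2 : G.Adj b2 w := by
            rcases f1 with h' | h'
            · exact ho.1 w hw h'
            · exact h'
          exact hbw0 (t4 b2 hb2 hw2 (fun h' => g2 ⟨h', hw2⟩) w0 hw0)
        refine gc_fin hcr hkp (A := {v | v ∈ NN G q ∧ v ≠ w0}) (A' := NN G u)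
          (S := {b1, b2, w0}) (fun a ha b hb hab => h.cq ha.1 hb.1 hab) h.cu ?_ ?_ ?_
        · rintro a (rfl | rfl | rfl) b (rfl | rfl | rfl) hab
          · exact irr _ hab
          · exact hB _ hb1 _ hb2 hab
          · exact hbw01 hab
          · exact hB _ hb1 _ hb2 hab.symm
          · exact irr _ hab
          · exact hbw0 hab
          · exact hbw01 hab.symm
          · exact hbw0 hab.symm
          · exact irr _ hab
        · intro v
          rcases h.part v with hv | hv | hv
          · by_cases e1 : v = w0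
            · exact Or.inr (Or.inr (Or.inr (Or.inr e1)))
            · exact Or.inl ⟨hv, e1⟩
          · exact Or.inr (Or.inl hv)
          · rcases hBB v hv with e | e
            · exact Or.inr (Or.inr (Or.inl e))
            · exact Or.inr (Or.inr (Or.inr (Or.inl e)))
        · intro t ht htc
          rcases sub (fun a ha => ha.1) subset_rfl ht with h4 | h4 | ⟨x, hxt, hx, w, hwt, hw⟩
          · exact add1 htc w0 (fun v hv => h.cq hw0 (h4 hv).1 (Ne.symm (h4 hv).2))
          · exact add1 htc b1 (fun v hv => hα v (h4 hv))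
          · have := nt htc (subU (fun a ha => ha.1) subset_rfl ht) x hxt hx w hwt hw
            omega
      · -- (ii)
        push Not at hβ
        apply hcr.1
        have hcol := @lemE V G _ (insert b1 (NN G u)) (NN G q) {b2}
          {x | x ∈ NN G u ∧ G.Adj b2 x} k
          (SimpleGraph.isClique_insert.2 ⟨h.cu, fun b hb _ => hα b hb⟩) h.cq (by simp)
          (by
            rw [Set.disjoint_left]
            rintro v (rfl | hv) hv'
            · exact hBq _ hb1 hv'
            · exact hdisj v hv hv')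
          (by
            rw [Set.disjoint_left]
            rintro v (rfl | hv) hv'
            · exact hne hv'
            · rw [Set.mem_singleton_iff] at hv'
              subst hv'
              exact hBu _ hb2 hv)
          (fun x hx => Or.inr hx.1)
          (fun x hx w hw hxw => h.f4 hb2 hx.1 hw hx.2 (hβ w hw) hxw)
          (by rintro x rfl l hl; exact hβ l hl)
          (by rintro x rfl r hr; exact hr.2)
          (by
            rintro x rfl y (rfl | hy) hyR hadj
            · exact hB _ hb1 _ hb2 hadj.symm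
            · exact hyR ⟨hy, hadj⟩)
          (hk.mono (Set.subset_univ _) le_rfl)
        refine hcol.mono ?_ le_rfl
        intro v _
        rcases h.part v with hv | hv | hv
        · exact Or.inl (Or.inr hv)
        · exact Or.inl (Or.inl (Or.inr hv))
        · rcases hBB v hv with e | e
          · exact Or.inl (Or.inl (Or.inl e))
          · exact Or.inr e

theorem g_sing [Finite V] {q u : V} (h : TS G q u) {k : ℕ} (hk : CL G Set.univ k) (hcr : Crit G k)
    (hB : ∀ b ∈ BB G q u, ∀ b' ∈ BB G q u, ¬ G.Adj b b')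
    {b c : V} (hb : b ∈ BB G q u) (hc : c ∈ BB G q u) (hne : b ≠ c)
    (T T' : Finset V) (hT : T.card = 4) (hT' : T'.card = 4)
    (hTu : ∀ v ∈ T, v ∈ NN G u ∧ ∀ w ∈ NN G q, ¬ G.Adj v w)
    (hTq : ∀ v ∈ T', v ∈ NN G q ∧ ∀ w ∈ NN G u, ¬ G.Adj v w) : False := by
  rcases gc_order h hcr.nodom hB hb hc hne with ho | ho
  · exact g_sing' h hk hcr hB hb hc ho T T' hT hT' hTu hTq
  · exact g_sing' h hk hcr hB hc hb ho T T' hT hT' hTu hTq

end GP
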