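import Pool.Agent.Work.MP_31af1e_lc.CB

/-!
Module HH: a critical graph of the class has no induced `K2 □ K8`.
-/

set_option autoImplicit false

namespace GP

variable {V : Type} {G : SimpleGraph V}

/-- Choose an index outside a small set. -/
theorem hh_pick (F : Finset (Fin 8)) (h : F.card < 8) : ∃ a, a ∉ F := by
  by_contra hcon
  push Not at hcon
  have : F = Finset.univ := by ext a; simp [hcon a]
  rw [this] at h
  simp at h

theorem hh_pick3 (t1 t2 t3 : Fin 8) : ∃ a, a ≠ t1 ∧ a ≠ t2 ∧ a ≠ t3 := by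
  obtain ⟨a, ha⟩ := hh_pick {t1, t2, t3} (lt_of_le_of_lt Finset.card_le_three (by norm_num))
  simp only [Finset.mem_insert, Finset.mem_singleton, not_or] at ha
  exact ⟨a, ha.1, ha.2.1, ha.2.2⟩

theorem hh_pick4 (t1 t2 t3 t4 : Fin 8) : ∃ a, a ≠ t1 ∧ a ≠ t2 ∧ a ≠ t3 ∧ a ≠ t4 := by
  obtain ⟨a, ha⟩ := hh_pick {t1, t2, t3, t4} (lt_of_le_of_lt Finset.card_le_four (by norm_num))
  simp only [Finset.mem_insert, Finset.mem_singleton, not_or] at ha
  exact ⟨a, ha.1, ha.2.1, ha.2.2.1, ha.2.2.2⟩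

/-- The pure combinatorics of the two traces. -/
theorem hh_types (S T : Fin 8 → Prop)
    (c1 : ∀ i j l, S i → T i → S j → j ≠ i → ¬ S l → False)
    (c1' : ∀ i j l, S i → T i → T j → j ≠ i → ¬ T l → False)
    (c2 : ∀ i j l, S i → T i → S l → T j → l ≠ i → j ≠ i → l ≠ j → False)
    (c3 : ∀ i j a b, T i → ¬ T j → ¬ S a → ¬ S b → a ≠ b → a ≠ i → a ≠ j → b ≠ i → b ≠ j → False)
    (c3' : ∀ i j a b, S i → ¬ S j → ¬ T a → ¬ T b → a ≠ b → a ≠ i → a ≠ j → b ≠ i → b ≠ j →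
      False) :
    ((∀ i, S i) ∧ ∃ t, ∀ i, T i → i = t) ∨ ((∀ i, T i) ∧ ∃ t, ∀ i, S i → i = t) ∨
      (∀ i, ¬ S i ∧ ¬ T i) := by
  classical
  by_cases hA : ∃ i, S i ∧ T i
  · obtain ⟨i, hS, hT⟩ := hA
    by_cases h1 : ∃ j, S j ∧ j ≠ i
    · obtain ⟨j, hj, hji⟩ := h1
      have hall : ∀ l, S l := by
        intro l
        by_contra hl
        exact c1 i j l hS hT hj hji hl
      left
      refine ⟨hall, i, fun m hm => ?_⟩
      by_contra hmi
      obtain ⟨l, hl1, hl2, -⟩ := hh_pick3 i m m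
      exact c2 i m l hS hT (hall l) hm hl1 hmi hl2
    · push Not at h1
      by_cases h2 : ∃ j, T j ∧ j ≠ i
      · obtain ⟨j, hj, hji⟩ := h2
        have hall : ∀ l, T l := by
          intro l
          by_contra hl
          exact c1' i j l hS hT hj hji hl
        right; left
        exact ⟨hall, i, h1⟩
      · push Not at h2
        exfalso
        obtain ⟨j, hj, -, -⟩ := hh_pick3 i i i
        obtain ⟨a, ha1, ha2, -⟩ := hh_pick3 i j j
        obtain ⟨b, hb1, hb2, hb3⟩ := hh_pick3 i j a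
        exact c3 i j a b hT (fun h => hj (h2 j h)) (fun h => ha1 (h1 a h)) (fun h => hb1 (h1 b h))
          (Ne.symm hb3) ha1 ha2 hb1 hb2
  · push Not at hA
    -- counting
    have big : ∀ (S T : Fin 8 → Prop), (∀ i j a b, T i → ¬ T j → ¬ S a → ¬ S b → a ≠ b →
        a ≠ i → a ≠ j → b ≠ i → b ≠ j → False) → (∃ i, T i) → (∃ j, ¬ T j) →
        5 ≤ (Finset.univ.filter S).card := by
      intro S T hST hi hj
      obtain ⟨i, hi⟩ := hi
      obtain ⟨j, hj⟩ := hj
      have h3 : (Finset.univ.filter fun a => ¬ S a).card ≤ 3 := by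
        by_contra hcon
        push Not at hcon
        have : 1 < (((Finset.univ.filter fun a => ¬ S a).erase i).erase j).card := by
          have e1 := Finset.pred_card_le_card_erase (s := Finset.univ.filter fun a => ¬ S a) (a := i)
          have e2 := Finset.pred_card_le_card_erase
            (s := (Finset.univ.filter fun a => ¬ S a).erase i) (a := j)
          omega
        obtain ⟨a, ha, b, hb, hab⟩ := Finset.one_lt_card.1 this
        simp only [Finset.mem_erase, Finset.mem_filter, Finset.mem_univ, true_and] at ha hb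
        exact hST i j a b hi hj ha.2.2 hb.2.2 hab ha.2.1 ha.1 hb.2.1 hb.1
      have := Finset.card_filter_add_card_filter_not (s := (Finset.univ : Finset (Fin 8))) S
      simp at this
      omega
    have hdis : (Finset.univ.filter S).card + (Finset.univ.filter T).card ≤ 8 := by
      rw [← Finset.card_union_of_disjoint]
      · exact (Finset.card_le_univ _).trans (by simp)
      · rw [Finset.disjoint_filter]
        intro i _ h1 h2
        exact hA i h1 h2
    by_cases hT : ∃ i, T i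
    · obtain ⟨i, hi⟩ := hT
      have hSi : ¬ S i := fun h => hA i h hi
      by_cases hT2 : ∀ j, T j
      · right; left
        exact ⟨hT2, i, fun m hm => absurd (hT2 m) (hA m hm)⟩
      · push Not at hT2
        exfalso
        have b1 := big S T c3 ⟨i, hi⟩ hT2
        have hS : ∃ j, S j := by
          have : 0 < (Finset.univ.filter S).card := by omega
          obtain ⟨j, hj⟩ := Finset.card_pos.1 this
          exact ⟨j, (Finset.mem_filter.1 hj).2⟩
        have b2 := big T S c3' hS ⟨i, hSi⟩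
        omega
    · push Not at hT
      by_cases hS : ∃ i, S i
      · by_cases hS2 : ∀ j, S j
        · left
          exact ⟨hS2, 0, fun m hm => absurd hm (hT m)⟩
        · push Not at hS2
          exfalso
          have b2 := big T S c3' hS hS2
          have : 0 < (Finset.univ.filter T).card := by omega
          obtain ⟨j, hj⟩ := Finset.card_pos.1 this
          exact hT j (Finset.mem_filter.1 hj).2
      · push Not at hS
        right; right
        exact fun i => ⟨hS i, hT i⟩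

/-- The standing assumptions. -/
structure HK (G : SimpleGraph V) (p r : Fin 8 → V) : Prop where
  cls : Cls G
  hp : ∀ i j, i ≠ j → G.Adj (p i) (p j)
  hr : ∀ i j, i ≠ j → G.Adj (r i) (r j)
  hpr : ∀ i j, G.Adj (p i) (r j) ↔ i = j

theorem HK.symm {p r : Fin 8 → V} (h : HK G p r) : HK G r p :=
  ⟨h.cls, h.hr, h.hp, fun i j => by rw [G.adj_comm, h.hpr j i]; exact eq_comm⟩

theorem HK.inj {p r : Fin 8 → V} (h : HK G p r) {i j : Fin 8} (he : p i = p j) : i = j := by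
  by_contra hne
  have := h.hp i j hne
  rw [he] at this
  exact G.loopless.irrefl _ this

/-- For a vertex outside of the structure. -/
theorem HK.outside {p r : Fin 8 → V} (h : HK G p r) {z : V} (hzp : ∀ i, z ≠ p i)
    (hzr : ∀ i, z ≠ r i) :
    ((∀ i, G.Adj z (p i)) ∧ ∃ t, ∀ i, G.Adj z (r i) → i = t) ∨
    ((∀ i, G.Adj z (r i)) ∧ ∃ t, ∀ i, G.Adj z (p i) → i = t) ∨
      (∀ i, ¬ G.Adj z (p i) ∧ ¬ G.Adj z (r i)) := by
  have C1 : ∀ {p r : Fin 8 → V} (_ : HK G p r) (z : V) (i j l : Fin 8), G.Adj z (p i) →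
      G.Adj z (r i) → G.Adj z (p j) → j ≠ i → ¬ G.Adj z (p l) → False := by
    intro p r h z i j l h1 h2 h3 h4 h5
    have hli : l ≠ i := by rintro rfl; exact h5 h1
    have hlj : l ≠ j := by rintro rfl; exact h5 h3
    exact h.cls.gem (p i) (r i) z (p j) (p l) ((h.hpr i i).2 rfl) h1.symm (h.hp i j h4.symm)
      (h.hp i l hli.symm) h2.symm h3 (h.hp j l hlj.symm)
      (fun e => h4 ((h.hpr j i).1 e.symm)) (fun e => hli ((h.hpr l i).1 e.symm)) h5
  have C2 : ∀ i j l, G.Adj z (p i) → G.Adj z (r i) → G.Adj z (p l) → G.Adj z (r j) → l ≠ i →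
      j ≠ i → l ≠ j → False := by
    intro i j l h1 h2 h3 h4 h5 h6 h7
    exact h.cls.gem z (p l) (p i) (r i) (r j) h3 h1 h2 h4 (h.hp l i h5) ((h.hpr i i).2 rfl)
      (h.hr i j h6.symm) (fun e => h5 ((h.hpr l i).1 e)) (fun e => h7 ((h.hpr l j).1 e))
      (fun e => h6 ((h.hpr i j).1 e).symm)
  have C3 : ∀ {p r : Fin 8 → V} (_ : HK G p r) (z : V), (∀ i, z ≠ r i) → ∀ i j a b : Fin 8,
      G.Adj z (r i) → ¬ G.Adj z (r j) → ¬ G.Adj z (p a) → ¬ G.Adj z (p b) → a ≠ b → a ≠ i →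
      a ≠ j → b ≠ i → b ≠ j → False := by
    intro p r h z hz i j a b h1 h2 h3 h4 h5 h6 h7 h8 h9
    have hij : i ≠ j := by rintro rfl; exact h2 h1
    exact h.cls.pp (p a) (p b) z (r i) (r j) (h.hp a b h5) h1 (h.hr i j hij) (hz j) h2
      (fun e => h3 e.symm) (fun e => h6 ((h.hpr a i).1 e)) (fun e => h7 ((h.hpr a j).1 e))
      (fun e => h4 e.symm) (fun e => h8 ((h.hpr b i).1 e)) (fun e => h9 ((h.hpr b j).1 e))
  exact hh_types (fun i => G.Adj z (p i)) (fun i => G.Adj z (r i))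
    (fun i j l a b c d e => C1 h z i j l a b c d e)
    (fun i j l a b c d e => C1 h.symm z i j l b a c d e)
    C2 (C3 h z hzr) (C3 h.symm z hzp)

/-- The left side. -/
def HP (G : SimpleGraph V) (p r : Fin 8 → V) : Set V :=
  {v | (∀ i, v ≠ p i → G.Adj v (p i)) ∧ ∃ t, ∀ i, G.Adj v (r i) → i = t}

theorem HK.mem {p r : Fin 8 → V} (h : HK G p r) (z : V) :
    z ∈ HP G p r ∨ z ∈ HP G r p ∨ (∀ i, ¬ G.Adj z (p i) ∧ ¬ G.Adj z (r i)) := by
  by_cases hzp : ∃ i, z = p i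
  · obtain ⟨i, rfl⟩ := hzp
    left
    refine ⟨fun j hj => h.hp i j (fun e => hj (by rw [e])), i, fun j hj => ((h.hpr i j).1 hj).symm⟩
  by_cases hzr : ∃ i, z = r i
  · obtain ⟨i, rfl⟩ := hzr
    right; left
    refine ⟨fun j hj => h.hr i j (fun e => hj (by rw [e])), i,
      fun j hj => ((h.hpr j i).1 hj.symm)⟩
  push Not at hzp hzr
  rcases h.outside hzp hzr with ⟨h1, h2⟩ | ⟨h1, h2⟩ | h1
  · exact Or.inl ⟨fun i _ => h1 i, h2⟩
  · exact Or.inr (Or.inl ⟨fun i _ => h1 i, h2⟩)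
  · exact Or.inr (Or.inr h1)

theorem HK.eqp {p r : Fin 8 → V} (h : HK G p r) (v : V) : ∃ s, ∀ i, v = p i → i = s := by
  by_cases hv : ∃ i, v = p i
  · obtain ⟨s, rfl⟩ := hv
    exact ⟨s, fun i hi => (h.inj hi).symm⟩
  · exact ⟨0, fun i hi => absurd ⟨i, hi⟩ hv⟩

theorem HK.clique {p r : Fin 8 → V} (h : HK G p r) : G.IsClique (HP G p r) := by
  intro v hv w hw hne
  by_contra hn
  obtain ⟨hv1, t1, ht1⟩ := hv
  obtain ⟨hw1, t2, ht2⟩ := hw
  obtain ⟨s1, hs1⟩ := h.eqp v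
  obtain ⟨s2, hs2⟩ := h.eqp w
  obtain ⟨a, ha1, ha2, -⟩ := hh_pick3 t1 t2 t2
  obtain ⟨b, hb1, hb2, hb3⟩ := hh_pick3 t1 t2 a
  obtain ⟨l, hl1, hl2, hl3, hl4⟩ := hh_pick4 a b s1 s2
  have e1 : G.Adj v (p l) := hv1 l (fun e => hl3 (hs1 l e))
  have e2 : G.Adj w (p l) := hw1 l (fun e => hl4 (hs2 l e))
  exact h.cls.pp (r a) (r b) v (p l) w (h.hr a b (Ne.symm hb3)) e1 e2.symm hne hn
    (fun e => ha1 (ht1 a e.symm)) (fun e => hl1 ((h.hpr l a).1 e.symm))
    (fun e => ha2 (ht2 a e.symm)) (fun e => hb1 (ht1 b e.symm))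
    (fun e => hl2 ((h.hpr l b).1 e.symm)) (fun e => hb2 (ht2 b e.symm))

theorem HK.anti {p r : Fin 8 → V} (h : HK G p r) {z y : V}
    (hz : ∀ i, ¬ G.Adj z (p i) ∧ ¬ G.Adj z (r i)) (hy : y ∈ HP G p r) : ¬ G.Adj z y := by
  intro hzy
  obtain ⟨hy1, t, ht⟩ := hy
  obtain ⟨s, hs⟩ := h.eqp y
  obtain ⟨a, ha, -, -⟩ := hh_pick3 t t t
  obtain ⟨b, hb1, hb2, -⟩ := hh_pick3 t a a
  obtain ⟨l, hl1, hl2, hl3⟩ := hh_pick3 a b s
  have e1 : G.Adj y (p l) := hy1 l (fun e => hl3 (hs l e))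
  have hzl : z ≠ p l := by
    rintro rfl
    exact (hz a).1 (h.hp l a hl1)
  exact h.cls.pp (r a) (r b) z y (p l) (h.hr a b (Ne.symm hb2)) hzy e1 hzl (hz l).1
    (fun e => (hz a).2 e.symm) (fun e => ha (ht a e.symm)) (fun e => hl1 ((h.hpr l a).1 e.symm))
    (fun e => (hz b).2 e.symm) (fun e => hb1 (ht b e.symm)) (fun e => hl2 ((h.hpr l b).1 e.symm))

theorem no_K2K8 [Finite V] (hc : Cls G) {k : ℕ} (hk : CL G Set.univ k) (hcr : Crit G k)
    (p r : Fin 8 → V) (hp : ∀ i j, i ≠ j → G.Adj (p i) (p j))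
    (hr : ∀ i j, i ≠ j → G.Adj (r i) (r j)) (hpr : ∀ i j, G.Adj (p i) (r j) ↔ i = j) :
    False := by
  have h : HK G p r := ⟨hc, hp, hr, hpr⟩
  have hZ : ∀ z, ¬ ∀ i, ¬ G.Adj z (p i) ∧ ¬ G.Adj z (r i) := by
    intro z hz
    obtain ⟨u, hu, v, hv, huv⟩ := hcr.conn {z | ∀ i, ¬ G.Adj z (p i) ∧ ¬ G.Adj z (r i)} ⟨z, hz⟩ (by
      intro e
      have h0 : p 0 ∈ {z | ∀ i, ¬ G.Adj z (p i) ∧ ¬ G.Adj z (r i)} := by rw [e]; trivial
      exact (h0 0).2 ((hpr 0 0).2 rfl))
    rcases h.mem v with h1 | h1 | h1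
    · exact h.anti hu h1 huv
    · exact h.symm.anti (fun i => ⟨(hu i).2, (hu i).1⟩) h1 huv
    · exact hv h1
  have huniv : HP G p r ∪ HP G r p = Set.univ := by
    ext z
    simp only [Set.mem_union, Set.mem_univ, iff_true]
    rcases h.mem z with h1 | h1 | h1
    · exact Or.inl h1
    · exact Or.inr h1
    · exact absurd h1 (hZ z)
  apply hcr.1
  rw [← huniv]
  exact cb h.clique h.symm.clique (by rw [huniv]; exact hk)

end GP
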