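import Pool.Agent.Work.MP_31af1e_lc.Defs

/-! Module II: no spiked clique (helper96). -/

set_option autoImplicit false

namespace GP

variable {V : Type} {G : SimpleGraph V}

theorem fin_ex_not {n : ℕ} (s : Finset (Fin n)) (h : s.card < n) : ∃ x, x ∉ s := by
  by_contra hne
  push Not at hne
  have : s = Finset.univ := Finset.eq_univ_iff_forall.2 hne
  rw [this, Finset.card_univ, Fintype.card_fin] at h
  exact lt_irrefl _ h

theorem sc_comb (S T : Fin 7 → Prop)
    (c1 : ∀ a b c, a ≠ b → S a → T a → S b → ¬ S c → False)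
    (c2 : ∀ a b c d, a ≠ b → c ≠ d → c ≠ a → c ≠ b → d ≠ a → d ≠ b → T a → T b → ¬ S c → ¬ S d →
      False)
    (c3 : ∀ a b c, a ≠ b → a ≠ c → b ≠ c → T c → ¬ S a → ¬ T a → ¬ S b → False)
    {i j : Fin 7} (hij : i ≠ j) (hi : T i) (hj : ¬ S j) :
    ¬ S i ∧ ∀ a b, a ≠ i → b ≠ i → a ≠ j → b ≠ j → a ≠ b → S a ∨ S b := by
  constructor
  · intro hSi
    have hS : ∀ b, b ≠ i → ¬ S b := fun b hb h => c1 i b j hb.symm hSi hi h hj
    have hT : ∀ a, a ≠ i → T a := by
      intro a ha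
      by_contra hTa
      obtain ⟨b, hb⟩ := fin_ex_not ({a, i} : Finset (Fin 7)) (lt_of_le_of_lt Finset.card_le_two (by norm_num))
      simp only [Finset.mem_insert, Finset.mem_singleton, not_or] at hb
      exact c3 a b i (Ne.symm hb.1) ha hb.2 hi (hS a ha) hTa (hS b hb.2)
    obtain ⟨a, ha⟩ := fin_ex_not ({i} : Finset (Fin 7)) (by simp)
    obtain ⟨b, hb⟩ := fin_ex_not ({i, a} : Finset (Fin 7))
      (lt_of_le_of_lt Finset.card_le_two (by norm_num))
    obtain ⟨c, hc⟩ := fin_ex_not ({i, a, b} : Finset (Fin 7))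
      (lt_of_le_of_lt Finset.card_le_three (by norm_num))
    obtain ⟨d, hd⟩ := fin_ex_not ({i, a, b, c} : Finset (Fin 7))
      (lt_of_le_of_lt Finset.card_le_four (by norm_num))
    simp only [Finset.mem_insert, Finset.mem_singleton, not_or] at ha hb hc hd
    exact c2 a b c d (Ne.symm hb.2) (Ne.symm hd.2.2.2) hc.2.1 hc.2.2 hd.2.1 hd.2.2.1
      (hT a ha) (hT b hb.1) (hS c hc.1) (hS d hd.1)
  · intro a b hai hbi haj hbj hab
    by_contra h
    rw [not_or] at h
    by_cases hTa : T a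
    · exact c2 i a j b (Ne.symm hai) (Ne.symm hbj) (Ne.symm hij) (Ne.symm haj) hbi (Ne.symm hab) hi
        hTa hj h.2
    · exact c3 a b i hab hai hbi hi h.1 hTa h.2

theorem no_SC7 (hc : Cls G) (hd : NoDom G) (v x : Fin 7 → V)
    (hv : ∀ i j, i ≠ j → G.Adj (v i) (v j)) (hx : ∀ i j, ¬ G.Adj (x i) (x j))
    (hxv : ∀ i j, G.Adj (x i) (v j) ↔ i = j) : False := by
  have hxx : ∀ i j, i ≠ j → x i ≠ x j := by
    intro i j hij h
    have h1 := (hxv i i).2 rfl
    rw [h] at h1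
    exact hij ((hxv j i).1 h1).symm
  have hxne : ∀ i j, x i ≠ v j := by
    intro i j h
    obtain ⟨k, hk⟩ := fin_ex_not ({i, j} : Finset (Fin 7))
      (lt_of_le_of_lt Finset.card_le_two (by norm_num))
    simp only [Finset.mem_insert, Finset.mem_singleton, not_or] at hk
    have h1 := hv j k (Ne.symm hk.2)
    rw [← h] at h1
    exact hk.1 ((hxv i k).1 h1).symm
  have hxvn : ∀ i j, i ≠ j → ¬ G.Adj (x i) (v j) := fun i j hij h => hij ((hxv i j).1 h)
  -- the vertices `z_ij`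
  have hz : ∀ i j, i ≠ j → ∃ z, ¬ G.Adj z (v i) ∧ ¬ G.Adj z (v j) ∧
      ∀ a b, a ≠ i → b ≠ i → a ≠ j → b ≠ j → a ≠ b → G.Adj z (v a) ∨ G.Adj z (v b) := by
    intro i j hij
    obtain ⟨z, hz1, hz2⟩ := hd (x i) (v j) (hxne i j)
    have key := sc_comb (fun a => G.Adj z (v a)) (fun a => G.Adj z (x a)) ?_ ?_ ?_ hij hz1.symm
      (fun h => hz2 h.symm)
    · exact ⟨z, key.1, fun h => hz2 h.symm, key.2⟩
    · intro a b c hab hSa hTa hSb hSc
      have hac : a ≠ c := by rintro rfl; exact hSc hSa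
      have hbc : b ≠ c := by rintro rfl; exact hSc hSb
      exact hc.gem (v a) (x a) z (v b) (v c) ((hxv a a).2 rfl).symm hSa.symm (hv a b hab)
        (hv a c hac) hTa.symm hSb (hv b c hbc) (hxvn a b hab) (hxvn a c hac) hSc
    · intro a b c d hab hcd hca hcb hda hdb hTa hTb hSc hSd
      exact hc.pp (v c) (v d) (x a) z (x b) (hv c d hcd) hTa.symm hTb (hxx a b hab) (hx a b)
        (fun h => hxvn a c (Ne.symm hca) h.symm) (fun h => hSc h.symm)
        (fun h => hxvn b c (Ne.symm hcb) h.symm) (fun h => hxvn a d (Ne.symm hda) h.symm)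
        (fun h => hSd h.symm) (fun h => hxvn b d (Ne.symm hdb) h.symm)
    · intro a b c hab hac hbc hTc hSa hTa hSb
      exact hc.pp (x c) z (x a) (v a) (v b) hTc.symm ((hxv a a).2 rfl) (hv a b hab) (hxne a b)
        (hxvn a b hab) (hx c a) (hxvn c a (Ne.symm hac)) (hxvn c b (Ne.symm hbc)) hTa hSa hSb
  -- two gems
  have gem2 : ∀ z z' : V, ∀ i j l a : Fin 7, a ≠ i → a ≠ j → a ≠ l → i ≠ l → j ≠ l →
      ¬ G.Adj z (v i) → ¬ G.Adj z' (v i) → ¬ G.Adj z (v j) → ¬ G.Adj z' (v l) →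
      G.Adj z (v l) → G.Adj z' (v j) → G.Adj z (v a) → G.Adj z' (v a) → False := by
    intro z z' i j l a hai haj hal hil hjl n1 n2 n3 n4 p1 p2 p3 p4
    by_cases hzz : G.Adj z z'
    · exact hc.gem (v a) z' z (v l) (v i) p4.symm p3.symm (hv a l hal) (hv a i hai) hzz.symm p1
        (hv l i hil.symm) n4 n2 n1
    · exact hc.gem (v a) z (v l) (v j) z' p3.symm (hv a l hal) (hv a j haj) p4.symm p1
        (hv l j hjl.symm) p2.symm n3 hzz (fun h => n4 h.symm)
  have hthree : ∀ i j l, i ≠ j → i ≠ l → j ≠ l → ∃ z, ¬ G.Adj z (v i) ∧ ¬ G.Adj z (v j) ∧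
      ¬ G.Adj z (v l) ∧ ∀ a, a ≠ i → a ≠ j → a ≠ l → G.Adj z (v a) := by
    intro i j l hij hil hjl
    obtain ⟨z, z1, z2, z3⟩ := hz i j hij
    obtain ⟨z', w1, w2, w3⟩ := hz i l hil
    by_cases h1 : G.Adj z (v l)
    · by_cases h2 : G.Adj z' (v j)
      · exfalso
        obtain ⟨a, ha⟩ := fin_ex_not ({i, j, l} : Finset (Fin 7))
          (lt_of_le_of_lt Finset.card_le_three (by norm_num))
        obtain ⟨b, hb⟩ := fin_ex_not ({i, j, l, a} : Finset (Fin 7))
          (lt_of_le_of_lt Finset.card_le_four (by norm_num))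
        obtain ⟨c, hcc⟩ := fin_ex_not ({i, j, l, a, b} : Finset (Fin 7))
          (lt_of_le_of_lt Finset.card_le_five (by norm_num))
        simp only [Finset.mem_insert, Finset.mem_singleton, not_or] at ha hb hcc
        obtain ⟨a1, a2, a3⟩ := ha
        obtain ⟨b1, b2, b3, b4⟩ := hb
        obtain ⟨c1, c2, c3, c4, c5⟩ := hcc
        have e1 := z3 a b a1 b1 a2 b2 (Ne.symm b4)
        have e2 := z3 a c a1 c1 a2 c2 (Ne.symm c4)
        have e3 := z3 b c b1 c1 b2 c2 (Ne.symm c5)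
        have f1 := w3 a b a1 b1 a3 b3 (Ne.symm b4)
        have f2 := w3 a c a1 c1 a3 c3 (Ne.symm c4)
        have f3 := w3 b c b1 c1 b3 c3 (Ne.symm c5)
        have : (G.Adj z (v a) ∧ G.Adj z' (v a)) ∨ (G.Adj z (v b) ∧ G.Adj z' (v b)) ∨
            (G.Adj z (v c) ∧ G.Adj z' (v c)) := by tauto
        rcases this with h | h | h
        · exact gem2 z z' i j l a a1 a2 a3 hil hjl z1 w1 z2 w2 h1 h2 h.1 h.2
        · exact gem2 z z' i j l b b1 b2 b3 hil hjl z1 w1 z2 w2 h1 h2 h.1 h.2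
        · exact gem2 z z' i j l c c1 c2 c3 hil hjl z1 w1 z2 w2 h1 h2 h.1 h.2
      · refine ⟨z', w1, h2, w2, fun a ha1 ha2 ha3 => ?_⟩
        exact (w3 a j ha1 hij.symm ha3 hjl ha2).resolve_right h2
    · refine ⟨z, z1, z2, h1, fun a ha1 ha2 ha3 => ?_⟩
      exact (z3 a l ha1 hil.symm ha2 hjl.symm ha3).resolve_right h1
  obtain ⟨z, z1, z2, z3, z4⟩ := hthree 0 1 2 (by decide) (by decide) (by decide)
  obtain ⟨z', w1, w2, w3, w4⟩ := hthree 0 3 4 (by decide) (by decide) (by decide)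
  exact gem2 z z' 0 1 3 5 (by decide) (by decide) (by decide) (by decide) (by decide) z1 w1 z2 w2
    (z4 3 (by decide) (by decide) (by decide)) (w4 1 (by decide) (by decide) (by decide))
    (z4 5 (by decide) (by decide) (by decide)) (w4 5 (by decide) (by decide) (by decide))

end GP
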