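import Pool.Agent.Work.MP_31af1e_lc.Defs

/-! Module JJ: no half graph `TH12` (helper96). -/

set_option autoImplicit false

namespace GP

variable {V : Type} {G : SimpleGraph V}

theorem no_TH12 (hc : Cls G) (hd : NoDom G) (v x : Fin 12 → V)
    (hv : ∀ i j, i ≠ j → G.Adj (v i) (v j)) (hx : ∀ i j, ¬ G.Adj (x i) (x j))
    (hxv : ∀ i j, G.Adj (x i) (v j) ↔ j ≤ i) : False := by
  have hxvn : ∀ i j, i < j → ¬ G.Adj (x i) (v j) := fun i j hij h => absurd ((hxv i j).1 h)
    (not_le.2 hij)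
  have hxx : ∀ i j, i < j → x i ≠ x j := by
    intro i j hij h
    have h1 := (hxv j j).2 le_rfl
    rw [← h] at h1
    exact hxvn i j hij h1
  have hxne : ∀ i j, i < j → x i ≠ v j := by
    intro i j hij h
    -- `v j ~ v 0 .. ` ; `x i = v j`: adjacent to some `v k`, `k > i`, `k ≠ j`, or `j = 11`
    have h1 := (hxv j j).2 le_rfl
    rw [← h] at h1
    exact hx j i h1
  -- the vertices `z_j`
  have hz : ∀ j : Fin 12, 0 < j → j < 7 → ∃ z, G.Adj z (x 0) ∧ (∀ i, i ≤ j → ¬ G.Adj z (v i)) ∧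
      ∀ c c', j < c → j < c' → c ≠ c' → G.Adj z (v c) ∨ G.Adj z (v c') := by
    intro j hj0 hj7
    obtain ⟨z, hz1, hz2⟩ := hd (x 0) (v j) (hxne 0 j hj0)
    have hzj : ¬ G.Adj z (v j) := fun h => hz2 h.symm
    have hA : ∀ a b c, 0 < b → b ≤ a → a < c → ¬ G.Adj z (v b) → ¬ G.Adj z (v c) →
        ¬ G.Adj z (x a) → False := by
      intro a b c h0 hba hac hb hc' ha
      have hbc : b < c := lt_of_le_of_lt hba hac
      exact hc.pp (x 0) z (x a) (v b) (v c) hz1 ((hxv a b).2 hba) (hv b c hbc.ne) (hxne a c hac)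
        (hxvn a c hac) (hx 0 a) (hxvn 0 b h0) (hxvn 0 c (h0.trans hbc)) ha hb hc'
    have hB : ∀ a b c, 0 < a → a < b → a < c → b ≠ c → G.Adj z (x a) → ¬ G.Adj z (v b) →
        ¬ G.Adj z (v c) → False := by
      intro a b c h0 hab hac hbc ha hb hc'
      exact hc.pp (v b) (v c) (x 0) z (x a) (hv b c hbc) hz1 ha (hxx 0 a h0) (hx 0 a)
        (fun h => hxvn 0 b (h0.trans hab) h.symm) (fun h => hb h.symm)
        (fun h => hxvn a b hab h.symm) (fun h => hxvn 0 c (h0.trans hac) h.symm)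
        (fun h => hc' h.symm) (fun h => hxvn a c hac h.symm)
    have hmiss : ∀ c c', j < c → j < c' → c ≠ c' → G.Adj z (v c) ∨ G.Adj z (v c') := by
      intro c c' h1 h2 h3
      by_contra h
      rw [not_or] at h
      have hT : G.Adj z (x j) := by
        by_contra hT
        exact hA j j c hj0 le_rfl h1 hzj h.1 hT
      exact hB j c c' hj0 h1 h2 h3 hT h.1 h.2
    obtain ⟨a, haj, ha⟩ : ∃ a, j < a ∧ G.Adj z (v a) := by
      rcases hmiss 10 11 (hj7.trans (by decide)) (hj7.trans (by decide)) (by decide) with h | h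
      · exact ⟨10, hj7.trans (by decide), h⟩
      · exact ⟨11, hj7.trans (by decide), h⟩
    have ha0 : 0 < a := hj0.trans haj
    have h0 : ¬ G.Adj z (v 0) := by
      intro h
      exact hc.gem (v 0) (x 0) z (v a) (v j) ((hxv 0 0).2 le_rfl).symm h.symm
        (hv 0 a ha0.ne) (hv 0 j hj0.ne) hz1 ha (hv a j haj.ne') (hxvn 0 a ha0) (hxvn 0 j hj0) hzj
    refine ⟨z, hz1.symm, fun i hij hi => ?_, hmiss⟩
    rcases eq_or_lt_of_le hij with rfl | hlt
    · exact hzj hi
    -- the predecessor of `j`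
    obtain ⟨m, hm1, hm2⟩ : ∃ m : Fin 12, m < j ∧ ∀ i, i < j → i ≤ m := by
      refine ⟨⟨j.1 - 1, by omega⟩, ?_, fun i hi => ?_⟩
      · rw [Fin.lt_def] at hj0 ⊢
        simp only [Fin.val_zero] at hj0
        show j.1 - 1 < j.1
        omega
      · rw [Fin.lt_def] at hi
        rw [Fin.le_def]
        show i.1 ≤ j.1 - 1
        omega
    have him : i ≤ m := hm2 i hlt
    have hi0 : i ≠ 0 := by rintro rfl; exact h0 hi
    have hia : i < a := hlt.trans haj
    by_cases hzm : G.Adj z (x m)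
    · exact hc.gem (v i) (x m) z (v a) (v j) ((hxv m i).2 him).symm hi.symm (hv i a hia.ne)
        (hv i j hlt.ne) hzm.symm ha (hv a j haj.ne') (hxvn m a (hm1.trans haj)) (hxvn m j hm1) hzj
    · exact hc.gem (v i) z (v a) (v 0) (x m) hi.symm (hv i a hia.ne) (hv i 0 hi0)
        ((hxv m i).2 him).symm ha (hv a 0 ha0.ne') ((hxv m 0).2 (Fin.zero_le _)).symm h0 hzm
        (fun h => hxvn m a (hm1.trans haj) h.symm)
  obtain ⟨z, z1, z2, z3⟩ := hz 2 (by decide) (by decide)
  obtain ⟨z', w1, w2, w3⟩ := hz 6 (by decide) (by decide)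
  obtain ⟨b, hb2, hb6, hb⟩ : ∃ b : Fin 12, 2 < b ∧ b ≤ 6 ∧ G.Adj z (v b) := by
    rcases z3 3 4 (by decide) (by decide) (by decide) with h | h
    · exact ⟨3, by decide, by decide, h⟩
    · exact ⟨4, by decide, by decide, h⟩
  have hb' : ¬ G.Adj z' (v b) := w2 b hb6
  have hne : z ≠ z' := by rintro rfl; exact hb' hb
  by_cases hzz : G.Adj z z'
  · obtain ⟨a, ha6, haz, haz'⟩ : ∃ a : Fin 12, 6 < a ∧ G.Adj z (v a) ∧ G.Adj z' (v a) := by
      have e1 := z3 7 8 (by decide) (by decide) (by decide)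
      have e2 := z3 7 9 (by decide) (by decide) (by decide)
      have e3 := z3 8 9 (by decide) (by decide) (by decide)
      have f1 := w3 7 8 (by decide) (by decide) (by decide)
      have f2 := w3 7 9 (by decide) (by decide) (by decide)
      have f3 := w3 8 9 (by decide) (by decide) (by decide)
      have : (G.Adj z (v 7) ∧ G.Adj z' (v 7)) ∨ (G.Adj z (v 8) ∧ G.Adj z' (v 8)) ∨
          (G.Adj z (v 9) ∧ G.Adj z' (v 9)) := by tauto
      rcases this with h | h | h
      · exact ⟨7, by decide, h⟩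
      · exact ⟨8, by decide, h⟩
      · exact ⟨9, by decide, h⟩
    have hab : b < a := lt_of_le_of_lt hb6 ha6
    have hb0 : 0 < b := lt_trans (by decide) hb2
    exact hc.gem (v a) z' z (v b) (v 0) haz'.symm haz.symm (hv a b hab.ne')
      (hv a 0 (hb0.trans hab).ne') hzz.symm hb (hv b 0 hb0.ne') hb' (w2 0 (Fin.zero_le _))
      (z2 0 (Fin.zero_le _))
  · exact hc.pp (v 1) (v 2) z (x 0) z' (hv 1 2 (by decide)) z1 w1.symm hne hzz
      (fun h => z2 1 (by decide) h.symm) (fun h => hxvn 0 1 (by decide) h.symm)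
      (fun h => w2 1 (by decide) h.symm) (fun h => z2 2 (by decide) h.symm)
      (fun h => hxvn 0 2 (by decide) h.symm) (fun h => w2 2 (by decide) h.symm)

end GP
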