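import Pool.Agent.Work.MP_31af1e_lc.MC

/-!
Module KK: a critical graph of the class has no induced complement of a perfect matching with
twelve vertices.
-/

set_option autoImplicit false

namespace GP

variable {V : Type} {G : SimpleGraph V}

theorem kk_pick (t1 t2 t3 t4 : Fin 6) : ∃ a, a ≠ t1 ∧ a ≠ t2 ∧ a ≠ t3 ∧ a ≠ t4 := by
  have h : ∃ a, a ∉ ({t1, t2, t3, t4} : Finset (Fin 6)) := by
    by_contra hcon
    push Not at hcon
    have h1 : ({t1, t2, t3, t4} : Finset (Fin 6)) = Finset.univ := by ext a; simp [hcon a]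
    have h2 : ({t1, t2, t3, t4} : Finset (Fin 6)).card ≤ 4 := Finset.card_le_four
    rw [h1] at h2
    simp at h2
  obtain ⟨a, ha⟩ := h
  simp only [Finset.mem_insert, Finset.mem_singleton, not_or] at ha
  exact ⟨a, ha.1, ha.2.1, ha.2.2.1, ha.2.2.2⟩

/-- Six pairs. -/
structure CPs (G : SimpleGraph V) (c : Fin 6 → Bool → V) : Prop where
  cls : Cls G
  nd : NoDom G
  adj : ∀ i j s t, G.Adj (c i s) (c j t) ↔ i ≠ j
  ne : ∀ i s, c i s ≠ c i (!s)

variable {c : Fin 6 → Bool → V}

theorem CPs.one (h : CPs G c) {z : V} {i j l : Fin 6} {s t u : Bool}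
    (h1 : G.Adj z (c i s)) (h2 : ¬ G.Adj z (c i (!s))) (h3 : ¬ G.Adj z (c j t)) (hij : i ≠ j)
    (hli : l ≠ i) (hlj : l ≠ j) : ¬ G.Adj z (c l u) := by
  intro h4
  exact h.cls.gem (c l u) z (c i s) (c j t) (c i (!s)) h4.symm ((h.adj _ _ _ _).2 hli)
    ((h.adj _ _ _ _).2 hlj) ((h.adj _ _ _ _).2 hli) h1 ((h.adj _ _ _ _).2 hij)
    ((h.adj _ _ _ _).2 hij.symm) h3 h2 (fun e => (h.adj _ _ _ _).1 e rfl)

theorem CPs.A (h : CPs G c) {z y : V} {i : Fin 6} (hz : ∀ j s, G.Adj z (c j s) → j = i)
    (hzy : G.Adj z y) {j l : Fin 6} (hji : j ≠ i) (hli : l ≠ i) (hjl : j ≠ l) :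
    ∃ s, G.Adj y (c j s) ∨ G.Adj y (c l s) := by
  by_contra hcon
  push Not at hcon
  exact h.cls.pp z y (c j true) (c l true) (c j false) hzy ((h.adj _ _ _ _).2 hjl)
    ((h.adj _ _ _ _).2 hjl.symm) (h.ne j true) (fun e => (h.adj _ _ _ _).1 e rfl)
    (fun e => hji (hz _ _ e)) (fun e => hli (hz _ _ e)) (fun e => hji (hz _ _ e))
    (hcon true).1 (hcon true).2 (hcon false).1

theorem CPs.B (h : CPs G c) {z y : V} {i : Fin 6} (hz : ∀ j s, G.Adj z (c j s) → j = i)
    (hzy : G.Adj z y) {j l : Fin 6} {s u : Bool} (hji : j ≠ i) (hli : l ≠ i) (hlj : l ≠ j)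
    (h1 : ¬ G.Adj y (c j s)) : G.Adj y (c l u) := by
  by_contra h2
  obtain ⟨m, hm1, hm2, hm3, -⟩ := kk_pick i j l l
  obtain ⟨m', hm1', hm2', hm3', hm4'⟩ := kk_pick i j l m
  obtain ⟨e, he⟩ := h.A hz hzy hji hli hlj.symm
  obtain ⟨e', he'⟩ := h.A hz hzy hm1 hm1' hm4'.symm
  have key : ∀ (j l : Fin 6) (s u e : Bool), G.Adj y (c j e) → ¬ G.Adj y (c j s) →
      ¬ G.Adj y (c l u) → l ≠ j → m ≠ j → m ≠ l → m' ≠ j → m' ≠ l → False := by
    intro j l s u e k1 k2 k3 k4 k5 k6 k7 k8
    have hse : s = !e := by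
      cases s <;> cases e <;> simp_all
    subst hse
    rcases he' with he' | he'
    · exact h.one k1 k2 k3 k4.symm k5 k6 he'
    · exact h.one k1 k2 k3 k4.symm k7 k8 he'
  rcases he with he | he
  · exact key j l s u e he h1 h2 hlj hm2 hm3 hm2' hm3'
  · exact key l j u s e he h2 h1 hlj.symm hm3 hm2 hm3' hm2'

theorem CPs.two (h : CPs G c) {z : V} (hzo : ∀ i s, z ≠ c i s) {i : Fin 6}
    (hz : ∀ j s, G.Adj z (c j s) → j = i) : False := by
  obtain ⟨j, hj, -⟩ := kk_pick i i i i
  obtain ⟨l, hl, hlj, -⟩ := kk_pick i j j j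
  obtain ⟨m, hm, hmj, hml, -⟩ := kk_pick i j l l
  obtain ⟨y, hy, hyj⟩ := h.nd z (c j true) (hzo j true)
  obtain ⟨y', hy', hyl⟩ := h.nd z (c l true) (hzo l true)
  have e1 : G.Adj y (c l true) := h.B hz hy (s := true) hj hl hlj (fun e => hyj e.symm)
  have e2 : G.Adj y' (c j true) := h.B hz hy' (s := true) hl hj hlj.symm (fun e => hyl e.symm)
  have e3 : G.Adj y (c m true) := h.B hz hy (s := true) hj hm hmj (fun e => hyj e.symm)
  have e4 : G.Adj y' (c m true) := h.B hz hy' (s := true) hl hm hml (fun e => hyl e.symm)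
  by_cases hyy : G.Adj y y'
  · exact h.cls.gem y z y' (c m true) (c l true) hy.symm hyy e3 e1 hy' e4
      ((h.adj _ _ _ _).2 hml) (fun e => hm (hz _ _ e)) (fun e => hl (hz _ _ e))
      (fun e => hyl e.symm)
  · exact h.cls.gem (c m true) y (c l true) (c j true) y' e3.symm ((h.adj _ _ _ _).2 hml)
      ((h.adj _ _ _ _).2 hmj) e4.symm e1 ((h.adj _ _ _ _).2 hlj) e2.symm (fun e => hyj e.symm)
      hyy hyl

theorem CPs.final [Finite V] (h : CPs G c) {k : ℕ} (hk : CL G Set.univ k) (hcr : Crit G k) :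
    False := by
  set Γ : Set V := {v | ∀ j s, j ≠ 0 → G.Adj v (c j s)} with hΓ
  let R : V → V → Prop := fun m m' => m ∈ Γ ∧ m' ∈ Γ ∧ m ≠ m' ∧ ¬ G.Adj m m'
  set M : Set V := {v | Relation.ReflTransGen R (c 0 true) v} with hM
  have h0 : ∀ s, c 0 s ∈ Γ := fun s j t hj => (h.adj _ _ _ _).2 hj.symm
  have hMΓ : ∀ v ∈ M, v ∈ Γ := by
    intro v hv
    rcases Relation.ReflTransGen.cases_tail hv with e | ⟨w, _, hw⟩
    · rw [e]; exact h0 true
    · exact hw.2.1
  have hMt : c 0 true ∈ M := Relation.ReflTransGen.refl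
  have hMf : c 0 false ∈ M := Relation.ReflTransGen.single
    ⟨h0 true, h0 false, h.ne 0 true, fun e => (h.adj _ _ _ _).1 e rfl⟩
  have hmod : ∀ v, v ∉ M → (∀ u ∈ M, G.Adj v u) ∨ (∀ u ∈ M, ¬ G.Adj v u) := by
    intro v hv
    by_cases hvΓ : v ∈ Γ
    · left
      intro u hu
      by_contra hn
      exact hv (Relation.ReflTransGen.tail hu ⟨hMΓ u hu, hvΓ, by rintro rfl; exact hv hu,
        fun e => hn e.symm⟩)
    · by_cases hvo : ∀ i s, v ≠ c i s
      · -- an outside vertex
        have hvΓ' : ∃ j s, j ≠ 0 ∧ ¬ G.Adj v (c j s) := by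
          by_contra hcon
          push Not at hcon
          exact hvΓ fun j s hj => hcon j s hj
        obtain ⟨j, s, hj, hvj⟩ := hvΓ'
        have hl : ∃ l t, l ≠ 0 ∧ l ≠ j ∧ G.Adj v (c l t) := by
          by_contra hcon
          push Not at hcon
          by_cases h1 : ∃ t, G.Adj v (c j t)
          · obtain ⟨t, ht⟩ := h1
            have hst : s = !t := by
              cases s <;> cases t <;> simp_all
            subst hst
            obtain ⟨m, hm1, hm2, -⟩ := kk_pick 0 j j j
            have h2 : ∀ u, ¬ G.Adj v (c 0 u) := fun u =>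
              h.one ht hvj (hcon m true hm1 hm2) hm2.symm hj.symm hm1.symm
            apply h.two hvo (i := j)
            intro l u hlu
            by_contra hlj
            by_cases hl0 : l = 0
            · subst hl0; exact h2 u hlu
            · exact hcon l u hl0 hlj hlu
          · push Not at h1
            apply h.two hvo (i := 0)
            intro l u hlu
            by_contra hl0
            by_cases hlj : l = j
            · subst hlj; exact h1 u hlu
            · exact hcon l u hl0 hlj hlu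
        obtain ⟨l, t, hl0, hlj, hvl⟩ := hl
        have step : ∀ m m', m ∈ Γ → m' ∈ Γ → ¬ G.Adj m m' → G.Adj v m → G.Adj v m' := by
          intro m m' hm hm' hn h1
          by_contra h2
          exact h.cls.gem (c l t) v m (c j s) m' hvl.symm (hm l t hl0).symm
            ((h.adj _ _ _ _).2 hlj) (hm' l t hl0).symm h1 (hm j s hj) (hm' j s hj).symm hvj h2 hn
        have hconst : ∀ u ∈ M, (G.Adj v (c 0 true) ↔ G.Adj v u) := by
          intro u hu
          induction hu with
          | refl => exact Iff.rfl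
          | tail _ hstep ih =>
            rw [ih]
            exact ⟨step _ _ hstep.1 hstep.2.1 hstep.2.2.2,
              step _ _ hstep.2.1 hstep.1 (fun e => hstep.2.2.2 e.symm)⟩
        by_cases h1 : G.Adj v (c 0 true)
        · left; exact fun u hu => (hconst u hu).1 h1
        · right; exact fun u hu e => h1 ((hconst u hu).2 e)
      · push Not at hvo
        obtain ⟨i, s, rfl⟩ := hvo
        have hi : i ≠ 0 := by
          rintro rfl
          cases s
          · exact hv hMf
          · exact hv hMt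
        left
        intro u hu
        exact (hMΓ u hu i s hi).symm
  have hne : M ≠ Set.univ := by
    intro e
    have h1 : c 1 true ∈ M := by rw [e]; trivial
    exact (h.adj 1 1 true true).1 (hMΓ _ h1 1 true (by decide)) rfl
  have hcl := Crit.module h.cls hcr hk M hmod hne
  exact (h.adj 0 0 true false).1 (hcl hMt hMf (h.ne 0 true)) rfl

theorem no_CP6 [Finite V] (hc : Cls G) {k : ℕ} (hk : CL G Set.univ k) (hcr : Crit G k)
    (a b : Fin 6 → V) (ha : ∀ i j, i ≠ j → G.Adj (a i) (a j))
    (hb : ∀ i j, i ≠ j → G.Adj (b i) (b j)) (hne : ∀ i, a i ≠ b i)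
    (hab : ∀ i j, G.Adj (a i) (b j) ↔ i ≠ j) : False := by
  have h : CPs G (fun i s => if s then a i else b i) := by
    refine ⟨hc, hcr.nodom, ?_, ?_⟩
    · intro i j s t
      cases s <;> cases t
      · simp only [Bool.false_eq_true, if_false]
        exact ⟨fun e => by rintro rfl; exact G.loopless.irrefl _ e, hb i j⟩
      · simp only [Bool.false_eq_true, if_false, if_true]
        rw [G.adj_comm, hab j i]
        exact ne_comm
      · simp only [Bool.false_eq_true, if_false, if_true]
        exact hab i j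
      · simp only [if_true]
        exact ⟨fun e => by rintro rfl; exact G.loopless.irrefl _ e, ha i j⟩
    · intro i s
      cases s
      · simpa using (hne i).symm
      · simpa using hne i
  exact h.final hk hcr

end GP
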