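import Mathlib

/-!
Module LA: laminar families.
-/

set_option autoImplicit false

namespace GP

/-- A laminar family that separates many points has a long chain or many disjoint members. -/
theorem laminar (r : ℕ) {α ι : Type} [DecidableEq α] (t : Finset α)
    (A : ι → Finset α) (hA : ∀ i, A i ⊆ t)
    (hlam : ∀ i j, A i ⊆ A j ∨ A j ⊆ A i ∨ Disjoint (A i) (A j))
    (hsep : ∀ a ∈ t, ∀ b ∈ t, a ≠ b → ∃ i, (a ∈ A i ∧ b ∉ A i) ∨ (a ∉ A i ∧ b ∈ A i))
    (hcard : r * r + 1 < t.card) :
    (∃ g : Fin (r + 1) → ι, ∀ i j, i < j → A (g i) ⊂ A (g j)) ∨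
    (∃ g : Fin (r + 1) → ι, (∀ i, (A (g i)).Nonempty) ∧ ∀ i j, i ≠ j → Disjoint (A (g i)) (A (g j))) := by
  classical
  set F : Finset (Finset α) := t.powerset.filter (fun B => B.Nonempty ∧ ∃ i, A i = B) with hF
  have memF : ∀ B, B ∈ F ↔ B.Nonempty ∧ ∃ i, A i = B := by
    intro B
    rw [hF, Finset.mem_filter, Finset.mem_powerset]
    constructor
    · exact fun h => h.2
    · rintro ⟨h1, i, rfl⟩
      exact ⟨hA i, h1, i, rfl⟩
  -- minimal members
  set t1 : Finset α := t.filter (fun a => ∃ i, a ∈ A i) with ht1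
  have hmin : ∀ a ∈ t1, ∃ B ∈ F, a ∈ B ∧ ∀ i, a ∈ A i → B ⊆ A i := by
    intro a ha
    obtain ⟨-, i0, hi0⟩ := Finset.mem_filter.1 ha
    obtain ⟨B, hB, hBm⟩ := Finset.exists_min_image (F.filter (fun B => a ∈ B)) Finset.card
      ⟨A i0, Finset.mem_filter.2 ⟨(memF _).2 ⟨⟨a, hi0⟩, i0, rfl⟩, hi0⟩⟩
    obtain ⟨hBF, haB⟩ := Finset.mem_filter.1 hB
    refine ⟨B, hBF, haB, ?_⟩
    intro i hai
    obtain ⟨-, j, rfl⟩ := (memF _).1 hBF
    rcases hlam j i with h | h | h
    · exact h
    · have h1 := hBm (A i) (Finset.mem_filter.2 ⟨(memF _).2 ⟨⟨a, hai⟩, i, rfl⟩, hai⟩)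
      rw [Finset.eq_of_subset_of_card_le h h1]
    · exact absurd hai (fun hh => Finset.disjoint_left.1 h haB hh)
  choose! m hmF hma hmi using hmin
  have hinj : Set.InjOn m (t1 : Set α) := by
    intro a ha b hb hab
    by_contra hne
    have hat : a ∈ t := (Finset.mem_filter.1 ha).1
    have hbt : b ∈ t := (Finset.mem_filter.1 hb).1
    obtain ⟨i, ⟨h1, h2⟩ | ⟨h1, h2⟩⟩ := hsep a hat b hbt hne
    · exact h2 (hmi a ha i h1 (hab ▸ hma b hb))
    · exact h1 (hmi b hb i h2 (hab ▸ hma a ha))
  have hle1 : t1.card ≤ F.card := Finset.card_le_card_of_injOn m (fun a ha => hmF a ha) hinj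
  have hle2 : (t.filter (fun a => ¬ ∃ i, a ∈ A i)).card ≤ 1 := by
    rw [Finset.card_le_one]
    intro a ha b hb
    by_contra hne
    obtain ⟨hat, hna⟩ := Finset.mem_filter.1 ha
    obtain ⟨hbt, hnb⟩ := Finset.mem_filter.1 hb
    obtain ⟨i, ⟨h1, h2⟩ | ⟨h1, h2⟩⟩ := hsep a hat b hbt hne
    · exact hna ⟨i, h1⟩
    · exact hnb ⟨i, h2⟩
  have hFc : r * r < F.card := by
    have := Finset.card_filter_add_card_filter_not (s := t) (fun a => ∃ i, a ∈ A i)
    rw [← ht1] at this
    omega
  -- chains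
  let HC : ℕ → Finset α → Prop := fun m B => ∃ g : ℕ → Finset α,
    (∀ i j, i < j → j ≤ m → g i ⊂ g j) ∧ (∀ i, i ≤ m → g i ∈ F) ∧ g m = B
  by_cases hch : ∃ B, HC r B
  · left
    obtain ⟨B, g, h1, h2, -⟩ := hch
    have h3 : ∀ i : Fin (r + 1), ∃ k, A k = g i := fun i =>
      ((memF _).1 (h2 i (by omega))).2
    choose k hk using h3
    refine ⟨k, ?_⟩
    intro i j hij
    rw [hk, hk]
    exact h1 i j hij (by omega)
  · right
    push Not at hch
    have h0 : ∀ B ∈ F, HC 0 B := fun B hB =>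
      ⟨fun _ => B, fun i j hij hj => by omega, fun _ _ => hB, rfl⟩
    let h : Finset α → ℕ := fun B => Nat.findGreatest (fun m => HC m B) r
    have hspec : ∀ B ∈ F, HC (h B) B := fun B hB =>
      Nat.findGreatest_spec (P := fun m => HC m B) (Nat.zero_le r) (h0 B hB)
    have hlt : ∀ B ∈ F, h B < r := by
      intro B hB
      have h1 : h B ≤ r := Nat.findGreatest_le r
      rcases h1.lt_or_eq with h2 | h2
      · exact h2
      · exact absurd (h2 ▸ hspec B hB) (hch B)
    have hanti : ∀ B ∈ F, ∀ B' ∈ F, h B = h B' → ¬ B ⊂ B' := by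
      intro B hB B' hB' he hss
      obtain ⟨g, g1, g2, g3⟩ := hspec B hB
      have h1 : HC (h B + 1) B' := by
        refine ⟨fun i => if i ≤ h B then g i else B', ?_, ?_, ?_⟩
        · intro i j hij hj
          by_cases hj' : j ≤ h B
          · simp only [hj', (hij.le.trans hj' : i ≤ h B), if_true]
            exact g1 i j hij hj'
          · have hi' : i ≤ h B := by omega
            simp only [hj', hi', if_true, if_false]
            rcases hi'.lt_or_eq with h4 | h4
            · have h5 := g1 i (h B) h4 le_rfl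
              rw [g3] at h5
              exact h5.trans hss
            · rw [h4, g3]; exact hss
        · intro i _
          by_cases hi' : i ≤ h B
          · simp only [hi', if_true]; exact g2 i hi'
          · simp only [hi', if_false]; exact hB'
        · simp
      have h2 : h B + 1 ≤ h B' := Nat.le_findGreatest (hlt B hB) h1
      omega
    obtain ⟨y, -, hy⟩ := Finset.exists_lt_card_fiber_of_mul_lt_card_of_maps_to (s := F)
      (t := Finset.range r) (f := h) (n := r) (fun B hB => Finset.mem_range.2 (hlt B hB))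
      (by rw [Finset.card_range]; exact hFc)
    have hcard' : Fintype.card (Fin (r + 1)) ≤ Fintype.card {x // x ∈ F.filter (fun x => h x = y)} := by
      rw [Fintype.card_fin, Fintype.card_coe]; exact hy
    obtain ⟨e⟩ := Function.Embedding.nonempty_of_card_le hcard'
    have h3 : ∀ i : Fin (r + 1), ∃ k, A k = (e i : Finset α) := fun i =>
      ((memF _).1 (Finset.mem_filter.1 (e i).2).1).2
    choose k hk using h3
    refine ⟨k, ?_, ?_⟩
    · intro i
      rw [hk]
      exact ((memF _).1 (Finset.mem_filter.1 (e i).2).1).1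
    · intro i j hij
      obtain ⟨hi1, hi2⟩ := Finset.mem_filter.1 (e i).2
      obtain ⟨hj1, hj2⟩ := Finset.mem_filter.1 (e j).2
      have hne : (e i : Finset α) ≠ e j := fun he => hij (e.injective (Subtype.ext he))
      have hl := hlam (k i) (k j)
      rw [hk, hk] at hl ⊢
      rcases hl with h4 | h4 | h4
      · exact absurd (h4.ssubset_of_ne hne) (hanti _ hi1 _ hj1 (hi2.trans hj2.symm))
      · exact absurd (h4.ssubset_of_ne hne.symm) (hanti _ hj1 _ hi1 (hj2.trans hi2.symm))
      · exact h4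

end GP
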