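import Pool.Agent.Work.MP_c4d05f_lc.Ram

/-!
Module RR: Ramsey's theorem for pairs.
-/

set_option autoImplicit false

namespace GP

open Pool.Agent.Work.MP_c4d05f_lc

theorem ramsey2 (C : Type) [Finite C] (M : ℕ) : ∃ N : ℕ, ∀ c : Fin N → Fin N → C,
    ∃ (f : Fin M → Fin N) (k : C), StrictMono f ∧ ∀ i j : Fin M, i < j → c (f i) (f j) = k := by
  classical
  obtain ⟨N, hN⟩ := ramsey4 C (M + 2)
  refine ⟨N + 1, fun c => ?_⟩
  obtain ⟨f, k, hf, hfN, hk⟩ := hN (fun p q _ _ =>
    c ⟨min p N, by omega⟩ ⟨min q N, by omega⟩)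
  refine ⟨fun i => ⟨f i, by have := hfN i (by omega); omega⟩, k, ?_, ?_⟩
  · intro i j hij
    exact Fin.mk_lt_mk.2 (hf hij)
  · intro i j hij
    have h := hk i j M (M + 1) hij j.2 (by omega) (by omega)
    have h1 := hfN i (by omega)
    have h2 := hfN j (by omega)
    have e1 : min (f i) N = f i := by omega
    have e2 : min (f j) N = f j := by omega
    simp only [e1, e2] at h
    exact h

end GP
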