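import Pool.Agent.Work.MP_31af1e_lc.BA
import Pool.Agent.Work.MP_31af1e_lc.RR
import Pool.Agent.Work.MP_31af1e_lc.LA
import Pool.Agent.Work.MP_31af1e_lc.HH
import Pool.Agent.Work.MP_31af1e_lc.II
import Pool.Agent.Work.MP_31af1e_lc.JJ
import Pool.Agent.Work.MP_31af1e_lc.KK

/-!
Module LB: cliques of pairwise non-twins are bounded.
-/

set_option autoImplicit false

namespace GP



/-- Pigeonhole: among `2 n + 1` indices, `n` have the same kind. -/
theorem same_kind (n : ℕ) (q : Fin (2 * n + 1) → Prop) :
    ∃ h : Fin n → Fin (2 * n + 1), StrictMono h ∧ ((∀ i, q (h i)) ∨ ∀ i, ¬ q (h i)) := by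
  classical
  set P : Finset (Fin (2 * n + 1)) := Finset.univ.filter q with hP
  set Q : Finset (Fin (2 * n + 1)) := Finset.univ.filter (fun i => ¬ q i) with hQ
  have hsum : P.card + Q.card = 2 * n + 1 := by
    have := Finset.card_filter_add_card_filter_not (s := (Finset.univ : Finset (Fin (2 * n + 1)))) q
    rw [Finset.card_univ, Fintype.card_fin] at this
    exact this
  by_cases h : n ≤ P.card
  · obtain ⟨P', hP', hcard⟩ := Finset.exists_subset_card_eq h
    refine ⟨P'.orderEmbOfFin hcard, (P'.orderEmbOfFin hcard).strictMono, Or.inl ?_⟩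
    intro i
    have := hP' (P'.orderEmbOfFin_mem hcard i)
    rw [hP, Finset.mem_filter] at this
    exact this.2
  · have h' : n ≤ Q.card := by omega
    obtain ⟨P', hP', hcard⟩ := Finset.exists_subset_card_eq h'
    refine ⟨P'.orderEmbOfFin hcard, (P'.orderEmbOfFin hcard).strictMono, Or.inr ?_⟩
    intro i
    have := hP' (P'.orderEmbOfFin_mem hcard i)
    rw [hQ, Finset.mem_filter] at this
    exact this.2

section main
variable {V : Type} {G : SimpleGraph V}

/-- A chain of fourteen neighbourhoods in a clique is impossible. -/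
theorem no_chain14 (hc : Cls G) (hd : NoDom G) (t : Finset V)
    (ht : ∀ a ∈ t, ∀ b ∈ t, a ≠ b → G.Adj a b) (S : V → Finset V)
    (hS : ∀ z a, a ∈ S z ↔ a ∈ t ∧ G.Adj z a)
    (g2 : ∀ z z' a b d, G.Adj z z' → a ∈ S z → a ∈ S z' → b ∈ S z → b ∉ S z' → d ∈ t →
      d ∉ S z → d ∉ S z' → False)
    (z : Fin 14 → V) (hz : ∀ i j, i < j → S (z i) ⊂ S (z j)) : False := by
  classical
  have hsub : ∀ i j, i ≤ j → S (z i) ⊆ S (z j) := by
    intro i j hij
    rcases hij.lt_or_eq with h | h
    · exact (hz i j h).1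
    · rw [h]
  have hne : ∀ i : Fin 12, ∃ v, v ∈ S (z i.castSucc.succ) ∧ v ∉ S (z i.castSucc.castSucc) := by
    intro i
    have h := hz i.castSucc.castSucc i.castSucc.succ Fin.castSucc_lt_succ
    exact Finset.exists_of_ssubset h
  choose v hv1 hv2 using hne
  have hlt : ∀ i j : Fin 12, i < j → v i ≠ v j := by
    intro i j hij h
    apply hv2 j
    rw [← h]
    refine hsub i.castSucc.succ j.castSucc.castSucc ?_ (hv1 i)
    rw [Fin.le_def]
    have := Fin.lt_def.1 hij
    simp only [Fin.val_succ, Fin.val_castSucc]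
    omega
  have hvv : ∀ i j : Fin 12, i ≠ j → v i ≠ v j := by
    intro i j hij
    rcases lt_or_gt_of_ne hij with h | h
    · exact hlt i j h
    · exact (hlt j i h).symm
  have hxx : ∀ i j : Fin 12, i < j → ¬ G.Adj (z i.castSucc.succ) (z j.castSucc.succ) := by
    intro i j hij hadj
    have hij' := Fin.lt_def.1 hij
    -- `a` in the smaller set
    have h1 : i.castSucc.succ < j.castSucc.succ := by
      rw [Fin.lt_def]; simp only [Fin.val_succ, Fin.val_castSucc]; omega
    obtain ⟨b, hb1, hb2⟩ := Finset.exists_of_ssubset (hz _ _ h1)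
    have h2 : j.castSucc.succ < Fin.last 13 := by
      rw [Fin.lt_def]; simp only [Fin.val_succ, Fin.val_castSucc, Fin.val_last]; omega
    obtain ⟨d, hd1, hd2⟩ := Finset.exists_of_ssubset (hz _ _ h2)
    refine g2 _ _ (v i) b d hadj.symm (hsub _ _ h1.le (hv1 i)) (hv1 i) hb1 hb2
      ((hS _ _).1 hd1).1 hd2 (fun h => hd2 (hsub _ _ h1.le h))
  refine no_TH12 hc hd v (fun i => z i.castSucc.succ) ?_ ?_ ?_
  · intro i j hij
    exact ht _ ((hS _ _).1 (hv1 i)).1 _ ((hS _ _).1 (hv1 j)).1 (hvv i j hij)
  · intro i j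
    rcases lt_trichotomy i j with h | h | h
    · exact hxx i j h
    · rw [h]; exact G.loopless.irrefl _
    · exact fun h' => hxx j i h h'.symm
  · intro i j
    constructor
    · intro h
      by_contra hlt
      rw [not_le] at hlt
      apply hv2 j
      refine hsub i.castSucc.succ j.castSucc.castSucc ?_ ?_
      · rw [Fin.le_def]
        have := Fin.lt_def.1 hlt
        simp only [Fin.val_succ, Fin.val_castSucc]
        omega
      · exact (hS _ _).2 ⟨((hS _ _).1 (hv1 j)).1, h⟩
    · intro h
      refine ((hS _ _).1 (hsub j.castSucc.succ i.castSucc.succ ?_ (hv1 j))).2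
      rw [Fin.le_def]
      have := Fin.le_def.1 h
      simp only [Fin.val_succ, Fin.val_castSucc]
      omega

end main

theorem nontwin : ∃ R : ℕ, ∀ (V : Type) [Finite V] (G : SimpleGraph V) (k : ℕ), Cls G →
    Crit G k → CL G Set.univ k → ∀ t : Finset V, G.IsClique (t : Set V) →
      (∀ a ∈ t, ∀ b ∈ t, a ≠ b → ¬ Twin G a b) → t.card ≤ R := by
  classical
  obtain ⟨N, hN⟩ := ramsey2 Bool 8
  obtain ⟨n0, h14, hN0⟩ : ∃ n0, 14 ≤ n0 ∧ N ≤ n0 := ⟨max 14 N, le_max_left _ _, le_max_right _ _⟩
  refine ⟨(2 * n0) * (2 * n0) + 1, ?_⟩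
  intro V _ G k hc hcr hk t ht htw
  by_contra hcon
  rw [not_le] at hcon
  have hd := hcr.nodom
  have htne : t.Nonempty := Finset.card_pos.1 (by omega)
  obtain ⟨p, hp⟩ := htne
  have hta : ∀ a ∈ t, ∀ b ∈ t, a ≠ b → G.Adj a b := fun a ha b hb hab => ht ha hb hab
  obtain ⟨S, hS⟩ : ∃ S : V → Finset V, ∀ z a, a ∈ S z ↔ a ∈ t ∧ G.Adj z a :=
    ⟨fun z => t.filter (fun a => G.Adj z a), fun z a => by simp⟩
  have g1 : ∀ z z' a b c, ¬ G.Adj z z' → a ∈ S z → a ∈ S z' → b ∈ S z → b ∉ S z' →
      c ∈ S z' → c ∉ S z → False := by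
    intro z z' a b c hzz ha ha' hb hb' hc1 hc2
    rw [hS] at ha ha' hb hc1
    rw [hS, not_and] at hb' hc2
    have nab : a ≠ b := by
      rintro rfl; exact hb' ha.1 ha'.2
    have nac : a ≠ c := by
      rintro rfl; exact hc2 ha.1 ha.2
    have nbc : b ≠ c := by
      rintro rfl; exact hb' hb.1 hc1.2
    exact hc.gem a z b c z' ha.2.symm (hta a ha.1 b hb.1 nab) (hta a ha.1 c hc1.1 nac) ha'.2.symm
      hb.2 (hta b hb.1 c hc1.1 nbc) hc1.2.symm (hc2 hc1.1) hzz (fun h => hb' hb.1 h.symm)
  have g2 : ∀ z z' a b d, G.Adj z z' → a ∈ S z → a ∈ S z' → b ∈ S z → b ∉ S z' → d ∈ t →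
      d ∉ S z → d ∉ S z' → False := by
    intro z z' a b d hzz ha ha' hb hb' hdt hd1 hd2
    rw [hS] at ha ha' hb
    rw [hS, not_and] at hb' hd1 hd2
    have nab : a ≠ b := by
      rintro rfl; exact hb' ha.1 ha'.2
    have nad : a ≠ d := by
      rintro rfl; exact hd1 hdt ha.2
    have nbd : b ≠ d := by
      rintro rfl; exact hd1 hdt hb.2
    exact hc.gem a z' z b d ha'.2.symm ha.2.symm (hta a ha.1 b hb.1 nab) (hta a ha.1 d hdt nad)
      hzz.symm hb.2 (hta b hb.1 d hdt nbd) (hb' hb.1) (hd2 hdt) (hd1 hdt)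
  have cross : ∀ z z', (∀ a ∈ S z, a ∉ S z') ∨ S z ⊆ S z' ∨ S z' ⊆ S z ∨
      (∀ a ∈ t, a ∈ S z ∨ a ∈ S z') := by
    intro z z'
    by_contra hno
    push Not at hno
    obtain ⟨⟨a, ha, ha'⟩, h2, h3, d, hdt, hd1, hd2⟩ := hno
    obtain ⟨b, hb, hb'⟩ := Finset.not_subset.1 h2
    obtain ⟨c, hc1, hc2⟩ := Finset.not_subset.1 h3
    by_cases hzz : G.Adj z z'
    · exact g2 z z' a b d hzz ha ha' hb hb' hdt hd1 hd2
    · exact g1 z z' a b c hzz ha ha' hb hb' hc1 hc2
  have hSt : ∀ z, S z ⊆ t := fun z a ha => ((hS z a).1 ha).1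
  let ι := {z : V // z ∉ t}
  let A : ι → Finset V := fun z => if p ∈ S z.1 then t \ S z.1 else S z.1
  have hA1 : ∀ z : ι, p ∈ S z.1 → A z = t \ S z.1 := fun z h => if_pos h
  have hA0 : ∀ z : ι, p ∉ S z.1 → A z = S z.1 := fun z h => if_neg h
  have hAt : ∀ z, A z ⊆ t := by
    intro z
    by_cases h : p ∈ S z.1
    · rw [hA1 z h]; exact Finset.sdiff_subset
    · rw [hA0 z h]; exact hSt _
  have hlam : ∀ i j, A i ⊆ A j ∨ A j ⊆ A i ∨ Disjoint (A i) (A j) := by
    intro i j
    by_cases hi : p ∈ S i.1 <;> by_cases hj : p ∈ S j.1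
    · rw [hA1 i hi, hA1 j hj]
      rcases cross i.1 j.1 with h | h | h | h
      · exact absurd hj (h p hi)
      · exact Or.inr (Or.inl (Finset.sdiff_subset_sdiff subset_rfl h))
      · exact Or.inl (Finset.sdiff_subset_sdiff subset_rfl h)
      · right; right
        rw [Finset.disjoint_left]
        intro a ha ha'
        rw [Finset.mem_sdiff] at ha ha'
        rcases h a ha.1 with h' | h'
        · exact ha.2 h'
        · exact ha'.2 h'
    · rw [hA1 i hi, hA0 j hj]
      rcases cross i.1 j.1 with h | h | h | h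
      · right; left
        intro a ha
        rw [Finset.mem_sdiff]
        exact ⟨hSt _ ha, fun h' => h a h' ha⟩
      · exact absurd (h hi) hj
      · right; right
        rw [Finset.disjoint_left]
        intro a ha ha'
        rw [Finset.mem_sdiff] at ha
        exact ha.2 (h ha')
      · left
        intro a ha
        rw [Finset.mem_sdiff] at ha
        exact (h a ha.1).resolve_left ha.2
    · rw [hA0 i hi, hA1 j hj]
      rcases cross i.1 j.1 with h | h | h | h
      · left
        intro a ha
        rw [Finset.mem_sdiff]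
        exact ⟨hSt _ ha, h a ha⟩
      · right; right
        rw [Finset.disjoint_left]
        intro a ha ha'
        rw [Finset.mem_sdiff] at ha'
        exact ha'.2 (h ha)
      · exact absurd (h hj) hi
      · right; left
        intro a ha
        rw [Finset.mem_sdiff] at ha
        exact (h a ha.1).resolve_right ha.2
    · rw [hA0 i hi, hA0 j hj]
      rcases cross i.1 j.1 with h | h | h | h
      · right; right
        rw [Finset.disjoint_left]
        exact h
      · exact Or.inl h
      · exact Or.inr (Or.inl h)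
      · rcases h p hp with h' | h'
        · exact absurd h' hi
        · exact absurd h' hj
  have hsep : ∀ a ∈ t, ∀ b ∈ t, a ≠ b → ∃ i, (a ∈ A i ∧ b ∉ A i) ∨ (a ∉ A i ∧ b ∈ A i) := by
    intro a ha b hb hab
    have h1 := htw a ha b hb hab
    rw [Twin, not_and] at h1
    have h2 := h1 (hta a ha b hb hab)
    push Not at h2
    obtain ⟨z, hza, hzb, hz⟩ := h2
    have hzt : z ∉ t := by
      intro hzt
      have e1 := hta z hzt a ha hza
      have e2 := hta z hzt b hb hzb
      rcases hz with ⟨_, h⟩ | ⟨h, _⟩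
      · exact h e2
      · exact h e1
    have hz' : (a ∈ S z ∧ b ∉ S z) ∨ (a ∉ S z ∧ b ∈ S z) := by
      rcases hz with ⟨h, h'⟩ | ⟨h, h'⟩
      · exact Or.inl ⟨(hS _ _).2 ⟨ha, h⟩, fun h'' => h' ((hS _ _).1 h'').2⟩
      · exact Or.inr ⟨fun h'' => h ((hS _ _).1 h'').2, (hS _ _).2 ⟨hb, h'⟩⟩
    refine ⟨⟨z, hzt⟩, ?_⟩
    by_cases h : p ∈ S z
    · rw [hA1 ⟨z, hzt⟩ h]
      simp only [Finset.mem_sdiff]
      rcases hz' with h' | h'
      · exact Or.inr ⟨fun h'' => h''.2 h'.1, hb, h'.2⟩
      · exact Or.inl ⟨⟨ha, h'.1⟩, fun h'' => h''.2 h'.2⟩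
    · rw [hA0 ⟨z, hzt⟩ h]
      exact hz'
  rcases laminar (2 * n0) t A hAt hlam hsep hcon with ⟨g, hg⟩ | ⟨g, hg1, hg2⟩
  · -- a chain
    obtain ⟨h, hmono, hkind⟩ := same_kind n0 (fun i => p ∈ S (g i).1)
    let e : Fin 14 → Fin n0 := Fin.castLE h14
    have hemono : StrictMono e := Fin.strictMono_castLE h14
    rcases hkind with hkind | hkind
    · -- complements: reverse
      refine no_chain14 hc hd t hta S hS g2 (fun i => (g (h (e i.rev))).1) ?_
      intro i j hij
      have h1 := hg _ _ (hmono (hemono (Fin.rev_lt_rev.2 hij)))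
      rw [hA1 _ (hkind _), hA1 _ (hkind _)] at h1
      refine ⟨?_, ?_⟩
      · intro a ha
        by_contra hna
        have h2 := h1.1 (Finset.mem_sdiff.2 ⟨hSt _ ha, hna⟩)
        exact (Finset.mem_sdiff.1 h2).2 ha
      · intro hsub
        apply h1.2
        intro a ha
        rw [Finset.mem_sdiff] at ha ⊢
        exact ⟨ha.1, fun h3 => ha.2 (hsub h3)⟩
    · refine no_chain14 hc hd t hta S hS g2 (fun i => (g (h (e i))).1) ?_
      intro i j hij
      have h1 := hg _ _ (hmono (hemono hij))
      rwa [hA0 _ (hkind _), hA0 _ (hkind _)] at h1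
  · -- disjoint members
    obtain ⟨h, hmono, hkind⟩ := same_kind n0 (fun i => p ∈ S (g i).1)
    choose w hw using hg1
    set z : Fin n0 → V := fun i => (g (h i)).1 with hz
    set v : Fin n0 → V := fun i => w (h i) with hv
    have hzt : ∀ i, z i ∉ t := fun i => (g (h i)).2
    have hvA : ∀ i, v i ∈ A (g (h i)) := fun i => hw _
    have hvt : ∀ i, v i ∈ t := fun i => hAt _ (hvA i)
    have hvn : ∀ i j, i ≠ j → v j ∉ A (g (h i)) := by
      intro i j hij hmem
      have := hg2 (h i) (h j) (fun h' => hij (hmono.injective h'))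
      exact Finset.disjoint_left.1 this hmem (hvA j)
    have hvv : ∀ i j, i ≠ j → G.Adj (v i) (v j) := by
      intro i j hij
      refine hta _ (hvt i) _ (hvt j) ?_
      intro heq
      exact hvn i j hij (heq ▸ hvA i)
    rcases hkind with hkind | hkind
    · -- complements
      have hzv : ∀ i j, G.Adj (z i) (v j) ↔ i ≠ j := by
        intro i j
        have hAi := hA1 _ (hkind i)
        constructor
        · rintro hadj rfl
          have h1 := hvA i
          rw [hAi, Finset.mem_sdiff] at h1
          exact h1.2 ((hS _ _).2 ⟨hvt i, hadj⟩)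
        · intro hij
          have h1 := hvn i j hij
          rw [hAi, Finset.mem_sdiff, not_and, not_not] at h1
          exact ((hS _ _).1 (h1 (hvt j))).2
      have hzz : ∀ i j, i ≠ j → G.Adj (z i) (z j) := by
        intro i j hij
        by_contra hna
        obtain ⟨l, hl⟩ : ∃ l : Fin n0, l ∉ ({i, j} : Finset (Fin n0)) := by
          by_contra hcon'
          push Not at hcon'
          have h1 : (Finset.univ : Finset (Fin n0)) ⊆ {i, j} := fun x _ => hcon' x
          have h2 := Finset.card_le_card h1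
          rw [Finset.card_univ, Fintype.card_fin] at h2
          have h3 := Finset.card_le_two (a := i) (b := j)
          omega
        have hli : l ≠ i := by rintro rfl; simp at hl
        have hlj : l ≠ j := by rintro rfl; simp at hl
        exact hc.gem (v l) (z i) (v j) (v i) (z j) ((hzv i l).2 hli.symm).symm (hvv l j hlj)
          (hvv l i hli) ((hzv j l).2 hlj.symm).symm ((hzv i j).2 hij) (hvv j i hij.symm)
          ((hzv j i).2 hij.symm).symm (fun h' => (hzv i i).1 h' rfl) hna
          (fun h' => (hzv j j).1 h'.symm rfl)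
      let e : Fin 6 → Fin n0 := Fin.castLE (by omega)
      have heinj : Function.Injective e := Fin.castLE_injective _
      refine no_CP6 hc hk hcr (fun i => v (e i)) (fun i => z (e i))
        (fun i j hij => hvv _ _ (fun h' => hij (heinj h')))
        (fun i j hij => hzz _ _ (fun h' => hij (heinj h')))
        (fun i h' => hzt (e i) (h' ▸ hvt (e i))) ?_
      intro i j
      rw [G.adj_comm, hzv]
      constructor
      · intro h' h''; exact h' (by rw [h''])
      · intro h' h''; exact h' (heinj h'').symm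
    · -- the sets themselves
      have hzv : ∀ i j, G.Adj (z i) (v j) ↔ i = j := by
        intro i j
        have hAi := hA0 _ (hkind i)
        constructor
        · intro hadj
          by_contra hij
          apply hvn i j hij
          rw [hAi]
          exact (hS _ _).2 ⟨hvt j, hadj⟩
        · rintro rfl
          have h1 := hvA i
          rw [hAi] at h1
          exact ((hS _ _).1 h1).2
      let e : Fin N → Fin n0 := Fin.castLE hN0
      have heinj : Function.Injective e := Fin.castLE_injective _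
      obtain ⟨f, b, hf, hb⟩ := hN (fun i j => decide (G.Adj (z (e i)) (z (e j))))
      have hfe : Function.Injective (fun i => e (f i)) := heinj.comp hf.injective
      cases b with
      | true =>
        have hadj : ∀ i j : Fin 8, i ≠ j → G.Adj (z (e (f i))) (z (e (f j))) := by
          intro i j hij
          rcases lt_or_gt_of_ne hij with h' | h'
          · exact of_decide_eq_true (hb i j h')
          · exact (of_decide_eq_true (hb j i h')).symm
        refine no_K2K8 hc hk hcr (fun i => v (e (f i))) (fun i => z (e (f i)))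
          (fun i j hij => hvv _ _ (fun h' => hij (hfe h'))) hadj ?_
        intro i j
        rw [G.adj_comm, hzv]
        constructor
        · intro h'; exact (hfe h').symm
        · rintro rfl; rfl
      | false =>
        have hadj : ∀ i j : Fin 8, ¬ G.Adj (z (e (f i))) (z (e (f j))) := by
          intro i j
          rcases lt_trichotomy i j with h' | h' | h'
          · exact of_decide_eq_false (hb i j h')
          · rw [h']; exact G.loopless.irrefl _
          · exact fun h'' => of_decide_eq_false (hb j i h') h''.symm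
        let c : Fin 7 → Fin 8 := Fin.castSucc
        have hcinj : Function.Injective c := Fin.castSucc_injective 7
        refine no_SC7 hc hd (fun i => v (e (f (c i)))) (fun i => z (e (f (c i))))
          (fun i j hij => hvv _ _ (fun h' => hij (hcinj (hfe h')))) (fun i j => hadj _ _) ?_
        intro i j
        rw [hzv]
        constructor
        · intro h'; exact hcinj (hfe h')
        · rintro rfl; rfl

end GP
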