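import Pool.Agent.Work.MP_31af1e_lc.Defs

/-!
Module DD: the structure that arises from three pairwise anticomplete edges.
-/

set_option autoImplicit false

namespace GP

variable {V : Type} {G : SimpleGraph V}

theorem dd_fin3 (i j : Fin 3) : ∃ m : Fin 3, m ≠ i ∧ m ≠ j := by
  revert i j; decide

/-- A neighbour of `z` in the edge `e_j`. -/
private theorem dd_pick {x y : Fin 3 → V} (hxy : ∀ i, G.Adj (x i) (y i))
    (ha : ∀ i j, i ≠ j → ¬ G.Adj (x i) (x j) ∧ ¬ G.Adj (x i) (y j) ∧ ¬ G.Adj (y i) (y j))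
    {z : V} {j : Fin 3} (h : G.Adj z (x j) ∨ G.Adj z (y j)) :
    ∃ p q, G.Adj z p ∧ G.Adj p q ∧ (∀ l, l ≠ j → ¬ G.Adj p (x l) ∧ ¬ G.Adj p (y l)) ∧
      (∀ l, l ≠ j → ¬ G.Adj q (x l) ∧ ¬ G.Adj q (y l)) ∧ (p = x j ∧ q = y j ∨ p = y j ∧ q = x j) := by
  rcases h with h | h
  · refine ⟨x j, y j, h, hxy j, fun l hl => ⟨(ha j l hl.symm).1, (ha j l hl.symm).2.1⟩,
      fun l hl => ⟨fun h1 => (ha l j hl).2.1 h1.symm, (ha j l hl.symm).2.2⟩, Or.inl ⟨rfl, rfl⟩⟩
  · refine ⟨y j, x j, h, (hxy j).symm, fun l hl => ⟨fun h1 => (ha l j hl).2.1 h1.symm,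
      (ha j l hl.symm).2.2⟩, fun l hl => ⟨(ha j l hl.symm).1, (ha j l hl.symm).2.1⟩,
      Or.inr ⟨rfl, rfl⟩⟩

private theorem dd_one (hc : Cls G) {x y : Fin 3 → V} (hxy : ∀ i, G.Adj (x i) (y i))
    (ha : ∀ i j, i ≠ j → ¬ G.Adj (x i) (x j) ∧ ¬ G.Adj (x i) (y j) ∧ ¬ G.Adj (y i) (y j))
    {z : V} (hz : ¬ ∀ i, G.Adj z (x i) ∨ G.Adj z (y i)) {j m : Fin 3}
    (hj : G.Adj z (x j) ∨ G.Adj z (y j)) (hm : G.Adj z (x m) ∨ G.Adj z (y m)) : j = m := by
  by_contra hjm
  push Not at hz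
  obtain ⟨l, hl1, hl2⟩ := hz
  have hlj : l ≠ j := by rintro rfl; tauto
  have hlm : l ≠ m := by rintro rfl; tauto
  obtain ⟨p, q, h1, h2, h3, h4, h5⟩ := dd_pick hxy ha hj
  obtain ⟨r, s, k1, k2, k3, k4, k5⟩ := dd_pick hxy ha hm
  have hpr : p ≠ r := by
    rintro rfl
    have := h3 m (Ne.symm hjm)
    rcases k5 with ⟨_, rfl⟩ | ⟨_, rfl⟩
    · exact this.2 k2
    · exact this.1 k2
  have hpr' : ¬ G.Adj p r := by
    intro h
    have := h3 m (Ne.symm hjm)
    rcases k5 with ⟨rfl, _⟩ | ⟨rfl, _⟩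
    · exact this.1 h
    · exact this.2 h
  exact hc.pp (x l) (y l) p z r (hxy l) h1.symm k1 hpr hpr' (fun h => (h3 l hlj).1 h.symm)
    (fun h => hl1 h.symm) (fun h => (k3 l hlm).1 h.symm) (fun h => (h3 l hlj).2 h.symm)
    (fun h => hl2 h.symm) (fun h => (k3 l hlm).2 h.symm)

private theorem dd_two (hc : Cls G) {x y : Fin 3 → V} (hxy : ∀ i, G.Adj (x i) (y i))
    (ha : ∀ i j, i ≠ j → ¬ G.Adj (x i) (x j) ∧ ¬ G.Adj (x i) (y j) ∧ ¬ G.Adj (y i) (y j))
    {a b : V} (haW : ¬ ∀ i, G.Adj a (x i) ∨ G.Adj a (y i))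
    (hbW : ¬ ∀ i, G.Adj b (x i) ∨ G.Adj b (y i)) (hab : G.Adj a b) {j l : Fin 3}
    (hj : G.Adj a (x j) ∨ G.Adj a (y j)) (hl : G.Adj b (x l) ∨ G.Adj b (y l)) : j = l := by
  by_contra hjl
  obtain ⟨m, hmj, hml⟩ := dd_fin3 j l
  have ham : ¬ (G.Adj a (x m) ∨ G.Adj a (y m)) := fun h => hmj (dd_one hc hxy ha haW h hj)
  have hbm : ¬ (G.Adj b (x m) ∨ G.Adj b (y m)) := fun h => hml (dd_one hc hxy ha hbW h hl)
  have hbj : ¬ (G.Adj b (x j) ∨ G.Adj b (y j)) := fun h => hjl (dd_one hc hxy ha hbW h hl)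
  obtain ⟨p, q, h1, h2, h3, h4, h5⟩ := dd_pick hxy ha hj
  push Not at ham hbm hbj
  have hbp : ¬ G.Adj b p := by rcases h5 with ⟨rfl, _⟩ | ⟨rfl, _⟩ <;> tauto
  have hbq : ¬ G.Adj b q := by rcases h5 with ⟨_, rfl⟩ | ⟨_, rfl⟩ <;> tauto
  have hpb : p ≠ b := by rintro rfl; exact hbq h2
  exact hc.pp (x m) (y m) p a b (hxy m) h1.symm hab hpb (fun h => hbp h.symm)
    (fun h => (h3 m hmj).1 h.symm) (fun h => ham.1 h.symm) (fun h => hbm.1 h.symm)
    (fun h => (h3 m hmj).2 h.symm) (fun h => ham.2 h.symm) (fun h => hbm.2 h.symm)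

theorem three_p2 (hc : Cls G) (x y : Fin 3 → V) (hxy : ∀ i, G.Adj (x i) (y i))
    (ha : ∀ i j, i ≠ j → ¬ G.Adj (x i) (x j) ∧ ¬ G.Adj (x i) (y j) ∧ ¬ G.Adj (y i) (y j)) :
    ThreeP2 G {w | ∀ i, G.Adj w (x i) ∨ G.Adj w (y i)} := by
  refine ⟨?_, ?_, ?_⟩
  · intro a haW b hbW c hcW hab hbc hac
    by_contra hn
    simp only [Set.mem_compl_iff, Set.mem_ofPred_eq] at haW hbW hcW
    -- an index missed by all three
    have key : ∃ j, ¬ (G.Adj a (x j) ∨ G.Adj a (y j)) ∧ ¬ (G.Adj b (x j) ∨ G.Adj b (y j)) ∧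
        ¬ (G.Adj c (x j) ∨ G.Adj c (y j)) := by
      by_cases hb : ∃ l, G.Adj b (x l) ∨ G.Adj b (y l)
      · obtain ⟨l, hl⟩ := hb
        obtain ⟨j, hj, _⟩ := dd_fin3 l l
        refine ⟨j, fun h => hj (dd_two hc hxy ha haW hbW hab h hl),
          fun h => hj (dd_one hc hxy ha hbW h hl),
          fun h => hj (dd_two hc hxy ha hcW hbW hbc.symm h hl)⟩
      · push Not at hb
        by_cases hca : ∃ l, G.Adj a (x l) ∨ G.Adj a (y l)
        · obtain ⟨l, hl⟩ := hca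
          by_cases hcc : ∃ m, G.Adj c (x m) ∨ G.Adj c (y m)
          · obtain ⟨m, hm⟩ := hcc
            obtain ⟨j, hj1, hj2⟩ := dd_fin3 l m
            exact ⟨j, fun h => hj1 (dd_one hc hxy ha haW h hl), fun h => by
              rcases h with h | h
              · exact (hb j).1 h
              · exact (hb j).2 h, fun h => hj2 (dd_one hc hxy ha hcW h hm)⟩
          · push Not at hcc
            obtain ⟨j, hj1, hj2⟩ := dd_fin3 l l
            exact ⟨j, fun h => hj1 (dd_one hc hxy ha haW h hl), fun h => by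
              rcases h with h | h
              · exact (hb j).1 h
              · exact (hb j).2 h, fun h => by
              rcases h with h | h
              · exact (hcc j).1 h
              · exact (hcc j).2 h⟩
        · push Not at hca
          by_cases hcc : ∃ m, G.Adj c (x m) ∨ G.Adj c (y m)
          · obtain ⟨m, hm⟩ := hcc
            obtain ⟨j, hj1, hj2⟩ := dd_fin3 m m
            exact ⟨j, fun h => by
              rcases h with h | h
              · exact (hca j).1 h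
              · exact (hca j).2 h, fun h => by
              rcases h with h | h
              · exact (hb j).1 h
              · exact (hb j).2 h, fun h => hj2 (dd_one hc hxy ha hcW h hm)⟩
          · push Not at hcc
            exact ⟨0, fun h => by
              rcases h with h | h
              · exact (hca 0).1 h
              · exact (hca 0).2 h, fun h => by
              rcases h with h | h
              · exact (hb 0).1 h
              · exact (hb 0).2 h, fun h => by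
              rcases h with h | h
              · exact (hcc 0).1 h
              · exact (hcc 0).2 h⟩
    obtain ⟨j, h1, h2, h3⟩ := key
    push Not at h1 h2 h3
    exact hc.pp (x j) (y j) a b c (hxy j) hab hbc hac hn (fun h => h1.1 h.symm)
      (fun h => h2.1 h.symm) (fun h => h3.1 h.symm) (fun h => h1.2 h.symm)
      (fun h => h2.2 h.symm) (fun h => h3.2 h.symm)
  · intro w hw a haW b hbW hab
    by_contra hn
    push Not at hn
    simp only [Set.mem_ofPred_eq] at haW hbW hw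
    have key : ∃ l : Fin 3, ∀ i, i ≠ l → ¬ (G.Adj a (x i) ∨ G.Adj a (y i)) ∧
        ¬ (G.Adj b (x i) ∨ G.Adj b (y i)) := by
      by_cases hb : ∃ l, G.Adj b (x l) ∨ G.Adj b (y l)
      · obtain ⟨l, hl⟩ := hb
        exact ⟨l, fun i hi => ⟨fun h => hi (dd_two hc hxy ha haW hbW hab h hl),
          fun h => hi (dd_one hc hxy ha hbW h hl)⟩⟩
      · by_cases hca : ∃ l, G.Adj a (x l) ∨ G.Adj a (y l)
        · obtain ⟨l, hl⟩ := hca
          exact ⟨l, fun i hi => ⟨fun h => hi (dd_one hc hxy ha haW h hl), fun h => hb ⟨i, h⟩⟩⟩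
        · exact ⟨0, fun i _ => ⟨fun h => hca ⟨i, h⟩, fun h => hb ⟨i, h⟩⟩⟩
    obtain ⟨l, hl⟩ := key
    have h2 : ∀ l : Fin 3, ∃ i j : Fin 3, i ≠ l ∧ j ≠ l ∧ i ≠ j := by decide
    obtain ⟨i, j, hil, hjl, hij⟩ := h2 l
    obtain ⟨p, q, p1, p2, p3, p4, p5⟩ := dd_pick hxy ha (hw i)
    obtain ⟨r, s, r1, r2, r3, r4, r5⟩ := dd_pick hxy ha (hw j)
    have hi := hl i hil
    have hj := hl j hjl
    push Not at hi hj
    have hap : ¬ G.Adj a p := by rcases p5 with ⟨rfl, _⟩ | ⟨rfl, _⟩ <;> tauto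
    have hbp : ¬ G.Adj b p := by rcases p5 with ⟨rfl, _⟩ | ⟨rfl, _⟩ <;> tauto
    have har : ¬ G.Adj a r := by rcases r5 with ⟨rfl, _⟩ | ⟨rfl, _⟩ <;> tauto
    have hbr : ¬ G.Adj b r := by rcases r5 with ⟨rfl, _⟩ | ⟨rfl, _⟩ <;> tauto
    have hpr : p ≠ r := by
      rintro rfl
      have := p3 j hij.symm
      rcases r5 with ⟨_, rfl⟩ | ⟨_, rfl⟩
      · exact this.2 r2
      · exact this.1 r2
    have hpr' : ¬ G.Adj p r := by
      intro h
      have := p3 j hij.symm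
      rcases r5 with ⟨rfl, _⟩ | ⟨rfl, _⟩
      · exact this.1 h
      · exact this.2 h
    exact hc.pp a b p w r hab p1.symm r1 hpr hpr' hap (fun h => hn.1 h.symm) har hbp
      (fun h => hn.2 h.symm) hbr
  · refine ⟨x, y, fun i => ⟨?_, ?_, hxy i⟩, ha⟩
    · intro h
      obtain ⟨j, hj, _⟩ := dd_fin3 i i
      have := ha i j hj.symm
      have h1 := h j
      tauto
    · intro h
      obtain ⟨j, hj, _⟩ := dd_fin3 i i
      have h1 := h j
      rcases h1 with h1 | h1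
      · exact (ha j i hj).2.1 h1.symm
      · exact (ha i j hj.symm).2.2 h1

/-- D2: nonadjacent vertices of `W` do not miss different vertices of a triangle. -/
theorem ThreeP2.d2 (hc : Cls G) {W : Set V} (h : ThreeP2 G W) {w w' a b c : V} (hw : w ∈ W)
    (hw' : w' ∈ W) (ha : a ∉ W) (hb : b ∉ W) (hcW : c ∉ W) (hab : G.Adj a b) (hac : G.Adj a c)
    (hbc : G.Adj b c) (hww : ¬ G.Adj w w') (h1 : ¬ G.Adj w a) (h2 : ¬ G.Adj w' b) : False := by
  have e1 := (h.hit w hw a ha b hb hab).resolve_left h1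
  have e2 := (h.hit w hw a ha c hcW hac).resolve_left h1
  have e3 := (h.hit w' hw' a ha b hb hab).resolve_right h2
  have e4 := (h.hit w' hw' b hb c hcW hbc).resolve_left h2
  exact hc.gem c w b a w' e2.symm hbc.symm hac.symm e4.symm e1 hab.symm e3.symm h1 hww
    (fun h => h2 h.symm)

/-- D3: two adjacent vertices of `W` that differ on a component have no common neighbour in
another one. -/
theorem ThreeP2.d3 (hc : Cls G) {W : Set V} (h : ThreeP2 G W) {w w' a c d : V} (hw : w ∈ W)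
    (ha : a ∉ W) (hcW : c ∉ W) (hww : G.Adj w w') (hac : G.Adj a c)
    (h1 : ¬ G.Adj w a) (h2 : G.Adj w' a) (h3 : G.Adj w' c) (h4 : G.Adj w d) (h5 : G.Adj w' d)
    (hda : ¬ G.Adj d a) (hdc : ¬ G.Adj d c) : False := by
  have e1 := (h.hit w hw a ha c hcW hac).resolve_left h1
  exact hc.gem w' a c w d h2 h3 hww.symm h5 hac e1.symm h4 (fun h => h1 h.symm)
    (fun h => hda h.symm) (fun h => hdc h.symm)

end GP
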