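import Pool.Agent.Work.MP_31af1e_lc.PF
import Pool.Agent.Work.MP_31af1e_lc.DD

/-!
Module E1: two large components of the complement of `W`.
-/

set_option autoImplicit false

namespace GP

variable {V : Type} {G : SimpleGraph V}

/-- The component of `v` outside `W`. -/
def cmp (G : SimpleGraph V) (W : Set V) (v : V) : Set V := {u | u ∉ W ∧ (u = v ∨ G.Adj u v)}

theorem cmp_self {W : Set V} {v : V} (hv : v ∉ W) : v ∈ cmp G W v := ⟨hv, Or.inl rfl⟩

theorem cmp_clique {W : Set V} (h : P3F G Wᶜ) {v : V} (hv : v ∉ W) : G.IsClique (cmp G W v) := by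
  rintro a ⟨ha, ha'⟩ b ⟨hb, hb'⟩ hab
  rcases ha' with rfl | ha'
  · rcases hb' with rfl | hb'
    · exact absurd rfl hab
    · exact hb'.symm
  · rcases hb' with rfl | hb'
    · exact ha'
    · exact h a ha v hv b hb ha' hb'.symm hab

theorem cmp_eq {W : Set V} (h : P3F G Wᶜ) {u v : V} (hv : v ∉ W) (hu : u ∈ cmp G W v) :
    cmp G W u = cmp G W v := by
  have hcl := cmp_clique h hv
  ext z
  constructor
  · rintro ⟨hz, rfl | hzu⟩
    · exact hu
    · refine ⟨hz, ?_⟩
      by_cases hzv : z = v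
      · exact Or.inl hzv
      · rcases hu.2 with rfl | huv
        · exact Or.inr hzu
        · exact Or.inr (h z hz u hu.1 v hv hzu huv hzv)
  · intro hz
    refine ⟨hz.1, ?_⟩
    by_cases hzu : z = u
    · exact Or.inl hzu
    · exact Or.inr (hcl hz hu hzu)

theorem cmp_adj {W : Set V} (h : P3F G Wᶜ) {u v : V} (hu : u ∉ W) (hv : v ∉ W)
    (huv : G.Adj u v) : cmp G W u = cmp G W v := cmp_eq h hv ⟨hu, Or.inr huv⟩

/-- Two components without edges between. -/
theorem cmp_anti {W : Set V} (h : P3F G Wᶜ) {a a' : V} (ha : a ∉ W) (ha' : a' ∉ W)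
    (hn : ¬ G.Adj a a') (hne : a ≠ a') {u v : V} (hu : u ∈ cmp G W a) (hv : v ∈ cmp G W a') :
    ¬ G.Adj u v ∧ u ≠ v := by
  have key : a' ∉ cmp G W a := by
    rintro ⟨-, h1 | h1⟩
    · exact hne h1.symm
    · exact hn h1.symm
  have e1 : cmp G W v = cmp G W a' := cmp_eq h ha' hv
  have e2 : cmp G W u = cmp G W a := cmp_eq h ha hu
  constructor
  · intro huv
    apply key
    rw [← e2, cmp_adj h hu.1 hv.1 huv, e1]
    exact cmp_self ha'
  · rintro rfl
    apply key
    rw [← e2, e1]
    exact cmp_self ha'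

/-- Extending a colouring of `W` to all components. -/
theorem glue {W : Set V} (h : P3F G Wᶜ) {k : ℕ} (c : V → ℕ) (hc1 : ∀ w ∈ W, c w < k)
    (hc2 : ∀ w ∈ W, ∀ w' ∈ W, G.Adj w w' → c w ≠ c w')
    (hext : ∀ v, v ∉ W → ∃ d : V → ℕ, (∀ u ∈ cmp G W v, d u < k) ∧
      (∀ u ∈ cmp G W v, ∀ u' ∈ cmp G W v, G.Adj u u' → d u ≠ d u') ∧
      ∀ u ∈ cmp G W v, ∀ w ∈ W, G.Adj u w → d u ≠ c w) : Col G Set.univ k := by
  classical
  let P : Set V → (V → ℕ) → Prop := fun s d => (∀ u ∈ s, d u < k) ∧
      (∀ u ∈ s, ∀ u' ∈ s, G.Adj u u' → d u ≠ d u') ∧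
      ∀ u ∈ s, ∀ w ∈ W, G.Adj u w → d u ≠ c w
  let D : Set V → V → ℕ := fun s => if h : ∃ d, P s d then h.choose else fun _ => 0
  have hD : ∀ v, v ∉ W → P (cmp G W v) (D (cmp G W v)) := by
    intro v hv
    have h1 : ∃ d, P (cmp G W v) d := hext v hv
    simp only [D, h1, dite_true]
    exact h1.choose_spec
  refine ⟨fun v => if v ∈ W then c v else D (cmp G W v) v, ?_, ?_⟩
  · intro v _
    by_cases hv : v ∈ W
    · simpa [hv] using hc1 v hv
    · simpa [hv] using (hD v hv).1 v (cmp_self hv)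
  · intro u _ v _ huv
    by_cases hu : u ∈ W <;> by_cases hv : v ∈ W
    · simpa [hu, hv] using hc2 u hu v hv huv
    · simpa [hu, hv] using ((hD v hv).2.2 v (cmp_self hv) u hu huv.symm).symm
    · simpa [hu, hv] using (hD u hu).2.2 u (cmp_self hu) v hv huv
    · have e := cmp_adj h hu hv huv
      simp only [hu, hv, if_false]
      rw [e]
      exact (hD v hv).2.1 u (by rw [← e]; exact cmp_self hu) v (cmp_self hv) huv

theorem inj_colour (A : Finset V) : ∃ e : V → ℕ, Set.InjOn e (A : Set V) ∧ ∀ a ∈ A, e a < A.card := by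
  classical
  refine ⟨fun v => if h : v ∈ A then (A.equivFin ⟨v, h⟩ : ℕ) else 0, ?_, ?_⟩
  · intro a ha b hb hab
    have ha' : a ∈ A := ha
    have hb' : b ∈ A := hb
    simp only [ha', hb', dite_true] at hab
    have := A.equivFin.injective (Fin.ext hab)
    exact congrArg Subtype.val this
  · intro a ha
    simp only [ha, dite_true]
    exact (A.equivFin ⟨a, ha⟩).2

/-- In two vertices of a triangle at most one is missed. -/
theorem tri_common {W : Set V} (htp : ThreeP2 G W) {a b c w w' : V} (ha : a ∉ W) (hb : b ∉ W)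
    (hc : c ∉ W) (hab : G.Adj a b) (hac : G.Adj a c) (hbc : G.Adj b c) (hw : w ∈ W) (hw' : w' ∈ W) :
    ∃ z, (z = a ∨ z = b ∨ z = c) ∧ G.Adj w z ∧ G.Adj w' z := by
  have h1 := htp.hit w hw a ha b hb hab
  have h2 := htp.hit w hw a ha c hc hac
  have h3 := htp.hit w hw b hb c hc hbc
  have h4 := htp.hit w' hw' a ha b hb hab
  have h5 := htp.hit w' hw' a ha c hc hac
  have h6 := htp.hit w' hw' b hb c hc hbc
  by_cases e1 : G.Adj w a ∧ G.Adj w' a
  · exact ⟨a, Or.inl rfl, e1⟩
  · by_cases e2 : G.Adj w b ∧ G.Adj w' b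
    · exact ⟨b, Or.inr (Or.inl rfl), e2⟩
    · refine ⟨c, Or.inr (Or.inr rfl), ?_⟩
      tauto

/-- The special vertex of a component with at least three vertices. -/
theorem big_comp (hc : Cls G) {W : Set V} (h : ThreeP2 G W)
    {a b c a' b' c' : V} (haW : a ∉ W) (hbW : b ∉ W) (hcW : c ∉ W) (haW' : a' ∉ W) (hbW' : b' ∉ W)
    (hcW' : c' ∉ W) (hab : G.Adj a b) (hac : G.Adj a c) (hbc : G.Adj b c) (hab' : G.Adj a' b')
    (hac' : G.Adj a' c') (hbc' : G.Adj b' c') (hn : ¬ G.Adj a a') (hne : a ≠ a') :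
    ∃ z ∈ cmp G W a, (∀ w ∈ W, ∀ x ∈ cmp G W a, x ≠ z → G.Adj w x) ∧
      ∀ w ∈ W, ∀ w' ∈ W, G.Adj w w' → G.Adj w z → G.Adj w' z := by
  have hp := h.p3
  have hcl := cmp_clique hp haW
  have ma : a ∈ cmp G W a := cmp_self haW
  have mb : b ∈ cmp G W a := ⟨hbW, Or.inr hab.symm⟩
  have mc : c ∈ cmp G W a := ⟨hcW, Or.inr hac.symm⟩
  have ma' : a' ∈ cmp G W a' := cmp_self haW'
  have mb' : b' ∈ cmp G W a' := ⟨hbW', Or.inr hab'.symm⟩
  have mc' : c' ∈ cmp G W a' := ⟨hcW', Or.inr hac'.symm⟩
  have same : ∀ w ∈ W, ∀ w' ∈ W, G.Adj w w' → ∀ x ∈ cmp G W a, ¬ G.Adj w x → ¬ G.Adj w' x := by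
    intro w hw w' hw' hww x hx hwx hw'x
    obtain ⟨z, hz, hwz, hw'z⟩ := tri_common h haW hbW hcW hab hac hbc hw hw'
    obtain ⟨d, hd, hwd, hw'd⟩ := tri_common h haW' hbW' hcW' hab' hac' hbc' hw hw'
    have hz' : z ∈ cmp G W a := by rcases hz with rfl | rfl | rfl <;> assumption
    have hd' : d ∈ cmp G W a' := by rcases hd with rfl | rfl | rfl <;> assumption
    have hxz : x ≠ z := by rintro rfl; exact hwx hwz
    exact h.d3 hc hw hx.1 hz'.1 hww (hcl hx hz' hxz) hwx hw'x hw'z hwd hw'd
      (fun h' => (cmp_anti hp haW haW' hn hne hx hd').1 h'.symm)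
      (fun h' => (cmp_anti hp haW haW' hn hne hz' hd').1 h'.symm)
  have uniq : ∀ w ∈ W, ∀ w' ∈ W, ∀ x ∈ cmp G W a, ∀ y ∈ cmp G W a, ¬ G.Adj w x → ¬ G.Adj w' y →
      x = y := by
    intro w hw w' hw' x hx y hy hwx hw'y
    by_contra hxy
    have hxyadj := hcl hx hy hxy
    by_cases hww : G.Adj w w'
    · have := same w hw w' hw' hww x hx hwx
      rcases h.hit w' hw' x hx.1 y hy.1 hxyadj with h1 | h1
      · exact this h1
      · exact hw'y h1
    · -- a third vertex
      obtain ⟨z, hz, hzx, hzy⟩ : ∃ z ∈ cmp G W a, z ≠ x ∧ z ≠ y := by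
        by_cases e1 : a ≠ x ∧ a ≠ y
        · exact ⟨a, ma, e1⟩
        · by_cases e2 : b ≠ x ∧ b ≠ y
          · exact ⟨b, mb, e2⟩
          · refine ⟨c, mc, ?_, ?_⟩
            · rintro rfl
              have := hac.ne
              have := hbc.ne
              have := hab.ne
              grind
            · rintro rfl
              have := hac.ne
              have := hbc.ne
              have := hab.ne
              grind
      exact h.d2 hc hw hw' hx.1 hy.1 hz.1 hxyadj (hcl hx hz (Ne.symm hzx)) (hcl hy hz (Ne.symm hzy))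
        hww hwx hw'y
  by_cases hex : ∃ w ∈ W, ∃ x ∈ cmp G W a, ¬ G.Adj w x
  · obtain ⟨w0, hw0, z, hz, hw0z⟩ := hex
    refine ⟨z, hz, ?_, ?_⟩
    · intro w hw x hx hxz
      by_contra hwx
      exact hxz (uniq w hw w0 hw0 x hx z hz hwx hw0z)
    · intro w hw w' hw' hww hwz
      by_contra hw'z
      exact same w' hw' w hw hww.symm z hz hw'z hwz
  · push Not at hex
    exact ⟨a, ma, fun w hw x hx _ => hex w hw x hx, fun w hw w' hw' _ _ => hex w' hw' a ma⟩

theorem e1 [Finite V] (hc : Cls G) {W : Set V} (h : ThreeP2 G W) {k : ℕ} (hk : CL G Set.univ k)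
    (a b c a' b' c' : V) (haW : a ∉ W) (hbW : b ∉ W) (hcW : c ∉ W) (haW' : a' ∉ W) (hbW' : b' ∉ W)
    (hcW' : c' ∉ W) (hab : G.Adj a b) (hac : G.Adj a c) (hbc : G.Adj b c) (hab' : G.Adj a' b')
    (hac' : G.Adj a' c') (hbc' : G.Adj b' c') (hn : ¬ G.Adj a a') (hne : a ≠ a') :
    Col G Set.univ k := by
  classical
  have hp := h.p3
  -- the special vertex of every component with at least three vertices
  have hbig : ∀ v, v ∉ W → ∀ x ∈ cmp G W v, ∀ y ∈ cmp G W v, x ≠ v → y ≠ v → x ≠ y →
      ∃ z ∈ cmp G W v, (∀ w ∈ W, ∀ x ∈ cmp G W v, x ≠ z → G.Adj w x) ∧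
        ∀ w ∈ W, ∀ w' ∈ W, G.Adj w w' → G.Adj w z → G.Adj w' z := by
    intro v hv x hx y hy hxv hyv hxy
    have hcl := cmp_clique hp hv
    have hvx : G.Adj v x := hcl (cmp_self hv) hx (Ne.symm hxv)
    have hvy : G.Adj v y := hcl (cmp_self hv) hy (Ne.symm hyv)
    have hxy' : G.Adj x y := hcl hx hy hxy
    by_cases hva : v ∈ cmp G W a
    · -- another component: that of a'
      have hva' : ¬ G.Adj v a' ∧ v ≠ a' := cmp_anti hp haW haW' hn hne hva (cmp_self haW')
      exact big_comp hc h hv hx.1 hy.1 haW' hbW' hcW' hvx hvy hxy' hab' hac' hbc' hva'.1 hva'.2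
    · have hva' : ¬ G.Adj v a ∧ v ≠ a := by
        constructor
        · intro h'
          exact hva ⟨hv, Or.inr h'⟩
        · rintro rfl
          exact hva (cmp_self hv)
      exact big_comp hc h hv hx.1 hy.1 haW hbW hcW hvx hvy hxy' hab hac hbc hva'.1 hva'.2
  obtain ⟨z0, hz0, hz0W, -⟩ := hbig a haW b ⟨hbW, Or.inr hab.symm⟩ c ⟨hcW, Or.inr hac.symm⟩
    hab.ne' hac.ne' hbc.ne
  -- a vertex complete to W
  obtain ⟨c0, hc0, hc0W⟩ : ∃ c0 ∈ cmp G W a, ∀ w ∈ W, G.Adj w c0 := by
    by_cases e : b = z0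
    · exact ⟨c, ⟨hcW, Or.inr hac.symm⟩, fun w hw => hz0W w hw c ⟨hcW, Or.inr hac.symm⟩
        (by rw [← e]; exact hbc.ne')⟩
    · exact ⟨b, ⟨hbW, Or.inr hab.symm⟩, fun w hw => hz0W w hw b ⟨hbW, Or.inr hab.symm⟩ e⟩
  have hP4 : P4F G W := (hc.gem.nbr c0).mono (fun w hw => (hc0W w hw).symm)
  obtain ⟨col, hcol1, hcol2⟩ := hP4.grundy
  -- the number of colours on W
  obtain ⟨ω, hω1, tm, htmW, htmc, htmω⟩ : ∃ ω : ℕ, (∀ w ∈ W, col w < ω) ∧
      ∃ t : Finset V, (t : Set V) ⊆ W ∧ G.IsClique (t : Set V) ∧ t.card = ω := by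
    by_cases hW : W.Nonempty
    · obtain ⟨w, hw, hmax⟩ := (Set.toFinite W).exists_maximalFor col W hW
      obtain ⟨t, ht1, -, ht2, ht3⟩ := hcol2 w hw
      refine ⟨col w + 1, fun w' hw' => ?_, t, ht1, ht2, ht3⟩
      by_contra hlt
      push Not at hlt
      have := hmax hw' (by omega)
      omega
    · rw [Set.not_nonempty_iff_eq_empty] at hW
      exact ⟨0, by simp [hW], ∅, by simp, by simp, rfl⟩
  -- size of large components
  have hsize : ∀ v, v ∉ W → ∀ z ∈ cmp G W v, (∀ w ∈ W, ∀ x ∈ cmp G W v, x ≠ z → G.Adj w x) →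
      ∀ A : Finset V, (A : Set V) = cmp G W v → A.card + ω ≤ k + 1 := by
    intro v hv z hz hzW A hA
    have hcl := cmp_clique hp hv
    have hzA : z ∈ A := by rw [← Finset.mem_coe, hA]; exact hz
    have hdis : Disjoint (A.erase z) tm := by
      rw [Finset.disjoint_left]
      intro x hx hx'
      have : x ∈ cmp G W v := by rw [← hA]; exact Finset.mem_of_mem_erase hx
      exact this.1 (htmW hx')
    have h1 := hk (A.erase z ∪ tm) (Set.subset_univ _) (by
      intro x hx y hy hxy
      simp only [Finset.coe_union, Set.mem_union, Finset.mem_coe] at hx hy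
      have mem : ∀ x, x ∈ A.erase z → x ∈ cmp G W v ∧ x ≠ z := by
        intro x hx
        exact ⟨by rw [← hA]; exact Finset.mem_of_mem_erase hx, Finset.ne_of_mem_erase hx⟩
      rcases hx with hx | hx <;> rcases hy with hy | hy
      · exact hcl (mem x hx).1 (mem y hy).1 hxy
      · exact (hzW y (htmW hy) x (mem x hx).1 (mem x hx).2).symm
      · exact hzW x (htmW hx) y (mem y hy).1 (mem y hy).2
      · exact htmc hx hy hxy)
    rw [Finset.card_union_of_disjoint hdis, Finset.card_erase_of_mem hzA, htmω] at h1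
    have : 1 ≤ A.card := Finset.card_pos.2 ⟨z, hzA⟩
    omega
  have hω2 : ω + 2 ≤ k := by
    have hfin : (cmp G W a).Finite := Set.toFinite _
    have h1 := hsize a haW z0 hz0 hz0W hfin.toFinset (by simp)
    have h3 : 3 ≤ hfin.toFinset.card := by
      have hsub : ({a, b, c} : Finset V) ⊆ hfin.toFinset := by
        intro x hx
        rw [Set.Finite.mem_toFinset]
        simp only [Finset.mem_insert, Finset.mem_singleton] at hx
        rcases hx with rfl | rfl | rfl
        · exact cmp_self haW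
        · exact ⟨hbW, Or.inr hab.symm⟩
        · exact ⟨hcW, Or.inr hac.symm⟩
      have := Finset.card_le_card hsub
      rwa [Finset.card_eq_three.2 ⟨a, b, c, hab.ne, hac.ne, hbc.ne, rfl⟩] at this
    omega
  refine glue hp col (fun w hw => by have := hω1 w hw; omega) hcol1 ?_
  intro v hv
  have hcl := cmp_clique hp hv
  have hfin : (cmp G W v).Finite := Set.toFinite _
  by_cases hthree : ∃ x ∈ cmp G W v, ∃ y ∈ cmp G W v, x ≠ v ∧ y ≠ v ∧ x ≠ y
  · obtain ⟨x, hx, y, hy, hxv, hyv, hxy⟩ := hthree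
    obtain ⟨z, hz, hzW, hzcl⟩ := hbig v hv x hx y hy hxv hyv hxy
    set A := hfin.toFinset with hAdef
    have hA : (A : Set V) = cmp G W v := by simp [hAdef]
    have hAm : ∀ u, u ∈ A ↔ u ∈ cmp G W v := fun u => by simp [hAdef]
    have hAω := hsize v hv z hz hzW A hA
    have hzA : z ∈ A := (hAm z).2 hz
    by_cases hroom : A.card + ω ≤ k
    · obtain ⟨e, he1, he2⟩ := inj_colour A
      refine ⟨fun u => ω + e u, ?_, ?_, ?_⟩
      · intro u hu
        have := he2 u ((hAm u).2 hu)
        show ω + e u < k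
        omega
      · intro u hu u' hu' huu he
        have he' : ω + e u = ω + e u' := he
        exact huu.ne (he1 ((hAm u).2 hu) ((hAm u').2 hu') (by omega))
      · intro u hu w hw _ he
        have he' : ω + e u = col w := he
        have := hω1 w hw
        omega
    · -- tight: the special vertex gets the last colour of W
      have hωp : 1 ≤ ω := by
        by_contra h0
        have h1 := hk A (Set.subset_univ _) (by rw [hA]; exact hcl)
        omega
      obtain ⟨e, he1, he2⟩ := inj_colour (A.erase z)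
      have hce : (A.erase z).card = A.card - 1 := Finset.card_erase_of_mem hzA
      have hzlast : ∀ w ∈ W, G.Adj z w → col w ≠ ω - 1 := by
        intro w hw hzw hcw
        obtain ⟨t, htW, hwt, htc, htcard⟩ := hcol2 w hw
        have htz : ∀ w' ∈ t, G.Adj w' z := by
          intro w' hw't
          by_cases hww : w' = w
          · rw [hww]; exact hzw.symm
          · exact hzcl w hw w' (htW hw't) (htc hwt hw't (Ne.symm hww)) hzw.symm
        have hdis : Disjoint A t := by
          rw [Finset.disjoint_left]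
          intro x hx hx'
          exact ((hAm x).1 hx).1 (htW hx')
        have h1 := hk (A ∪ t) (Set.subset_univ _) (by
          intro x hx y hy hxy
          simp only [Finset.coe_union, Set.mem_union, Finset.mem_coe] at hx hy
          have key : ∀ x ∈ A, ∀ y ∈ t, G.Adj y x := by
            intro x hx y hy
            by_cases hxz : x = z
            · rw [hxz]; exact htz y hy
            · exact hzW y (htW hy) x ((hAm x).1 hx) hxz
          rcases hx with hx | hx <;> rcases hy with hy | hy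
          · exact hcl ((hAm x).1 hx) ((hAm y).1 hy) hxy
          · exact (key x hx y hy).symm
          · exact key y hy x hx
          · exact htc hx hy hxy)
        rw [Finset.card_union_of_disjoint hdis] at h1
        omega
      refine ⟨fun u => if u = z then ω - 1 else ω + e u, ?_, ?_, ?_⟩
      · intro u hu
        by_cases huz : u = z
        · simp only [huz, if_true]; omega
        · have := he2 u (Finset.mem_erase.2 ⟨huz, (hAm u).2 hu⟩)
          simp only [huz, if_false]; omega
      · intro u hu u' hu' huu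
        by_cases huz : u = z <;> by_cases huz' : u' = z
        · exact absurd (huz.trans huz'.symm) huu.ne
        · simp only [huz, huz', if_true, if_false]; omega
        · simp only [huz, huz', if_true, if_false]; omega
        · simp only [huz, huz', if_false]
          intro he
          exact huu.ne (he1 (Finset.mem_coe.2 (Finset.mem_erase.2 ⟨huz, (hAm u).2 hu⟩))
            (Finset.mem_coe.2 (Finset.mem_erase.2 ⟨huz', (hAm u').2 hu'⟩)) (by omega))
      · intro u hu w hw huw
        have hw1 := hω1 w hw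
        by_cases huz : u = z
        · subst huz
          simp only [if_true]
          exact (hzlast w hw huw).symm
        · simp only [huz, if_false]; omega
  · -- at most two vertices
    push Not at hthree
    refine ⟨fun u => if u = v then ω else ω + 1, ?_, ?_, ?_⟩
    · intro u _
      by_cases hu : u = v
      · simp only [hu, if_true]; omega
      · simp only [hu, if_false]; omega
    · intro u hu u' hu' huu
      by_cases e1 : u = v <;> by_cases e2 : u' = v
      · exact absurd (e1.trans e2.symm) huu.ne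
      · simp only [e1, e2, if_true, if_false]; omega
      · simp only [e1, e2, if_true, if_false]; omega
      · exact absurd (hthree u hu u' hu' e1 e2) huu.ne
    · intro u _ w hw _
      have hw1 := hω1 w hw
      by_cases e1 : u = v
      · simp only [e1, if_true]; omega
      · simp only [e1, if_false]; omega

end GP
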