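import Pool.Agent.Work.MP_31af1e_lc.BA
import Pool.Agent.Work.MP_31af1e_lc.DD
import Pool.Agent.Work.MP_31af1e_lc.E1

/-!
Module N0: columns from an induced matching.
-/

set_option autoImplicit false

namespace GP

variable {V : Type} {G : SimpleGraph V}

theorem cols_of_match [Finite V] (hc : Cls G) {k : ℕ} (hk : CL G Set.univ k) (hcr : Crit G k)
    (n : ℕ) (hn : 2 ≤ n) (hm : IndMatch G (n + 1)) :
    ∃ (W : Set V) (x y : Fin n → V), ThreeP2 G W ∧ Cols G W n x y := by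
  classical
  obtain ⟨x, y, hxy, hA⟩ := hm
  have h3 : 3 ≤ n + 1 := by omega
  set e : Fin 3 → Fin (n + 1) := Fin.castLE h3 with he
  have hinj : Function.Injective e := Fin.castLE_injective h3
  have hT := three_p2 hc (fun i => x (e i)) (fun i => y (e i)) (fun i => hxy (e i))
    (fun i j hij => hA (e i) (e j) (fun h => hij (hinj h)))
  set W : Set V := {w | ∀ i, G.Adj w (x (e i)) ∨ G.Adj w (y (e i))} with hW
  -- an index among the first three different from a given one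
  have hex : ∀ i : Fin (n + 1), ∃ j : Fin 3, e j ≠ i := by
    intro i
    by_contra hcon
    push Not at hcon
    have h1 : e 0 = e 1 := (hcon 0).trans (hcon 1).symm
    exact absurd (hinj h1) (by decide)
  have hxW : ∀ i, x i ∉ W := by
    intro i hi
    obtain ⟨j, hj⟩ := hex i
    rcases hi j with h | h
    · exact (hA i (e j) (Ne.symm hj)).1 h
    · exact (hA i (e j) (Ne.symm hj)).2.1 h
  have hyW : ∀ i, y i ∉ W := by
    intro i hi
    obtain ⟨j, hj⟩ := hex i
    rcases hi j with h | h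
    · exact (hA (e j) i hj).2.1 h.symm
    · exact (hA i (e j) (Ne.symm hj)).2.2 h
  have hxx : ∀ i j, i ≠ j → x i ≠ x j := by
    intro i j hij h
    exact (hA i j hij).2.1 (h ▸ hxy j)
  have hyy : ∀ i j, i ≠ j → y i ≠ y j := by
    intro i j hij h
    exact (hA i j hij).2.1 (h ▸ hxy i)
  have hxyne : ∀ i j, i ≠ j → x i ≠ y j := by
    intro i j hij h
    exact (hA i j hij).1 (h ▸ (hxy j).symm)
  -- bad indices
  let B : Fin (n + 1) → Prop := fun i => ∃ z, z ∉ W ∧ z ≠ x i ∧ z ≠ y i ∧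
    (G.Adj z (x i) ∨ G.Adj z (y i))
  have htri : ∀ i, B i → ∃ z, z ∉ W ∧ G.Adj (x i) z ∧ G.Adj (y i) z := by
    rintro i ⟨z, hz, hzx, hzy, h | h⟩
    · exact ⟨z, hz, h.symm, (hT.p3 z hz (x i) (hxW i) (y i) (hyW i) h (hxy i) hzy).symm⟩
    · exact ⟨z, hz, (hT.p3 z hz (y i) (hyW i) (x i) (hxW i) h (hxy i).symm hzx).symm, h.symm⟩
  have huniq : ∀ i j, B i → B j → i = j := by
    intro i j hi hj
    by_contra hij
    obtain ⟨z, hz, hz1, hz2⟩ := htri i hi
    obtain ⟨z', hz', hz1', hz2'⟩ := htri j hj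
    exact hcr.1 (e1 hc hT hk (x i) (y i) z (x j) (y j) z' (hxW i) (hyW i) hz (hxW j) (hyW j) hz'
      (hxy i) hz1 hz2 (hxy j) hz1' hz2' (hA i j hij).1 (hxx i j hij))
  obtain ⟨i0, hi0⟩ : ∃ i0 : Fin (n + 1), ∀ i, i ≠ i0 → ¬ B i := by
    by_cases hB : ∃ i, B i
    · obtain ⟨i0, h0⟩ := hB
      exact ⟨i0, fun i hi hBi => hi (huniq i i0 hBi h0)⟩
    · push Not at hB
      exact ⟨0, fun i _ => hB i⟩
  refine ⟨W, fun i => x (i0.succAbove i), fun i => y (i0.succAbove i), hT, ?_⟩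
  have hgood : ∀ i, ¬ B (i0.succAbove i) := fun i => hi0 _ (Fin.succAbove_ne i0 i)
  have hsinj : ∀ i j : Fin n, i ≠ j → i0.succAbove i ≠ i0.succAbove j :=
    fun i j hij h => hij (Fin.succAbove_right_injective h)
  refine ⟨fun i => hxW _, fun i => hyW _, fun i => hxy _, ?_, ?_, ?_, ?_, ?_⟩
  · intro i z hz h
    by_contra hne
    exact hgood i ⟨z, hz, fun h' => G.loopless.irrefl _ (h' ▸ h), hne, Or.inl h⟩
  · intro i z hz h
    by_contra hne
    exact hgood i ⟨z, hz, hne, fun h' => G.loopless.irrefl _ (h' ▸ h), Or.inr h⟩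
  · exact fun i j hij => hxx _ _ (hsinj i j hij)
  · exact fun i j hij => hxyne _ _ (hsinj i j hij)
  · exact fun i j hij => hyy _ _ (hsinj i j hij)

end GP
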