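import Pool.Agent.Work.MP_31af1e_lc.BA
import Pool.Agent.Work.MP_31af1e_lc.DD
import Pool.Agent.Work.MP_31af1e_lc.E2

/-!
Module NA1: no adjacent pair of `W` is opposite on almost all columns, structure.
-/

set_option autoImplicit false

namespace GP

variable {V : Type} {G : SimpleGraph V}

structure NAs (G : SimpleGraph V) (W : Set V) (n : ℕ) (x y : Fin n → V) : Prop where
  cls : Cls G
  tp : ThreeP2 G W
  cols : Cols G W n x y
  n12 : 12 ≤ n
  /-- adjacent vertices of `W` have common neighbours on at least three columns -/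
  na : ∀ w ∈ W, ∀ w' ∈ W, G.Adj w w' → ∃ f : Fin 3 → Fin n, Function.Injective f ∧
    ∀ e, (G.Adj w (x (f e)) ∧ G.Adj w' (x (f e))) ∨ (G.Adj w (y (f e)) ∧ G.Adj w' (y (f e)))

/-- The two vertices of a column. -/
def na_cv {n : ℕ} (x y : Fin n → V) (i : Fin n) (b : Bool) : V := cond b (x i) (y i)

section NA
variable {W : Set V} {n : ℕ} {x y : Fin n → V}

theorem na_cv_notW (h : Cols G W n x y) (i : Fin n) (b : Bool) : na_cv x y i b ∉ W := by
  cases b
  · exact h.yW i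
  · exact h.xW i

theorem na_cv_adj (h : Cols G W n x y) (i : Fin n) (b : Bool) :
    G.Adj (na_cv x y i b) (na_cv x y i (!b)) := by
  cases b
  · exact (h.xy i).symm
  · exact h.xy i

theorem na_cv_ne (h : Cols G W n x y) {i j : Fin n} (hij : i ≠ j) (b c : Bool) :
    na_cv x y i b ≠ na_cv x y j c := by
  cases b <;> cases c
  · exact h.yy i j hij
  · exact (h.xyne j i hij.symm).symm
  · exact h.xyne i j hij
  · exact h.xx i j hij

theorem na_cv_nb (h : Cols G W n x y) (i : Fin n) (b : Bool) {z : V} (hz : z ∉ W)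
    (hadj : G.Adj z (na_cv x y i b)) : z = na_cv x y i (!b) := by
  cases b
  · exact h.ny i z hz hadj
  · exact h.nx i z hz hadj

theorem na_cv_anti (h : Cols G W n x y) {i j : Fin n} (hij : i ≠ j) (b c : Bool) :
    ¬ G.Adj (na_cv x y i b) (na_cv x y j c) := by
  intro hadj
  exact na_cv_ne h hij b (!c) (na_cv_nb h j c (na_cv_notW h i b) hadj)

theorem na_cv_hit (h : Cols G W n x y) (tp : ThreeP2 G W) {w : V} (hw : w ∈ W) (i : Fin n)
    (b : Bool) : G.Adj w (na_cv x y i b) ∨ G.Adj w (na_cv x y i (!b)) :=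
  tp.hit w hw _ (na_cv_notW h i b) _ (na_cv_notW h i (!b)) (na_cv_adj h i b)

/-- A common neighbour of two adjacent vertices in a column of an injective triple. -/
theorem NAs.na' (h : NAs G W n x y) {w w' : V} (hw : w ∈ W)
    (hw' : w' ∈ W) (hadj : G.Adj w w') : ∃ f : Fin 3 → Fin n, Function.Injective f ∧
    ∀ e, ∃ b, G.Adj w (na_cv x y (f e) b) ∧ G.Adj w' (na_cv x y (f e) b) := by
  obtain ⟨f, hf, hf2⟩ := h.na w hw w' hw' hadj
  refine ⟨f, hf, fun e => ?_⟩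
  rcases hf2 e with h1 | h1
  · exact ⟨true, h1⟩
  · exact ⟨false, h1⟩

theorem NAs.pat' (h : NAs G W n x y) {w w' : V} (hw : w ∈ W)
    (hw' : w' ∈ W) (hadj : G.Adj w w') (i : Fin n) (h1 : ∀ b, G.Adj w (na_cv x y i b)) (b : Bool) :
    G.Adj w' (na_cv x y i b) := by
  by_contra hcon
  obtain ⟨f, hf, hf2⟩ := h.na' hw hw' hadj
  obtain ⟨e, he⟩ : ∃ e, f e ≠ i := by
    by_contra hn
    push Not at hn
    exact absurd (hf ((hn 0).trans (hn 1).symm)) (by decide)
  obtain ⟨b', hb1, hb2⟩ := hf2 e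
  exact ThreeP2.d3 h.cls h.tp (w := w') (w' := w) (a := na_cv x y i b) (c := na_cv x y i (!b))
    (d := na_cv x y (f e) b') hw' (na_cv_notW h.cols i b) (na_cv_notW h.cols i (!b)) hadj.symm
    (na_cv_adj h.cols i b) hcon (h1 b) (h1 (!b)) hb2 hb1 (na_cv_anti h.cols he _ _)
    (na_cv_anti h.cols he _ _)

/-- same trace on column `i` -/
def na_S (G : SimpleGraph V) {n : ℕ} (x y : Fin n → V) (w w' : V) (i : Fin n) : Prop :=
  ∀ b, (G.Adj w (na_cv x y i b) ↔ G.Adj w' (na_cv x y i b))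

/-- same kind on column `i` -/
def na_K (G : SimpleGraph V) {n : ℕ} (x y : Fin n → V) (w w' : V) (i : Fin n) : Prop :=
  (∀ b, G.Adj w (na_cv x y i b)) ↔ (∀ b, G.Adj w' (na_cv x y i b))

theorem na_S.symm {w w' : V} {i : Fin n} (h : na_S G x y w w' i) : na_S G x y w' w i :=
  fun b => (h b).symm

theorem na_S.trans {w w' w'' : V} {i : Fin n} (h : na_S G x y w w' i) (h' : na_S G x y w' w'' i) :
    na_S G x y w w'' i := fun b => (h b).trans (h' b)

theorem NAs.patK (h : NAs G W n x y) {w w' : V} (hw : w ∈ W)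
    (hw' : w' ∈ W) (hadj : G.Adj w w') (i : Fin n) : na_K G x y w w' i :=
  ⟨h.pat' hw hw' hadj i, h.pat' hw' hw hadj.symm i⟩

theorem NAs.pat {W : Set V} {n : ℕ} {x y : Fin n → V} (h : NAs G W n x y) {w w' : V} (hw : w ∈ W)
    (hw' : w' ∈ W) (hadj : G.Adj w w') (i : Fin n) :
    (G.Adj w (x i) ∧ G.Adj w (y i)) ↔ (G.Adj w' (x i) ∧ G.Adj w' (y i)) := by
  have := h.patK hw hw' hadj i
  have e : ∀ w : V, (∀ b, G.Adj w (na_cv x y i b)) ↔ (G.Adj w (x i) ∧ G.Adj w (y i)) := by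
    intro w
    constructor
    · intro h1; exact ⟨h1 true, h1 false⟩
    · rintro ⟨h1, h2⟩ b
      cases b
      · exact h2
      · exact h1
  rw [← e, ← e]
  exact this

theorem NAs.agree (h : NAs G W n x y) {w w' : V} (hw : w ∈ W)
    (hw' : w' ∈ W) (hadj : G.Adj w w') {i : Fin n} {b : Bool} (h1 : G.Adj w (na_cv x y i b))
    (h2 : G.Adj w' (na_cv x y i b)) : na_S G x y w w' i := by
  intro c
  by_cases hc : c = b
  · subst hc; exact ⟨fun _ => h2, fun _ => h1⟩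
  · have hcb : c = !b := by cases b <;> cases c <;> simp_all
    subst hcb
    constructor
    · intro h3
      refine h.pat' hw hw' hadj i (fun d => ?_) _
      by_cases hd : d = b
      · rw [hd]; exact h1
      · have : d = !b := by cases b <;> cases d <;> simp_all
        rw [this]; exact h3
    · intro h3
      refine h.pat' hw' hw hadj.symm i (fun d => ?_) _
      by_cases hd : d = b
      · rw [hd]; exact h2
      · have : d = !b := by cases b <;> cases d <;> simp_all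
        rw [this]; exact h3

/-- Vertices of the same kind with different traces are opposite. -/
theorem na_diff (hcol : Cols G W n x y) (tp : ThreeP2 G W) {w w' : V} (hw : w ∈ W) (hw' : w' ∈ W)
    {i : Fin n} (hK : na_K G x y w w' i) (hS : ¬ na_S G x y w w' i) :
    ∃ b, G.Adj w (na_cv x y i b) ∧ ¬ G.Adj w' (na_cv x y i b) ∧ ¬ G.Adj w (na_cv x y i (!b)) ∧
      G.Adj w' (na_cv x y i (!b)) := by
  unfold na_S at hS
  unfold na_K at hK
  push Not at hS
  obtain ⟨b, hb⟩ := hS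
  have key : ∀ (u : V), (∀ d, G.Adj u (na_cv x y i d)) ↔
      (G.Adj u (na_cv x y i b) ∧ G.Adj u (na_cv x y i (!b))) := by
    intro u
    constructor
    · intro hu; exact ⟨hu b, hu (!b)⟩
    · rintro ⟨h1, h2⟩ d
      by_cases hd : d = b
      · rw [hd]; exact h1
      · have : d = !b := by cases b <;> cases d <;> simp_all
        rw [this]; exact h2
  rw [key, key] at hK
  have h1 := na_cv_hit hcol tp hw i b
  have h2 := na_cv_hit hcol tp hw' i b
  rcases hb with ⟨hb1, hb2⟩ | ⟨hb1, hb2⟩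
  · exact ⟨b, hb1, hb2, by tauto, by tauto⟩
  · exact ⟨!b, by tauto, by tauto, by rw [Bool.not_not]; exact hb1, by rw [Bool.not_not]; exact hb2⟩

/-- Nonadjacent vertices of the same kind on three columns have the same trace on one of them. -/
theorem NAs.three (h : NAs G W n x y) {w w' : V} (hw : w ∈ W) (hw' : w' ∈ W)
    (hadj : ¬ G.Adj w w') (hK : ∀ i, na_K G x y w w' i) (f : Fin 3 → Fin n)
    (hf : Function.Injective f) : ∃ e, na_S G x y w w' (f e) := by
  by_contra hcon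
  push Not at hcon
  obtain ⟨b0, p0, q0, r0, s0⟩ := na_diff h.cols h.tp hw hw' (hK _) (hcon 0)
  obtain ⟨b1, p1, q1, r1, s1⟩ := na_diff h.cols h.tp hw hw' (hK _) (hcon 1)
  obtain ⟨b2, p2, q2, r2, s2⟩ := na_diff h.cols h.tp hw hw' (hK _) (hcon 2)
  have h01 : f 0 ≠ f 1 := fun h => absurd (hf h) (by decide)
  have h02 : f 0 ≠ f 2 := fun h => absurd (hf h) (by decide)
  have h12 : f 1 ≠ f 2 := fun h => absurd (hf h) (by decide)
  exact h.cls.pp w' (na_cv x y (f 2) (!b2)) (na_cv x y (f 0) b0) w (na_cv x y (f 1) b1) s2 p0.symm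
    p1 (na_cv_ne h.cols h01 _ _) (na_cv_anti h.cols h01 _ _) q0 (fun h => hadj h.symm) q1
    (na_cv_anti h.cols h02.symm _ _) (fun h => r2 h.symm) (na_cv_anti h.cols h12.symm _ _)

theorem NAs.p3S (h : NAs G W n x y) {w1 w2 w3 : V}
    (hw1 : w1 ∈ W) (hw2 : w2 ∈ W) (hw3 : w3 ∈ W) (h12 : G.Adj w1 w2) (h23 : G.Adj w2 w3)
    (h13 : ¬ G.Adj w1 w3) (j : Fin n) : na_S G x y w1 w3 j := by
  have hK : ∀ i, na_K G x y w1 w3 i := fun i =>
    (h.patK hw1 hw2 h12 i).trans (h.patK hw2 hw3 h23 i)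
  obtain ⟨f, hf, hf2⟩ := h.na' hw1 hw2 h12
  obtain ⟨e, he⟩ := h.three hw1 hw3 h13 hK f hf
  obtain ⟨b, p1, p2⟩ := hf2 e
  have p3 := (he b).1 p1
  by_contra hcon
  have hj : j ≠ f e := by rintro rfl; exact hcon he
  obtain ⟨c, q1, q2, q3, q4⟩ := na_diff h.cols h.tp hw1 hw3 (hK _) hcon
  rcases na_cv_hit h.cols h.tp hw2 j c with h1 | h1
  · exact h.cls.gem w2 (na_cv x y j c) w1 (na_cv x y (f e) b) w3 h1 h12.symm p2 h23 q1.symm p1
      p3.symm (na_cv_anti h.cols hj _ _) (fun h => q2 h.symm) h13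
  · exact h.cls.gem w2 (na_cv x y j (!c)) w3 (na_cv x y (f e) b) w1 h1 h23 p2 h12.symm q4.symm p3
      p1.symm (na_cv_anti h.cols hj _ _) (fun h => q3 h.symm) (fun h => h13 h.symm)

theorem NAs.p3 {W : Set V} {n : ℕ} {x y : Fin n → V} (h : NAs G W n x y) {w1 w2 w3 : V}
    (hw1 : w1 ∈ W) (hw2 : w2 ∈ W) (hw3 : w3 ∈ W) (h12 : G.Adj w1 w2) (h23 : G.Adj w2 w3)
    (h13 : ¬ G.Adj w1 w3) (_hne : w1 ≠ w3) (i : Fin n) :
    (G.Adj w1 (x i) ↔ G.Adj w3 (x i)) ∧ (G.Adj w1 (y i) ↔ G.Adj w3 (y i)) :=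
  ⟨h.p3S hw1 hw2 hw3 h12 h23 h13 i true, h.p3S hw1 hw2 hw3 h12 h23 h13 i false⟩

theorem na_three {n : ℕ} (hn : 12 ≤ n) : ∃ f : Fin 3 → Fin n, Function.Injective f :=
  ⟨Fin.castLE (by omega), Fin.castLE_injective _⟩

theorem NAs.p4 {W : Set V} {n : ℕ} {x y : Fin n → V} (h : NAs G W n x y) : P4F G W := by
  intro w1 h1 w2 h2 w3 h3 w4 h4 h12 h23 h34 n13 n14 n24
  have hK : ∀ i, na_K G x y w1 w4 i := fun i =>
    ((h.patK h1 h2 h12 i).trans (h.patK h2 h3 h23 i)).trans (h.patK h3 h4 h34 i)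
  obtain ⟨f, hf⟩ := na_three h.n12
  obtain ⟨e, he⟩ := h.three h1 h4 n14 hK f hf
  have s13 := h.p3S h1 h2 h3 h12 h23 n13 (f e)
  have s24 := h.p3S h2 h3 h4 h23 h34 n24 (f e)
  obtain ⟨b, hb⟩ : ∃ b, G.Adj w1 (na_cv x y (f e) b) := by
    rcases na_cv_hit h.cols h.tp h1 (f e) true with h | h
    · exact ⟨_, h⟩
    · exact ⟨_, h⟩
  have b4 := (he b).1 hb
  have b3 := (s13 b).1 hb
  have b2 := (s24 b).2 b4
  exact h.cls.gem (na_cv x y (f e) b) w1 w2 w3 w4 hb.symm b2.symm b3.symm b4.symm h12 h23 h34 n13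
    n14 n24

/-- Two vertices of a triangle outside `W` are not both missed by vertices of `W`. -/
theorem NAs.tri (h : NAs G W n x y) {a b c : V} (ha : a ∉ W) (hb : b ∉ W) (hc : c ∉ W)
    (hab : G.Adj a b) (hac : G.Adj a c) (hbc : G.Adj b c) {w w' : V} (hw : w ∈ W) (hw' : w' ∈ W)
    (h1 : ¬ G.Adj w a) (h2 : ¬ G.Adj w' b) : False := by
  by_cases hww : G.Adj w w'
  · obtain ⟨f, hf, hf2⟩ := h.na' hw hw' hww
    obtain ⟨d, hd1, hd2⟩ := hf2 0
    have e1 := (h.tp.hit w' hw' a ha b hb hab).resolve_right h2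
    have e2 := (h.tp.hit w' hw' b hb c hc hbc).resolve_left h2
    refine ThreeP2.d3 h.cls h.tp hw ha hc hww hac h1 e1 e2 hd1 hd2 ?_ ?_
    · intro hda
      have k1 := na_cv_nb h.cols _ _ ha hda.symm
      rw [k1] at hab hac
      have k2 := na_cv_nb h.cols _ _ hb hab.symm
      have k3 := na_cv_nb h.cols _ _ hc hac.symm
      rw [k2, k3] at hbc
      exact G.loopless.irrefl _ hbc
    · intro hdc
      have k1 := na_cv_nb h.cols _ _ hc hdc.symm
      rw [k1] at hac hbc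
      have k2 := na_cv_nb h.cols _ _ ha hac
      have k3 := na_cv_nb h.cols _ _ hb hbc
      rw [k2, k3] at hab
      exact G.loopless.irrefl _ hab
  · exact ThreeP2.d2 h.cls h.tp hw hw' ha hb hc hab hac hbc hww h1 h2

theorem NAs.nobig [Finite V] {W : Set V} {n : ℕ} {x y : Fin n → V} (h : NAs G W n x y) {k : ℕ}
    (hk : CL G Set.univ k) (hcr : Crit G k) {a b c : V} (ha : a ∉ W) (hb : b ∉ W) (hc : c ∉ W)
    (hab : G.Adj a b) (hac : G.Adj a c) (hbc : G.Adj b c) : False := by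
  by_cases h1 : ∀ w ∈ W, G.Adj w a
  · by_cases h2 : ∀ w ∈ W, G.Adj w b
    · exact e2 h.cls h.tp hk hcr a b ha hb hab h1 h2
    · by_cases h3 : ∀ w ∈ W, G.Adj w c
      · exact e2 h.cls h.tp hk hcr a c ha hc hac h1 h3
      · push Not at h2 h3
        obtain ⟨w, hw, hwb⟩ := h2
        obtain ⟨w', hw', hwc⟩ := h3
        exact h.tri hb hc ha hbc hab.symm hac.symm hw hw' hwb hwc
  · push Not at h1
    obtain ⟨w, hw, hwa⟩ := h1
    refine e2 h.cls h.tp hk hcr b c hb hc hbc (fun w' hw' => ?_) (fun w' hw' => ?_)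
    · by_contra hcon
      exact h.tri ha hb hc hab hac hbc hw hw' hwa hcon
    · by_contra hcon
      exact h.tri ha hc hb hac hab hbc.symm hw hw' hwa hcon

/-- Among three pairwise adjacent vertices of `W` two have the same trace: the main step. -/
theorem NAs.odd (h : NAs G W n x y) {w1 w2 w3 : V}
    (hw1 : w1 ∈ W) (hw2 : w2 ∈ W) (hw3 : w3 ∈ W) (h12 : G.Adj w1 w2) (h23 : G.Adj w2 w3)
    (h13 : G.Adj w1 w3) {i j : Fin n} (hi : na_S G x y w1 w2 i) (hi' : ¬ na_S G x y w1 w3 i)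
    (hj : na_S G x y w1 w3 j) (hj' : ¬ na_S G x y w1 w2 j) : False := by
  obtain ⟨b, p1, p2, p3, p4⟩ := na_diff h.cols h.tp hw1 hw3 (h.patK hw1 hw3 h13 i) hi'
  obtain ⟨c, q1, q2, q3, q4⟩ := na_diff h.cols h.tp hw1 hw2 (h.patK hw1 hw2 h12 j) hj'
  have hij : i ≠ j := by rintro rfl; exact hj' hi
  exact h.cls.gem w1 (na_cv x y i b) w2 w3 (na_cv x y j c) p1 h12 h13 q1 ((hi b).1 p1).symm h23
    ((hj c).1 q1) (fun h => p2 h.symm) (na_cv_anti h.cols hij _ _) q2

/-- At each column two of three pairwise adjacent vertices of `W` have the same trace. -/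
theorem NAs.pig (h : NAs G W n x y) {w1 w2 w3 : V}
    (hw1 : w1 ∈ W) (hw2 : w2 ∈ W) (hw3 : w3 ∈ W) (h12 : G.Adj w1 w2) (h23 : G.Adj w2 w3)
    (h13 : G.Adj w1 w3) (i : Fin n) : na_S G x y w1 w2 i ∨ na_S G x y w1 w3 i ∨
      na_S G x y w2 w3 i := by
  by_cases s12 : na_S G x y w1 w2 i
  · exact Or.inl s12
  by_cases s13 : na_S G x y w1 w3 i
  · exact Or.inr (Or.inl s13)
  right; right
  obtain ⟨b, p1, p2, p3, p4⟩ := na_diff h.cols h.tp hw1 hw3 (h.patK hw1 hw3 h13 i) s13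
  obtain ⟨c, q1, q2, q3, q4⟩ := na_diff h.cols h.tp hw1 hw2 (h.patK hw1 hw2 h12 i) s12
  have hbc : b = c := by
    by_contra hne
    have : c = !b := by cases b <;> cases c <;> simp_all
    rw [this] at q1
    exact p3 q1
  subst hbc
  exact h.agree hw2 hw3 h23 q4 p4

theorem NAs.two_traces (h : NAs G W n x y) {w1 w2 w3 : V}
    (hw1 : w1 ∈ W) (hw2 : w2 ∈ W) (hw3 : w3 ∈ W) (h12 : G.Adj w1 w2) (h23 : G.Adj w2 w3)
    (h13 : G.Adj w1 w3) (n12 : ¬ ∀ i, na_S G x y w1 w2 i) (n13 : ¬ ∀ i, na_S G x y w1 w3 i)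
    (n23 : ¬ ∀ i, na_S G x y w2 w3 i) : False := by
  push Not at n12 n13 n23
  obtain ⟨i, hi⟩ := n12
  obtain ⟨j, hj⟩ := n13
  obtain ⟨l, hl⟩ := n23
  have hs : ∀ {u v : V} {i : Fin n}, ¬ na_S G x y u v i → ¬ na_S G x y v u i :=
    fun h h' => h h'.symm
  -- at column `i`: `w1 ≠ w2`, so `w3` agrees with exactly one of them
  have fin : ∀ {u v w : V} {i : Fin n}, ¬ na_S G x y u v i → na_S G x y u w i →
      ¬ na_S G x y v w i := fun h h' h'' => h (h'.trans h''.symm)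
  rcases (h.pig hw1 hw2 hw3 h12 h23 h13 i).resolve_left hi with a | a
  · -- `w2` odd at `i`
    rcases h.pig hw1 hw2 hw3 h12 h23 h13 j with b | b | b
    · -- `w3` odd at `j`
      exact h.odd hw1 hw2 hw3 h12 h23 h13 b hj a hi
    · exact hj b
    · -- `w1` odd at `j`: centre `w3`
      exact h.odd hw3 hw1 hw2 h13.symm h12 h23.symm (i := i) (j := j) a.symm
        (hs (fin hi a)) b.symm (hs hj)
  · -- `w1` odd at `i`
    rcases h.pig hw1 hw2 hw3 h12 h23 h13 l with b | b | b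
    · -- `w3` odd at `l`: centre `w2`
      exact h.odd hw2 hw1 hw3 h12.symm h13 h23 (i := l) (j := i) b.symm hl a (hs hi)
    · -- `w2` odd at `l`: centre `w3`
      exact h.odd hw3 hw1 hw2 h13.symm h12 h23.symm (i := l) (j := i) b.symm (hs hl) a.symm
        (fun h' => hi (h'.symm.trans a.symm))
    · exact hl b

theorem NAs.const {W : Set V} {n : ℕ} {x y : Fin n → V} (h : NAs G W n x y)
    (T : Finset V) (hTW : (T : Set V) ⊆ W) (hT : G.IsClique (T : Set V)) :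
    ∃ f : Fin 3 → Fin n, Function.Injective f ∧ ∀ e, ∀ t ∈ T, ∀ t' ∈ T,
      (G.Adj t (x (f e)) ↔ G.Adj t' (x (f e))) ∧ (G.Adj t (y (f e)) ↔ G.Adj t' (y (f e))) := by
  suffices hs : ∃ f : Fin 3 → Fin n, Function.Injective f ∧ ∀ e, ∀ t ∈ T, ∀ t' ∈ T,
      na_S G x y t t' (f e) by
    obtain ⟨f, hf, hf2⟩ := hs
    exact ⟨f, hf, fun e t ht t' ht' => ⟨hf2 e t ht t' ht' true, hf2 e t ht t' ht' false⟩⟩
  by_cases hall : ∀ t ∈ T, ∀ t' ∈ T, ∀ i, na_S G x y t t' i
  · obtain ⟨f, hf⟩ := na_three h.n12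
    exact ⟨f, hf, fun e t ht t' ht' => hall t ht t' ht' _⟩
  · push Not at hall
    obtain ⟨t1, ht1, t2, ht2, i, hi⟩ := hall
    have hne : t1 ≠ t2 := by rintro rfl; exact hi (fun b => Iff.rfl)
    have hadj : G.Adj t1 t2 := hT ht1 ht2 hne
    obtain ⟨f, hf, hf2⟩ := h.na' (hTW ht1) (hTW ht2) hadj
    have h12 : ∀ e, na_S G x y t1 t2 (f e) := fun e => by
      obtain ⟨b, hb1, hb2⟩ := hf2 e
      exact h.agree (hTW ht1) (hTW ht2) hadj hb1 hb2
    have key : ∀ t ∈ T, ∀ e, na_S G x y t1 t (f e) := by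
      intro t ht e
      by_cases h1 : ∀ i, na_S G x y t1 t i
      · exact h1 _
      by_cases h2 : ∀ i, na_S G x y t2 t i
      · exact (h12 e).trans (h2 _)
      have k1 : t1 ≠ t := by rintro rfl; exact h1 (fun i b => Iff.rfl)
      have k2 : t2 ≠ t := by rintro rfl; exact h2 (fun i b => Iff.rfl)
      exact (h.two_traces (hTW ht1) (hTW ht2) (hTW ht) hadj (hT ht2 ht k2) (hT ht1 ht k1)
        (fun h => hi (h i)) h1 h2).elim
    exact ⟨f, hf, fun e t ht t' ht' => (key t ht e).symm.trans (key t' ht' e)⟩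

end NA

end GP
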