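import Pool.Agent.Work.MP_31af1e_lc.PF
import Pool.Agent.Work.MP_31af1e_lc.W5
import Pool.Agent.Work.MP_31af1e_lc.NA1

/-!
Module NA2: no counterexample in the case where adjacent vertices of `W` have common neighbours.
-/

set_option autoImplicit false

namespace GP

variable {V : Type} {G : SimpleGraph V}

/-- Colours add up. -/
theorem Col.addN2 {s t : Set V} {a b : ℕ} (h1 : Col G s a) (h2 : Col G t b) :
    Col G (s ∪ t) (a + b) := by
  classical
  obtain ⟨c, c1, c2⟩ := h1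
  obtain ⟨d, d1, d2⟩ := h2
  refine ⟨fun v => if v ∈ s then c v else a + d v, ?_, ?_⟩
  · intro v hv
    by_cases hvs : v ∈ s
    · have := c1 v hvs
      simp only [hvs, if_true]; omega
    · have := d1 v (hv.resolve_left hvs)
      simp only [hvs, if_false]; omega
  · intro u hu v hv huv
    by_cases hus : u ∈ s <;> by_cases hvs : v ∈ s
    · simpa [hus, hvs] using c2 u hus v hvs huv
    · have := c1 u hus
      simp only [hus, hvs, if_true, if_false]; omega
    · have := c1 v hvs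
      simp only [hus, hvs, if_true, if_false]; omega
    · have := d2 u (hu.resolve_left hus) v (hv.resolve_left hvs) huv
      simp only [hus, hvs, if_false]; omega

theorem P3F.p4fN2 {s : Set V} (h : P3F G s) : P4F G s :=
  fun a ha b hb c hc _ _ hab hbc hcd hac had _ => hac (h a ha b hb c hc hab hbc (by
    rintro rfl
    exact had hcd))

section
variable {W : Set V} {n : ℕ} {x y : Fin n → V}

/-- Different columns are anticomplete. -/
theorem Cols.antiN2 (h : Cols G W n x y) {i j : Fin n} (hij : i ≠ j) :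
    ¬ G.Adj (x i) (x j) ∧ ¬ G.Adj (x i) (y j) ∧ ¬ G.Adj (y i) (x j) ∧ ¬ G.Adj (y i) (y j) := by
  refine ⟨fun h1 => ?_, fun h1 => ?_, fun h1 => ?_, fun h1 => ?_⟩
  · exact h.xyne i j hij (h.nx j _ (h.xW i) h1)
  · exact h.xx i j hij (h.ny j _ (h.xW i) h1)
  · exact h.yy i j hij (h.nx j _ (h.yW i) h1)
  · exact h.xyne j i hij.symm (h.ny j _ (h.yW i) h1).symm

theorem NAs.swapN2 (h : NAs G W n x y) : NAs G W n y x where
  cls := h.cls
  tp := h.tp
  cols := ⟨h.cols.yW, h.cols.xW, fun i => (h.cols.xy i).symm, h.cols.ny, h.cols.nx, h.cols.yy,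
    fun i j hij he => h.cols.xyne j i hij.symm he.symm, h.cols.xx⟩
  n12 := h.n12
  na := by
    intro w hw w' hw' hadj
    obtain ⟨f, hf, hf'⟩ := h.na w hw w' hw' hadj
    exact ⟨f, hf, fun e => (hf' e).symm⟩

/-- (6) -/
theorem NAs.card_leN [Finite V] (h : NAs G W n x y) {k : ℕ} (hk : CL G Set.univ k)
    (T : Finset V) (hTW : (T : Set V) ⊆ W) (hT : G.IsClique (T : Set V)) (hne : T.Nonempty) :
    T.card + 1 ≤ k := by
  classical
  obtain ⟨f, -, hf⟩ := h.const T hTW hT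
  obtain ⟨t, ht⟩ := hne
  have key : ∀ p : V, p ∉ W → (∀ t' ∈ T, G.Adj t' p) → T.card + 1 ≤ k := by
    intro p hp hadj
    have hpT : p ∉ T := fun h1 => hp (hTW h1)
    have h1 := hk (insert p T) (Set.subset_univ _) (by
      rw [Finset.coe_insert, SimpleGraph.isClique_insert]
      exact ⟨hT, fun b hb _ => (hadj b hb).symm⟩)
    rwa [Finset.card_insert_of_notMem hpT] at h1
  rcases h.tp.hit t (hTW ht) _ (h.cols.xW (f 0)) _ (h.cols.yW (f 0)) (h.cols.xy (f 0)) with h1 | h1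
  · exact key _ (h.cols.xW (f 0)) (fun t' ht' => (hf 0 t' ht' t ht).1.2 h1)
  · exact key _ (h.cols.yW (f 0)) (fun t' ht' => (hf 0 t' ht' t ht).2.2 h1)

/-- (6), cliques with a common neighbour of both ends of a column. -/
theorem NAs.card_le2N (h : NAs G W n x y) {k : ℕ} (hk : CL G Set.univ k)
    (T : Finset V) (hTW : (T : Set V) ⊆ W) (hT : G.IsClique (T : Set V)) {t : V} (ht : t ∈ T)
    (j : Fin n) (h1 : G.Adj t (x j)) (h2 : G.Adj t (y j)) : T.card + 2 ≤ k := by
  classical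
  have hall : ∀ t' ∈ T, G.Adj t' (x j) ∧ G.Adj t' (y j) := by
    intro t' ht'
    by_cases he : t = t'
    · subst he; exact ⟨h1, h2⟩
    · exact (h.pat (hTW ht) (hTW ht') (hT ht ht' he) j).1 ⟨h1, h2⟩
  have hy : y j ∉ T := fun h1 => h.cols.yW j (hTW h1)
  have hx : x j ∉ insert (y j) T := by
    intro h3
    rcases Finset.mem_insert.1 h3 with h3 | h3
    · exact (h.cols.xy j).ne h3
    · exact h.cols.xW j (hTW h3)
  have h3 := hk (insert (x j) (insert (y j) T)) (Set.subset_univ _) (by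
    rw [Finset.coe_insert, Finset.coe_insert, SimpleGraph.isClique_insert,
      SimpleGraph.isClique_insert]
    refine ⟨⟨hT, fun b hb _ => (hall b hb).2.symm⟩, fun b hb _ => ?_⟩
    rcases hb with hb | hb
    · rw [hb]; exact h.cols.xy j
    · exact (hall b hb).1.symm)
  rwa [Finset.card_insert_of_notMem hx, Finset.card_insert_of_notMem hy] at h3

/-- Two nonadjacent vertices of `W` with binary traces do not differ on three columns. -/
theorem NAs.diff3N (h : NAs G W n x y) {t w : V} (hadj : ¬ G.Adj t w)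
    (ht : ∀ j, (G.Adj t (y j) ↔ ¬ G.Adj t (x j))) (hw : ∀ j, (G.Adj w (y j) ↔ ¬ G.Adj w (x j)))
    {i j l : Fin n} (hij : i ≠ j) (hil : i ≠ l) (hjl : j ≠ l)
    (h1 : ¬ (G.Adj t (x i) ↔ G.Adj w (x i))) (h2 : ¬ (G.Adj t (x j) ↔ G.Adj w (x j)))
    (h3 : ¬ (G.Adj t (x l) ↔ G.Adj w (x l))) : False := by
  have sep : ∀ m, ¬ (G.Adj t (x m) ↔ G.Adj w (x m)) →
      (∃ b, (b = x m ∨ b = y m) ∧ G.Adj t b ∧ ¬ G.Adj w b) ∧
      (∃ b, (b = x m ∨ b = y m) ∧ G.Adj w b ∧ ¬ G.Adj t b) := by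
    intro m hm
    by_cases h4 : G.Adj t (x m)
    · have h5 : ¬ G.Adj w (x m) := fun h5 => hm ⟨fun _ => h5, fun _ => h4⟩
      exact ⟨⟨x m, Or.inl rfl, h4, h5⟩, ⟨y m, Or.inr rfl, (hw m).2 h5, fun h6 => (ht m).1 h6 h4⟩⟩
    · have h5 : G.Adj w (x m) := by
        by_contra h5
        exact hm ⟨fun h6 => absurd h6 h4, fun h6 => absurd h6 h5⟩
      exact ⟨⟨y m, Or.inr rfl, (ht m).2 h4, fun h6 => (hw m).1 h6 h5⟩, ⟨x m, Or.inl rfl, h5, h4⟩⟩
  obtain ⟨b, hb, hb1, hb2⟩ := (sep i h1).1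
  obtain ⟨d, hd, hd1, hd2⟩ := (sep j h2).1
  obtain ⟨a, ha, ha1, ha2⟩ := (sep l h3).2
  have anti : ∀ {m m' : Fin n} {p q : V}, m ≠ m' → (p = x m ∨ p = y m) → (q = x m' ∨ q = y m') →
      ¬ G.Adj p q := by
    intro m m' p q hmm hp hq
    obtain ⟨e1, e2, e3, e4⟩ := h.cols.antiN2 hmm
    rcases hp with rfl | rfl <;> rcases hq with rfl | rfl <;> assumption
  refine h.cls.pp w a b t d ha1 hb1.symm hd1 ?_ (anti hij hb hd) hb2 (fun h4 => hadj h4.symm) hd2
    (anti hil.symm ha hb) (fun h4 => ha2 h4.symm) (anti hjl.symm ha hd)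
  rintro rfl
  rcases hb with rfl | rfl <;> rcases hd with he | he
  · exact h.cols.xx i j hij he
  · exact h.cols.xyne i j hij he
  · exact h.cols.xyne j i hij.symm he.symm
  · exact h.cols.yy i j hij he

/-- Only two further columns matter. -/
theorem NAs.two_colsN (h : NAs G W n x y) (T : Finset V) (hT : G.IsClique (T : Set V)) {w : V}
    (hb : ∀ t ∈ T, ∀ j, (G.Adj t (y j) ↔ ¬ G.Adj t (x j)))
    (hw : ∀ j, (G.Adj w (y j) ↔ ¬ G.Adj w (x j)))
    (hne : ∀ t ∈ T, ¬ G.Adj t w) (i : Fin n)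
    (hi : ∀ t ∈ T, ¬ (G.Adj t (x i) ↔ G.Adj w (x i))) :
    ∃ j1 j2 : Fin n, ∀ t ∈ T, ∀ j, j ≠ i → j ≠ j1 → j ≠ j2 →
      (G.Adj t (x j) ↔ G.Adj w (x j)) := by
  by_contra hcon
  push Not at hcon
  obtain ⟨t1, ht1, j1, hj1, -, -, hd1⟩ := hcon i i
  obtain ⟨t2, ht2, j2, hj2, hj21, -, hd2⟩ := hcon j1 j1
  obtain ⟨t3, ht3, j3, hj3, hj31, hj32, hd3⟩ := hcon j1 j2
  replace hd1 : ¬ (G.Adj t1 (x j1) ↔ G.Adj w (x j1)) := by
    rcases hd1 with ⟨a, b⟩ | ⟨a, b⟩ <;> tauto
  replace hd2 : ¬ (G.Adj t2 (x j2) ↔ G.Adj w (x j2)) := by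
    rcases hd2 with ⟨a, b⟩ | ⟨a, b⟩ <;> tauto
  replace hd3 : ¬ (G.Adj t3 (x j3) ↔ G.Adj w (x j3)) := by
    rcases hd3 with ⟨a, b⟩ | ⟨a, b⟩ <;> tauto
  have ag : ∀ t ∈ T, ∀ j l : Fin n, j ≠ i → l ≠ i → j ≠ l → ¬ (G.Adj t (x j) ↔ G.Adj w (x j)) →
      (G.Adj t (x l) ↔ G.Adj w (x l)) := by
    intro t ht j l hj hl hjl hdj
    by_contra hdl
    exact h.diff3N (hne t ht) (hb t ht) hw hj.symm hl.symm hjl (hi t ht) hdj hdl
  have a12 := ag t1 ht1 j1 j2 hj1 hj2 hj21.symm hd1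
  have a13 := ag t1 ht1 j1 j3 hj1 hj3 hj31.symm hd1
  have a21 := ag t2 ht2 j2 j1 hj2 hj1 hj21 hd2
  have a23 := ag t2 ht2 j2 j3 hj2 hj3 hj32.symm hd2
  have a31 := ag t3 ht3 j3 j1 hj3 hj1 hj31 hd3
  have a32 := ag t3 ht3 j3 j2 hj3 hj2 hj32 hd3
  have n12 : t1 ≠ t2 := by rintro rfl; exact hd1 a21
  have n13 : t1 ≠ t3 := by rintro rfl; exact hd1 a31
  have n23 : t2 ≠ t3 := by rintro rfl; exact hd2 a32
  -- a vertex of column `j3` adjacent to `t1`, `t2` and missed by `t3`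
  have e3 : ∃ r, (r = x j3 ∨ r = y j3) ∧ G.Adj t1 r ∧ G.Adj t2 r ∧ ¬ G.Adj t3 r := by
    by_cases h4 : G.Adj w (x j3)
    · exact ⟨x j3, Or.inl rfl, a13.2 h4, a23.2 h4, fun h5 => hd3 ⟨fun _ => h4, fun _ => h5⟩⟩
    · refine ⟨y j3, Or.inr rfl, (hb t1 ht1 j3).2 (fun h5 => h4 (a13.1 h5)),
        (hb t2 ht2 j3).2 (fun h5 => h4 (a23.1 h5)), fun h5 => ?_⟩
      have h6 := (hb t3 ht3 j3).1 h5
      exact hd3 ⟨fun h7 => absurd h7 h6, fun h7 => absurd h7 h4⟩
  have e2 : ∃ r, (r = x j2 ∨ r = y j2) ∧ G.Adj t1 r ∧ G.Adj t3 r ∧ ¬ G.Adj t2 r := by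
    by_cases h4 : G.Adj w (x j2)
    · exact ⟨x j2, Or.inl rfl, a12.2 h4, a32.2 h4, fun h5 => hd2 ⟨fun _ => h4, fun _ => h5⟩⟩
    · refine ⟨y j2, Or.inr rfl, (hb t1 ht1 j2).2 (fun h5 => h4 (a12.1 h5)),
        (hb t3 ht3 j2).2 (fun h5 => h4 (a32.1 h5)), fun h5 => ?_⟩
      have h6 := (hb t2 ht2 j2).1 h5
      exact hd2 ⟨fun h7 => absurd h7 h6, fun h7 => absurd h7 h4⟩
  obtain ⟨r, hr, r1, r2, r3⟩ := e3
  obtain ⟨q, hq, q1, q3, q2⟩ := e2
  have hrq : ¬ G.Adj r q := by
    obtain ⟨e1, e2, e3, e4⟩ := h.cols.antiN2 hj32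
    rcases hr with rfl | rfl <;> rcases hq with rfl | rfl <;> assumption
  exact h.cls.gem t1 r t2 t3 q r1 (hT ht1 ht2 n12) (hT ht1 ht3 n13) q1 r2.symm (hT ht2 ht3 n23) q3
    (fun h5 => r3 h5.symm) hrq q2

theorem NAs.coreN2 [Finite V] (h : NAs G W n x y) {k : ℕ} (h3 : 3 ≤ k) (hk : CL G Set.univ k)
    (hcr : Crit G k) (T : Finset V) (hTW : (T : Set V) ⊆ W) (hT : G.IsClique (T : Set V))
    (hTc : T.card + 1 = k) (i : Fin n) (hy : ∀ t ∈ T, G.Adj t (y i))
    (hx : ∀ t ∈ T, ¬ G.Adj t (x i)) : False := by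
  classical
  have bin : ∀ S : Finset V, (S : Set V) ⊆ W → G.IsClique (S : Set V) → S.card + 1 = k →
      ∀ t ∈ S, ∀ j, (G.Adj t (y j) ↔ ¬ G.Adj t (x j)) := by
    intro S hSW hS hSc t ht j
    constructor
    · intro h1 h2
      have := h.card_le2N hk S hSW hS ht j h2 h1
      omega
    · intro h1
      exact (h.tp.hit t (hSW ht) _ (h.cols.xW j) _ (h.cols.yW j) (h.cols.xy j)).resolve_left h1
  have hb := bin T hTW hT hTc
  have hT1 : 1 < T.card := by omega
  -- the neighbours of `x i` in `W`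
  set T' : Finset V := (Set.toFinite {w | w ∈ W ∧ G.Adj w (x i)}).toFinset with hT'
  have mT' : ∀ w, w ∈ T' ↔ w ∈ W ∧ G.Adj w (x i) := by
    intro w; rw [hT', Set.Finite.mem_toFinset]; rfl
  have hT'W : (T' : Set V) ⊆ W := fun w hw => ((mT' w).1 hw).1
  have hcard : k ≤ T'.card + 1 := by
    obtain ⟨t, htc, ht⟩ := hcr.deg (x i)
    have hsub : t.erase (y i) ⊆ T' := by
      intro u hu
      obtain ⟨hu1, hu2⟩ := Finset.mem_erase.1 hu
      rw [mT']
      refine ⟨?_, (ht u hu2).symm⟩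
      by_contra hW
      exact hu1 (h.cols.nx i u hW (ht u hu2).symm)
    have h1 := Finset.card_le_card hsub
    have h2 := Finset.pred_card_le_card_erase (s := t) (a := y i)
    omega
  -- `T'` is anticomplete to `T`
  have hTT' : ∀ t ∈ T, ∀ w ∈ T', ¬ G.Adj t w := by
    intro t ht w hw htw
    obtain ⟨hwW, hwx⟩ := (mT' w).1 hw
    have hwy : ¬ G.Adj w (y i) := by
      intro hwy
      exact hx t ht ((h.pat hwW (hTW ht) htw.symm i).1 ⟨hwx, hwy⟩).1
    have hwT : w ∉ T := fun h1 => hx w h1 hwx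
    by_cases hall : ∀ t' ∈ T, G.Adj w t'
    · have hcl : G.IsClique ((insert w T : Finset V) : Set V) := by
        rw [Finset.coe_insert, SimpleGraph.isClique_insert]
        exact ⟨hT, fun b hb _ => hall b hb⟩
      have h1 := h.card_leN hk (insert w T) (by
        rw [Finset.coe_insert]
        exact Set.insert_subset hwW hTW) hcl (Finset.insert_nonempty _ _)
      rw [Finset.card_insert_of_notMem hwT] at h1
      omega
    · push Not at hall
      obtain ⟨t', ht', hwt'⟩ := hall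
      have hne : t ≠ t' := by rintro rfl; exact hwt' htw.symm
      have hne' : w ≠ t' := by rintro rfl; exact hwT ht'
      exact hx t' ht' ((h.p3 hwW (hTW ht) (hTW ht') htw.symm (hT ht ht' hne) hwt' hne' i).1.1 hwx)
  -- `T'` is a clique
  have hT'c : G.IsClique (T' : Set V) := by
    intro a ha b hb hne
    by_contra hab
    obtain ⟨t, ht, t', ht', htt⟩ := Finset.one_lt_card.1 hT1
    exact h.cls.pp t t' a (x i) b (hT ht ht' htt) ((mT' a).1 ha).2 ((mT' b).1 hb).2.symm hne hab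
      (hTT' t ht a ha) (hx t ht) (hTT' t ht b hb) (hTT' t' ht' a ha) (hx t' ht') (hTT' t' ht' b hb)
  have hT'ne : T'.Nonempty := by
    rw [← Finset.card_pos]; omega
  have hT'k : T'.card + 1 = k := by
    have := h.card_leN hk T' hT'W hT'c hT'ne
    omega
  have hb' := bin T' hT'W hT'c hT'k
  obtain ⟨w0, hw0⟩ := hT'ne
  obtain ⟨t0, ht0⟩ : T.Nonempty := by rw [← Finset.card_pos]; omega
  obtain ⟨j1, j2, hj⟩ := h.two_colsN T hT hb (hb' w0 hw0) (fun t ht => hTT' t ht w0 hw0) i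
    (fun t ht h1 => hx t ht (h1.2 ((mT' w0).1 hw0).2))
  obtain ⟨j3, j4, hj'⟩ := h.two_colsN T' hT'c hb' (hb t0 ht0)
    (fun t ht h1 => hTT' t0 ht0 t ht h1.symm) i
    (fun t ht h1 => hx t0 ht0 (h1.1 ((mT' t).1 ht).2))
  have hn := h.n12
  obtain ⟨l, hl⟩ : ∃ l : Fin n, l ∉ ({i, j1, j2, j3, j4} : Finset (Fin n)) := by
    by_contra hcon
    push Not at hcon
    have h1 : (Finset.univ : Finset (Fin n)) ⊆ {i, j1, j2, j3, j4} := fun l _ => hcon l
    have h2 := Finset.card_le_card h1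
    have h3 : ({i, j1, j2, j3, j4} : Finset (Fin n)).card ≤ 5 := Finset.card_le_five
    rw [Finset.card_univ, Fintype.card_fin] at h2
    omega
  simp only [Finset.mem_insert, Finset.mem_singleton, not_or] at hl
  obtain ⟨hli, hl1, hl2, hl3, hl4⟩ := hl
  obtain ⟨m, hm⟩ : ∃ m : Fin n, m ∉ ({i, l} : Finset (Fin n)) := by
    by_contra hcon
    push Not at hcon
    have h1 : (Finset.univ : Finset (Fin n)) ⊆ {i, l} := fun l _ => hcon l
    have h2 := Finset.card_le_card h1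
    have h3 : ({i, l} : Finset (Fin n)).card ≤ 2 := Finset.card_le_two
    rw [Finset.card_univ, Fintype.card_fin] at h2
    omega
  simp only [Finset.mem_insert, Finset.mem_singleton, not_or] at hm
  obtain ⟨hmi, hml⟩ := hm
  -- a vertex of column `l` complete to `T` and `T'`
  have key : ∀ a, a ∈ T ∨ a ∈ T' → (G.Adj a (x l) ↔ G.Adj w0 (x l)) := by
    intro a ha
    rcases ha with ha | ha
    · exact hj a ha l hli hl1 hl2
    · rw [hj' a ha l hli hl3 hl4, ← hj' w0 hw0 l hli hl3 hl4]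
  have bina : ∀ a, a ∈ T ∨ a ∈ T' → (G.Adj a (y l) ↔ ¬ G.Adj a (x l)) := by
    intro a ha
    rcases ha with ha | ha
    · exact hb a ha l
    · exact hb' a ha l
  obtain ⟨r, hr, hra⟩ : ∃ r, (r = x l ∨ r = y l) ∧ ∀ a, a ∈ T ∨ a ∈ T' → G.Adj r a := by
    by_cases h4 : G.Adj w0 (x l)
    · exact ⟨x l, Or.inl rfl, fun a ha => ((key a ha).2 h4).symm⟩
    · exact ⟨y l, Or.inr rfl, fun a ha => ((bina a ha).2 (fun h5 => h4 ((key a ha).1 h5))).symm⟩
  have hrW : r ∉ W := by
    rcases hr with rfl | rfl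
    · exact h.cols.xW l
    · exact h.cols.yW l
  have hrx : ¬ G.Adj r (x i) ∧ ¬ G.Adj r (y i) := by
    obtain ⟨e1, e2, e3, e4⟩ := h.cols.antiN2 hli
    rcases hr with rfl | rfl
    · exact ⟨e1, e2⟩
    · exact ⟨e3, e4⟩
  have hrxi : r ≠ x i := by
    rcases hr with rfl | rfl
    · exact h.cols.xx l i hli
    · exact (h.cols.xyne i l (Ne.symm hli)).symm
  have hryi : r ≠ y i := by
    rcases hr with rfl | rfl
    · exact h.cols.xyne l i hli
    · exact h.cols.yy l i hli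
  have hrT : r ∉ T := fun h1 => hrW (hTW h1)
  have hrT' : r ∉ T' := fun h1 => hrW (hT'W h1)
  have hxT : x i ∉ T := fun h1 => h.cols.xW i (hTW h1)
  have hxT' : x i ∉ T' := fun h1 => h.cols.xW i (hT'W h1)
  have hyT : y i ∉ T := fun h1 => h.cols.yW i (hTW h1)
  have hyT' : y i ∉ T' := fun h1 => h.cols.yW i (hT'W h1)
  have hdis : Disjoint T T' := by
    rw [Finset.disjoint_left]
    intro a ha ha'
    exact hx a ha ((mT' a).1 ha').2
  have hxy : G.Adj (x i) (y i) := h.cols.xy i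
  let f : V → ZMod 5 := fun v => if v = r then 0 else if v ∈ T then 1 else if v = y i then 2 else
    if v = x i then 3 else 4
  have fr : f r = 0 := by simp [f]
  have fT : ∀ t ∈ T, f t = 1 := by
    intro t ht
    have : t ≠ r := by rintro rfl; exact hrT ht
    simp [f, this, ht]
  have fy : f (y i) = 2 := by simp [f, hryi.symm, hyT]
  have fx : f (x i) = 3 := by simp [f, hrxi.symm, hxT, hxy.ne]
  have fT' : ∀ t ∈ T', f t = 4 := by
    intro t ht
    have h1 : t ≠ r := by rintro rfl; exact hrT' ht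
    have h2 : t ∉ T := fun h2 => Finset.disjoint_left.1 hdis h2 ht
    have h3 : t ≠ y i := by rintro rfl; exact hyT' ht
    have h4 : t ≠ x i := by rintro rfl; exact hxT' ht
    simp [f, h1, h2, h3, h4]
  set S : Finset V := insert r (insert (x i) (insert (y i) (T ∪ T'))) with hS
  have hScard : S.card = 2 * k + 1 := by
    rw [hS, Finset.card_insert_of_notMem, Finset.card_insert_of_notMem,
      Finset.card_insert_of_notMem, Finset.card_union_of_disjoint hdis]
    · omega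
    · simp [hyT, hyT']
    · simp [hxT, hxT', hxy.ne]
    · simp [hrxi, hryi, hrT, hrT']
  have hfS : ∀ u ∈ (S : Set V), ∀ v ∈ (S : Set V), u ≠ v →
      (G.Adj u v ↔ (f v = f u ∨ f v = f u + 1 ∨ f u = f v + 1)) := by
    have hdec : (0 : ZMod 5) + 1 = 1 := by decide
    intro u hu v hv hne
    rw [hS] at hu hv
    simp only [Finset.coe_insert, Finset.coe_union, Set.mem_insert_iff, Set.mem_union,
      Finset.mem_coe] at hu hv
    rcases hu with rfl | rfl | rfl | hu | hu <;> rcases hv with rfl | rfl | rfl | hv | hv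
    · exact absurd rfl hne
    · rw [fr, fx]; exact iff_of_false hrx.1 (by decide)
    · rw [fr, fy]; exact iff_of_false hrx.2 (by decide)
    · rw [fr, fT v hv]; exact iff_of_true (hra v (Or.inl hv)) (by decide)
    · rw [fr, fT' v hv]; exact iff_of_true (hra v (Or.inr hv)) (by decide)
    · rw [fr, fx]; exact iff_of_false (fun h1 => hrx.1 h1.symm) (by decide)
    · exact absurd rfl hne
    · rw [fx, fy]; exact iff_of_true hxy (by decide)
    · rw [fx, fT v hv]; exact iff_of_false (fun h1 => hx v hv h1.symm) (by decide)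
    · rw [fx, fT' v hv]; exact iff_of_true ((mT' v).1 hv).2.symm (by decide)
    · rw [fr, fy]; exact iff_of_false (fun h1 => hrx.2 h1.symm) (by decide)
    · rw [fx, fy]; exact iff_of_true hxy.symm (by decide)
    · exact absurd rfl hne
    · rw [fy, fT v hv]; exact iff_of_true (hy v hv).symm (by decide)
    · rw [fy, fT' v hv]
      refine iff_of_false (fun h1 => ?_) (by decide)
      exact (hb' v hv i).1 h1.symm ((mT' v).1 hv).2
    · rw [fr, fT u hu]; exact iff_of_true (hra u (Or.inl hu)).symm (by decide)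
    · rw [fx, fT u hu]; exact iff_of_false (hx u hu) (by decide)
    · rw [fy, fT u hu]; exact iff_of_true (hy u hu) (by decide)
    · rw [fT u hu, fT v hv]; exact iff_of_true (hT hu hv hne) (by decide)
    · rw [fT u hu, fT' v hv]; exact iff_of_false (hTT' u hu v hv) (by decide)
    · rw [fr, fT' u hu]; exact iff_of_true (hra u (Or.inr hu)).symm (by decide)
    · rw [fx, fT' u hu]; exact iff_of_true ((mT' u).1 hu).2 (by decide)
    · rw [fy, fT' u hu]
      refine iff_of_false (fun h1 => ?_) (by decide)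
      exact (hb' u hu i).1 h1 ((mT' u).1 hu).2
    · rw [fT' u hu, fT v hv]; exact iff_of_false (fun h1 => hTT' v hv u hu h1.symm) (by decide)
    · rw [fT' u hu, fT' v hv]; exact iff_of_true (hT'c hu hv hne) (by decide)
  have hne : (S : Set V) ≠ Set.univ := by
    intro heq
    have h1 : x m ∈ (S : Set V) := by rw [heq]; trivial
    rw [hS] at h1
    simp only [Finset.coe_insert, Finset.coe_union, Set.mem_insert_iff, Set.mem_union,
      Finset.mem_coe] at h1
    rcases h1 with h1 | h1 | h1 | h1 | h1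
    · rcases hr with rfl | rfl
      · exact h.cols.xx m l hml h1
      · exact h.cols.xyne m l hml h1
    · exact h.cols.xx m i hmi h1
    · exact h.cols.xyne m i hmi h1
    · exact h.cols.xW m (hTW h1)
    · exact h.cols.xW m (hT'W h1)
  have hcol := hcr.2 (S : Set V) hne
  have h5 := w5_card f hfS hcol
  rw [Set.ncard_coe_finset, hScard] at h5
  omega

end

theorem na_case [Finite V] {W : Set V} {n : ℕ} {x y : Fin n → V} (h : NAs G W n x y) {k : ℕ}
    (h3 : 3 ≤ k) (hk : CL G Set.univ k) (hcr : Crit G k) : False := by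
  classical
  by_cases hbig : CL G W (k - 2)
  · apply hcr.1
    have h1 : Col G W (k - 2) := h.p4.col hbig
    have h2 : Col G Wᶜ 2 := by
      refine (P3F.p4fN2 h.tp.p3).col ?_
      intro t ht htc
      by_contra hcon
      push Not at hcon
      obtain ⟨a, b, c, ha, hb, hc, hab, hac, hbc⟩ := Finset.two_lt_card_iff.1 hcon
      exact h.nobig hk hcr (ht ha) (ht hb) (ht hc) (htc ha hb hab) (htc ha hc hac) (htc hb hc hbc)
    have h4 := h1.addN2 h2
    rw [Set.union_compl_self, show k - 2 + 2 = k by omega] at h4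
    exact h4
  · unfold CL at hbig
    push Not at hbig
    obtain ⟨T, hTW, hT, hTc⟩ := hbig
    have hne : T.Nonempty := by rw [← Finset.card_pos]; omega
    have h1 := h.card_leN hk T hTW hT hne
    have hTk : T.card + 1 = k := by omega
    obtain ⟨f, -, hf⟩ := h.const T hTW hT
    obtain ⟨t, ht⟩ := hne
    by_cases hx : G.Adj t (x (f 0))
    · have hy : ¬ G.Adj t (y (f 0)) := by
        intro hy
        have := h.card_le2N hk T hTW hT ht (f 0) hx hy
        omega
      exact h.swapN2.coreN2 h3 hk hcr T hTW hT hTk (f 0) (fun t' ht' => (hf 0 t' ht' t ht).1.2 hx)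
        (fun t' ht' h4 => hy ((hf 0 t' ht' t ht).2.1 h4))
    · have hy : G.Adj t (y (f 0)) :=
        (h.tp.hit t (hTW ht) _ (h.cols.xW (f 0)) _ (h.cols.yW (f 0)) (h.cols.xy (f 0))).resolve_left
          hx
      exact h.coreN2 h3 hk hcr T hTW hT hTk (f 0) (fun t' ht' => (hf 0 t' ht' t ht).2.2 hy)
        (fun t' ht' h4 => hx ((hf 0 t' ht' t ht).1.1 h4))

end GP
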