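import Pool.Agent.Work.MP_31af1e_lc.BA
import Pool.Agent.Work.MP_31af1e_lc.RR

/-!
Module OO: critical graphs without large induced matchings are bounded.
-/

set_option autoImplicit false

namespace GP

variable {V : Type} {G : SimpleGraph V}

/-- A homogeneous sequence of at least `k + m + 8` vertices leads to a contradiction. -/
theorem oo_hom (hG : Cls G) {k m M : ℕ} (hM : M = k + m + 8) (hk : CL G Set.univ k)
    (hm : ¬ IndMatch G m) (w : Fin M → V) (hw : Function.Injective w)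
    (c : V → V → ℕ) (hc1 : ∀ v u, u ≠ v → c v u < k)
    (hc2 : ∀ v u, u ≠ v → ∀ z, z ≠ v → G.Adj u z → c v u ≠ c v z)
    (P : V → ℕ → V) (hP1 : ∀ v i, i < k → G.Adj v (P v i)) (hP2 : ∀ v i, i < k → c v (P v i) = i)
    (α : Prop) (i j : ℕ) (δ ε : ℕ → Prop) (φ : ℕ → ℕ → Prop)
    (h1 : ∀ a b : Fin M, a < b → (G.Adj (w a) (w b) ↔ α))
    (h2 : ∀ a b : Fin M, a < b → c (w a) (w b) = i)
    (h3 : ∀ a b : Fin M, a < b → c (w b) (w a) = j)
    (h4 : ∀ a b : Fin M, a < b → ∀ l < k, (G.Adj (w a) (P (w b) l) ↔ δ l))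
    (h5 : ∀ a b : Fin M, a < b → ∀ l < k, (G.Adj (P (w a) l) (w b) ↔ ε l))
    (h6 : ∀ a b : Fin M, a < b → ∀ l < k, ∀ l' < k,
      (G.Adj (P (w a) l) (P (w b) l') ↔ φ l l')) : False := by
  classical
  -- general: a sequence whose members are pairwise adjacent is short
  have hclique : ∀ x : Fin M → V, (∀ a b, a < b → G.Adj (x a) (x b)) → False := by
    intro x hx
    have hadj : ∀ a b, a ≠ b → G.Adj (x a) (x b) := by
      intro a b hab
      rcases lt_or_gt_of_ne hab with h | h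
      · exact hx a b h
      · exact (hx b a h).symm
    have hinj : Function.Injective x := by
      intro a b hab
      by_contra hne
      exact (hadj a b hne).ne hab
    have := hk (Finset.univ.image x) (Set.subset_univ _) (by
      intro u hu v hv huv
      simp only [Finset.coe_image, Finset.coe_univ, Set.image_univ, Set.mem_range] at hu hv
      obtain ⟨a, rfl⟩ := hu
      obtain ⟨b, rfl⟩ := hv
      exact hadj a b (fun h => huv (by rw [h])))
    rw [Finset.card_image_of_injective _ hinj, Finset.card_univ, Fintype.card_fin] at this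
    omega
  have hα : ¬ α := fun hα => hclique w fun a b hab => (h1 a b hab).2 hα
  have hww : ∀ a b, ¬ G.Adj (w a) (w b) := by
    intro a b hab
    rcases lt_trichotomy a b with h | h | h
    · exact hα ((h1 a b h).1 hab)
    · exact hab.ne (by rw [h])
    · exact hα ((h1 b a h).1 hab.symm)
  -- indices
  have i01 : (⟨0, by omega⟩ : Fin M) < ⟨1, by omega⟩ := by simp [Fin.lt_def]
  have hi : i < k := by
    rw [← h2 _ _ i01]
    exact hc1 _ _ (fun h => by have := hw h; simp at this)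
  have hj : j < k := by
    rw [← h3 _ _ i01]
    exact hc1 _ _ (fun h => by have := hw h; simp at this)
  have hne : ∀ a b : Fin M, a < b → w a ≠ w b := fun a b hab h => hab.ne (hw h)
  -- p a not adjacent to later w b
  have hεi : ¬ ε i := by
    intro h
    have hadj := (h5 _ _ i01 i hi).2 h
    refine hc2 _ _ (hP1 _ i hi).ne' _ (hne _ _ i01).symm hadj ?_
    rw [hP2 _ _ hi, h2 _ _ i01]
  have hδj : ¬ δ j := by
    intro h
    have hadj := (h4 _ _ i01 j hj).2 h
    refine hc2 _ _ (hne _ _ i01) _ (hP1 _ j hj).ne' hadj ?_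
    rw [hP2 _ _ hj, h3 _ _ i01]
  have hφ : ∀ l, l < k → ¬ φ l l := fun l hl h =>
    hclique (fun a => P (w a) l) fun a b hab => (h6 a b hab l hl l hl).2 h
  have hmatch : ∀ l, l < k → ¬ δ l → ¬ ε l → False := by
    intro l hl h7 h8
    apply hm
    have hMm : m ≤ M := by omega
    refine ⟨fun a => w (Fin.castLE hMm a), fun a => P (w (Fin.castLE hMm a)) l,
      fun a => hP1 _ _ hl, ?_⟩
    intro a b hab
    refine ⟨hww _ _, ?_, ?_⟩
    · intro hadj
      rcases lt_or_gt_of_ne hab with h | h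
      · exact h7 ((h4 (Fin.castLE hMm a) (Fin.castLE hMm b) h l hl).1 hadj)
      · exact h8 ((h5 (Fin.castLE hMm b) (Fin.castLE hMm a) h l hl).1 hadj.symm)
    · intro hadj
      rcases lt_or_gt_of_ne hab with h | h
      · exact hφ l hl ((h6 (Fin.castLE hMm a) (Fin.castLE hMm b) h l hl l hl).1 hadj)
      · exact hφ l hl ((h6 (Fin.castLE hMm b) (Fin.castLE hMm a) h l hl l hl).1 hadj.symm)
  have hδi : δ i := by
    by_contra h
    exact hmatch i hi h hεi
  have hεj : ε j := by
    by_contra h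
    exact hmatch j hj hδj h
  -- concrete indices
  have ht : ∀ t : ℕ, t < 8 → t < M := fun t ht => by omega
  set x1 : Fin M := ⟨1, ht 1 (by norm_num)⟩ with hx1
  set x2 : Fin M := ⟨2, ht 2 (by norm_num)⟩ with hx2
  set x3 : Fin M := ⟨3, ht 3 (by norm_num)⟩ with hx3
  set x4 : Fin M := ⟨4, ht 4 (by norm_num)⟩ with hx4
  set x5 : Fin M := ⟨5, ht 5 (by norm_num)⟩ with hx5
  set x6 : Fin M := ⟨6, ht 6 (by norm_num)⟩ with hx6
  have l12 : x1 < x2 := by simp [hx1, hx2, Fin.lt_def]
  have l13 : x1 < x3 := by simp [hx1, hx3, Fin.lt_def]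
  have l15 : x1 < x5 := by simp [hx1, hx5, Fin.lt_def]
  have l23 : x2 < x3 := by simp [hx2, hx3, Fin.lt_def]
  have l24 : x2 < x4 := by simp [hx2, hx4, Fin.lt_def]
  have l25 : x2 < x5 := by simp [hx2, hx5, Fin.lt_def]
  have l34 : x3 < x4 := by simp [hx3, hx4, Fin.lt_def]
  have l35 : x3 < x5 := by simp [hx3, hx5, Fin.lt_def]
  have l36 : x3 < x6 := by simp [hx3, hx6, Fin.lt_def]
  have l56 : x5 < x6 := by simp [hx5, hx6, Fin.lt_def]
  have hij : φ i j := by
    by_contra h
    apply hG.pp (P (w x3) j) (w x4) (w x1) (P (w x2) i) (w x2)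
    · exact (h5 _ _ l34 j hj).2 hεj
    · exact (h4 _ _ l12 i hi).2 hδi
    · exact (hP1 _ i hi).symm
    · exact hne _ _ l12
    · exact hww _ _
    · exact fun h' => hδj ((h4 _ _ l13 j hj).1 h'.symm)
    · exact fun h' => h ((h6 _ _ l23 i hi j hj).1 h'.symm)
    · exact fun h' => hδj ((h4 _ _ l23 j hj).1 h'.symm)
    · exact hww _ _
    · exact fun h' => hεi ((h5 _ _ l24 i hi).1 h'.symm)
    · exact hww _ _
  have hji : φ j i := by
    by_contra h
    apply hG.pp (P (w x3) j) (w x6) (w x1) (P (w x5) i) (w x2)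
    · exact (h5 _ _ l36 j hj).2 hεj
    · exact (h4 _ _ l15 i hi).2 hδi
    · exact ((h4 _ _ l25 i hi).2 hδi).symm
    · exact hne _ _ l12
    · exact hww _ _
    · exact fun h' => hδj ((h4 _ _ l13 j hj).1 h'.symm)
    · exact fun h' => h ((h6 _ _ l35 j hj i hi).1 h')
    · exact fun h' => hδj ((h4 _ _ l23 j hj).1 h'.symm)
    · exact hww _ _
    · exact fun h' => hεi ((h5 _ _ l56 i hi).1 h'.symm)
    · exact hww _ _
  apply hG.gem (P (w x5) i) (w x2) (P (w x2) j) (w x3) (P (w x3) j)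
  · exact ((h4 _ _ l25 i hi).2 hδi).symm
  · exact ((h6 _ _ l25 j hj i hi).2 hji).symm
  · exact ((h4 _ _ l35 i hi).2 hδi).symm
  · exact ((h6 _ _ l35 j hj i hi).2 hji).symm
  · exact hP1 _ j hj
  · exact (h5 _ _ l23 j hj).2 hεj
  · exact hP1 _ j hj
  · exact hww _ _
  · exact fun h' => hδj ((h4 _ _ l23 j hj).1 h')
  · exact fun h' => hφ j hj ((h6 _ _ l23 j hj j hj).1 h')

theorem fin_bound (k m : ℕ) : ∃ N : ℕ, ∀ (V : Type) [Finite V] (G : SimpleGraph V), Cls G →
    Crit G k → CL G Set.univ k → ¬ IndMatch G m → Nat.card V ≤ N := by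
  classical
  obtain ⟨N, hN⟩ := ramsey2 (Prop × Fin (k + 1) × Fin (k + 1) × (Fin k → Prop) × (Fin k → Prop) ×
    (Fin k → Fin k → Prop)) (k + m + 8)
  refine ⟨N, ?_⟩
  intro V _ G hG hcr hk hm
  by_contra hcard
  push Not at hcard
  have hfin : Fintype V := Fintype.ofFinite V
  have hne : Nonempty V := by
    by_contra h
    rw [not_nonempty_iff] at h
    rw [Nat.card_of_isEmpty] at hcard
    omega
  obtain ⟨v⟩ : Nonempty (Fin N ↪ V) := by
    apply Function.Embedding.nonempty_of_card_le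
    rw [Fintype.card_fin, ← Nat.card_eq_fintype_card]
    omega
  choose c hc1 hc2 using fun v => hcr.del v
  choose! P hP using fun v i (hi : i < k) => hcr.full v (c v) (hc1 v) (hc2 v) i hi
  obtain ⟨f, κ, hf, hκ⟩ := hN fun a b =>
    (G.Adj (v a) (v b), Fin.ofNat (k + 1) (c (v a) (v b)), Fin.ofNat (k + 1) (c (v b) (v a)),
      fun l => G.Adj (v a) (P (v b) l), fun l => G.Adj (P (v a) l) (v b),
      fun l l' => G.Adj (P (v a) l) (P (v b) l'))
  obtain ⟨α, i, j, δ, ε, φ⟩ := κ
  simp only [Prod.mk.injEq] at hκ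
  have hinj : Function.Injective (fun a => v (f a)) := v.injective.comp hf.injective
  have hlt : ∀ a b, a < b → c (v (f a)) (v (f b)) < k + 1 := fun a b hab =>
    (hc1 _ _ (fun h => hab.ne (hinj h).symm)).trans (Nat.lt_succ_self k)
  have hlt' : ∀ a b, a < b → c (v (f b)) (v (f a)) < k + 1 := fun a b hab =>
    (hc1 _ _ (fun h => hab.ne (hinj h))).trans (Nat.lt_succ_self k)
  refine oo_hom (M := k + m + 8) hG rfl hk hm (fun a => v (f a)) hinj c hc1 hc2 P
    (fun v i hi => (hP v i hi).1) (fun v i hi => (hP v i hi).2) α i j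
    (fun l => if h : l < k then δ ⟨l, h⟩ else False)
    (fun l => if h : l < k then ε ⟨l, h⟩ else False)
    (fun l l' => if h : l < k ∧ l' < k then φ ⟨l, h.1⟩ ⟨l', h.2⟩ else False) ?_ ?_ ?_ ?_ ?_ ?_
  · intro a b hab
    rw [(hκ a b hab).1]
  · intro a b hab
    have := congrArg Fin.val (hκ a b hab).2.1
    rw [Fin.ofNat_eq_cast, Fin.val_natCast, Nat.mod_eq_of_lt (hlt a b hab)] at this
    exact this
  · intro a b hab
    have := congrArg Fin.val (hκ a b hab).2.2.1
    rw [Fin.ofNat_eq_cast, Fin.val_natCast, Nat.mod_eq_of_lt (hlt' a b hab)] at this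
    exact this
  · intro a b hab l hl
    have := congrFun (hκ a b hab).2.2.2.1 ⟨l, hl⟩
    simp only [hl, dif_pos]
    rw [← this]
  · intro a b hab l hl
    have := congrFun (hκ a b hab).2.2.2.2.1 ⟨l, hl⟩
    simp only [hl, dif_pos]
    rw [← this]
  · intro a b hab l hl l' hl'
    have := congrFun (congrFun (hκ a b hab).2.2.2.2.2 ⟨l, hl⟩) ⟨l', hl'⟩
    simp only [hl, hl', and_self, dif_pos]
    rw [← this]

end GP
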