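import Pool.Agent.Work.MP_31af1e_lc.AP1

/-!
Module RE: reindexing the columns.
-/

set_option autoImplicit false

namespace GP

variable {V : Type} {G : SimpleGraph V}

theorem re_good {N : ℕ} (P : Fin N → Prop) {n : ℕ} (hN : N = n + 2)
    (hna : ¬ ∃ f : Fin 3 → Fin N, Function.Injective f ∧ ∀ e, P (f e)) :
    ∃ g : Fin n → Fin N, Function.Injective g ∧ ∀ i, ¬ P (g i) := by
  classical
  have h1 : (Finset.univ.filter P).card ≤ 2 := by
    by_contra hcon
    push Not at hcon
    apply hna
    obtain ⟨t, ht, htc⟩ := Finset.exists_subset_card_eq (show 3 ≤ (Finset.univ.filter P).card by omega)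
    refine ⟨fun e => (t.equivFinOfCardEq htc).symm e, ?_, ?_⟩
    · intro a b hab
      exact (t.equivFinOfCardEq htc).symm.injective (Subtype.ext hab)
    · intro e
      have := ht ((t.equivFinOfCardEq htc).symm e).2
      exact (Finset.mem_filter.1 this).2
  have h2 : n ≤ (Finset.univ.filter (fun i => ¬ P i)).card := by
    have := Finset.card_filter_add_card_filter_not (s := (Finset.univ : Finset (Fin N))) P
    simp only [Finset.card_univ, Fintype.card_fin] at this
    omega
  obtain ⟨t, ht, htc⟩ := Finset.exists_subset_card_eq h2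
  refine ⟨fun e => (t.equivFinOfCardEq htc).symm e, ?_, ?_⟩
  · intro a b hab
    exact (t.equivFinOfCardEq htc).symm.injective (Subtype.ext hab)
  · intro e
    have := ht ((t.equivFinOfCardEq htc).symm e).2
    exact (Finset.mem_filter.1 this).2

theorem ap_reindex [Finite V] {W : Set V} {n : ℕ} {x y : Fin (n + 2) → V}
    (hc : Cls G) (tp : ThreeP2 G W) (hcol : Cols G W (n + 2) x y) (hn : 12 ≤ n) {w w' : V}
    (hw : w ∈ W) (hw' : w' ∈ W) (hadj : G.Adj w w')
    (hna : ¬ ∃ f : Fin 3 → Fin (n + 2), Function.Injective f ∧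
      ∀ e, (G.Adj w (x (f e)) ∧ G.Adj w' (x (f e))) ∨ (G.Adj w (y (f e)) ∧ G.Adj w' (y (f e)))) :
    ∃ x' y' : Fin n → V, APs G W n x' y' w w' := by
  classical
  obtain ⟨g, hg, hgP⟩ := re_good
    (fun i => (G.Adj w (x i) ∧ G.Adj w' (x i)) ∨ (G.Adj w (y i) ∧ G.Adj w' (y i))) rfl hna
  have h1 : ∀ i, G.Adj w (x i) ∨ G.Adj w (y i) := fun i =>
    tp.hit w hw _ (hcol.xW i) _ (hcol.yW i) (hcol.xy i)
  have h2 : ∀ i, G.Adj w' (x i) ∨ G.Adj w' (y i) := fun i =>
    tp.hit w' hw' _ (hcol.xW i) _ (hcol.yW i) (hcol.xy i)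
  have key : ∀ i, (G.Adj w (x (g i)) ∧ ¬ G.Adj w (y (g i)) ∧ G.Adj w' (y (g i)) ∧
      ¬ G.Adj w' (x (g i))) ∨ (¬ G.Adj w (x (g i)) ∧ G.Adj w (y (g i)) ∧ ¬ G.Adj w' (y (g i)) ∧
      G.Adj w' (x (g i))) := by
    intro i
    have a1 := h1 (g i)
    have a2 := h2 (g i)
    have a3 := hgP i

    tauto
  refine ⟨fun i => if G.Adj w (x (g i)) then x (g i) else y (g i),
    fun i => if G.Adj w (x (g i)) then y (g i) else x (g i), hc, tp, ?_, hn, hw, hw', hadj, ?_, ?_⟩
  · refine ⟨?_, ?_, ?_, ?_, ?_, ?_, ?_, ?_⟩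
    · intro i

      split_ifs
      · exact hcol.xW _
      · exact hcol.yW _
    · intro i

      split_ifs
      · exact hcol.yW _
      · exact hcol.xW _
    · intro i

      split_ifs
      · exact hcol.xy _
      · exact (hcol.xy _).symm
    · intro i z hz h

      split_ifs at h ⊢
      · exact hcol.nx _ z hz h
      · exact hcol.ny _ z hz h
    · intro i z hz h

      split_ifs at h ⊢
      · exact hcol.ny _ z hz h
      · exact hcol.nx _ z hz h
    · intro i j hij
      have hij' : g i ≠ g j := fun h => hij (hg h)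

      split_ifs
      · exact hcol.xx _ _ hij'
      · exact hcol.xyne _ _ hij'
      · exact (hcol.xyne _ _ hij'.symm).symm
      · exact hcol.yy _ _ hij'
    · intro i j hij
      have hij' : g i ≠ g j := fun h => hij (hg h)

      split_ifs
      · exact hcol.xyne _ _ hij'
      · exact hcol.xx _ _ hij'
      · exact hcol.yy _ _ hij'
      · exact (hcol.xyne _ _ hij'.symm).symm
    · intro i j hij
      have hij' : g i ≠ g j := fun h => hij (hg h)

      split_ifs
      · exact hcol.yy _ _ hij'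
      · exact (hcol.xyne _ _ hij'.symm).symm
      · exact hcol.xyne _ _ hij'
      · exact hcol.xx _ _ hij'
  · intro i

    rcases key i with ⟨a, b, c, d⟩ | ⟨a, b, c, d⟩
    · simp only [if_pos a]; exact ⟨a, b⟩
    · simp only [if_neg a]; exact ⟨b, a⟩
  · intro i

    rcases key i with ⟨a, b, c, d⟩ | ⟨a, b, c, d⟩
    · simp only [if_pos a]; exact ⟨c, d⟩
    · simp only [if_neg a]; exact ⟨d, c⟩

end GP
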