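import Pool.Agent.Work.MP_31af1e_lc.W5
import Pool.Agent.Work.MP_31af1e_lc.C5B

/-!
Module SK: critical graphs with `k ≤ 2`.
-/

set_option autoImplicit false

namespace GP

variable {V : Type} {G : SimpleGraph V}

/-- A cliques with three vertices. -/
theorem sk_tri (hk : CL G Set.univ 2) {a b c : V} (hab : G.Adj a b) (hac : G.Adj a c)
    (hbc : G.Adj b c) : False := by
  classical
  have h := hk {a, b, c} (Set.subset_univ _) (by
    intro x hx y hy hxy
    simp only [Finset.coe_insert, Finset.coe_singleton, Set.mem_insert_iff,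
      Set.mem_singleton_iff] at hx hy
    rcases hx with rfl | rfl | rfl <;> rcases hy with rfl | rfl | rfl
    · exact absurd rfl hxy
    · exact hab
    · exact hac
    · exact hab.symm
    · exact absurd rfl hxy
    · exact hbc
    · exact hac.symm
    · exact hbc.symm
    · exact absurd rfl hxy)
  rw [Finset.card_eq_three.2 ⟨a, b, c, hab.ne, hac.ne, hbc.ne, rfl⟩] at h
  omega

/-- An induced 5-cycle in a 3-vertex-critical graph is everything. -/
theorem sk_c5 [Finite V] (hcr : Crit G 2) {q0 q1 q2 q3 q4 : V} (h01 : G.Adj q0 q1)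
    (h12 : G.Adj q1 q2) (h23 : G.Adj q2 q3) (h34 : G.Adj q3 q4) (h40 : G.Adj q4 q0)
    (n02 : ¬ G.Adj q0 q2) (n13 : ¬ G.Adj q1 q3) (n24 : ¬ G.Adj q2 q4) (n30 : ¬ G.Adj q3 q0)
    (n41 : ¬ G.Adj q4 q1) : C5E G Set.univ := by
  classical
  set s : Set V := {q0, q1, q2, q3, q4} with hs
  have hC : C5E G s := by
    refine c5e_of_bags (B0 := {q0}) (B1 := {q1}) (B2 := {q2}) (B3 := {q3}) (B4 := {q4})
      ?_ ⟨q0, by simp [hs], rfl⟩ ⟨q1, by simp [hs], rfl⟩ ⟨q2, by simp [hs], rfl⟩
      ⟨q3, by simp [hs], rfl⟩ ⟨q4, by simp [hs], rfl⟩ (by simp) (by simp) (by simp) (by simp)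
      (by simp) ?_ ?_ ?_ ?_ ?_ ?_ ?_ ?_ ?_ ?_
    · intro v hv
      simpa [hs] using hv
    all_goals
      intro u hu v hv
      rw [Set.mem_singleton_iff] at hu hv
      subst hu
      subst hv
      assumption
  have hne02 : q0 ≠ q2 := by rintro rfl; exact n30 h23.symm
  have hne13 : q1 ≠ q3 := by rintro rfl; exact n41 h34.symm
  have hne24 : q2 ≠ q4 := by rintro rfl; exact n02 h40.symm
  have hne03 : q0 ≠ q3 := by rintro rfl; exact n02 h23.symm
  have hne14 : q1 ≠ q4 := by rintro rfl; exact n13 h34.symm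
  have hcard : s.ncard = 5 := by
    have h1 : s = (({q0, q1, q2, q3, q4} : Finset V) : Set V) := by
      simp [hs]
    rw [h1, Set.ncard_coe_finset]
    rw [Finset.card_insert_of_notMem, Finset.card_insert_of_notMem, Finset.card_insert_of_notMem,
      Finset.card_insert_of_notMem, Finset.card_singleton]
    · simp [h34.ne]
    · simp [h23.ne, hne24]
    · simp [h12.ne, hne13, hne14]
    · simp [h01.ne, hne02, hne03, h40.ne']
  obtain ⟨f, -, hf⟩ := id hC
  by_cases hu : s = Set.univ
  · rw [← hu]; exact hC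
  · have := w5_card f hf (hcr.2 s hu)
    omega

/-- Extension of a partial 2-colouring of a graph in which all degrees are at most one. -/
theorem sk_match [Finite V] (Z : Set V) (hZ : ∀ u ∈ Z, ∀ v ∈ Z, ∀ w ∈ Z, G.Adj u v → G.Adj u w → v = w)
    (g : V → Option Bool) (hg : ∀ u ∈ Z, ∀ v ∈ Z, G.Adj u v → ∀ x, g u = some x → g v = some x → False) :
    ∃ c : V → Bool, (∀ u x, g u = some x → c u = x) ∧ ∀ u ∈ Z, ∀ v ∈ Z, G.Adj u v → c u ≠ c v := by
  classical
  obtain ⟨o, ho⟩ := Countable.exists_injective_nat V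
  set m : V → V := fun u => if h : ∃ v ∈ Z, G.Adj u v then h.choose else u with hm
  have hm1 : ∀ u ∈ Z, ∀ v ∈ Z, G.Adj u v → m u = v := by
    intro u hu v hv huv
    have h : ∃ v ∈ Z, G.Adj u v := ⟨v, hv, huv⟩
    have h1 : m u = h.choose := by simp only [hm]; rw [dif_pos h]
    rw [h1]
    exact hZ u hu _ h.choose_spec.1 v hv h.choose_spec.2 huv
  refine ⟨fun u => match g u with
    | some x => x
    | none => match g (m u) with
      | some y => !y
      | none => decide (o (m u) < o u), ?_, ?_⟩
  · intro u x hx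
    simp only [hx]
  · intro u hu v hv huv
    have e1 := hm1 u hu v hv huv
    have e2 := hm1 v hv u hu huv.symm
    have e3 := hg u hu v hv huv
    simp only [e1, e2]
    rcases hgu : g u with _ | x <;> rcases hgv : g v with _ | y <;> simp only
    · intro he
      have hne : o u ≠ o v := fun h => huv.ne (ho h)
      rw [decide_eq_decide] at he
      omega
    · cases y <;> simp
    · cases x <;> simp
    · intro he
      subst he
      exact e3 x hgu hgv

theorem small_k [Finite V] (hc : Cls G) {k : ℕ} (hk : CL G Set.univ k) (hcr : Crit G k)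
    (h2 : k ≤ 2) : C5E G Set.univ := by
  classical
  -- there is an edge
  have hedge : ∃ a b, G.Adj a b := by
    by_contra hcon
    push Not at hcon
    apply hcr.1
    refine ⟨fun _ => 0, ?_, fun u _ v _ huv => absurd huv (hcon u v)⟩
    intro v _
    exact Crit.k_pos hk v
  obtain ⟨a, b, hab⟩ := hedge
  have hk2 : 2 ≤ k := by
    have := hk {a, b} (Set.subset_univ _) (by
      intro x hx y hy hxy
      simp only [Finset.coe_insert, Finset.coe_singleton, Set.mem_insert_iff,
        Set.mem_singleton_iff] at hx hy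
      rcases hx with rfl | rfl <;> rcases hy with rfl | rfl
      · exact absurd rfl hxy
      · exact hab
      · exact hab.symm
      · exact absurd rfl hxy)
    rwa [Finset.card_pair hab.ne] at this
  obtain rfl : k = 2 := by omega
  have tri : ∀ {x y z : V}, G.Adj x y → G.Adj x z → G.Adj y z → False :=
    fun h1 h2 h3 => sk_tri hk h1 h2 h3
  by_contra hno
  have c5 : ∀ {q0 q1 q2 q3 q4 : V}, G.Adj q0 q1 → G.Adj q1 q2 → G.Adj q2 q3 → G.Adj q3 q4 →
      G.Adj q4 q0 → ¬ G.Adj q0 q2 → ¬ G.Adj q1 q3 → ¬ G.Adj q2 q4 → ¬ G.Adj q3 q0 →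
      ¬ G.Adj q4 q1 → False := by
    intro q0 q1 q2 q3 q4 h01 h12 h23 h34 h40 n02 n13 n24 n30 n41
    exact hno (sk_c5 hcr h01 h12 h23 h34 h40 n02 n13 n24 n30 n41)
  set Z : Set V := {u | ¬ G.Adj a u ∧ ¬ G.Adj b u} with hZdef
  have hP3 : P3F G Z := hc.pp.far hab
  have hZ : ∀ u ∈ Z, ∀ v ∈ Z, ∀ w ∈ Z, G.Adj u v → G.Adj u w → v = w := by
    intro u hu v hv w hw huv huw
    by_contra hne
    exact tri huv huw (hP3 v hv u hu w hw huv.symm huw hne)
  set hA : V → Prop := fun z => ∃ p, G.Adj a p ∧ G.Adj z p with hAdef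
  set hB : V → Prop := fun z => ∃ r, G.Adj b r ∧ G.Adj z r with hBdef
  -- a vertex of `Z` does not have neighbours on both sides
  have hAB : ∀ z ∈ Z, hA z → hB z → False := by
    rintro z ⟨hza, hzb⟩ ⟨p, hap, hzp⟩ ⟨r, hbr, hzr⟩
    by_cases hpr : G.Adj p r
    · exact tri hzp hzr hpr
    · exact c5 hzp hap.symm hab hbr hzr.symm (fun h => hza h.symm)
        (fun h => tri hab hap h.symm) (fun h => tri hab h hbr) (fun h => hzb h)
        (fun h => hpr h.symm)
  -- adjacent vertices of `Z` do not both have neighbours on the same side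
  have same : ∀ x : V, (∀ z ∈ Z, ¬ G.Adj x z) → ∀ z ∈ Z, ∀ z' ∈ Z, G.Adj z z' →
      (∃ p, G.Adj x p ∧ G.Adj z p) → (∃ p, G.Adj x p ∧ G.Adj z' p) → False := by
    rintro x hx z hz z' hz' hzz ⟨p, hxp, hzp⟩ ⟨p', hxp', hzp'⟩
    exact c5 hzp hxp.symm hxp' hzp'.symm hzz.symm (fun h => hx z hz h.symm)
      (fun h => tri hxp hxp' h) (fun h => hx z' hz' h) (fun h => tri hzz h.symm hzp')
      (fun h => tri hzz hzp h)
  set g : V → Option Bool := fun z => if hA z then some true else if hB z then some false else none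
    with hg
  obtain ⟨c, hc1, hc2⟩ := sk_match Z hZ g (by
    intro u hu v hv huv x hgu hgv
    by_cases h1 : hA u
    · have e1 : x = true := by simpa [hg, h1] using hgu.symm
      by_cases h3 : hA v
      · exact same a (fun z hz => hz.1) u hu v hv huv h1 h3
      · rw [e1] at hgv
        by_cases h4 : hB v <;> simp [hg, h3, h4] at hgv
    · by_cases h2 : hB u
      · have e1 : x = false := by simpa [hg, h1, h2] using hgu.symm
        by_cases h3 : hA v
        · rw [e1] at hgv
          simp [hg, h3] at hgv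
        · by_cases h4 : hB v
          · exact same b (fun z hz => hz.2) u hu v hv huv h2 h4
          · simp [hg, h3, h4] at hgv
      · simp [hg, h1, h2] at hgu)
  have cA : ∀ z ∈ Z, hA z → c z = true := by
    intro z _ h
    exact hc1 z true (by simp [hg, h])
  have cB : ∀ z ∈ Z, hB z → c z = false := by
    intro z hz h
    have h' : ¬ hA z := fun h' => hAB z hz h' h
    exact hc1 z false (by simp [hg, h, h'])
  apply hcr.1
  set col : V → ℕ := fun v => if G.Adj a v then 0 else if G.Adj b v then 1 else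
    if c v = true then 1 else 0 with hcol
  have k1 : ∀ v, G.Adj a v → col v = 0 := fun v h => by simp [hcol, h]
  have k2 : ∀ v, G.Adj b v → col v = 1 := fun v h => by
    have h' : ¬ G.Adj a v := fun h' => tri hab h' h
    simp [hcol, h, h']
  have k3 : ∀ v, ¬ G.Adj a v → ¬ G.Adj b v → col v = if c v = true then 1 else 0 := by
    intro v h1 h2
    simp [hcol, h1, h2]
  have key : ∀ u v, G.Adj u v → (G.Adj a u → col u ≠ col v) ∧ (G.Adj b u → col u ≠ col v) := by
    intro u v huv
    constructor
    · intro hau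
      rw [k1 u hau]
      by_cases hav : G.Adj a v
      · exact (tri hau hav huv).elim
      · by_cases hbv : G.Adj b v
        · rw [k2 v hbv]; decide
        · rw [k3 v hav hbv, cA v ⟨hav, hbv⟩ ⟨u, hau, huv.symm⟩]
          decide
    · intro hbu
      rw [k2 u hbu]
      by_cases hav : G.Adj a v
      · rw [k1 v hav]; decide
      · by_cases hbv : G.Adj b v
        · exact (tri hbu hbv huv).elim
        · rw [k3 v hav hbv, cB v ⟨hav, hbv⟩ ⟨u, hbu, huv.symm⟩]
          decide
  refine ⟨col, ?_, ?_⟩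
  · intro v _
    simp only [hcol]
    split_ifs <;> omega
  · intro u _ v _ huv
    by_cases hau : G.Adj a u
    · exact (key u v huv).1 hau
    by_cases hbu : G.Adj b u
    · exact (key u v huv).2 hbu
    by_cases hav : G.Adj a v
    · exact ((key v u huv.symm).1 hav).symm
    by_cases hbv : G.Adj b v
    · exact ((key v u huv.symm).2 hbv).symm
    rw [k3 u hau hbu, k3 v hav hbv]
    have := hc2 u ⟨hau, hbu⟩ v ⟨hav, hbv⟩ huv
    cases hcu : c u <;> cases hcv : c v
    · exact absurd (hcu.trans hcv.symm) this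
    · decide
    · decide
    · exact absurd (hcu.trans hcv.symm) this

end GP
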