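import Pool.Agent.Work.MP_31af1e_lc.MC
import Pool.Agent.Work.MP_31af1e_lc.GA
import Pool.Agent.Work.MP_31af1e_lc.GB
import Pool.Agent.Work.MP_31af1e_lc.GC
import Pool.Agent.Work.MP_31af1e_lc.LB
import Pool.Agent.Work.MP_31af1e_lc.SK
import Pool.Agent.Work.MP_31af1e_lc.OO
import Pool.Agent.Work.MP_31af1e_lc.N0
import Pool.Agent.Work.MP_31af1e_lc.NA2
import Pool.Agent.Work.MP_31af1e_lc.AP2
import Pool.Agent.Work.MP_31af1e_lc.AP4
import Pool.Agent.Work.MP_31af1e_lc.RE

/-!
Assembly: the certificate theorem.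
-/

set_option autoImplicit false

namespace GP

variable {V : Type} {G : SimpleGraph V}

theorem g_main [Finite V] {q u : V} (h : TS G q u) {k : ℕ} (hk : CL G Set.univ k) (hcr : Crit G k)
    (T T' : Finset V) (hT : T.card = 4) (hT' : T'.card = 4)
    (hTu : ∀ v ∈ T, v ∈ NN G u ∧ ∀ w ∈ NN G q, ¬ G.Adj v w)
    (hTq : ∀ v ∈ T', v ∈ NN G q ∧ ∀ w ∈ NN G u, ¬ G.Adj v w) : C5E G Set.univ := by
  by_cases hB : G.IsClique (BB G q u)
  · exact g_one h hk hcr hB
  · exfalso
    have h1 : ∃ b ∈ BB G q u, ∃ c ∈ BB G q u, b ≠ c ∧ ¬ G.Adj b c := by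
      by_contra hcon
      push Not at hcon
      exact hB fun b hb c hc hne => hcon b hb c hc hne
    obtain ⟨b, hb, c, hc, hne, hbc⟩ := h1
    by_cases hs : ∀ b ∈ BB G q u, ∀ b' ∈ BB G q u, ¬ G.Adj b b'
    · exact g_sing h hk hcr hs hb hc hne T T' hT hT' hTu hTq
    · push Not at hs
      obtain ⟨p, hp, p', hp', hpp⟩ := hs
      by_cases hpb : p = b
      · subst hpb
        exact g_big h hk hcr hp hp' hc hpp hbc hne
      · by_cases hadj : G.Adj p b
        · exact g_big h hk hcr hb hp hc hadj.symm hbc hne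
        · exact g_big h hk hcr hp hp' hb hpp hadj hpb

theorem Twin.symm {a b : V} (h : Twin G a b) : Twin G b a :=
  ⟨h.1.symm, fun z h1 h2 => (h.2 z h2 h1).symm⟩

theorem Twin.trans {a b c : V} (h : Twin G a b) (h' : Twin G b c) (hac : a ≠ c) : Twin G a c := by
  have hadj : G.Adj a c := by
    have := (h'.2 a h.1.ne hac).1 h.1
    exact this
  refine ⟨hadj, fun z h1 h2 => ?_⟩
  by_cases hz : z = b
  · subst hz
    exact ⟨fun _ => h'.1, fun _ => h.1.symm⟩
  · exact (h.2 z h1 hz).trans (h'.2 z hz h2)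

/-- A large clique contains a large set of twins. -/
theorem twins_of_clique {R : ℕ} (hR : ∀ t : Finset V, G.IsClique (t : Set V) →
      (∀ a ∈ t, ∀ b ∈ t, a ≠ b → ¬ Twin G a b) → t.card ≤ R)
    (m : ℕ) (t : Finset V) (ht : G.IsClique (t : Set V)) (hc : R * m < t.card) :
    ∃ q ∈ t, ∃ T : Finset V, T ⊆ t ∧ q ∈ T ∧ m < T.card ∧ ∀ v ∈ T, v ≠ q → Twin G q v := by
  classical
  let r : Setoid V := ⟨fun a b => a = b ∨ Twin G a b, fun a => Or.inl rfl, by
    rintro a b (h | h)
    · exact Or.inl h.symm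
    · exact Or.inr h.symm, by
    rintro a b c (h | h) (h' | h')
    · exact Or.inl (h.trans h')
    · subst h; exact Or.inr h'
    · subst h'; exact Or.inr h
    · by_cases hac : a = c
      · exact Or.inl hac
      · exact Or.inr (h.trans h' hac)⟩
  let f : V → Quotient r := fun v => Quotient.mk r v
  have hVne : Nonempty V := by
    obtain ⟨v, -⟩ := Finset.card_pos.1 (lt_of_le_of_lt (Nat.zero_le _) hc)
    exact ⟨v⟩
  have himg : (t.image f).card ≤ R := by
    choose! g hg using fun (c : Quotient r) (hc : c ∈ t.image f) => Finset.mem_image.1 hc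
    have h1 : ((t.image f).image g).card = (t.image f).card := by
      apply Finset.card_image_of_injOn
      intro c hc d hd hcd
      rw [← (hg c hc).2, ← (hg d hd).2, hcd]
    rw [← h1]
    apply hR
    · intro a ha b hb hab
      obtain ⟨c, hc, rfl⟩ := Finset.mem_image.1 (Finset.mem_coe.1 ha)
      obtain ⟨d, hd, rfl⟩ := Finset.mem_image.1 (Finset.mem_coe.1 hb)
      exact ht (hg c hc).1 (hg d hd).1 hab
    · intro a ha b hb hab htw
      obtain ⟨c, hc, rfl⟩ := Finset.mem_image.1 ha
      obtain ⟨d, hd, rfl⟩ := Finset.mem_image.1 hb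
      apply hab
      have : f (g c) = f (g d) := Quotient.sound (Or.inr htw)
      rw [(hg c hc).2, (hg d hd).2] at this
      rw [this]
  obtain ⟨c, hc, hlt⟩ := Finset.exists_lt_card_fiber_of_mul_lt_card_of_maps_to
    (s := t) (t := t.image f) (f := f) (n := m) (fun a ha => Finset.mem_image_of_mem f ha)
    (lt_of_le_of_lt (Nat.mul_le_mul_right m himg) hc)
  obtain ⟨q, hq, hqc⟩ := Finset.mem_image.1 hc
  refine ⟨q, hq, t.filter (fun x => f x = c), Finset.filter_subset _ _,
    Finset.mem_filter.2 ⟨hq, hqc⟩, hlt, ?_⟩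
  intro v hv hvq
  have h1 : f q = f v := by rw [hqc, (Finset.mem_filter.1 hv).2]
  rcases Quotient.exact h1 with h | h
  · exact absurd h.symm hvq
  · exact h

/-- In a critical graph with a large clique: a clique expansion of the 5-cycle. -/
theorem big_clique : ∃ K0 : ℕ, ∀ (V : Type) [Finite V] (G : SimpleGraph V) (k : ℕ), Cls G →
    Crit G k → CL G Set.univ k → ∀ t : Finset V, G.IsClique (t : Set V) → K0 ≤ t.card →
      C5E G Set.univ := by
  classical
  obtain ⟨R, hR⟩ := nontwin
  refine ⟨R * (R * 3 + 3) + 1, fun V _ G k hc hcr hk t ht hcard => ?_⟩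
  obtain ⟨q, hq, Q, hQt, hqQ, hQc, hQ⟩ := twins_of_clique (hR V G k hc hcr hk) (R * 3 + 3) t ht
    (by omega)
  -- a twin of q
  have h4 : 4 ≤ Q.card := by omega
  obtain ⟨q', hq', hqq'⟩ := Finset.exists_mem_ne (show 1 < Q.card by omega) q
  have hcq : G.IsClique (NN G q) := tw hc hk hcr (hQ q' hq' hqq')
  have hfin : (NN G q).Finite := Set.toFinite _
  have hQN : ∀ v ∈ Q, v ∉ NN G q := by
    intro v hv hvN
    by_cases hvq : v = q
    · exact hvN.1 hvq
    · exact hvN.2 (hQ v hv hvq).1
  have hUcard : Q.card < hfin.toFinset.card := by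
    by_contra hlt
    push Not at hlt
    obtain ⟨g, hg⟩ : ∃ g : V → V, (∀ v ∈ hfin.toFinset, g v ∈ Q) ∧
        Set.InjOn g (hfin.toFinset : Set V) := by
      obtain ⟨g, hg1, hg2⟩ := Finset.exists_subset_card_eq hlt
      have e : hfin.toFinset ≃ g := Finset.equivOfCardEq hg2.symm
      refine ⟨fun v => if h : v ∈ hfin.toFinset then (e ⟨v, h⟩ : V) else v, ?_, ?_⟩
      · intro v hv
        simp only [hv, dite_true]
        exact hg1 (e ⟨v, hv⟩).2
      · intro a ha b hb hab
        have ha' : a ∈ hfin.toFinset := ha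
        have hb' : b ∈ hfin.toFinset := hb
        simp only [ha', hb', dite_true] at hab
        have := e.injective (Subtype.ext hab)
        exact congrArg Subtype.val this
    obtain ⟨u, hu, huq⟩ := hcr.not_universal hc hk q
    have huN : u ∈ NN G q := ⟨hu, huq⟩
    have hs := hcr.retract (fun v => if v ∈ NN G q then g v else v) (by
      intro a b hab
      by_cases ha : a ∈ NN G q <;> by_cases hb : b ∈ NN G q
      · simp only [ha, hb, if_true]
        apply ht (hQt (hg.1 a (hfin.mem_toFinset.2 ha))) (hQt (hg.1 b (hfin.mem_toFinset.2 hb)))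
        intro he
        exact hab.ne (hg.2 (by simpa using ha) (by simpa using hb) he)
      · simp only [ha, hb, if_true, if_false]
        have hga := hg.1 a (hfin.mem_toFinset.2 ha)
        have hbq : b ≠ q := by
          rintro rfl
          exact ha.2 hab.symm
        have hadj : G.Adj q b := by
          by_contra hn
          exact hb ⟨hbq, hn⟩
        by_cases hgq : g a = q
        · rw [hgq]; exact hadj
        · have htw := hQ _ hga hgq
          have hne : b ≠ g a := by
            rintro rfl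
            exact ha.2 (((htw.2 a ha.1 (fun h => hQN _ hga (h ▸ ha))).2 hab).symm)
          exact ((htw.2 b hbq hne).1 hadj.symm).symm
      · simp only [ha, hb, if_true, if_false]
        have hgb := hg.1 b (hfin.mem_toFinset.2 hb)
        have haq : a ≠ q := by
          rintro rfl
          exact hb.2 hab
        have hadj : G.Adj q a := by
          by_contra hn
          exact ha ⟨haq, hn⟩
        by_cases hgq : g b = q
        · rw [hgq]; exact hadj.symm
        · have htw := hQ _ hgb hgq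
          have hne : a ≠ g b := by
            rintro rfl
            exact hb.2 (((htw.2 b hb.1 (fun h => hQN _ hgb (h ▸ hb))).2 hab.symm).symm)
          exact (htw.2 a haq hne).1 hadj.symm
      · simpa only [ha, hb, if_false] using hab)
    obtain ⟨v, hv⟩ := hs u
    by_cases hvN : v ∈ NN G q
    · simp only [hvN, if_true] at hv
      exact hQN _ (hg.1 v (hfin.mem_toFinset.2 hvN)) (hv ▸ huN)
    · simp only [hvN, if_false] at hv
      exact hvN (hv ▸ huN)
  have hUcl : G.IsClique ((hfin.toFinset : Finset V) : Set V) := by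
    simpa using hcq
  obtain ⟨u, hu, Q2, hQ2t, huQ2, hQ2c, hQ2⟩ := twins_of_clique (hR V G k hc hcr hk) 3
    hfin.toFinset hUcl (by omega)
  have huN : u ∈ NN G q := hfin.mem_toFinset.1 hu
  obtain ⟨u', hu', huu'⟩ := Finset.exists_mem_ne (show 1 < Q2.card by omega) u
  have hcu : G.IsClique (NN G u) := tw hc hk hcr (hQ2 u' hu' huu')
  have hTS : TS G q u := ⟨hc, fun h => huN.1 h.symm, huN.2, hcq, hcu⟩
  obtain ⟨T, hTQ, hT⟩ := Finset.exists_subset_card_eq (show 4 ≤ Q.card by omega)
  obtain ⟨T', hTQ', hT'⟩ := Finset.exists_subset_card_eq (show 4 ≤ Q2.card by omega)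
  refine g_main hTS hk hcr T T' hT hT' ?_ ?_
  · intro v hv
    have hvQ := hTQ hv
    have key : ∀ w ∈ NN G q, w ≠ v ∧ ¬ G.Adj v w := by
      intro w hw
      have hwv : w ≠ v := fun h => hQN v hvQ (h ▸ hw)
      refine ⟨hwv, fun hadj => ?_⟩
      by_cases hvq : v = q
      · subst hvq; exact hw.2 hadj
      · exact hw.2 (((hQ v hvQ hvq).2 w hw.1 hwv).2 hadj.symm).symm
    exact ⟨⟨fun h => (key u huN).1 h.symm, fun h => (key u huN).2 h.symm⟩, fun w hw => (key w hw).2⟩
  · intro v hv
    have hvQ := hTQ' hv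
    have hvN : v ∈ NN G q := hfin.mem_toFinset.1 (hQ2t hvQ)
    refine ⟨hvN, fun w hw hadj => ?_⟩
    by_cases hvu : v = u
    · subst hvu; exact hw.2 hadj
    · have htw := hQ2 v hvQ hvu
      have hwv : w ≠ v := hadj.ne'
      exact hw.2 ((htw.2 w hw.1 hwv).2 hadj.symm).symm

/-- For `k ≥ 3` there is no large induced matching. -/
theorem no_match (k : ℕ) (h3 : 3 ≤ k) : ∃ m : ℕ, ∀ (V : Type) [Finite V] (G : SimpleGraph V),
    Cls G → Crit G k → CL G Set.univ k → ¬ IndMatch G m := by
  classical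
  refine ⟨2 * k * k + 14 + 2 + 1, fun V _ G hc hcr hk hm => ?_⟩
  obtain ⟨W, x, y, htp, hcol⟩ := cols_of_match hc hk hcr (2 * k * k + 14 + 2) (by omega) hm
  by_cases hna : ∀ w ∈ W, ∀ w' ∈ W, G.Adj w w' → ∃ f : Fin 3 → Fin (2 * k * k + 14 + 2),
      Function.Injective f ∧
    ∀ e, (G.Adj w (x (f e)) ∧ G.Adj w' (x (f e))) ∨ (G.Adj w (y (f e)) ∧ G.Adj w' (y (f e)))
  · exact na_case ⟨hc, htp, hcol, by omega, hna⟩ h3 hk hcr
  · simp only [not_forall] at hna
    obtain ⟨w, hw, w', hw', hadj, hn⟩ := hna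
    obtain ⟨x', y', hap⟩ := ap_reindex hc htp hcol (by omega) hw hw' hadj hn
    rcases hap.onesided (fun i => hap.copy (by omega) hcr i) with ⟨hM, hcov⟩ | ⟨hP, hcov⟩
    · exact ap_final hap hk hcr hM hcov
    · exact ap_final hap.symm hk hcr hP hcov

/-- Critical graphs of the class: bounded or clique expansions of the 5-cycle. -/
theorem main_crit : ∃ N : ℕ, ∀ (V : Type) [Finite V] (G : SimpleGraph V) (k : ℕ), Cls G →
    Crit G k → CL G Set.univ k → C5E G Set.univ ∨ Nat.card V ≤ N := by
  classical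
  obtain ⟨K0, hK0⟩ := big_clique
  choose! m hm using no_match
  choose! N hN using fun k => fin_bound k (m k)
  refine ⟨(Finset.range (3 * K0)).sup N, fun V _ G k hc hcr hk => ?_⟩
  by_cases hbig : ∃ t : Finset V, G.IsClique (t : Set V) ∧ K0 ≤ t.card
  · obtain ⟨t, ht, htc⟩ := hbig
    exact Or.inl (hK0 V G k hc hcr hk t ht htc)
  · push Not at hbig
    have hk3 : k < 3 * K0 := by
      by_contra hge
      push Not at hge
      exact hcr.1 ((chi3 hc (fun t _ ht => (hbig t ht).le)).mono subset_rfl hge)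
    by_cases h2 : k ≤ 2
    · exact Or.inl (small_k hc hk hcr h2)
    · right
      refine (hN k V G hc hcr hk (hm k (by omega) V G hc hcr hk)).trans ?_
      exact Finset.le_sup (f := N) (Finset.mem_range.2 hk3)

/-! ### The certificate theorem -/

theorem col_induce {s : Set V} {t : Set s} {k : ℕ} :
    Col (G.induce s) t k ↔ Col G (Subtype.val '' t) k := by
  classical
  constructor
  · rintro ⟨c, h1, h2⟩
    refine ⟨fun v => if h : v ∈ s then c ⟨v, h⟩ else 0, ?_, ?_⟩
    · rintro _ ⟨v, hv, rfl⟩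
      simpa using h1 v hv
    · rintro _ ⟨u, hu, rfl⟩ _ ⟨v, hv, rfl⟩ huv
      simpa using h2 u hu v hv huv
  · rintro ⟨c, h1, h2⟩
    exact ⟨fun v => c v, fun v hv => h1 _ ⟨v, hv, rfl⟩,
      fun u hu v hv huv => h2 _ ⟨u, hu, rfl⟩ _ ⟨v, hv, rfl⟩ huv⟩

theorem Cls.induce (h : Cls G) (s : Set V) : Cls (G.induce s) :=
  ⟨fun c a b d e => h.gem c a b d e, fun a b c d e h1 h2 h3 h4 =>
    h.pp a b c d e h1 h2 h3 (fun he => h4 (Subtype.ext he))⟩

theorem Col.cl {s : Set V} {k : ℕ} (h : Col G s k) : CL G s k := by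
  classical
  obtain ⟨c, h1, h2⟩ := h
  intro t hts ht
  have : (t.image c).card = t.card := by
    apply Finset.card_image_of_injOn
    intro a ha b hb hab
    by_contra hne
    exact h2 a (hts ha) b (hts hb) (ht ha hb hne) hab
  rw [← this]
  calc (t.image c).card ≤ (Finset.range k).card := by
        apply Finset.card_le_card
        intro i hi
        obtain ⟨v, hv, rfl⟩ := Finset.mem_image.1 hi
        exact Finset.mem_range.2 (h1 v (hts hv))
    _ = k := Finset.card_range k

theorem main_comb : ∃ N : ℕ, ∀ (V : Type) [Finite V] (G : SimpleGraph V) (k : ℕ), Cls G →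
    (Col G Set.univ k ↔ CL G Set.univ k ∧ (∀ s : Set V, C5E G s → s.ncard ≤ 2 * k) ∧
      ∀ s : Set V, s.ncard ≤ N → Col G s k) := by
  classical
  obtain ⟨N, hN⟩ := main_crit
  refine ⟨N, fun V _ G k hc => ⟨fun h => ⟨h.cl, ?_, fun s _ => h.mono (Set.subset_univ s) le_rfl⟩,
    ?_⟩⟩
  · rintro s ⟨f, -, hf⟩
    exact w5_card f hf (h.mono (Set.subset_univ s) le_rfl)
  · rintro ⟨hcl, h5, hsm⟩
    by_contra hcol
    obtain ⟨s, -, hs, hmin⟩ := exists_crit_sub hcol
    have hcr : Crit (G.induce s) k := by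
      constructor
      · rw [col_induce]
        simpa using hs
      · intro t ht
        rw [col_induce]
        apply hmin
        · rintro _ ⟨v, _, rfl⟩
          exact v.2
        · intro heq
          apply ht
          ext v
          simp only [Set.mem_univ, iff_true]
          have : (v : V) ∈ Subtype.val '' t := by rw [heq]; exact v.2
          obtain ⟨v', hv', he⟩ := this
          rwa [← Subtype.ext he]
    have hcl' : CL (G.induce s) Set.univ k := by
      intro t _ ht
      have := hcl (t.map (Function.Embedding.subtype _)) (Set.subset_univ _) (by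
        intro a ha b hb hab
        simp only [Finset.coe_map, Set.mem_image, Finset.mem_coe] at ha hb
        obtain ⟨a', ha', rfl⟩ := ha
        obtain ⟨b', hb', rfl⟩ := hb
        exact ht ha' hb' (fun h => hab (by rw [h])))
      simpa using this
    rcases hN s (G.induce s) k (hc.induce s) hcr hcl' with h | h
    · obtain ⟨f, hf1, hf2⟩ := h
      let f' : V → ZMod 5 := fun v => if h : v ∈ s then f ⟨v, h⟩ else 0
      have hf' : ∀ v : s, f' v = f v := fun v => by simp [f']
      have hE : ∀ u ∈ s, ∀ v ∈ s, u ≠ v →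
          (G.Adj u v ↔ (f' v = f' u ∨ f' v = f' u + 1 ∨ f' u = f' v + 1)) := by
        intro u hu v hv huv
        have := hf2 ⟨u, hu⟩ trivial ⟨v, hv⟩ trivial (fun h => huv (congrArg Subtype.val h))
        rw [hf' ⟨u, hu⟩, hf' ⟨v, hv⟩]
        exact this
      have h5E : C5E G s := by
        refine ⟨f', fun i => ?_, hE⟩
        obtain ⟨v, -, hv⟩ := hf1 i
        exact ⟨v, v.2, by rw [hf' v]; exact hv⟩
      exact hs (w5_col f' hE (hcl.mono (Set.subset_univ s) le_rfl) (h5 s h5E))
    · exact hs (hsm s (by simpa [Set.ncard] using h))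

end GP
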