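import Pool.Agent.Work.MP_31af1e_lc.PF
import Pool.Agent.Work.MP_c4d05f_lc.Final

/-!
Module SA1: the clique number of gem-free graphs in polynomial time.
-/

set_option autoImplicit false

namespace GP

open Pool.Agent.Work.PolyTime
open Pool.Agent.Work.MP_c4d05f_lc (Inp graphOf adjB adjB_iff ptime_adjB)

/-- The least colour that is not used on the neighbours of `b`. -/
def mexc (x : Inp) (S : List (ℕ × ℕ)) (b : ℕ) : ℕ :=
  ((List.range x.1).filter fun c => (List.range (c + 1)).all fun j =>
    S.any fun p => adjB x p.1 b && decide (p.2 = j)).length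

/-- The first fit colouring of a list of vertices (processed from the end of the list). -/
def ffcol (x : Inp) (L : List ℕ) : List (ℕ × ℕ) :=
  L.foldr (fun b S => (b, mexc x S b) :: S) []

theorem sa1_filter_lt (m : ℕ) : ∀ n : ℕ,
    ((List.range n).filter fun c => decide (c < m)).length = min n m := by
  intro n
  induction n with
  | zero => simp
  | succ n ih =>
    rw [List.range_succ, List.filter_append, List.length_append, ih]
    by_cases h : n < m
    · simp only [List.filter_cons, h, decide_true, if_true, List.filter_nil, List.length_cons,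
        List.length_nil]
      omega
    · simp only [List.filter_cons, h, decide_false, List.filter_nil]
      simp
      omega

theorem sa1_mexc_spec (x : Inp) (S : List (ℕ × ℕ)) (b : ℕ) (hS : ∀ p ∈ S, p.2 < S.length)
    (hn : S.length < x.1) :
    mexc x S b ≤ S.length ∧ (∀ p ∈ S, adjB x p.1 b = true → p.2 ≠ mexc x S b) ∧
    ∀ j < mexc x S b, ∃ p ∈ S, adjB x p.1 b = true ∧ p.2 = j := by
  classical
  set used : ℕ → Prop := fun j => ∃ p ∈ S, adjB x p.1 b = true ∧ p.2 = j with hused
  have hex : ∃ m, ¬ used m := by
    refine ⟨S.length, ?_⟩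
    rintro ⟨p, hp, -, he⟩
    have := hS p hp
    omega
  set m := Nat.find hex with hm
  have hle : m ≤ S.length := by
    apply Nat.find_min'
    rintro ⟨p, hp, -, he⟩
    have := hS p hp
    omega
  have h1 : mexc x S b = m := by
    have h2 : ((List.range x.1).filter fun c => (List.range (c + 1)).all fun j =>
        S.any fun p => adjB x p.1 b && decide (p.2 = j)) =
        (List.range x.1).filter fun c => decide (c < m) := by
      apply List.filter_congr
      intro c _
      rw [Bool.eq_iff_iff]
      simp only [List.all_eq_true, List.mem_range, List.any_eq_true, Bool.and_eq_true,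
        decide_eq_true_eq]
      constructor
      · intro h
        by_contra hcm
        exact Nat.find_spec hex (h m (by omega))
      · intro h j hj
        by_contra hcon
        have := Nat.find_min' hex (m := j) hcon
        omega
    unfold mexc
    rw [h2, sa1_filter_lt]
    omega
  rw [h1]
  refine ⟨hle, ?_, ?_⟩
  · intro p hp hadj he
    exact Nat.find_spec hex ⟨p, hp, hadj, he⟩
  · intro j hj
    by_contra hcon
    exact absurd (Nat.find_min' hex (m := j) hcon) (by omega)

theorem sa1_ffcol_spec (x : Inp) (L : List ℕ) (hnd : L.Nodup) (hL : ∀ v ∈ L, v < x.1) :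
    ∃ c : ℕ → ℕ, ffcol x L = L.map (fun u => (u, c u)) ∧ (∀ u ∈ L, c u < L.length) ∧
      (∀ u ∈ L, ∀ v ∈ L, adjB x u v = true → c u ≠ c v) ∧
      ∀ u ∈ L, ∀ j < c u, ∃ w ∈ L, adjB x u w = true ∧ c w = j := by
  classical
  induction L with
  | nil => exact ⟨fun _ => 0, rfl, by simp, by simp, by simp⟩
  | cons b L ih =>
    have hnd' := (List.nodup_cons.1 hnd)
    obtain ⟨c, h1, h2, h3, h4⟩ := ih hnd'.2 (fun v hv => hL v (List.mem_cons_of_mem _ hv))
    have hlen : (ffcol x L).length = L.length := by rw [h1, List.length_map]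
    have hltn : L.length < x.1 := by
      have h5 : (b :: L).length ≤ (List.range x.1).length := by
        apply (List.subperm_of_subset hnd _).length_le
        intro v hv
        exact List.mem_range.2 (hL v hv)
      simpa using h5
    obtain ⟨m1, m2, m3⟩ := sa1_mexc_spec x (ffcol x L) b (by
      intro p hp
      rw [h1, List.mem_map] at hp
      obtain ⟨u, hu, rfl⟩ := hp
      rw [hlen]
      exact h2 u hu) (by rw [hlen]; exact hltn)
    have hne : ∀ u ∈ L, u ≠ b := fun u hu he => hnd'.1 (he ▸ hu)
    have hsym : ∀ u v, adjB x u v = true → adjB x v u = true := by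
      intro u v h
      rw [adjB_iff] at h ⊢
      exact ⟨h.2.1, h.1, h.2.2.1.symm, h.2.2.2.symm⟩
    set m := mexc x (ffcol x L) b with hm
    refine ⟨Function.update c b m, ?_, ?_, ?_, ?_⟩
    · change (b, m) :: ffcol x L = _
      rw [List.map_cons, Function.update_self, h1]
      congr 1
      apply List.map_congr_left
      intro u hu
      rw [Function.update_of_ne (hne u hu)]
    · intro u hu
      rcases List.mem_cons.1 hu with rfl | hu
      · rw [Function.update_self, List.length_cons]
        omega
      · rw [Function.update_of_ne (hne u hu), List.length_cons]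
        have := h2 u hu
        omega
    · have key : ∀ u ∈ L, adjB x u b = true → c u ≠ m := by
        intro u hu hadj
        exact m2 (u, c u) (by rw [h1]; exact List.mem_map.2 ⟨u, hu, rfl⟩) hadj
      intro u hu v hv hadj
      rcases List.mem_cons.1 hu with hu' | hu' <;> rcases List.mem_cons.1 hv with hv' | hv'
      · rw [adjB_iff] at hadj
        exact absurd (hu'.trans hv'.symm) hadj.2.2.1
      · rw [hu', Function.update_self, Function.update_of_ne (hne v hv')]
        exact (key v hv' (hsym _ _ (hu' ▸ hadj))).symm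
      · rw [hv', Function.update_self, Function.update_of_ne (hne u hu')]
        exact key u hu' (hv' ▸ hadj)
      · rw [Function.update_of_ne (hne u hu'), Function.update_of_ne (hne v hv')]
        exact h3 u hu' v hv' hadj
    · intro u hu j hj
      rcases List.mem_cons.1 hu with rfl | hu
      · rw [Function.update_self] at hj
        obtain ⟨p, hp, hadj, he⟩ := m3 j hj
        rw [h1, List.mem_map] at hp
        obtain ⟨w, hw, rfl⟩ := hp
        refine ⟨w, List.mem_cons_of_mem _ hw, hsym _ _ hadj, ?_⟩
        rw [Function.update_of_ne (hne w hw)]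
        exact he
      · rw [Function.update_of_ne (hne u hu)] at hj
        obtain ⟨w, hw, hadj, he⟩ := h4 u hu j hj
        refine ⟨w, List.mem_cons_of_mem _ hw, hadj, ?_⟩
        rw [Function.update_of_ne (hne w hw)]
        exact he

section

variable {α : Type} [Code α]

@[fun_prop]
theorem ptime_mexc {x : α → Inp} {S : α → List (ℕ × ℕ)} {b : α → ℕ}
    (hx : PTime x) (hS : PTime S) (hb : PTime b) : PTime (fun a => mexc (x a) (S a) (b a)) := by
  unfold mexc
  refine PTime.length (PTime.filter (PTime.range (by fun_prop)) ?_)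
  refine PTime.all (PTime.range (by fun_prop)) ?_
  refine PTime.any (by fun_prop) ?_
  fun_prop

@[fun_prop]
theorem ptime_ffcol {x : α → Inp} {L : α → List ℕ} (hx : PTime x) (hL : PTime L) :
    PTime (fun a => ffcol (x a) (L a)) := by
  have h : PTime (fun a => (L a).reverse.foldl (fun S b =>
      (fun y : α × List (ℕ × ℕ) × ℕ => (y.2.2, mexc (x y.1) y.2.1 y.2.2) :: y.2.1) (a, S, b)) []) := by
    refine PTime.foldlGrow (f := fun y : α × List (ℕ × ℕ) × ℕ =>
      (y.2.2, mexc (x y.1) y.2.1 y.2.2) :: y.2.1) hL.reverse (PTime.const []) ?_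
      (G := fun a => 3 + (sz (L a) + 2 * sz (x a))) ?_ ?_
    · have hx' : PTime (fun y : α × List (ℕ × ℕ) × ℕ => x y.1) := hx.comp PTime.fst
      fun_prop
    · exact (PB.const 3).add (hL.sz_le.add ((PB.const 2).mul hx.sz_le))
    · intro a b hb S
      have h1 : sz b < sz (L a) := sz_mem (List.mem_reverse.1 hb)
      have h2 : mexc (x a) S b ≤ (x a).1 := by
        unfold mexc
        exact (List.length_filter_le _ _).trans (by simp)
      have h3 : (x a).1 ≤ sz (x a) := by
        have : sz (x a) = 1 + sz (x a).1 + sz (x a).2 := sz_pair (x a).1 (x a).2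
        rw [this, sz_nat]
        omega
      simp only [sz_cons, sz_pair, sz_nat] at h1 ⊢
      omega
  refine h.code_congr (fun a => ?_)
  rw [List.foldl_reverse]
  rfl

end

/-- The test of the clique number of gem-free graphs. -/
def cliqueB (z : Inp × ℕ) : Bool :=
  (decide (z.1.1 = 0) || decide (1 ≤ z.2)) && (List.range z.1.1).all fun v =>
    (ffcol z.1 ((List.range z.1.1).filter (adjB z.1 v))).all fun p => decide (p.2 + 2 ≤ z.2)

theorem ptime_cliqueB : PTime cliqueB := by
  unfold cliqueB
  refine PTime.and (by fun_prop) (PTime.all (PTime.range (by fun_prop)) ?_)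
  refine PTime.all (ptime_ffcol (by fun_prop) (PTime.filter (PTime.range (by fun_prop)) ?_)) ?_
  · fun_prop
  · fun_prop

theorem sa1_adj_iff {n : ℕ} {E : List (ℕ × ℕ)} (u v : Fin n) :
    adjB (n, E) u v = true ↔ (graphOf n E).Adj u v := by
  rw [adjB_iff]
  unfold graphOf
  rw [SimpleGraph.fromRel_adj]
  constructor
  · rintro ⟨-, -, hne, h⟩
    exact ⟨fun he => hne (congrArg Fin.val he), h⟩
  · rintro ⟨hne, h⟩
    exact ⟨u.2, v.2, fun he => hne (Fin.ext he), h⟩

/-- The neighbourhoods in a gem-free graph are `P4`-free. -/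
theorem sa1_nbr {V : Type} {G : SimpleGraph V} (h : NoGem G) (v : V) :
    P4F G {u | G.Adj v u} := by
  intro a ha b hb c hc d hd hab hbc hcd hac had hbd
  exact h v a b c d ha hb hc hd hab hbc hcd hac had hbd

/-- Module SA1: the test of the clique number. -/
theorem sa1 : ∃ t : Inp × ℕ → Bool, PTime t ∧ ∀ (n : ℕ) (E : List (ℕ × ℕ)) (k : ℕ),
    NoGem (graphOf n E) → (t ((n, E), k) = true ↔ CL (graphOf n E) Set.univ k) := by
  classical
  refine ⟨cliqueB, ptime_cliqueB, ?_⟩
  intro n E k hgem
  set G := graphOf n E with hG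
  have hcol : ∀ v : Fin n, ∃ c : Fin n → ℕ,
      (∀ u ∈ {u | G.Adj v u}, ∀ w ∈ {u | G.Adj v u}, G.Adj u w → c u ≠ c w) ∧
      (∀ u ∈ {u | G.Adj v u}, ∀ j < c u, ∃ w ∈ {u | G.Adj v u}, G.Adj u w ∧ c w = j) ∧
      (((ffcol (n, E) ((List.range n).filter (adjB (n, E) v))).all
        fun p => decide (p.2 + 2 ≤ k)) = true ↔ ∀ u, G.Adj v u → c u + 2 ≤ k) := by
    intro v
    obtain ⟨c, h1, h2, h3, h4⟩ := sa1_ffcol_spec (n, E) ((List.range n).filter (adjB (n, E) v))
      (List.nodup_range.filter _) (by
        intro u hu
        exact List.mem_range.1 (List.mem_filter.1 hu).1)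
    have hmem : ∀ u : Fin n, (u : ℕ) ∈ (List.range n).filter (adjB (n, E) v) ↔ G.Adj v u := by
      intro u
      rw [List.mem_filter, List.mem_range, sa1_adj_iff]
      exact ⟨fun h => h.2, fun h => ⟨u.2, h⟩⟩
    have hmem' : ∀ u : ℕ, u ∈ (List.range n).filter (adjB (n, E) v) →
        ∃ u' : Fin n, (u' : ℕ) = u ∧ G.Adj v u' := by
      intro u hu
      have hun : u < n := List.mem_range.1 (List.mem_filter.1 hu).1
      exact ⟨⟨u, hun⟩, rfl, (hmem ⟨u, hun⟩).1 hu⟩
    refine ⟨fun u => c u, ?_, ?_, ?_⟩
    · intro u hu w hw huw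
      exact h3 u ((hmem u).2 hu) w ((hmem w).2 hw) ((sa1_adj_iff u w).2 huw)
    · intro u hu j hj
      obtain ⟨w, hw, hadj, he⟩ := h4 u ((hmem u).2 hu) j hj
      obtain ⟨w', rfl, hw'⟩ := hmem' w hw
      exact ⟨w', hw', (sa1_adj_iff u w').1 hadj, he⟩
    · rw [h1]
      simp only [List.all_eq_true, List.mem_map, decide_eq_true_eq]
      constructor
      · intro h u hu
        exact h (u, c u) ⟨u, (hmem u).2 hu, rfl⟩
      · rintro h p ⟨u, hu, rfl⟩
        obtain ⟨u', rfl, hu'⟩ := hmem' u hu
        exact h u' hu'
  choose c hc1 hc2 hc3 using hcol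
  have ht : cliqueB ((n, E), k) = true ↔
      (n = 0 ∨ 1 ≤ k) ∧ ∀ v u : Fin n, G.Adj v u → c v u + 2 ≤ k := by
    unfold cliqueB
    simp only [Bool.and_eq_true, Bool.or_eq_true, decide_eq_true_eq]
    refine and_congr Iff.rfl ?_
    rw [List.all_eq_true]
    constructor
    · intro h v
      exact (hc3 v).1 (h v (List.mem_range.2 v.2))
    · intro h v hv
      exact (hc3 ⟨v, List.mem_range.1 hv⟩).2 (h ⟨v, List.mem_range.1 hv⟩)
  rw [ht]
  constructor
  · rintro ⟨hn, h⟩ t - htc
    rcases t.eq_empty_or_nonempty with rfl | ⟨v, hv⟩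
    · simp
    · have hk : 1 ≤ k := by
        rcases hn with hn | hn
        · subst hn; exact v.elim0
        · exact hn
      have hcard : (t.erase v).card ≤ (Finset.range (k - 1)).card := by
        apply Finset.card_le_card_of_injOn (c v)
        · intro u hu
          rw [Finset.mem_coe, Finset.mem_erase] at hu
          have := h v u (htc hv hu.2 hu.1.symm)
          rw [Finset.coe_range, Set.mem_Iio]
          omega
        · intro u hu w hw he
          rw [Finset.mem_coe, Finset.mem_erase] at hu hw
          by_contra hne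
          exact hc1 v u (htc hv hu.2 hu.1.symm) w (htc hv hw.2 hw.1.symm)
            (htc hu.2 hw.2 hne) he
      rw [Finset.card_range, Finset.card_erase_of_mem hv] at hcard
      omega
  · intro h
    refine ⟨?_, ?_⟩
    · rcases Nat.eq_zero_or_pos n with hn | hn
      · exact Or.inl hn
      · right
        have := h {⟨0, hn⟩} (Set.subset_univ _) (by simp)
        simpa using this
    · intro v u huv
      obtain ⟨t, hts, -, htc, hcard⟩ := (sa1_nbr hgem v).clique_of_grundy (c v) (hc1 v) (hc2 v) u huv
      have hvt : v ∉ t := fun hv => G.loopless.irrefl v (hts hv)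
      have h1 := h (insert v t) (Set.subset_univ _) (by
        rw [Finset.coe_insert]
        intro a ha b hb hab
        rw [Set.mem_insert_iff] at ha hb
        rcases ha with rfl | ha <;> rcases hb with rfl | hb
        · exact absurd rfl hab
        · exact hts hb
        · exact (hts ha).symm
        · exact htc ha hb hab)
      rw [Finset.card_insert_of_notMem hvt, hcard] at h1
      omega

end GP
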