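import Pool.Agent.Work.MP_31af1e_lc.Defs
import Pool.Agent.Work.MP_c4d05f_lc.Final

/-!
Module SA2: the sizes of the clique expansions of the 5-cycle can be tested in polynomial time.
-/

set_option autoImplicit false

namespace GP

open Pool.Agent.Work.PolyTime
open Pool.Agent.Work.MP_c4d05f_lc (Inp graphOf adjB ng ng_adj ng_adj_iff ptime_adjB)

namespace SA2

/-! ### The graph part -/

section
variable {V : Type} {G : SimpleGraph V}

/-- `v` belongs to bag `i` of the maximal expansion of the 5-cycle `q`. -/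
def Bg (G : SimpleGraph V) (q : ZMod 5 → V) (i : ZMod 5) (v : V) : Prop :=
  v = q i ∨ (G.Adj v (q (i + 4)) ∧ G.Adj v (q i) ∧ G.Adj v (q (i + 1)) ∧ ¬ G.Adj v (q (i + 2)) ∧
    ¬ G.Adj v (q (i + 3)))

/-- Induced 5-cycle. -/
def Cyc (G : SimpleGraph V) (q : ZMod 5 → V) : Prop :=
  ∀ i, G.Adj (q i) (q (i + 1)) ∧ ¬ G.Adj (q i) (q (i + 2))

variable {q : ZMod 5 → V}

theorem Cyc.adj (h : Cyc G q) {i j : ZMod 5} (hij : j = i + 1) : G.Adj (q i) (q j) := by
  subst hij; exact (h i).1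

theorem Cyc.nadj (h : Cyc G q) {i j : ZMod 5} (hij : j = i + 2) : ¬ G.Adj (q i) (q j) := by
  subst hij; exact (h i).2

theorem zt : ∀ i : ZMod 5, i = i + 4 + 1 ∧ i + 3 = i + 2 + 1 ∧ i = i + 3 + 2 ∧ i = i + 1 + 4 ∧
    i + 4 = i + 1 + 3 ∧ i + 1 = i + 4 + 2 ∧ i = i + 2 + 3 ∧ i + 1 = i + 2 + 4 ∧
    i + 4 = i + 2 + 2 := by decide

theorem Bg.a4 (h : Cyc G q) {i : ZMod 5} {v : V} (hv : Bg G q i v) {j : ZMod 5} (hj : j = i + 4) :
    G.Adj v (q j) := by
  subst hj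
  rcases hv with rfl | hv
  · exact (h.adj (by first | exact (zt _).1 | exact (zt _).2.1 | exact (zt _).2.2.1 | exact (zt _).2.2.2.1 | exact (zt _).2.2.2.2.1 | exact (zt _).2.2.2.2.2.1 | exact (zt _).2.2.2.2.2.2.1 | exact (zt _).2.2.2.2.2.2.2.1 | exact (zt _).2.2.2.2.2.2.2.2)).symm
  · exact hv.1

theorem Bg.a1 (h : Cyc G q) {i : ZMod 5} {v : V} (hv : Bg G q i v) {j : ZMod 5} (hj : j = i + 1) :
    G.Adj v (q j) := by
  subst hj
  rcases hv with rfl | hv
  · exact h.adj rfl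
  · exact hv.2.2.1

theorem Bg.n2 (h : Cyc G q) {i : ZMod 5} {v : V} (hv : Bg G q i v) {j : ZMod 5} (hj : j = i + 2) :
    ¬ G.Adj v (q j) := by
  subst hj
  rcases hv with rfl | hv
  · exact h.nadj rfl
  · exact hv.2.2.2.1

theorem Bg.n3 (h : Cyc G q) {i : ZMod 5} {v : V} (hv : Bg G q i v) {j : ZMod 5} (hj : j = i + 3) :
    ¬ G.Adj v (q j) := by
  subst hj
  rcases hv with rfl | hv
  · exact fun h1 => h.nadj (by first | exact (zt _).1 | exact (zt _).2.1 | exact (zt _).2.2.1 | exact (zt _).2.2.2.1 | exact (zt _).2.2.2.2.1 | exact (zt _).2.2.2.2.2.1 | exact (zt _).2.2.2.2.2.2.1 | exact (zt _).2.2.2.2.2.2.2.1 | exact (zt _).2.2.2.2.2.2.2.2) h1.symm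
  · exact hv.2.2.2.2

theorem Bg.a0 {i : ZMod 5} {v : V} (hv : Bg G q i v) (hne : v ≠ q i) : G.Adj v (q i) := by
  rcases hv with rfl | hv
  · exact absurd rfl hne
  · exact hv.2.1

theorem Bg.uniq (h : Cyc G q) {i j : ZMod 5} {v : V} (hi : Bg G q i v) (hj : Bg G q j v) :
    i = j := by
  have key : ∀ i j : ZMod 5, i = j ∨ (j + 1 = i + 2) ∨ (j + 1 = i + 3) ∨ (j + 4 = i + 2) ∨
      (j + 4 = i + 3) := by decide
  rcases key i j with h1 | h1 | h1 | h1 | h1
  · exact h1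
  · exact absurd (hj.a1 h rfl) (hi.n2 h h1)
  · exact absurd (hj.a1 h rfl) (hi.n3 h h1)
  · exact absurd (hj.a4 h rfl) (hi.n2 h h1)
  · exact absurd (hj.a4 h rfl) (hi.n3 h h1)

theorem same (hc : Cls G) (h : Cyc G q) {i : ZMod 5} {v v' : V} (hv : Bg G q i v)
    (hv' : Bg G q i v') (hne : v ≠ v') : G.Adj v v' := by
  by_cases h1 : v = q i
  · subst h1
    exact (hv'.a0 (Ne.symm hne)).symm
  by_cases h2 : v' = q i
  · subst h2
    exact hv.a0 hne
  by_contra hcon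
  exact hc.pp (q (i + 2)) (q (i + 3)) v (q i) v' (h.adj (by first | exact (zt _).1 | exact (zt _).2.1 | exact (zt _).2.2.1 | exact (zt _).2.2.2.1 | exact (zt _).2.2.2.2.1 | exact (zt _).2.2.2.2.2.1 | exact (zt _).2.2.2.2.2.2.1 | exact (zt _).2.2.2.2.2.2.2.1 | exact (zt _).2.2.2.2.2.2.2.2)) (hv.a0 h1)
    (hv'.a0 h2).symm hne hcon (fun h3 => hv.n2 h rfl h3.symm) (fun h3 => h.nadj rfl h3.symm)
    (fun h3 => hv'.n2 h rfl h3.symm) (fun h3 => hv.n3 h rfl h3.symm)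
    (h.nadj (by first | exact (zt _).1 | exact (zt _).2.1 | exact (zt _).2.2.1 | exact (zt _).2.2.2.1 | exact (zt _).2.2.2.2.1 | exact (zt _).2.2.2.2.2.1 | exact (zt _).2.2.2.2.2.2.1 | exact (zt _).2.2.2.2.2.2.2.1 | exact (zt _).2.2.2.2.2.2.2.2)) (fun h3 => hv'.n3 h rfl h3.symm)

theorem next (hc : Cls G) (h : Cyc G q) {i j : ZMod 5} (hij : j = i + 1) {v v' : V}
    (hv : Bg G q i v) (hv' : Bg G q j v') : G.Adj v v' := by
  subst hij
  by_cases h1 : v = q i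
  · subst h1
    exact (hv'.a4 h (by first | exact (zt _).1 | exact (zt _).2.1 | exact (zt _).2.2.1 | exact (zt _).2.2.2.1 | exact (zt _).2.2.2.2.1 | exact (zt _).2.2.2.2.2.1 | exact (zt _).2.2.2.2.2.2.1 | exact (zt _).2.2.2.2.2.2.2.1 | exact (zt _).2.2.2.2.2.2.2.2)).symm
  by_cases h2 : v' = q (i + 1)
  · subst h2
    exact hv.a1 h rfl
  by_contra hcon
  exact hc.gem (q i) v' (q (i + 1)) v (q (i + 4)) (hv'.a4 h (by first | exact (zt _).1 | exact (zt _).2.1 | exact (zt _).2.2.1 | exact (zt _).2.2.2.1 | exact (zt _).2.2.2.2.1 | exact (zt _).2.2.2.2.2.1 | exact (zt _).2.2.2.2.2.2.1 | exact (zt _).2.2.2.2.2.2.2.1 | exact (zt _).2.2.2.2.2.2.2.2)).symm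
    (h.adj rfl) (hv.a0 h1).symm (h.adj (i := i + 4) (j := i) (by first | exact (zt _).1 | exact (zt _).2.1 | exact (zt _).2.2.1 | exact (zt _).2.2.2.1 | exact (zt _).2.2.2.2.1 | exact (zt _).2.2.2.2.2.1 | exact (zt _).2.2.2.2.2.2.1 | exact (zt _).2.2.2.2.2.2.2.1 | exact (zt _).2.2.2.2.2.2.2.2)).symm
    (hv'.a0 h2) (hv.a1 h rfl).symm (hv.a4 h rfl) (fun h3 => hcon h3.symm)
    (hv'.n3 h (by first | exact (zt _).1 | exact (zt _).2.1 | exact (zt _).2.2.1 | exact (zt _).2.2.2.1 | exact (zt _).2.2.2.2.1 | exact (zt _).2.2.2.2.2.1 | exact (zt _).2.2.2.2.2.2.1 | exact (zt _).2.2.2.2.2.2.2.1 | exact (zt _).2.2.2.2.2.2.2.2))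
    (fun h3 => h.nadj (i := i + 4) (j := i + 1) (by first | exact (zt _).1 | exact (zt _).2.1 | exact (zt _).2.2.1 | exact (zt _).2.2.2.1 | exact (zt _).2.2.2.2.1 | exact (zt _).2.2.2.2.2.1 | exact (zt _).2.2.2.2.2.2.1 | exact (zt _).2.2.2.2.2.2.2.1 | exact (zt _).2.2.2.2.2.2.2.2) h3.symm)

theorem far (hc : Cls G) (h : Cyc G q) {i j : ZMod 5} (hij : j = i + 2) {v v' : V}
    (hv : Bg G q i v) (hv' : Bg G q j v') : ¬ G.Adj v v' := by
  subst hij
  intro hcon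
  by_cases h1 : v = q i
  · subst h1
    exact hv'.n3 h (by first | exact (zt _).1 | exact (zt _).2.1 | exact (zt _).2.2.1 | exact (zt _).2.2.2.1 | exact (zt _).2.2.2.2.1 | exact (zt _).2.2.2.2.2.1 | exact (zt _).2.2.2.2.2.2.1 | exact (zt _).2.2.2.2.2.2.2.1 | exact (zt _).2.2.2.2.2.2.2.2) hcon.symm
  exact hc.gem v (q (i + 4)) (q i) (q (i + 1)) v' (hv.a4 h rfl) (hv.a0 h1) (hv.a1 h rfl) hcon
    (h.adj (i := i + 4) (j := i) (by first | exact (zt _).1 | exact (zt _).2.1 | exact (zt _).2.2.1 | exact (zt _).2.2.2.1 | exact (zt _).2.2.2.2.1 | exact (zt _).2.2.2.2.2.1 | exact (zt _).2.2.2.2.2.2.1 | exact (zt _).2.2.2.2.2.2.2.1 | exact (zt _).2.2.2.2.2.2.2.2)) (h.adj rfl)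
    (hv'.a4 h (by first | exact (zt _).1 | exact (zt _).2.1 | exact (zt _).2.2.1 | exact (zt _).2.2.2.1 | exact (zt _).2.2.2.2.1 | exact (zt _).2.2.2.2.2.1 | exact (zt _).2.2.2.2.2.2.1 | exact (zt _).2.2.2.2.2.2.2.1 | exact (zt _).2.2.2.2.2.2.2.2)).symm
    (h.nadj (i := i + 4) (j := i + 1) (by first | exact (zt _).1 | exact (zt _).2.1 | exact (zt _).2.2.1 | exact (zt _).2.2.2.1 | exact (zt _).2.2.2.2.1 | exact (zt _).2.2.2.2.2.1 | exact (zt _).2.2.2.2.2.2.1 | exact (zt _).2.2.2.2.2.2.2.1 | exact (zt _).2.2.2.2.2.2.2.2))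
    (fun h3 => hv'.n2 h (by first | exact (zt _).1 | exact (zt _).2.1 | exact (zt _).2.2.1 | exact (zt _).2.2.2.1 | exact (zt _).2.2.2.2.1 | exact (zt _).2.2.2.2.2.1 | exact (zt _).2.2.2.2.2.2.1 | exact (zt _).2.2.2.2.2.2.2.1 | exact (zt _).2.2.2.2.2.2.2.2) h3.symm)
    (fun h3 => hv'.n3 h (by first | exact (zt _).1 | exact (zt _).2.1 | exact (zt _).2.2.1 | exact (zt _).2.2.2.1 | exact (zt _).2.2.2.2.1 | exact (zt _).2.2.2.2.2.1 | exact (zt _).2.2.2.2.2.2.1 | exact (zt _).2.2.2.2.2.2.2.1 | exact (zt _).2.2.2.2.2.2.2.2) h3.symm)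

/-- The maximal expansion of an induced 5-cycle. -/
theorem Cyc.c5e (hc : Cls G) (h : Cyc G q) : C5E G {v | ∃ i, Bg G q i v} := by
  classical
  let f : V → ZMod 5 := fun v => if hv : ∃ i, Bg G q i v then hv.choose else 0
  have hf : ∀ v i, Bg G q i v → f v = i := by
    intro v i hi
    have hv : ∃ i, Bg G q i v := ⟨i, hi⟩
    have : f v = hv.choose := by simp only [f, dif_pos hv]
    rw [this]
    exact hv.choose_spec.uniq h hi
  refine ⟨f, fun i => ⟨q i, ⟨i, Or.inl rfl⟩, hf _ _ (Or.inl rfl)⟩, ?_⟩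
  rintro u ⟨i, hi⟩ v ⟨j, hj⟩ hne
  rw [hf u i hi, hf v j hj]
  have key : ∀ i j : ZMod 5, j = i ∨ j = i + 1 ∨ i = j + 1 ∨
      (j = i + 2 ∧ ¬ (j = i ∨ j = i + 1 ∨ i = j + 1)) ∨
      (i = j + 2 ∧ ¬ (j = i ∨ j = i + 1 ∨ i = j + 1)) := by decide
  rcases key i j with h1 | h1 | h1 | ⟨h1, h2⟩ | ⟨h1, h2⟩
  · subst h1
    exact iff_of_true (same hc h hi hj hne) (Or.inl rfl)
  · exact iff_of_true (next hc h h1 hi hj) (Or.inr (Or.inl h1))
  · exact iff_of_true (next hc h h1 hj hi).symm (Or.inr (Or.inr h1))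
  · exact iff_of_false (far hc h h1 hi hj) h2
  · exact iff_of_false (fun h3 => far hc h h1 hj hi h3.symm) h2

/-- Every expansion is contained in a maximal one. -/
theorem exists_cyc {s : Set V} (hs : C5E G s) :
    ∃ q : ZMod 5 → V, Cyc G q ∧ s ⊆ {v | ∃ i, Bg G q i v} := by
  obtain ⟨f, hf1, hf2⟩ := hs
  choose q hq hfq using hf1
  have key : ∀ (v : V) (hv : v ∈ s) (j : ZMod 5), v ≠ q j →
      (G.Adj v (q j) ↔ (j = f v ∨ j = f v + 1 ∨ f v = j + 1)) := by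
    intro v hv j hne
    rw [hf2 v hv (q j) (hq j) hne, hfq]
  have hne : ∀ i j, i ≠ j → q i ≠ q j := by
    intro i j hij he
    apply hij
    rw [← hfq i, ← hfq j, he]
  have hne12 : ∀ i : ZMod 5, i ≠ i + 1 ∧ i ≠ i + 2 := by decide
  refine ⟨q, fun i => ⟨?_, ?_⟩, fun v hv => ?_⟩
  · rw [key (q i) (hq i) (i + 1) (hne _ _ (hne12 i).1), hfq]
    exact Or.inr (Or.inl rfl)
  · rw [key (q i) (hq i) (i + 2) (hne _ _ (hne12 i).2), hfq]
    decide +revert
  · refine ⟨f v, ?_⟩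
    by_cases h1 : v = q (f v)
    · exact Or.inl h1
    · right
      have hvne : ∀ j, v ≠ q j := by
        intro j hj
        apply h1
        have : f v = j := by rw [hj, hfq]
        rw [this]; exact hj
      rw [key v hv _ (hvne _), key v hv _ (hvne _), key v hv _ (hvne _), key v hv _ (hvne _),
        key v hv _ (hvne _)]
      generalize f v = i
      clear * -
      revert i; decide

end

/-! ### The algorithm -/

/-- Membership in one bag. -/
def bagB (x : Inp) (p q r s t v : ℕ) : Bool :=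
  decide (v = q) || (adjB x v p && (adjB x v q && (adjB x v r && (!(adjB x v s) &&
    !(adjB x v t)))))

/-- Membership in the maximal expansion of the 5-cycle. -/
def inXB (x : Inp) (a b c d e v : ℕ) : Bool :=
  bagB x e a b c d v || (bagB x a b c d e v || (bagB x b c d e a v || (bagB x c d e a b v ||
    bagB x d e a b c v)))

/-- Induced 5-cycle. -/
def cycB (x : Inp) (a b c d e : ℕ) : Bool :=
  (adjB x a b && (adjB x b c && (adjB x c d && (adjB x d e && adjB x e a)))) &&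
    (!(adjB x a c) && (!(adjB x b d) && (!(adjB x c e) && (!(adjB x d a) && !(adjB x e b)))))

/-- The test. -/
def test (z : Inp × ℕ) : Bool :=
  (List.range z.1.1).all fun a => (List.range z.1.1).all fun b => (List.range z.1.1).all fun c =>
    (List.range z.1.1).all fun d => (List.range z.1.1).all fun e =>
      !(cycB z.1 a b c d e) ||
        decide (((List.range z.1.1).filter fun v => inXB z.1 a b c d e v).length ≤ 2 * z.2)

section
variable {α : Type} [Code α]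

@[fun_prop]
theorem ptime_bagB {x : α → Inp} {p q r s t v : α → ℕ} (hx : PTime x) (hp : PTime p)
    (hq : PTime q) (hr : PTime r) (hs : PTime s) (ht : PTime t) (hv : PTime v) :
    PTime (fun a => bagB (x a) (p a) (q a) (r a) (s a) (t a) (v a)) := by
  unfold bagB
  fun_prop

@[fun_prop]
theorem ptime_inXB {x : α → Inp} {q r s t p v : α → ℕ} (hx : PTime x) (hp : PTime p)
    (hq : PTime q) (hr : PTime r) (hs : PTime s) (ht : PTime t) (hv : PTime v) :
    PTime (fun a => inXB (x a) (q a) (r a) (s a) (t a) (p a) (v a)) := by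
  unfold inXB
  fun_prop

@[fun_prop]
theorem ptime_cycB {x : α → Inp} {q r s t p : α → ℕ} (hx : PTime x) (hp : PTime p)
    (hq : PTime q) (hr : PTime r) (hs : PTime s) (ht : PTime t) :
    PTime (fun a => cycB (x a) (q a) (r a) (s a) (t a) (p a)) := by
  unfold cycB
  fun_prop

end

theorem ptime_test : PTime test := by
  unfold test
  refine PTime.all (by fun_prop) (PTime.all (by fun_prop) (PTime.all (by fun_prop)
    (PTime.all (by fun_prop) (PTime.all (by fun_prop) (PTime.or (by fun_prop) ?_)))))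
  have h : PTime (fun y : ((((((Inp × ℕ) × ℕ) × ℕ) × ℕ) × ℕ) × ℕ) =>
      ((List.range y.1.1.1.1.1.1.1).filter fun v =>
        inXB y.1.1.1.1.1.1 y.1.1.1.1.2 y.1.1.1.2 y.1.1.2 y.1.2 y.2 v)) :=
    PTime.filter (by fun_prop) (by fun_prop)
  exact PTime.natLe h.length (by fun_prop)

theorem adj_fin {n : ℕ} {E : List (ℕ × ℕ)} (u v : Fin n) :
    adjB (n, E) (u : ℕ) (v : ℕ) = true ↔ (graphOf n E).Adj u v := by
  rw [← ng_adj, ng_adj_iff]
  constructor
  · rintro ⟨_, _, h⟩; exact h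
  · intro h; exact ⟨u.2, v.2, h⟩

theorem forall5 {P : ZMod 5 → Prop} : (∀ i, P i) ↔ P 0 ∧ P 1 ∧ P 2 ∧ P 3 ∧ P 4 := by
  constructor
  · intro h; exact ⟨h 0, h 1, h 2, h 3, h 4⟩
  · rintro ⟨h0, h1, h2, h3, h4⟩ i
    have key : ∀ i : ZMod 5, i = 0 ∨ i = 1 ∨ i = 2 ∨ i = 3 ∨ i = 4 := by decide
    rcases key i with rfl | rfl | rfl | rfl | rfl <;> assumption

theorem exists5 {P : ZMod 5 → Prop} : (∃ i, P i) ↔ P 0 ∨ P 1 ∨ P 2 ∨ P 3 ∨ P 4 := by
  constructor
  · rintro ⟨i, h⟩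
    have key : ∀ i : ZMod 5, i = 0 ∨ i = 1 ∨ i = 2 ∨ i = 3 ∨ i = 4 := by decide
    rcases key i with rfl | rfl | rfl | rfl | rfl <;> tauto
  · rintro (h | h | h | h | h) <;> exact ⟨_, h⟩

theorem bagB_iff {n : ℕ} {E : List (ℕ × ℕ)} (p q r s t v : Fin n) :
    bagB (n, E) p q r s t v = true ↔ v = q ∨ ((graphOf n E).Adj v p ∧ (graphOf n E).Adj v q ∧
      (graphOf n E).Adj v r ∧ ¬ (graphOf n E).Adj v s ∧ ¬ (graphOf n E).Adj v t) := by
  simp only [bagB, Bool.or_eq_true, decide_eq_true_eq, Bool.and_eq_true, adj_fin,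
    Bool.not_eq_true', Bool.eq_false_iff, ne_eq, Fin.val_inj]

theorem inXB_iff {n : ℕ} {E : List (ℕ × ℕ)} (q : ZMod 5 → Fin n) (v : Fin n) :
    inXB (n, E) (q 0) (q 1) (q 2) (q 3) (q 4) v = true ↔ ∃ i, Bg (graphOf n E) q i v := by
  rw [exists5]
  simp only [inXB, Bool.or_eq_true, bagB_iff, Bg]
  have h00 : (0 : ZMod 5) + 4 = 4 := by decide
  have h01 : (0 : ZMod 5) + 1 = 1 := by decide
  have h02 : (0 : ZMod 5) + 2 = 2 := by decide
  have h03 : (0 : ZMod 5) + 3 = 3 := by decide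
  have h10 : (1 : ZMod 5) + 4 = 0 := by decide
  have h11 : (1 : ZMod 5) + 1 = 2 := by decide
  have h12 : (1 : ZMod 5) + 2 = 3 := by decide
  have h13 : (1 : ZMod 5) + 3 = 4 := by decide
  have h20 : (2 : ZMod 5) + 4 = 1 := by decide
  have h21 : (2 : ZMod 5) + 1 = 3 := by decide
  have h22 : (2 : ZMod 5) + 2 = 4 := by decide
  have h23 : (2 : ZMod 5) + 3 = 0 := by decide
  have h30 : (3 : ZMod 5) + 4 = 2 := by decide
  have h31 : (3 : ZMod 5) + 1 = 4 := by decide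
  have h32 : (3 : ZMod 5) + 2 = 0 := by decide
  have h33 : (3 : ZMod 5) + 3 = 1 := by decide
  have h40 : (4 : ZMod 5) + 4 = 3 := by decide
  have h41 : (4 : ZMod 5) + 1 = 0 := by decide
  have h42 : (4 : ZMod 5) + 2 = 1 := by decide
  have h43 : (4 : ZMod 5) + 3 = 2 := by decide
  rw [h00, h01, h02, h03, h10, h11, h12, h13, h20, h21, h22, h23, h30, h31, h32, h33, h40, h41,
    h42, h43]

theorem cycB_iff {n : ℕ} {E : List (ℕ × ℕ)} (q : ZMod 5 → Fin n) :
    cycB (n, E) (q 0) (q 1) (q 2) (q 3) (q 4) = true ↔ Cyc (graphOf n E) q := by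
  unfold Cyc
  rw [forall5]
  simp only [cycB, Bool.and_eq_true, adj_fin, Bool.not_eq_true', Bool.eq_false_iff, ne_eq]
  have h01 : (0 : ZMod 5) + 1 = 1 := by decide
  have h02 : (0 : ZMod 5) + 2 = 2 := by decide
  have h11 : (1 : ZMod 5) + 1 = 2 := by decide
  have h12 : (1 : ZMod 5) + 2 = 3 := by decide
  have h21 : (2 : ZMod 5) + 1 = 3 := by decide
  have h22 : (2 : ZMod 5) + 2 = 4 := by decide
  have h31 : (3 : ZMod 5) + 1 = 4 := by decide
  have h32 : (3 : ZMod 5) + 2 = 0 := by decide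
  have h41 : (4 : ZMod 5) + 1 = 0 := by decide
  have h42 : (4 : ZMod 5) + 2 = 1 := by decide
  rw [h01, h02, h11, h12, h21, h22, h31, h32, h41, h42]
  tauto

theorem ncard_eq (n : ℕ) (p : ℕ → Bool) :
    ({v : Fin n | p v = true} : Set (Fin n)).ncard = ((List.range n).filter p).length := by
  have h1 : (Fin.val '' {v : Fin n | p v = true}).ncard = ({v : Fin n | p v = true} : Set (Fin n)).ncard :=
    Set.ncard_image_of_injective _ Fin.val_injective
  have h2 : Fin.val '' {v : Fin n | p v = true} = (((List.range n).filter p).toFinset : Set ℕ) := by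
    ext v
    simp only [Set.mem_image, Set.mem_ofPred_eq, List.coe_toFinset, List.mem_filter, List.mem_range]
    constructor
    · rintro ⟨w, hw, rfl⟩; exact ⟨w.2, hw⟩
    · rintro ⟨hv, hp⟩; exact ⟨⟨v, hv⟩, hp, rfl⟩
  rw [← h1, h2, Set.ncard_coe_finset, List.toFinset_card_of_nodup]
  exact List.nodup_range.filter _

theorem test_iff (n : ℕ) (E : List (ℕ × ℕ)) (k : ℕ) : test ((n, E), k) = true ↔
    ∀ q : ZMod 5 → Fin n, Cyc (graphOf n E) q →
      ({v | ∃ i, Bg (graphOf n E) q i v} : Set (Fin n)).ncard ≤ 2 * k := by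
  have hX : ∀ q : ZMod 5 → Fin n, ({v | ∃ i, Bg (graphOf n E) q i v} : Set (Fin n)).ncard =
      ((List.range n).filter fun v => inXB (n, E) (q 0) (q 1) (q 2) (q 3) (q 4) v).length := by
    intro q
    rw [← ncard_eq]
    congr 1
    ext v
    simp only [Set.mem_ofPred_eq]
    exact (inXB_iff q v).symm
  simp only [test, List.all_eq_true, List.mem_range, Bool.or_eq_true, Bool.not_eq_true',
    decide_eq_true_eq]
  constructor
  · intro h q hq
    rw [hX q]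
    refine (h (q 0) (q 0).2 (q 1) (q 1).2 (q 2) (q 2).2 (q 3) (q 3).2 (q 4) (q 4).2).resolve_left
      (fun h1 => ?_)
    rw [(cycB_iff q).2 hq] at h1
    exact Bool.noConfusion h1
  · intro h a ha b hb c hc d hd e he
    let q : ZMod 5 → Fin n := (![⟨a, ha⟩, ⟨b, hb⟩, ⟨c, hc⟩, ⟨d, hd⟩, ⟨e, he⟩] : Fin 5 → Fin n)
    have q0 : q 0 = ⟨a, ha⟩ := rfl
    have q1 : q 1 = ⟨b, hb⟩ := rfl
    have q2 : q 2 = ⟨c, hc⟩ := rfl
    have q3 : q 3 = ⟨d, hd⟩ := rfl
    have q4 : q 4 = ⟨e, he⟩ := rfl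
    by_cases hcyc : cycB (n, E) a b c d e = true
    · right
      have h1 : Cyc (graphOf n E) q := by
        rw [← cycB_iff, q0, q1, q2, q3, q4]; exact hcyc
      have h2 := h q h1
      rw [hX q, q0, q1, q2, q3, q4] at h2
      exact h2
    · left
      simpa using hcyc

end SA2

open SA2 in
theorem sa2 : ∃ t : Inp × ℕ → Bool, PTime t ∧ ∀ (n : ℕ) (E : List (ℕ × ℕ)) (k : ℕ),
    Cls (graphOf n E) →
      (t ((n, E), k) = true ↔ ∀ s : Set (Fin n), C5E (graphOf n E) s → s.ncard ≤ 2 * k) := by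
  refine ⟨test, ptime_test, fun n E k hc => ?_⟩
  rw [test_iff]
  constructor
  · intro h s hs
    obtain ⟨q, hq, hsub⟩ := exists_cyc hs
    exact (Set.ncard_le_ncard hsub (Set.toFinite _)).trans (h q hq)
  · intro h q hq
    exact h _ (hq.c5e hc)

end GP
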