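import Pool.Agent.Work.MP_31af1e_lc.Defs
import Pool.Agent.Work.MP_c4d05f_lc.Final

/-!
Module SA3: brute force on subsets of bounded size, in polynomial time.
-/

set_option autoImplicit false

namespace GP

open Pool.Agent.Work.PolyTime
open Pool.Agent.Work.MP_c4d05f_lc (Inp graphOf adjB ng ng_adj ng_adj_iff ptime_adjB)

namespace SA3

/-- All lists of length `m` with entries `< N`. -/
def lists (N : ℕ) : ℕ → List (List ℕ)
  | 0 => [[]]
  | m + 1 => (lists N m).flatMap fun l => (List.range N).map fun c => c :: l

theorem mem_lists {N m : ℕ} {l : List ℕ} : l ∈ lists N m ↔ l.length = m ∧ ∀ c ∈ l, c < N := by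
  induction m generalizing l with
  | zero =>
    simp only [lists, List.mem_singleton, List.length_eq_zero_iff]
    constructor
    · rintro rfl; simp
    · exact fun h => h.1
  | succ m ih =>
    simp only [lists, List.mem_flatMap, List.mem_map, List.mem_range]
    constructor
    · rintro ⟨l', hl', c, hc, rfl⟩
      obtain ⟨h1, h2⟩ := ih.1 hl'
      refine ⟨by simp [h1], ?_⟩
      intro d hd
      rcases List.mem_cons.1 hd with rfl | hd
      · exact hc
      · exact h2 d hd
    · rintro ⟨h1, h2⟩
      cases l with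
      | nil => simp at h1
      | cons c l =>
        refine ⟨l, ih.2 ⟨by simpa using h1, fun d hd => h2 d (List.mem_cons_of_mem _ hd)⟩, c,
          h2 c List.mem_cons_self, rfl⟩

/-- The pairs (vertex, colour) form a proper colouring. -/
def check (z : Inp × ℕ) (L : List (ℕ × ℕ)) : Bool :=
  L.all fun p => decide (p.2 < z.2) && L.all fun q =>
    (!(decide (p.1 = q.1)) || decide (p.2 = q.2)) && (!(adjB z.1 p.1 q.1) || !(decide (p.2 = q.2)))

theorem check_iff {z : Inp × ℕ} {L : List (ℕ × ℕ)} : check z L = true ↔
    ∀ p ∈ L, p.2 < z.2 ∧ ∀ q ∈ L, (p.1 = q.1 → p.2 = q.2) ∧ ((ng z.1).Adj p.1 q.1 → p.2 ≠ q.2) := by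
  simp only [check, List.all_eq_true, Bool.and_eq_true, decide_eq_true_eq, Bool.or_eq_true,
    Bool.not_eq_true', decide_eq_false_iff_not, ng_adj]
  constructor
  · intro h p hp
    refine ⟨(h p hp).1, fun q hq => ⟨fun h1 => ?_, fun h1 => ?_⟩⟩
    · exact ((h p hp).2 q hq).1.resolve_left (fun h2 => h2 h1)
    · refine ((h p hp).2 q hq).2.resolve_left (fun h2 => ?_)
      rw [h1] at h2
      exact Bool.noConfusion h2
  · intro h p hp
    refine ⟨(h p hp).1, fun q hq => ⟨?_, ?_⟩⟩
    · by_cases h1 : p.1 = q.1
      · exact Or.inr (((h p hp).2 q hq).1 h1)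
      · exact Or.inl h1
    · cases h1 : adjB z.1 p.1 q.1
      · exact Or.inl rfl
      · exact Or.inr (((h p hp).2 q hq).2 h1)

/-- The test for one list of `N` vertices. -/
def test (N : ℕ) (z : Inp × ℕ) (q : List ℕ) : Bool :=
  (lists N N).any fun cs => check z (q.zip cs)

/-- The test for all lists with `m` further vertices. -/
def allQ (N : ℕ) : ℕ → Inp × ℕ → List ℕ → Bool
  | 0, z, q => test N z q
  | m + 1, z, q => (List.range z.1.1).all fun v => allQ N m z (v :: q)

theorem allQ_iff {N m : ℕ} {z : Inp × ℕ} {q : List ℕ} : allQ N m z q = true ↔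
    ∀ l : List ℕ, l.length = m → (∀ v ∈ l, v < z.1.1) → test N z (l.reverse ++ q) = true := by
  induction m generalizing q with
  | zero =>
    constructor
    · intro h l hl _
      rw [List.length_eq_zero_iff] at hl
      subst hl
      simpa [allQ] using h
    · intro h
      simpa [allQ] using h [] rfl (by simp)
  | succ m ih =>
    simp only [allQ, List.all_eq_true, List.mem_range]
    constructor
    · intro h l hl hlv
      cases l with
      | nil => simp at hl
      | cons v l =>
        have h1 := (ih.1 (h v (hlv v List.mem_cons_self))) l (by simpa using hl)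
          (fun w hw => hlv w (List.mem_cons_of_mem _ hw))
        simpa using h1
    · intro h v hv
      rw [ih]
      intro l hl hlv
      have h1 := h (v :: l) (by simp [hl]) (by
        intro w hw
        rcases List.mem_cons.1 hw with rfl | hw
        · exact hv
        · exact hlv w hw)
      simpa using h1

theorem ptime_check {α : Type} [Code α] {z : α → Inp × ℕ} {L : α → List (ℕ × ℕ)} (hz : PTime z)
    (hL : PTime L) : PTime (fun a => check (z a) (L a)) := by
  unfold check
  refine PTime.all hL (PTime.and (by fun_prop) (PTime.all (hL.comp PTime.fst) ?_))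
  fun_prop

theorem ptime_test (N : ℕ) : PTime (fun y : (Inp × ℕ) × List ℕ => test N y.1 y.2) := by
  unfold test
  refine PTime.any (PTime.const _) ?_
  exact ptime_check (z := fun y : ((Inp × ℕ) × List ℕ) × List ℕ => y.1.1) (by fun_prop)
    (by fun_prop)

theorem ptime_allQ (N m : ℕ) : PTime (fun y : (Inp × ℕ) × List ℕ => allQ N m y.1 y.2) := by
  induction m with
  | zero => exact ptime_test N
  | succ m ih =>
    have h : PTime (fun y : (Inp × ℕ) × List ℕ =>
        (List.range y.1.1.1).all fun v => allQ N m y.1 (v :: y.2)) := by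
      refine PTime.all (by fun_prop) ?_
      exact ih.comp (f := fun w : ((Inp × ℕ) × List ℕ) × ℕ => (w.1.1, w.2 :: w.1.2)) (by fun_prop)
    exact h

end SA3

open SA3 in
theorem sa3 (N : ℕ) : ∃ t : Inp × ℕ → Bool, PTime t ∧ ∀ (n : ℕ) (E : List (ℕ × ℕ)) (k : ℕ),
    (t ((n, E), k) = true ↔ ∀ s : Set (Fin n), s.ncard ≤ N → Col (graphOf n E) s k) := by
  classical
  refine ⟨fun z => allQ N N z [], ?_, ?_⟩
  · exact (ptime_allQ N N).comp (f := fun z : Inp × ℕ => (z, ([] : List ℕ))) (by fun_prop)
  intro n E k
  rw [allQ_iff]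
  constructor
  · intro h s hs
    rcases s.eq_empty_or_nonempty with rfl | ⟨v0, hv0⟩
    · exact ⟨fun _ => 0, fun v hv => hv.elim, fun v hv => hv.elim⟩
    have hfin : s.Finite := Set.toFinite s
    set l0 : List ℕ := (hfin.toFinset.toList).map (fun v : Fin n => (v : ℕ)) with hl0
    have hlen0 : l0.length = s.ncard := by
      rw [hl0, List.length_map, Finset.length_toList, Set.ncard_eq_toFinset_card s hfin]
    set l : List ℕ := l0 ++ List.replicate (N - l0.length) (v0 : ℕ) with hl
    have hlen : l.length = N := by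
      rw [hl, List.length_append, List.length_replicate]; omega
    have hlt : ∀ v ∈ l, v < n := by
      intro v hv
      rw [hl, List.mem_append, List.mem_replicate, hl0, List.mem_map] at hv
      rcases hv with ⟨w, -, rfl⟩ | ⟨-, rfl⟩
      · exact w.2
      · exact v0.2
    have hsl : ∀ v ∈ s, (v : ℕ) ∈ l.reverse := by
      intro v hv
      rw [List.mem_reverse, hl, List.mem_append, hl0, List.mem_map]
      exact Or.inl ⟨v, Finset.mem_toList.2 (hfin.mem_toFinset.2 hv), rfl⟩
    have ht := h l hlen hlt
    rw [List.append_nil, test, List.any_eq_true] at ht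
    obtain ⟨cs, hcs, hck⟩ := ht
    obtain ⟨hcl, -⟩ := mem_lists.1 hcs
    rw [check_iff] at hck
    set L := l.reverse.zip cs with hL
    have hex : ∀ v ∈ s, ∃ c, ((v : ℕ), c) ∈ L := by
      intro v hv
      obtain ⟨i, hi, hiv⟩ := List.mem_iff_getElem.1 (hsl v hv)
      have hi' : i < cs.length := by
        rw [List.length_reverse] at hi; omega
      refine ⟨cs[i], ?_⟩
      rw [hL, List.mem_iff_getElem]
      refine ⟨i, by rw [List.length_zip]; omega, ?_⟩
      rw [List.getElem_zip, hiv]
    choose! c hc using hex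
    refine ⟨c, fun v hv => (hck _ (hc v hv)).1, fun u hu v hv huv => ?_⟩
    refine ((hck _ (hc u hu)).2 _ (hc v hv)).2 ?_
    rw [ng_adj_iff]
    exact ⟨u.2, v.2, huv⟩
  · intro h l hl hlt
    rw [List.append_nil, test, List.any_eq_true]
    set s : Set (Fin n) := {v | (v : ℕ) ∈ l} with hs
    have hscard : s.ncard ≤ N := by
      have h1 : (Fin.val '' s).ncard = s.ncard := Set.ncard_image_of_injective _ Fin.val_injective
      have h2 : Fin.val '' s ⊆ (l.toFinset : Set ℕ) := by
        rintro _ ⟨v, hv, rfl⟩
        have hv' : (v : ℕ) ∈ l := hv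
        simpa using hv'
      have h3 := Set.ncard_le_ncard h2 (Finset.finite_toSet _)
      rw [Set.ncard_coe_finset] at h3
      have h4 := List.toFinset_card_le l
      omega
    obtain ⟨c, c1, c2⟩ := h s hscard
    set C : Finset ℕ := (Set.toFinite s).toFinset.image c with hC
    have hCN : C.card ≤ N := by
      rw [hC]
      refine Finset.card_image_le.trans ?_
      rw [← Set.ncard_eq_toFinset_card s]
      exact hscard
    set ρ : ℕ → ℕ := fun d => (C.filter (· < d)).card with hρ
    have hρN : ∀ d ∈ C, ρ d < N := by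
      intro d hd
      refine lt_of_lt_of_le (Finset.card_lt_card ?_) hCN
      rw [Finset.filter_ssubset]
      exact ⟨d, hd, lt_irrefl d⟩
    have hρd : ∀ d, ρ d ≤ d := by
      intro d
      have h1 : C.filter (· < d) ⊆ Finset.range d := by
        intro a ha
        rw [Finset.mem_range]
        exact (Finset.mem_filter.1 ha).2
      simpa using Finset.card_le_card h1
    have hρlt : ∀ d ∈ C, ∀ d', d < d' → ρ d < ρ d' := by
      intro d hd d' hlt'
      refine Finset.card_lt_card ⟨fun a ha => ?_, fun h1 => ?_⟩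
      · rw [Finset.mem_filter] at ha ⊢
        exact ⟨ha.1, ha.2.trans hlt'⟩
      · have := h1 (Finset.mem_filter.2 ⟨hd, hlt'⟩)
        exact lt_irrefl d (Finset.mem_filter.1 this).2
    have hρinj : ∀ d ∈ C, ∀ d' ∈ C, ρ d = ρ d' → d = d' := by
      intro d hd d' hd' he
      rcases lt_trichotomy d d' with h1 | h1 | h1
      · exact absurd he (hρlt d hd d' h1).ne
      · exact h1
      · exact absurd he (hρlt d' hd' d h1).ne'
    have hmC : ∀ v : Fin n, (v : ℕ) ∈ l → c v ∈ C := by
      intro v hv
      rw [hC, Finset.mem_image]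
      exact ⟨v, by simpa [hs] using hv, rfl⟩
    let g : ℕ → ℕ := fun v => if hv : v < n then ρ (c ⟨v, hv⟩) else 0
    have hg : ∀ v : Fin n, g v = ρ (c v) := by
      intro v
      simp [g]
    refine ⟨l.reverse.map g, ?_, ?_⟩
    · rw [mem_lists]
      refine ⟨by simp [hl], ?_⟩
      intro d hd
      rw [List.mem_map] at hd
      obtain ⟨v, hv, rfl⟩ := hd
      rw [List.mem_reverse] at hv
      have := hg ⟨v, hlt v hv⟩
      simp only at this
      rw [this]
      exact hρN _ (hmC ⟨v, hlt v hv⟩ hv)
    · rw [check_iff]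
      have hL : ∀ p ∈ l.reverse.zip (l.reverse.map g), ∃ v : Fin n, (v : ℕ) ∈ l ∧
          p = ((v : ℕ), ρ (c v)) := by
        intro p hp
        obtain ⟨i, hi, rfl⟩ := List.mem_iff_getElem.1 hp
        rw [List.getElem_zip, List.getElem_map]
        have hi' : i < l.reverse.length := by
          rw [List.length_zip] at hi; omega
        have hmem : l.reverse[i] ∈ l := List.mem_reverse.1 (List.getElem_mem hi')
        refine ⟨⟨l.reverse[i], hlt _ hmem⟩, hmem, ?_⟩
        have := hg ⟨l.reverse[i], hlt _ hmem⟩
        simp only at this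
        rw [this]
      intro p hp
      obtain ⟨v, hv, rfl⟩ := hL p hp
      refine ⟨lt_of_le_of_lt (hρd _) (c1 v hv), ?_⟩
      intro q hq
      obtain ⟨w, hw, rfl⟩ := hL q hq
      refine ⟨fun h1 => ?_, fun h1 h2 => ?_⟩
      · simp only at h1
        have : v = w := Fin.ext h1
        rw [this]
      · have h3 := hρinj _ (hmC v hv) _ (hmC w hw) h2
        obtain ⟨_, _, h4⟩ := ng_adj_iff.1 h1
        exact c2 v hv w hw h4 h3

end GP
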