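import Pool.Agent.Work.MP_31af1e_lc.Defs

/-!
Module BA: basic facts on colourings and critical graphs.
-/

set_option autoImplicit false

namespace GP

variable {V : Type} {G : SimpleGraph V}

theorem Col.mono {s t : Set V} {k l : ℕ} (h : Col G t k) (hs : s ⊆ t) (hk : k ≤ l) : Col G s l := by
  obtain ⟨c, h1, h2⟩ := h
  exact ⟨c, fun v hv => (h1 v (hs hv)).trans_le hk, fun u hu v hv => h2 u (hs hu) v (hs hv)⟩

theorem CL.mono {s t : Set V} {k l : ℕ} (h : CL G t k) (hs : s ⊆ t) (hk : k ≤ l) : CL G s l :=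
  fun T hT hc => (h T (hT.trans hs) hc).trans hk

/-- Adding a stable set costs one colour. -/
theorem Col.add_stable {s S : Set V} {k : ℕ} (h : Col G s k)
    (hS : ∀ u ∈ S, ∀ v ∈ S, ¬ G.Adj u v) : Col G (s ∪ S) (k + 1) := by
  classical
  obtain ⟨c, h1, h2⟩ := h
  refine ⟨fun v => if v ∈ S then k else c v, ?_, ?_⟩
  · intro v hv
    by_cases hvS : v ∈ S
    · simp [hvS]
    · have := h1 v (hv.resolve_right hvS)
      simp [hvS]; omega
  · intro u hu v hv huv
    by_cases huS : u ∈ S <;> by_cases hvS : v ∈ S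
    · exact absurd huv (hS u huS v hvS)
    · have := h1 v (hv.resolve_right hvS)
      simp [huS, hvS]; omega
    · have := h1 u (hu.resolve_right huS)
      simp [huS, hvS]; omega
    · simpa [huS, hvS] using h2 u (hu.resolve_right huS) v (hv.resolve_right hvS) huv

/-- Anticomplete sets can be coloured independently. -/
theorem Col.union_anti {s t : Set V} {k : ℕ} (h1 : Col G s k) (h2 : Col G t k)
    (ha : Anti G s t) : Col G (s ∪ t) k := by
  classical
  obtain ⟨c, c1, c2⟩ := h1
  obtain ⟨d, d1, d2⟩ := h2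
  refine ⟨fun v => if v ∈ s then c v else d v, ?_, ?_⟩
  · intro v hv
    by_cases hvs : v ∈ s
    · simpa [hvs] using c1 v hvs
    · simpa [hvs] using d1 v (hv.resolve_left hvs)
  · intro u hu v hv huv
    by_cases hus : u ∈ s <;> by_cases hvs : v ∈ s
    · simpa [hus, hvs] using c2 u hus v hvs huv
    · exact absurd huv (ha u hus v (hv.resolve_left hvs))
    · exact absurd huv.symm (ha v hvs u (hu.resolve_left hus))
    · simpa [hus, hvs] using d2 u (hu.resolve_left hus) v (hv.resolve_left hvs) huv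

/-- Colourings pull back along homomorphisms. -/
theorem Col.pull {s : Set V} {k : ℕ} (h : Col G s k) {t : Set V} (f : V → V)
    (hfs : ∀ v ∈ t, f v ∈ s) (hf : ∀ u ∈ t, ∀ v ∈ t, G.Adj u v → G.Adj (f u) (f v)) :
    Col G t k := by
  obtain ⟨c, c1, c2⟩ := h
  exact ⟨fun v => c (f v), fun v hv => c1 _ (hfs v hv), fun u hu v hv huv =>
    c2 _ (hfs u hu) _ (hfs v hv) (hf u hu v hv huv)⟩

/-- A set that is not `k`-colourable contains a minimal one. -/
theorem exists_crit_sub [Finite V] {k : ℕ} {s₀ : Set V} (h : ¬ Col G s₀ k) :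
    ∃ s : Set V, s ⊆ s₀ ∧ ¬ Col G s k ∧ ∀ t : Set V, t ⊆ s → t ≠ s → Col G t k := by
  classical
  have key : ∀ n : ℕ, ∀ s : Set V, s.ncard = n → s ⊆ s₀ → ¬ Col G s k →
      ∃ s : Set V, s ⊆ s₀ ∧ ¬ Col G s k ∧ ∀ t : Set V, t ⊆ s → t ≠ s → Col G t k := by
    intro n
    induction n using Nat.strong_induction_on with
    | _ n ih =>
      intro s hs hs0 hcol
      by_cases hall : ∀ t : Set V, t ⊆ s → t ≠ s → Col G t k
      · exact ⟨s, hs0, hcol, hall⟩
      · push Not at hall
        obtain ⟨t, hts, hne, hct⟩ := hall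
        have hlt : t.ncard < s.ncard := Set.ncard_lt_ncard (hts.ssubset_of_ne hne) (Set.toFinite s)
        exact ih t.ncard (by omega) t rfl (hts.trans hs0) hct
  exact key _ s₀ rfl subset_rfl h

/-- Every endomorphism of a critical graph is surjective. -/
theorem Crit.retract {k : ℕ} (h : Crit G k) (f : V → V)
    (hf : ∀ u v, G.Adj u v → G.Adj (f u) (f v)) : Function.Surjective f := by
  by_contra hns
  apply h.1
  have h1 : Col G (Set.range f) k := by
    apply h.2
    intro heq
    exact hns (Set.range_eq_univ.1 heq)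
  exact h1.pull f (fun v _ => ⟨v, rfl⟩) (fun u _ v _ huv => hf u v huv)

theorem Crit.nodom {k : ℕ} (h : Crit G k) : NoDom G := by
  classical
  intro u v huv
  by_contra hcon
  push Not at hcon
  have hs := h.retract (fun z => if z = u then v else z) (by
    intro a b hab
    by_cases ha : a = u <;> by_cases hb : b = u
    · subst ha; subst hb; exact absurd hab (G.loopless.irrefl _)
    · subst ha; simpa [hb] using hcon b hab
    · subst hb; simpa [ha] using (hcon a hab.symm).symm
    · simpa [ha, hb] using hab)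
  obtain ⟨z, hz⟩ := hs u
  by_cases hzu : z = u
  · simp [hzu] at hz; exact huv hz.symm
  · simp [hzu] at hz

/-- In a colouring of `G - v`, all colours appear in the neighbourhood of `v`. -/
theorem Crit.full {k : ℕ} (h : Crit G k) (v : V) (c : V → ℕ) (hc : ∀ u, u ≠ v → c u < k)
    (hp : ∀ u, u ≠ v → ∀ w, w ≠ v → G.Adj u w → c u ≠ c w) (i : ℕ) (hi : i < k) :
    ∃ u, G.Adj v u ∧ c u = i := by
  classical
  by_contra hcon
  push Not at hcon
  apply h.1
  refine ⟨fun z => if z = v then i else c z, ?_, ?_⟩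
  · intro z _
    by_cases hz : z = v
    · simpa [hz] using hi
    · simpa [hz] using hc z hz
  · intro a _ b _ hab
    by_cases ha : a = v <;> by_cases hb : b = v
    · subst ha; subst hb; exact absurd hab (G.loopless.irrefl _)
    · subst ha; simpa [hb] using (hcon b hab).symm
    · subst hb; simpa [ha] using hcon a hab.symm
    · simpa [ha, hb] using hp a ha b hb hab

theorem Crit.del {k : ℕ} (h : Crit G k) (v : V) : ∃ c : V → ℕ, (∀ u, u ≠ v → c u < k) ∧
    ∀ u, u ≠ v → ∀ w, w ≠ v → G.Adj u w → c u ≠ c w := by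
  obtain ⟨c, h1, h2⟩ := h.2 {u | u ≠ v} (by
    intro heq
    have : v ∈ ({u | u ≠ v} : Set V) := by rw [heq]; trivial
    exact this rfl)
  exact ⟨c, h1, h2⟩

/-- Every vertex has degree at least `k`. -/
theorem Crit.deg {k : ℕ} (h : Crit G k) (v : V) :
    ∃ t : Finset V, t.card = k ∧ ∀ u ∈ t, G.Adj v u := by
  classical
  obtain ⟨c, h1, h2⟩ := h.del v
  have : Nonempty V := ⟨v⟩
  choose! g hg using fun i (hi : i < k) => h.full v c h1 h2 i hi
  refine ⟨(Finset.range k).image g, ?_, ?_⟩
  · rw [Finset.card_image_of_injOn, Finset.card_range]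
    intro i hi j hj hij
    simp only [Finset.coe_range, Set.mem_Iio] at hi hj
    rw [← (hg i hi).2, ← (hg j hj).2, hij]
  · intro u hu
    obtain ⟨i, hi, rfl⟩ := Finset.mem_image.1 hu
    exact (hg i (Finset.mem_range.1 hi)).1

/-- Critical graphs are connected. -/
theorem Crit.conn {k : ℕ} (h : Crit G k) (s : Set V) (hne : s.Nonempty) (hnu : s ≠ Set.univ) :
    ∃ u ∈ s, ∃ v ∉ s, G.Adj u v := by
  by_contra hcon
  push Not at hcon
  apply h.1
  have h1 := (h.2 s hnu).union_anti (h.2 sᶜ (by
    intro heq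
    obtain ⟨u, hu⟩ := hne
    have : u ∈ sᶜ := by rw [heq]; trivial
    exact this hu)) (fun u hu v hv => hcon u hu v hv)
  rwa [Set.union_compl_self] at h1

theorem NoGem.nbr (h : NoGem G) (v : V) : P4F G {u | G.Adj v u} :=
  fun a ha b hb c hc d hd hab hbc hcd hac had hbd => h v a b c d ha hb hc hd hab hbc hcd hac had hbd

theorem NoPP.far (h : NoPP G) {a b : V} (hab : G.Adj a b) :
    P3F G {u | ¬ G.Adj a u ∧ ¬ G.Adj b u} := by
  intro c hc d hd e he hcd hde hce
  by_contra hn
  exact h a b c d e hab hcd hde hce hn hc.1 hd.1 he.1 hc.2 hd.2 he.2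

theorem P4F.mono {s t : Set V} (h : P4F G t) (hs : s ⊆ t) : P4F G s :=
  fun a ha b hb c hc d hd => h a (hs ha) b (hs hb) c (hs hc) d (hs hd)

end GP
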