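import Mathlib

/-!
Definitions for the structure of (gem, P2+P3)-free graphs.
-/

set_option autoImplicit false

namespace GP

variable {V : Type}

/-- No induced gem: the centre is `c`, the path is `a b d e`. -/
def NoGem (G : SimpleGraph V) : Prop :=
  ∀ c a b d e, G.Adj c a → G.Adj c b → G.Adj c d → G.Adj c e → G.Adj a b → G.Adj b d → G.Adj d e →
    ¬ G.Adj a d → ¬ G.Adj a e → ¬ G.Adj b e → False

/-- No induced `P2 + P3`: the edge is `a b`, the path is `c d e`. -/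
def NoPP (G : SimpleGraph V) : Prop :=
  ∀ a b c d e, G.Adj a b → G.Adj c d → G.Adj d e → c ≠ e → ¬ G.Adj c e → ¬ G.Adj a c →
    ¬ G.Adj a d → ¬ G.Adj a e → ¬ G.Adj b c → ¬ G.Adj b d → ¬ G.Adj b e → False

/-- The class of (gem, P2+P3)-free graphs. -/
structure Cls (G : SimpleGraph V) : Prop where
  gem : NoGem G
  pp : NoPP G

/-- No induced `P4` inside `s`. -/
def P4F (G : SimpleGraph V) (s : Set V) : Prop :=
  ∀ a ∈ s, ∀ b ∈ s, ∀ c ∈ s, ∀ d ∈ s, G.Adj a b → G.Adj b c → G.Adj c d →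
    ¬ G.Adj a c → ¬ G.Adj a d → ¬ G.Adj b d → False

/-- No induced `P3` inside `s`: the subgraph induced by `s` is a disjoint union of cliques. -/
def P3F (G : SimpleGraph V) (s : Set V) : Prop :=
  ∀ a ∈ s, ∀ b ∈ s, ∀ c ∈ s, G.Adj a b → G.Adj b c → a ≠ c → G.Adj a c

/-- The subgraph induced by `s` has a proper colouring with colours `0, …, k - 1`. -/
def Col (G : SimpleGraph V) (s : Set V) (k : ℕ) : Prop :=
  ∃ c : V → ℕ, (∀ v ∈ s, c v < k) ∧ ∀ u ∈ s, ∀ v ∈ s, G.Adj u v → c u ≠ c v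

/-- All cliques inside `s` have at most `k` vertices. -/
def CL (G : SimpleGraph V) (s : Set V) (k : ℕ) : Prop :=
  ∀ t : Finset V, (t : Set V) ⊆ s → G.IsClique (t : Set V) → t.card ≤ k

/-- `(k + 1)`-vertex-critical. -/
def Crit (G : SimpleGraph V) (k : ℕ) : Prop :=
  ¬ Col G Set.univ k ∧ ∀ s : Set V, s ≠ Set.univ → Col G s k

/-- No vertex is dominated by another one. -/
def NoDom (G : SimpleGraph V) : Prop := ∀ u v : V, u ≠ v → ∃ z, G.Adj u z ∧ ¬ G.Adj v z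

/-- The subgraph induced by `s` is a clique expansion of the cycle `C5` (five nonempty bags). -/
def C5E (G : SimpleGraph V) (s : Set V) : Prop :=
  ∃ f : V → ZMod 5, (∀ i, ∃ v ∈ s, f v = i) ∧
    ∀ u ∈ s, ∀ v ∈ s, u ≠ v → (G.Adj u v ↔ (f v = f u ∨ f v = f u + 1 ∨ f u = f v + 1))

/-- Adjacent twins. -/
def Twin (G : SimpleGraph V) (a b : V) : Prop :=
  G.Adj a b ∧ ∀ z, z ≠ a → z ≠ b → (G.Adj z a ↔ G.Adj z b)

/-- The non-neighbours of `q`. -/
def NN (G : SimpleGraph V) (q : V) : Set V := {v | v ≠ q ∧ ¬ G.Adj q v}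

/-- Two sets with no edge between them. -/
def Anti (G : SimpleGraph V) (s t : Set V) : Prop := ∀ u ∈ s, ∀ v ∈ t, ¬ G.Adj u v

/-- The situation that arises from three pairwise anticomplete edges. -/
structure ThreeP2 (G : SimpleGraph V) (W : Set V) : Prop where
  p3 : P3F G Wᶜ
  hit : ∀ w ∈ W, ∀ a ∉ W, ∀ b ∉ W, G.Adj a b → G.Adj w a ∨ G.Adj w b
  ex : ∃ x y : Fin 3 → V, (∀ i, x i ∉ W ∧ y i ∉ W ∧ G.Adj (x i) (y i)) ∧
    ∀ i j, i ≠ j → ¬ G.Adj (x i) (x j) ∧ ¬ G.Adj (x i) (y j) ∧ ¬ G.Adj (y i) (y j)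

/-- An induced matching with `m` edges. -/
def IndMatch (G : SimpleGraph V) (m : ℕ) : Prop :=
  ∃ x y : Fin m → V, (∀ i, G.Adj (x i) (y i)) ∧
    ∀ i j, i ≠ j → ¬ G.Adj (x i) (x j) ∧ ¬ G.Adj (x i) (y j) ∧ ¬ G.Adj (y i) (y j)

/-- `n` columns: different components `{x i, y i}` of size two of the complement of `W`. -/
structure Cols (G : SimpleGraph V) (W : Set V) (n : ℕ) (x y : Fin n → V) : Prop where
  xW : ∀ i, x i ∉ W
  yW : ∀ i, y i ∉ W
  xy : ∀ i, G.Adj (x i) (y i)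
  nx : ∀ i, ∀ z ∉ W, G.Adj z (x i) → z = y i
  ny : ∀ i, ∀ z ∉ W, G.Adj z (y i) → z = x i
  xx : ∀ i j, i ≠ j → x i ≠ x j
  xyne : ∀ i j, i ≠ j → x i ≠ y j
  yy : ∀ i j, i ≠ j → y i ≠ y j

end GP
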