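import Pool.Agent.Work.MP_31af1e_lc.BA

/-!
Translation: induced subgraphs, colourings.
-/

set_option autoImplicit false

namespace GP

/-- The gem: the complement of `P1 + P4`. -/
def gemGraph : SimpleGraph (Fin 1 ⊕ Fin 4) :=
  (SimpleGraph.pathGraph 1 ⊕g SimpleGraph.pathGraph 4)ᶜ

/-- The graph `P2 + P3`. -/
def p2p3Graph : SimpleGraph (Fin 2 ⊕ Fin 3) :=
  SimpleGraph.pathGraph 2 ⊕g SimpleGraph.pathGraph 3

/-- The graph `G` is `H`-free: no induced subgraph of `G` is isomorphic to `H`. -/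
def IndFree {U V : Type} (H : SimpleGraph U) (G : SimpleGraph V) : Prop := IsEmpty (H ↪g G)

variable {V : Type} {G : SimpleGraph V}

theorem noGem_of_free (h : IndFree gemGraph G) : NoGem G := by
  intro c a b d e hca hcb hcd hce hab hbd hde nad nae nbe
  apply h.false
  have irr : ∀ v, ¬ G.Adj v v := fun v => G.loopless.irrefl v
  let φ : Fin 1 ⊕ Fin 4 → V := Sum.elim (fun _ => c) ![b, e, a, d]
  have key : ∀ x y, (gemGraph.Adj x y ↔ G.Adj (φ x) (φ y)) := by
    have nda : ¬ G.Adj d a := fun h => nad h.symm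
    have nea : ¬ G.Adj e a := fun h => nae h.symm
    have neb : ¬ G.Adj e b := fun h => nbe h.symm
    rintro (x | x) (y | y)
    · fin_cases x; fin_cases y
      simp [gemGraph, φ]
    · fin_cases x; fin_cases y <;> simp [gemGraph, φ, hca, hcb, hcd, hce]
    · fin_cases y; fin_cases x <;> simp [gemGraph, φ, hca.symm, hcb.symm, hcd.symm, hce.symm]
    · fin_cases x <;> fin_cases y <;>
        simp [gemGraph, φ, SimpleGraph.pathGraph_adj, hab, hab.symm, hbd, hbd.symm, hde, hde.symm,
          nad, nae, nbe, nda, nea, neb]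
  refine ⟨⟨φ, ?_⟩, fun {x y} => (key x y).symm⟩
  -- injectivity
  have hne : ∀ x y, φ x = φ y → ¬ G.Adj (φ x) (φ y) := fun x y h => by rw [h]; exact irr _
  have h1 : c ≠ a := hca.ne
  have h2 : c ≠ b := hcb.ne
  have h3 : c ≠ d := hcd.ne
  have h4 : c ≠ e := hce.ne
  have h5 : a ≠ b := hab.ne
  have h6 : b ≠ d := hbd.ne
  have h7 : d ≠ e := hde.ne
  have h8 : a ≠ d := by rintro rfl; exact nae hde
  have h9 : a ≠ e := by rintro rfl; exact nad hde.symm
  have h10 : b ≠ e := by rintro rfl; exact nae hab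
  rintro (x | x) (y | y) hxy
  · fin_cases x; fin_cases y; rfl
  · fin_cases x; fin_cases y <;> simp [φ, h1, h2, h3, h4] at hxy
  · fin_cases y; fin_cases x <;> simp [φ, h1.symm, h2.symm, h3.symm, h4.symm] at hxy
  · fin_cases x <;> fin_cases y <;> first
      | rfl
      | simp [φ, h5, h6, h7, h8, h9, h10, h5.symm, h6.symm, h7.symm, h8.symm, h9.symm, h10.symm] at hxy

theorem noPP_of_free (h : IndFree p2p3Graph G) : NoPP G := by
  intro a b c d e hab hcd hde hce nce nac nad nae nbc nbd nbe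
  apply h.false
  have irr : ∀ v, ¬ G.Adj v v := fun v => G.loopless.irrefl v
  let φ : Fin 2 ⊕ Fin 3 → V := Sum.elim ![a, b] ![c, d, e]
  have nec : ¬ G.Adj e c := fun h => nce h.symm
  have nca : ¬ G.Adj c a := fun h => nac h.symm
  have nda : ¬ G.Adj d a := fun h => nad h.symm
  have nea : ¬ G.Adj e a := fun h => nae h.symm
  have ncb : ¬ G.Adj c b := fun h => nbc h.symm
  have ndb : ¬ G.Adj d b := fun h => nbd h.symm
  have neb : ¬ G.Adj e b := fun h => nbe h.symm
  have key : ∀ x y, (p2p3Graph.Adj x y ↔ G.Adj (φ x) (φ y)) := by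
    rintro (x | x) (y | y)
    · fin_cases x <;> fin_cases y <;>
        simp [p2p3Graph, φ, SimpleGraph.pathGraph_adj, hab, hab.symm]
    · fin_cases x <;> fin_cases y <;> simp [p2p3Graph, φ, nac, nad, nae, nbc, nbd, nbe]
    · fin_cases x <;> fin_cases y <;> simp [p2p3Graph, φ, nca, nda, nea, ncb, ndb, neb]
    · fin_cases x <;> fin_cases y <;>
        simp [p2p3Graph, φ, SimpleGraph.pathGraph_adj, hcd, hcd.symm, hde, hde.symm, nce, nec]
  have h1 : a ≠ b := hab.ne
  have h2 : c ≠ d := hcd.ne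
  have h3 : d ≠ e := hde.ne
  have h4 : a ≠ c := by rintro rfl; exact nad hcd
  have h5 : a ≠ d := by rintro rfl; exact nac hcd.symm
  have h6 : a ≠ e := by rintro rfl; exact nad hde.symm
  have h7 : b ≠ c := by rintro rfl; exact nbd hcd
  have h8 : b ≠ d := by rintro rfl; exact nbc hcd.symm
  have h9 : b ≠ e := by rintro rfl; exact nbd hde.symm
  refine ⟨⟨φ, ?_⟩, fun {x y} => (key x y).symm⟩
  rintro (x | x) (y | y) hxy
  · fin_cases x <;> fin_cases y <;> first
      | rfl
      | simp [φ, h1, h1.symm] at hxy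
  · fin_cases x <;> fin_cases y <;> simp [φ, h4, h5, h6, h7, h8, h9] at hxy
  · fin_cases x <;> fin_cases y <;>
      simp [φ, h4.symm, h5.symm, h6.symm, h7.symm, h8.symm, h9.symm] at hxy
  · fin_cases x <;> fin_cases y <;> first
      | rfl
      | simp [φ, h2, h3, hce, h2.symm, h3.symm, hce.symm] at hxy

theorem col_iff_colorable {k : ℕ} : Col G Set.univ k ↔ G.Colorable k := by
  constructor
  · rintro ⟨c, h1, h2⟩
    exact ⟨SimpleGraph.Coloring.mk (fun v => (⟨c v, h1 v trivial⟩ : Fin k))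
      (fun {u v} huv he => h2 u trivial v trivial huv (congrArg Fin.val he))⟩
  · rintro ⟨c⟩
    exact ⟨fun v => c v, fun v _ => (c v).2, fun u _ v _ huv he => c.valid huv (Fin.ext he)⟩

theorem col_min {n : ℕ} {G : SimpleGraph (Fin n)} {k : ℕ} :
    Col G Set.univ (min k n) ↔ Col G Set.univ k := by
  constructor
  · exact fun h => h.mono subset_rfl (min_le_left _ _)
  · intro h
    rcases le_total k n with hk | hk
    · rwa [min_eq_left hk]
    · rw [min_eq_right hk]
      exact ⟨fun v => v, fun v _ => v.2, fun u _ v _ huv he => huv.ne (Fin.ext he)⟩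

end GP
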