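import Pool.Agent.Work.MP_31af1e_lc.BA

/-!
Module TF: facts on two nonadjacent vertices whose non-neighbourhoods are cliques.
-/

set_option autoImplicit false

namespace GP

variable {V : Type} {G : SimpleGraph V}

/-- The standing assumptions of the twin case; symmetric in `q` and `u`. -/
structure TS (G : SimpleGraph V) (q u : V) : Prop where
  cls : Cls G
  ne : q ≠ u
  nadj : ¬ G.Adj q u
  cq : G.IsClique (NN G q)
  cu : G.IsClique (NN G u)

theorem TS.symm {q u : V} (h : TS G q u) : TS G u q :=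
  ⟨h.cls, h.ne.symm, fun h1 => h.nadj h1.symm, h.cu, h.cq⟩

/-- The common neighbours. -/
def BB (G : SimpleGraph V) (q u : V) : Set V := {b | G.Adj q b ∧ G.Adj u b}

theorem TS.mem_u {q u : V} (h : TS G q u) : u ∈ NN G q := ⟨h.ne.symm, h.nadj⟩

theorem TS.mem_q {q u : V} (h : TS G q u) : q ∈ NN G u := h.symm.mem_u

/-- `u` is adjacent to all other vertices of `NN G q`. -/
theorem TS.adj_u {q u : V} (h : TS G q u) {w : V} (hw : w ∈ NN G q) (hne : w ≠ u) :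
    G.Adj u w := h.cq h.mem_u hw hne.symm

theorem TS.adj_q {q u : V} (h : TS G q u) {x : V} (hx : x ∈ NN G u) (hne : x ≠ q) :
    G.Adj q x := h.symm.adj_u hx hne

theorem TS.part {q u : V} (h : TS G q u) (v : V) : v ∈ NN G q ∨ v ∈ NN G u ∨ v ∈ BB G q u := by
  by_cases h1 : v = q
  · subst h1; exact Or.inr (Or.inl h.mem_q)
  by_cases h2 : v = u
  · subst h2; exact Or.inl h.mem_u
  by_cases h3 : G.Adj q v
  · by_cases h4 : G.Adj u v
    · exact Or.inr (Or.inr ⟨h3, h4⟩)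
    · exact Or.inr (Or.inl ⟨h2, h4⟩)
  · exact Or.inl ⟨h1, h3⟩

theorem TS.disj {q u : V} (h : TS G q u) (v : V) (h1 : v ∈ NN G q) (h2 : v ∈ NN G u) : False :=
  h2.2 (h.adj_u h1 h2.1)

/-- F1 -/
theorem TS.f1 {q u : V} (h : TS G q u) {x y w z : V} (hx : x ∈ NN G u) (hy : y ∈ NN G u)
    (hw : w ∈ NN G q) (hz : z ∈ NN G q) (hxw : G.Adj x w) (hyw : G.Adj y w) (hxz : G.Adj x z) :
    G.Adj y z := by
  by_contra hn
  have hxy : x ≠ y := by rintro rfl; exact hn hxz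
  have hwz : w ≠ z := by rintro rfl; exact hn hyw
  have hxq : x ≠ q := by rintro rfl; exact hw.2 hxw
  have hyq : y ≠ q := by rintro rfl; exact hw.2 hyw
  exact h.cls.gem x q y w z (h.adj_q hx hxq).symm (h.cu hx hy hxy) hxw hxz (h.adj_q hy hyq) hyw
    (h.cq hw hz hwz) hw.2 hz.2 hn

/-- F2 -/
theorem TS.f2 {q u : V} (h : TS G q u) {b b' w : V} (hb : b ∈ BB G q u) (hb' : b' ∈ BB G q u)
    (hw : w ∈ NN G q) (hbb : G.Adj b b') (hbw : G.Adj b w) : G.Adj b' w := by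
  by_contra hn
  have hwu : w ≠ u := by rintro rfl; exact hn hb'.2.symm
  exact h.cls.gem b q b' u w hb.1.symm hbb hb.2.symm hbw hb'.1 hb'.2.symm (h.adj_u hw hwu)
    h.nadj hw.2 hn

/-- F3, first part -/
theorem TS.f3 {q u : V} (h : TS G q u) {b b' : V} (hb : b ∈ BB G q u) (hb' : b' ∈ BB G q u)
    (hne : b ≠ b') (hbb : ¬ G.Adj b b') :
    (∀ w ∈ NN G q, G.Adj b w → G.Adj b' w) ∨ (∀ w ∈ NN G q, G.Adj b' w → G.Adj b w) := by
  by_contra hn
  push Not at hn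
  obtain ⟨⟨w, hw, hbw, hbw'⟩, ⟨w', hw', hb'w', hb'w⟩⟩ := hn
  have h1 : w ≠ u := by rintro rfl; exact hbw' hb'.2.symm
  have h2 : w' ≠ u := by rintro rfl; exact hb'w hb.2.symm
  have h3 : w ≠ w' := by rintro rfl; exact hbw' hb'w'
  exact h.cls.gem u b w w' b' hb.2 (h.adj_u hw h1) (h.adj_u hw' h2) hb'.2 hbw
    (h.cq hw hw' h3) hb'w'.symm hb'w hbb (fun h => hbw' h.symm)

/-- F3, second part -/
theorem TS.f3' {q u : V} (h : TS G q u) {b b' w w' : V} (hb : b ∈ BB G q u) (hb' : b' ∈ BB G q u)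
    (hne : b ≠ b') (hbb : ¬ G.Adj b b') (hw : w ∈ NN G q) (hw' : w' ∈ NN G q)
    (h1 : ¬ G.Adj b w) (h2 : ¬ G.Adj b' w) (h3 : ¬ G.Adj b w') (h4 : ¬ G.Adj b' w') :
    w = w' := by
  by_contra hn
  exact h.cls.pp w w' b q b' (h.cq hw hw' hn) hb.1.symm hb'.1 hne hbb (fun h => h1 h.symm)
    (fun h => hw.2 h.symm) (fun h => h2 h.symm) (fun h => h3 h.symm) (fun h => hw'.2 h.symm)
    (fun h => h4 h.symm)

/-- F4 -/
theorem TS.f4 {q u : V} (h : TS G q u) {b x w : V} (hb : b ∈ BB G q u) (hx : x ∈ NN G u)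
    (hw : w ∈ NN G q) (hbx : G.Adj b x) (hbw : G.Adj b w) (hxw : G.Adj x w) : False := by
  have hxq : x ≠ q := by rintro rfl; exact hw.2 hxw
  have hwu : w ≠ u := by rintro rfl; exact hx.2 hxw.symm
  exact h.cls.gem b q x w u hb.1.symm hbx hbw hb.2.symm (h.adj_q hx hxq) hxw
    (h.adj_u hw hwu).symm hw.2 h.nadj (fun h => hx.2 h.symm)

/-- F5, first part -/
theorem TS.f5 {q u : V} (h : TS G q u) {b x : V} (hb : b ∈ BB G q u) (hx : x ∈ NN G u)
    (hbx : ¬ G.Adj b x) :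
    (∀ w ∈ NN G q, G.Adj x w → G.Adj b w) ∨ (∀ w ∈ NN G q, G.Adj x w → ¬ G.Adj b w) := by
  by_contra hn
  push Not at hn
  obtain ⟨⟨w', hw', hxw', hbw'⟩, ⟨w, hw, hxw, hbw⟩⟩ := hn
  have h1 : w ≠ u := by rintro rfl; exact hx.2 hxw.symm
  have h2 : w' ≠ u := by rintro rfl; exact hx.2 hxw'.symm
  have h3 : w ≠ w' := by rintro rfl; exact hbw' hbw
  exact h.cls.gem w x w' u b hxw.symm (h.cq hw hw' h3) (h.adj_u hw h1).symm hbw.symm hxw'
    (h.adj_u hw' h2).symm hb.2 (fun h => hx.2 h.symm) (fun h => hbx h.symm)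
    (fun h => hbw' h.symm)

/-- F5, second part -/
theorem TS.f5' {q u : V} (h : TS G q u) {b x w w' : V} (hb : b ∈ BB G q u) (hx : x ∈ NN G u)
    (hbx : ¬ G.Adj b x) (hw : w ∈ NN G q) (hw' : w' ∈ NN G q)
    (h1 : ¬ G.Adj b w) (h2 : ¬ G.Adj x w) (h3 : ¬ G.Adj b w') (h4 : ¬ G.Adj x w') :
    w = w' := by
  by_contra hn
  have hxq : x ≠ q := by rintro rfl; exact hbx hb.1.symm
  have hbx' : b ≠ x := by rintro rfl; exact hx.2 hb.2
  exact h.cls.pp w w' b q x (h.cq hw hw' hn) hb.1.symm (h.adj_q hx hxq) hbx' hbx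
    (fun h => h1 h.symm) (fun h => hw.2 h.symm) (fun h => h2 h.symm) (fun h => h3 h.symm)
    (fun h => hw'.2 h.symm) (fun h => h4 h.symm)

end GP
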